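import Mathlib
import Pool.Agent.H383.GaussW
import Pool.Agent.R461.GC.G1

/-!
# Pairings over an arbitrary window of real radii

`E` is a function with a two-sided smooth Voronoi approximation (`Sand`).  The pairing of `E - U_Y`
(`U_Y` the partial sum of the Voronoi series) with a character over a window `[R, R + H]` is `o(H)`,
uniformly in `R ≥ 1`.
-/

set_option autoImplicit false

open MeasureTheory Filter Topology

namespace Pool.Agent.N687.W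

open Pool.Agent.H383.Gen (U Bd)
open Pool.Agent.H383.GW (Wt wt WS er Sand WS_tail WS_low wt_summable wt_far)
open Pool.Agent.H383.Circ (WS_triv)
open Pool.Agent.R461.GC (ch norm_ch ch_cont ch_zero TrigS TrigS_cont ch_mem)

lemma wt_cont (a : ℕ → ℝ) (φ : ℝ) (w : ℝ → ℂ) (δ : ℝ) (m : ℕ) : Continuous (fun r : ℝ => wt a φ w r δ m) := by
  unfold wt
  fun_prop

lemma U_cont (a : ℕ → ℝ) (φ : ℝ) (M : ℕ) : Continuous (fun r : ℝ => U a φ r M) := by
  unfold U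
  fun_prop

variable {a : ℕ → ℝ} {φ : ℝ} {w : ℝ → ℂ} {E : ℝ → ℝ} {κ₁ κ₂ C0 : ℝ}

lemma WS_cont (ha : Bd a) (ha0 : a 0 = 0) (hw : Wt w) {δ : ℝ} (hδ : 0 < δ) :
    Continuous (fun r : ℝ => WS a φ w r δ) := by
  obtain ⟨C, hC, ha⟩ := ha
  obtain ⟨Cw, hCw, hwd⟩ := hw.dec
  have h1 : Summable (fun m : ℕ => C * Cw * δ ^ (-(3/2):ℝ) * (m:ℝ) ^ (-(149/100):ℝ)) := by
    apply Summable.mul_left
    rw [Real.summable_nat_rpow]; norm_num
  unfold WS
  apply continuous_tsum (fun m => wt_cont a φ w δ m) h1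
  intro m R
  rw [Real.norm_eq_abs]
  rcases Nat.eq_zero_or_pos m with rfl | hm
  · unfold wt
    rw [ha0, zero_mul, abs_zero]
    positivity
  · exact wt_far hC ha hwd hδ R hm

/-- the allowed error in the window, small for large radii -/
lemma er_le' {R r : ℝ} (hR : 4 ≤ R) (h1 : R ≤ r) (h2 : r ≤ 2 * R) :
    er r (R ^ (-(52/100):ℝ)) ≤ 4 * R ^ (-(1/100):ℝ) := by
  have hR0 : 0 < R := by linarith
  have hR1 : 1 ≤ R := by linarith
  have hr0 : 0 < r := by linarith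
  unfold er
  have e1 : R ^ (-(52/100):ℝ) * r ^ (51/100:ℝ) ≤ 2 * R ^ (-(1/100):ℝ) := by
    have h3 : r ^ (51/100:ℝ) ≤ 2 ^ (51/100:ℝ) * R ^ (51/100:ℝ) := by
      rw [← Real.mul_rpow (by norm_num) hR0.le]
      exact Real.rpow_le_rpow hr0.le h2 (by norm_num)
    have h4 : (2:ℝ) ^ (51/100:ℝ) ≤ 2 := by
      calc (2:ℝ) ^ (51/100:ℝ) ≤ 2 ^ (1:ℝ) := Real.rpow_le_rpow_of_exponent_le (by norm_num) (by norm_num)
        _ = 2 := Real.rpow_one _
    have h5 : R ^ (-(52/100):ℝ) * R ^ (51/100:ℝ) = R ^ (-(1/100):ℝ) := by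
      rw [← Real.rpow_add hR0]
      norm_num
    calc R ^ (-(52/100):ℝ) * r ^ (51/100:ℝ) ≤ R ^ (-(52/100):ℝ) * (2 ^ (51/100:ℝ) * R ^ (51/100:ℝ)) := by gcongr
      _ = 2 ^ (51/100:ℝ) * (R ^ (-(52/100):ℝ) * R ^ (51/100:ℝ)) := by ring
      _ ≤ 2 * R ^ (-(1/100):ℝ) := by rw [h5]; gcongr
  have e2 : r ^ (-(12/25):ℝ) * (R ^ (-(52/100):ℝ)) ^ (-(13/25):ℝ) ≤ R ^ (-(1/100):ℝ) := by
    have h3 : r ^ (-(12/25):ℝ) ≤ R ^ (-(12/25):ℝ) := Real.rpow_le_rpow_of_nonpos hR0 h1 (by norm_num)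
    calc _ ≤ R ^ (-(12/25):ℝ) * (R ^ (-(52/100):ℝ)) ^ (-(13/25):ℝ) := by gcongr
      _ = R ^ ((-(12/25):ℝ) + (-(52/100)) * (-(13/25))) := by
          rw [← Real.rpow_mul hR0.le, ← Real.rpow_add hR0]
      _ ≤ _ := Real.rpow_le_rpow_of_exponent_le hR1 (by norm_num)
  have e3 : (R ^ (-(52/100):ℝ)) ^ (2/5:ℝ) ≤ R ^ (-(1/100):ℝ) := by
    rw [← Real.rpow_mul hR0.le]
    exact Real.rpow_le_rpow_of_exponent_le hR1 (by norm_num)
  linarith

lemma delta_le_half {R : ℝ} (hR : 4 ≤ R) : R ^ (-(52/100):ℝ) ≤ 1/2 := by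
  have h1 : R ^ (-(52/100):ℝ) ≤ (4:ℝ) ^ (-(52/100):ℝ) := Real.rpow_le_rpow_of_nonpos (by norm_num) hR (by norm_num)
  have h2 : (4:ℝ) ^ (-(52/100):ℝ) ≤ (4:ℝ) ^ (-(1/2):ℝ) := Real.rpow_le_rpow_of_exponent_le (by norm_num) (by norm_num)
  have h3 : (4:ℝ) ^ (-(1/2):ℝ) = 1/2 := by
    rw [Real.rpow_neg (by norm_num), ← Real.sqrt_eq_rpow, show (4:ℝ) = 2^2 by norm_num, Real.sqrt_sq (by norm_num)]
    norm_num
  linarith

/-- the error function and its smooth approximation are close in mean over every window -/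
theorem L1_close (ha : Bd a) (ha0 : a 0 = 0) (hw : Wt w) (hC0 : 0 < C0)
    (hS : Sand E a φ w κ₁ κ₂ C0) (hEm : Measurable E)
    (hEb : ∀ R₁ R₂ : ℝ, 0 < R₁ → ∃ B : ℝ, ∀ r, R₁ ≤ r → r ≤ R₂ → |E r| ≤ B) :
    ∃ C : ℝ, 0 < C ∧ ∀ R H : ℝ, 4 ≤ R → 0 ≤ H → H ≤ R →
      ∫ r in R..(R+H), |E r - WS a φ w (r + κ₂ * R ^ (-(52/100):ℝ)) (R ^ (-(52/100):ℝ))| ≤
        C * (R ^ (-(1/100):ℝ) * (H + 1)) := by
  obtain ⟨Ct, hCt, hT⟩ := WS_triv (φ := φ) ha ha0 hw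
  refine ⟨2 * |κ₁ - κ₂| * Ct + 12 * C0, by positivity, ?_⟩
  intro R H hR hH hHR
  have hR0 : 0 < R := by linarith
  obtain ⟨δ, hδ⟩ : ∃ δ : ℝ, δ = R ^ (-(52/100):ℝ) := ⟨_, rfl⟩
  have hδ0 : 0 < δ := by rw [hδ]; positivity
  have hδ1 : δ ≤ 1/2 := by rw [hδ]; exact delta_le_half hR
  obtain ⟨ρ, hρ⟩ : ∃ ρ : ℝ, ρ = R ^ (-(1/100):ℝ) := ⟨_, rfl⟩
  have hρ0 : 0 < ρ := by rw [hρ]; positivity
  have her : ∀ r, R ≤ r → r ≤ 2 * R → C0 * er r δ ≤ 4 * C0 * ρ := by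
    intro r h1 h2
    have h3 := er_le' hR h1 h2
    rw [← hδ, ← hρ] at h3
    nlinarith
  rw [← hδ, ← hρ]
  have hWc := WS_cont (φ := φ) ha ha0 hw hδ0
  have hc1 : Continuous (fun r : ℝ => WS a φ w (r + κ₁ * δ) δ) := hWc.comp (by fun_prop)
  have hc2 : Continuous (fun r : ℝ => WS a φ w (r + κ₂ * δ) δ) := hWc.comp (by fun_prop)
  have hpt : ∀ r ∈ Set.Icc R (R+H), |E r - WS a φ w (r + κ₂ * δ) δ| ≤
      (WS a φ w (r + κ₁ * δ) δ - WS a φ w (r + κ₂ * δ) δ) + 12 * C0 * ρ := by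
    intro r hr
    have h1 := hS.up r r δ (by linarith [hr.1]) hδ0 hδ1 (by rw [sub_self, abs_zero]; exact hδ0.le)
    have h2 := hS.lo r r δ (by linarith [hr.1]) hδ0 hδ1 (by rw [sub_self, abs_zero]; exact hδ0.le)
    have h3 := her r hr.1 (by linarith [hr.2])
    have h00 : 0 < C0 * ρ := by positivity
    rw [abs_le]
    constructor <;> linarith
  have hint1 : IntervalIntegrable (fun r => |E r - WS a φ w (r + κ₂ * δ) δ|) volume R (R+H) := by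
    rw [intervalIntegrable_iff_integrableOn_Ioc_of_le (by linarith)]
    obtain ⟨B, hB⟩ := hEb R (R+H) hR0
    have h1 : IntegrableOn E (Set.Ioc R (R+H)) := by
      apply Integrable.of_bound (C := B) hEm.aestronglyMeasurable
      rw [ae_restrict_iff' measurableSet_Ioc]
      exact Eventually.of_forall fun r hr => by rw [Real.norm_eq_abs]; exact hB r hr.1.le hr.2
    have h2 : IntegrableOn (fun r => WS a φ w (r + κ₂ * δ) δ) (Set.Ioc R (R+H)) :=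
      (hc2.integrableOn_Icc).mono_set Set.Ioc_subset_Icc_self
    exact (h1.sub h2).abs
  have hint2 : IntervalIntegrable (fun r => (WS a φ w (r + κ₁ * δ) δ - WS a φ w (r + κ₂ * δ) δ) + 12 * C0 * ρ) volume R (R+H) :=
    ((hc1.sub hc2).add continuous_const).intervalIntegrable _ _
  refine (intervalIntegral.integral_mono_on (by linarith) hint1 hint2 hpt).trans ?_
  have hi3 : IntervalIntegrable (fun r => WS a φ w (r + κ₁ * δ) δ - WS a φ w (r + κ₂ * δ) δ) volume R (R+H) :=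
    (hc1.sub hc2).intervalIntegrable _ _
  rw [intervalIntegral.integral_add hi3 (continuous_const.intervalIntegrable _ _),
    intervalIntegral.integral_sub (hc1.intervalIntegrable _ _) (hc2.intervalIntegrable _ _),
    intervalIntegral.integral_const]
  have e1 : ∀ κ : ℝ, ∫ r in R..(R+H), WS a φ w (r + κ * δ) δ = ∫ r in (R + κ * δ)..(R + H + κ * δ), WS a φ w r δ := by
    intro κ
    exact intervalIntegral.integral_comp_add_right (fun r => WS a φ w r δ) (κ * δ)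
  rw [e1, e1]
  have hii : ∀ x y : ℝ, IntervalIntegrable (fun r => WS a φ w r δ) volume x y := fun x y => hWc.intervalIntegrable _ _
  rw [intervalIntegral.integral_interval_sub_interval_comm (hii _ _) (hii _ _) (hii _ _)]
  have hb : ∀ x y : ℝ, |∫ r in x..y, WS a φ w r δ| ≤ Ct * δ ^ (-(3/5):ℝ) * |y - x| := by
    intro x y
    have := intervalIntegral.norm_integral_le_of_norm_le_const (f := fun r => WS a φ w r δ) (a := x) (b := y)
      (C := Ct * δ ^ (-(3/5):ℝ)) (fun r _ => by rw [Real.norm_eq_abs]; exact hT r δ hδ0)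
    rwa [Real.norm_eq_abs] at this
  have hb1 := hb (R + κ₁ * δ) (R + κ₂ * δ)
  have hb2 := hb (R + H + κ₁ * δ) (R + H + κ₂ * δ)
  have e2 : |(R + κ₂ * δ) - (R + κ₁ * δ)| = |κ₁ - κ₂| * δ := by
    rw [show (R + κ₂ * δ) - (R + κ₁ * δ) = -((κ₁ - κ₂) * δ) by ring, abs_neg, abs_mul, abs_of_pos hδ0]
  have e3 : |(R + H + κ₂ * δ) - (R + H + κ₁ * δ)| = |κ₁ - κ₂| * δ := by
    rw [show (R + H + κ₂ * δ) - (R + H + κ₁ * δ) = -((κ₁ - κ₂) * δ) by ring, abs_neg, abs_mul, abs_of_pos hδ0]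
  rw [e2] at hb1
  rw [e3] at hb2
  have e4 : δ ^ (-(3/5):ℝ) * δ = δ ^ (2/5:ℝ) := by
    nth_rewrite 2 [← Real.rpow_one δ]
    rw [← Real.rpow_add hδ0]; norm_num
  have e5 : δ ^ (2/5:ℝ) ≤ ρ := by
    rw [hδ, hρ, ← Real.rpow_mul hR0.le]
    exact Real.rpow_le_rpow_of_exponent_le (by linarith) (by norm_num)
  have e6 : Ct * δ ^ (-(3/5):ℝ) * (|κ₁ - κ₂| * δ) ≤ Ct * |κ₁ - κ₂| * ρ := by
    calc Ct * δ ^ (-(3/5):ℝ) * (|κ₁ - κ₂| * δ) = Ct * |κ₁ - κ₂| * (δ ^ (-(3/5):ℝ) * δ) := by ring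
      _ = Ct * |κ₁ - κ₂| * δ ^ (2/5:ℝ) := by rw [e4]
      _ ≤ _ := by gcongr
  rw [smul_eq_mul, show R + H - R = H by ring]
  have hb1' := abs_le.mp (hb1.trans e6)
  have hb2' := abs_le.mp (hb2.trans e6)
  have h0 : 0 ≤ |κ₁ - κ₂| * Ct * ρ * H := by positivity
  have h00 : 0 ≤ C0 * ρ := by positivity
  nlinarith [hb1'.1, hb1'.2, hb2'.1, hb2'.2]

lemma norm_int_ch {x : ℝ} (hx : x ≠ 0) (R S : ℝ) : ‖∫ r in R..S, ch x r‖ ≤ 2 / |x| := by
  have hc : (x * Complex.I : ℂ) ≠ 0 := mul_ne_zero (by exact_mod_cast hx) Complex.I_ne_zero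
  have h0 : ∀ r : ℝ, ch x r = Complex.exp ((x * Complex.I) * (r : ℂ)) := by
    intro r
    unfold ch
    congr 1
    push_cast; ring
  simp only [h0]
  rw [integral_exp_mul_complex hc, norm_div]
  have h1 : ‖(x * Complex.I : ℂ)‖ = |x| := by
    rw [norm_mul, Complex.norm_I, mul_one, Complex.norm_real, Real.norm_eq_abs]
  rw [h1]
  have hx0 : 0 < |x| := abs_pos.mpr hx
  have h2 : ‖Complex.exp ((x * Complex.I) * (S : ℂ)) - Complex.exp ((x * Complex.I) * (R : ℂ))‖ ≤ 2 := by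
    refine (norm_sub_le _ _).trans ?_
    rw [← h0, ← h0, norm_ch, norm_ch]; norm_num
  gcongr

/-- one term of the smooth sum against a character -/
lemma wt_pair (hw : Wt w) {δ κ θ : ℝ} (hδ : 0 < δ) {m : ℕ} (hm : 1 ≤ m) (hθ : |θ| ≤ Real.pi * √(m:ℝ)) (R S : ℝ) :
    ‖∫ r in R..S, ((wt a φ w (r + κ * δ) δ m : ℝ) : ℂ) * ch θ r‖ ≤ |a m| * (√(m:ℝ))⁻¹ := by
  have hpi := Real.pi_pos
  have hpi3 := Real.pi_gt_three
  have hm0 : (0:ℝ) < m := by exact_mod_cast hm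
  have hs : 0 < √(m:ℝ) := Real.sqrt_pos.mpr hm0
  obtain ⟨c, hc⟩ : ∃ c : ℂ, c = Complex.exp (((2 * Real.pi * (κ * δ * √(m:ℝ)) - φ : ℝ) : ℂ) * Complex.I) * w (√(m:ℝ) * δ) := ⟨_, rfl⟩
  have hc1 : ‖c‖ ≤ 1 := by
    rw [hc, norm_mul, Complex.norm_exp_ofReal_mul_I, one_mul]
    exact hw.one _ (by positivity)
  have e1 : ∀ r : ℝ, ((wt a φ w (r + κ * δ) δ m : ℝ) : ℂ) * ch θ r =
      ((a m : ℝ) : ℂ) / 2 * (c * ch (2 * Real.pi * √(m:ℝ) + θ) r + (starRingEnd ℂ) c * ch (θ - 2 * Real.pi * √(m:ℝ)) r) := by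
    intro r
    have e2 : Complex.exp (((2 * Real.pi * ((r + κ * δ) * √(m:ℝ)) - φ : ℝ) : ℂ) * Complex.I) * w (√(m:ℝ) * δ) =
        c * ch (2 * Real.pi * √(m:ℝ)) r := by
      rw [hc]
      unfold ch
      have e7 : Complex.exp (((2 * Real.pi * ((r + κ * δ) * √(m:ℝ)) - φ : ℝ) : ℂ) * Complex.I) =
          Complex.exp (((2 * Real.pi * (κ * δ * √(m:ℝ)) - φ : ℝ) : ℂ) * Complex.I) *
          Complex.exp (((2 * Real.pi * √(m:ℝ) * r : ℝ) : ℂ) * Complex.I) := by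
        rw [← Complex.exp_add]
        congr 1
        push_cast; ring
      rw [e7]; ring
    unfold wt
    rw [e2]
    have e3 : (((c * ch (2 * Real.pi * √(m:ℝ)) r).re : ℝ) : ℂ) =
        (c * ch (2 * Real.pi * √(m:ℝ)) r + (starRingEnd ℂ) (c * ch (2 * Real.pi * √(m:ℝ)) r)) / 2 := by
      rw [Complex.add_conj]; push_cast; ring
    rw [Complex.ofReal_mul, e3, map_mul]
    have e4 : (starRingEnd ℂ) (ch (2 * Real.pi * √(m:ℝ)) r) = ch (-(2 * Real.pi * √(m:ℝ))) r := by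
      unfold ch
      rw [← Complex.exp_conj, map_mul, Complex.conj_ofReal, Complex.conj_I]
      congr 1
      push_cast; ring
    rw [e4]
    have e5 : ch (2 * Real.pi * √(m:ℝ) + θ) r = ch (2 * Real.pi * √(m:ℝ)) r * ch θ r := by
      unfold ch
      rw [← Complex.exp_add]
      congr 1
      push_cast; ring
    have e6 : ch (θ - 2 * Real.pi * √(m:ℝ)) r = ch (-(2 * Real.pi * √(m:ℝ))) r * ch θ r := by
      unfold ch
      rw [← Complex.exp_add]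
      congr 1
      push_cast; ring
    rw [e5, e6]; ring
  simp only [e1]
  have j1 : IntervalIntegrable (fun r => c * ch (2 * Real.pi * √(m:ℝ) + θ) r) volume R S :=
    (continuous_const.mul (ch_cont _)).intervalIntegrable _ _
  have j2 : IntervalIntegrable (fun r => (starRingEnd ℂ) c * ch (θ - 2 * Real.pi * √(m:ℝ)) r) volume R S :=
    (continuous_const.mul (ch_cont _)).intervalIntegrable _ _
  rw [intervalIntegral.integral_const_mul, intervalIntegral.integral_add j1 j2,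
    intervalIntegral.integral_const_mul, intervalIntegral.integral_const_mul, norm_mul]
  have h1 : Real.pi * √(m:ℝ) ≤ |2 * Real.pi * √(m:ℝ) + θ| := by
    refine le_trans ?_ (le_abs_self _)
    have := (abs_le.mp hθ).1
    linarith
  have h2 : Real.pi * √(m:ℝ) ≤ |θ - 2 * Real.pi * √(m:ℝ)| := by
    rw [abs_sub_comm]
    refine le_trans ?_ (le_abs_self _)
    have := (abs_le.mp hθ).2
    linarith
  have hps : 0 < Real.pi * √(m:ℝ) := by positivity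
  have g1 : ‖∫ r in R..S, ch (2 * Real.pi * √(m:ℝ) + θ) r‖ ≤ 2 / (Real.pi * √(m:ℝ)) := by
    refine (norm_int_ch (abs_pos.mp (lt_of_lt_of_le hps h1)) R S).trans ?_
    gcongr
  have g2 : ‖∫ r in R..S, ch (θ - 2 * Real.pi * √(m:ℝ)) r‖ ≤ 2 / (Real.pi * √(m:ℝ)) := by
    refine (norm_int_ch (abs_pos.mp (lt_of_lt_of_le hps h2)) R S).trans ?_
    gcongr
  have h3 : ‖((a m : ℝ) : ℂ) / 2‖ = |a m| / 2 := by
    rw [norm_div, Complex.norm_real, Real.norm_eq_abs]; norm_num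
  rw [h3]
  have h4 : ‖c * (∫ r in R..S, ch (2 * Real.pi * √(m:ℝ) + θ) r) + (starRingEnd ℂ) c * (∫ r in R..S, ch (θ - 2 * Real.pi * √(m:ℝ)) r)‖ ≤
      2 / (Real.pi * √(m:ℝ)) + 2 / (Real.pi * √(m:ℝ)) := by
    refine (norm_add_le _ _).trans (add_le_add ?_ ?_)
    · rw [norm_mul]
      calc ‖c‖ * _ ≤ 1 * (2 / (Real.pi * √(m:ℝ))) := mul_le_mul hc1 g1 (norm_nonneg _) zero_le_one
        _ = _ := one_mul _
    · rw [norm_mul, Complex.norm_conj]
      calc ‖c‖ * _ ≤ 1 * (2 / (Real.pi * √(m:ℝ))) := mul_le_mul hc1 g2 (norm_nonneg _) zero_le_one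
        _ = _ := one_mul _
  calc |a m| / 2 * _ ≤ |a m| / 2 * (2 / (Real.pi * √(m:ℝ)) + 2 / (Real.pi * √(m:ℝ))) := by gcongr
    _ = |a m| * (√(m:ℝ))⁻¹ * (2 / Real.pi) := by field_simp; ring
    _ ≤ |a m| * (√(m:ℝ))⁻¹ * 1 := by
        gcongr
        rw [div_le_one hpi]; linarith
    _ = _ := mul_one _

end Pool.Agent.N687.W
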