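import Mathlib
import Pool.Agent.N687.W.A1

/-!
# Pairings over an arbitrary window of real radii, continued
-/

set_option autoImplicit false

open MeasureTheory Filter Topology

namespace Pool.Agent.N687.W

open Pool.Agent.H383.Gen (U Bd)
open Pool.Agent.H383.GW (Wt wt WS er Sand WS_tail WS_low wt_summable wt_far)
open Pool.Agent.R461.GC (ch norm_ch ch_cont ch_zero TrigS TrigS_cont ch_mem)

variable {a : ℕ → ℝ} {φ : ℝ} {w : ℝ → ℂ} {E : ℝ → ℝ} {κ₁ κ₂ C0 : ℝ}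

lemma sum_a_summable (ha : Bd a) (ha0 : a 0 = 0) : Summable (fun m : ℕ => |a m| * (√(m:ℝ))⁻¹) := by
  obtain ⟨C, hC, ha⟩ := ha
  have h1 : Summable (fun m : ℕ => C * (m:ℝ) ^ (-(31/25):ℝ)) := by
    apply Summable.mul_left
    rw [Real.summable_nat_rpow]; norm_num
  apply Summable.of_nonneg_of_le (fun m => by positivity) _ h1
  intro m
  rcases Nat.eq_zero_or_pos m with rfl | hm
  · rw [ha0, abs_zero, zero_mul]; positivity
  · have hm0 : (0:ℝ) < m := by exact_mod_cast hm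
    have hs : 0 < √(m:ℝ) := Real.sqrt_pos.mpr hm0
    calc |a m| * (√(m:ℝ))⁻¹ ≤ (C * (√(m:ℝ)) ^ (-(37/25):ℝ)) * (√(m:ℝ))⁻¹ := by
          gcongr
          exact ha m hm
      _ = C * ((√(m:ℝ)) ^ (-(37/25):ℝ) * (√(m:ℝ)) ^ (-1:ℝ)) := by rw [Real.rpow_neg_one]; ring
      _ = _ := by
          rw [← Real.rpow_add hs, Real.sqrt_eq_rpow, ← Real.rpow_mul hm0.le]
          norm_num

lemma E_ii (hEm : Measurable E) (hEb : ∀ R₁ R₂ : ℝ, 0 < R₁ → ∃ B : ℝ, ∀ r, R₁ ≤ r → r ≤ R₂ → |E r| ≤ B)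
    {x y : ℝ} (hx : 0 < x) (hy : 0 < y) : IntervalIntegrable E volume x y := by
  rw [intervalIntegrable_iff]
  obtain ⟨B, hB⟩ := hEb (min x y) (max x y) (lt_min hx hy)
  have : IsFiniteMeasure (volume.restrict (Set.uIoc x y)) := ⟨by
    rw [Measure.restrict_apply_univ, Set.uIoc]
    exact measure_Ioc_lt_top⟩
  apply Integrable.of_bound (C := B) hEm.aestronglyMeasurable
  rw [ae_restrict_iff' measurableSet_uIoc]
  exact Eventually.of_forall fun r hr => by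
    rw [Real.norm_eq_abs]
    rw [Set.uIoc, Set.mem_Ioc] at hr
    exact hB r hr.1.le hr.2

lemma Ech_ii (hEm : Measurable E) (hEb : ∀ R₁ R₂ : ℝ, 0 < R₁ → ∃ B : ℝ, ∀ r, R₁ ≤ r → r ≤ R₂ → |E r| ≤ B)
    {g : ℝ → ℝ} (hg : Continuous g) {T : ℝ → ℂ} (hT : Continuous T)
    {x y : ℝ} (hx : 0 < x) (hy : 0 < y) : IntervalIntegrable (fun r => ((E r - g r : ℝ) : ℂ) * T r) volume x y := by
  apply IntervalIntegrable.mul_continuousOn _ hT.continuousOn
  have h1 := (E_ii hEm hEb hx hy).sub (hg.intervalIntegrable (μ := volume) x y)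
  exact ⟨h1.1.ofReal, h1.2.ofReal⟩

/-- base windows -/
theorem pair_base (ha : Bd a) (ha0 : a 0 = 0) (hw : Wt w) (hC0 : 0 < C0)
    (hS : Sand E a φ w κ₁ κ₂ C0) (hEm : Measurable E)
    (hEb : ∀ R₁ R₂ : ℝ, 0 < R₁ → ∃ B : ℝ, ∀ r, R₁ ≤ r → r ≤ R₂ → |E r| ≤ B) {θ : ℝ} {Y : ℕ}
    (hθ : |θ| ≤ Real.pi * Y) :
    ∃ K : ℝ, 0 < K ∧ ∀ R H : ℝ, 4 ≤ R → 0 ≤ H → H ≤ R →
      ‖∫ r in R..(R+H), ((E r - U a φ r Y : ℝ) : ℂ) * ch θ r‖ ≤ K * (R ^ (-(1/100):ℝ) * (H + 1) + 1) := by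
  obtain ⟨C, hC, hL⟩ := L1_close ha ha0 hw hC0 hS hEm hEb
  obtain ⟨C', hC', htail⟩ := WS_tail (φ := φ) ha ha0 hw
  obtain ⟨KY, hKY, hlow⟩ := WS_low a φ hw κ₂ Y
  have hsum := sum_a_summable ha ha0
  obtain ⟨Sg, hSg⟩ : ∃ Sg : ℝ, Sg = ∑' m : ℕ, |a m| * (√(m:ℝ))⁻¹ := ⟨_, rfl⟩
  have hSg0 : 0 ≤ Sg := by rw [hSg]; exact tsum_nonneg (fun m => by positivity)
  refine ⟨C + KY + Sg, by positivity, ?_⟩
  intro R H hR hH hHR
  have hR0 : 0 < R := by linarith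
  have hRH : 0 < R + H := by linarith
  have hRR : R ≤ R + H := by linarith
  obtain ⟨δ, hδ⟩ : ∃ δ : ℝ, δ = R ^ (-(52/100):ℝ) := ⟨_, rfl⟩
  have hδ0 : 0 < δ := by rw [hδ]; positivity
  obtain ⟨ρ, hρ⟩ : ∃ ρ : ℝ, ρ = R ^ (-(1/100):ℝ) := ⟨_, rfl⟩
  have hρ0 : 0 < ρ := by rw [hρ]; positivity
  have hδρ : δ ≤ ρ := by
    rw [hδ, hρ]
    exact Real.rpow_le_rpow_of_exponent_le (by linarith) (by norm_num)
  have hL1 := hL R H hR hH hHR
  rw [← hδ, ← hρ] at hL1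
  rw [← hρ]
  have hWc := WS_cont (φ := φ) ha ha0 hw hδ0
  have hc2 : Continuous (fun r : ℝ => WS a φ w (r + κ₂ * δ) δ) := hWc.comp (by fun_prop)
  have hcm : ∀ m, Continuous (fun r : ℝ => wt a φ w (r + κ₂ * δ) δ m) := fun m =>
    (wt_cont a φ w δ m).comp (by fun_prop)
  have key : ∀ Y' : ℕ, Y ≤ Y' → 1 ≤ Y' → ‖∫ r in R..(R+H), ((E r - U a φ r Y : ℝ) : ℂ) * ch θ r‖ ≤
      (C + KY + Sg) * (ρ * (H + 1) + 1) + C' * δ ^ (-(3/2):ℝ) * (Y':ℝ) ^ (-(24/25):ℝ) * H := by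
    intro Y' hYY' hY'1
    have hcs : ∀ s : Finset ℕ, Continuous (fun r : ℝ => ∑ m ∈ s, wt a φ w (r + κ₂ * δ) δ m) := fun s =>
      continuous_finsetSum s (fun m _ => hcm m)
    have hchc := ch_cont θ
    have i1 : IntervalIntegrable (fun r => ((E r - WS a φ w (r + κ₂ * δ) δ : ℝ) : ℂ) * ch θ r) volume R (R+H) :=
      Ech_ii hEm hEb hc2 hchc hR0 hRH
    have i2 : IntervalIntegrable (fun r => ((WS a φ w (r + κ₂ * δ) δ - ∑ m ∈ Finset.Icc 1 (Y'^2), wt a φ w (r + κ₂ * δ) δ m : ℝ) : ℂ) * ch θ r) volume R (R+H) :=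
      ((Complex.continuous_ofReal.comp (hc2.sub (hcs _))).mul hchc).intervalIntegrable _ _
    have i3 : IntervalIntegrable (fun r => ((∑ m ∈ Finset.Icc 1 (Y^2), wt a φ w (r + κ₂ * δ) δ m - U a φ r Y : ℝ) : ℂ) * ch θ r) volume R (R+H) :=
      ((Complex.continuous_ofReal.comp ((hcs _).sub (U_cont a φ Y))).mul hchc).intervalIntegrable _ _
    have i4 : IntervalIntegrable (fun r => ((∑ m ∈ Finset.Ioc (Y^2) (Y'^2), wt a φ w (r + κ₂ * δ) δ m : ℝ) : ℂ) * ch θ r) volume R (R+H) :=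
      ((Complex.continuous_ofReal.comp (hcs _)).mul hchc).intervalIntegrable _ _
    have hsplit : ∀ r : ℝ, ∑ m ∈ Finset.Icc 1 (Y'^2), wt a φ w (r + κ₂ * δ) δ m =
        ∑ m ∈ Finset.Icc 1 (Y^2), wt a φ w (r + κ₂ * δ) δ m + ∑ m ∈ Finset.Ioc (Y^2) (Y'^2), wt a φ w (r + κ₂ * δ) δ m := by
      intro r
      have hle : Y^2 ≤ Y'^2 := Nat.pow_le_pow_left hYY' 2
      rw [← Finset.sum_union]
      · congr 1
        ext m
        simp only [Finset.mem_union, Finset.mem_Icc, Finset.mem_Ioc]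
        omega
      · rw [Finset.disjoint_left]
        intro m h1 h2
        rw [Finset.mem_Icc] at h1
        rw [Finset.mem_Ioc] at h2
        omega
    have e0 : ∀ r : ℝ, ((E r - U a φ r Y : ℝ) : ℂ) * ch θ r =
        ((E r - WS a φ w (r + κ₂ * δ) δ : ℝ) : ℂ) * ch θ r +
        ((WS a φ w (r + κ₂ * δ) δ - ∑ m ∈ Finset.Icc 1 (Y'^2), wt a φ w (r + κ₂ * δ) δ m : ℝ) : ℂ) * ch θ r +
        ((∑ m ∈ Finset.Icc 1 (Y^2), wt a φ w (r + κ₂ * δ) δ m - U a φ r Y : ℝ) : ℂ) * ch θ r +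
        ((∑ m ∈ Finset.Ioc (Y^2) (Y'^2), wt a φ w (r + κ₂ * δ) δ m : ℝ) : ℂ) * ch θ r := by
      intro r
      rw [← add_mul, ← add_mul, ← add_mul, ← Complex.ofReal_add, ← Complex.ofReal_add, ← Complex.ofReal_add]
      congr 2
      rw [hsplit r]; ring
    simp only [e0]
    rw [intervalIntegral.integral_add ((i1.add i2).add i3) i4, intervalIntegral.integral_add (i1.add i2) i3,
      intervalIntegral.integral_add i1 i2]
    have b1 : ‖∫ r in R..(R+H), ((E r - WS a φ w (r + κ₂ * δ) δ : ℝ) : ℂ) * ch θ r‖ ≤ C * (ρ * (H + 1)) := by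
      refine (intervalIntegral.norm_integral_le_integral_norm hRR).trans ?_
      refine le_trans (le_of_eq ?_) hL1
      apply intervalIntegral.integral_congr
      intro r _
      simp only
      rw [norm_mul, norm_ch, mul_one, Complex.norm_real, Real.norm_eq_abs]
    have b2 : ‖∫ r in R..(R+H), ((WS a φ w (r + κ₂ * δ) δ - ∑ m ∈ Finset.Icc 1 (Y'^2), wt a φ w (r + κ₂ * δ) δ m : ℝ) : ℂ) * ch θ r‖ ≤
        C' * δ ^ (-(3/2):ℝ) * (Y':ℝ) ^ (-(24/25):ℝ) * H := by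
      have h := intervalIntegral.norm_integral_le_of_norm_le_const (a := R) (b := R+H)
        (f := fun r => ((WS a φ w (r + κ₂ * δ) δ - ∑ m ∈ Finset.Icc 1 (Y'^2), wt a φ w (r + κ₂ * δ) δ m : ℝ) : ℂ) * ch θ r)
        (C := C' * δ ^ (-(3/2):ℝ) * (Y':ℝ) ^ (-(24/25):ℝ)) (fun r _ => by
          rw [norm_mul, norm_ch, mul_one, Complex.norm_real, Real.norm_eq_abs]
          exact htail δ hδ0 _ Y' hY'1)
      rwa [show R + H - R = H by ring, abs_of_nonneg hH] at h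
    have b3 : ‖∫ r in R..(R+H), ((∑ m ∈ Finset.Icc 1 (Y^2), wt a φ w (r + κ₂ * δ) δ m - U a φ r Y : ℝ) : ℂ) * ch θ r‖ ≤
        KY * δ * H := by
      have h := intervalIntegral.norm_integral_le_of_norm_le_const (a := R) (b := R+H)
        (f := fun r => ((∑ m ∈ Finset.Icc 1 (Y^2), wt a φ w (r + κ₂ * δ) δ m - U a φ r Y : ℝ) : ℂ) * ch θ r)
        (C := KY * δ) (fun r _ => by
          rw [norm_mul, norm_ch, mul_one, Complex.norm_real, Real.norm_eq_abs]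
          exact hlow r δ hδ0)
      rwa [show R + H - R = H by ring, abs_of_nonneg hH] at h
    have b4 : ‖∫ r in R..(R+H), ((∑ m ∈ Finset.Ioc (Y^2) (Y'^2), wt a φ w (r + κ₂ * δ) δ m : ℝ) : ℂ) * ch θ r‖ ≤ Sg := by
      have e1 : ∀ r : ℝ, ((∑ m ∈ Finset.Ioc (Y^2) (Y'^2), wt a φ w (r + κ₂ * δ) δ m : ℝ) : ℂ) * ch θ r =
          ∑ m ∈ Finset.Ioc (Y^2) (Y'^2), ((wt a φ w (r + κ₂ * δ) δ m : ℝ) : ℂ) * ch θ r := by
        intro r
        push_cast
        rw [Finset.sum_mul]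
      simp only [e1]
      have e2 : ∀ m ∈ Finset.Ioc (Y^2) (Y'^2), IntervalIntegrable (fun r => ((wt a φ w (r + κ₂ * δ) δ m : ℝ) : ℂ) * ch θ r) volume R (R+H) :=
        fun m _ => ((Complex.continuous_ofReal.comp (hcm m)).mul hchc).intervalIntegrable _ _
      rw [intervalIntegral.integral_finsetSum e2]
      refine (norm_sum_le _ _).trans ?_
      rw [hSg]
      refine le_trans (Finset.sum_le_sum (fun m hm => ?_)) (hsum.sum_le_tsum (Finset.Ioc (Y^2) (Y'^2)) (fun m _ => by positivity))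
      rw [Finset.mem_Ioc] at hm
      apply wt_pair hw hδ0 (by omega)
      refine hθ.trans ?_
      have hpi := Real.pi_pos
      apply mul_le_mul_of_nonneg_left _ hpi.le
      apply Real.le_sqrt_of_sq_le
      exact_mod_cast hm.1.le
    refine (norm_add_le _ _).trans ?_
    refine (add_le_add ((norm_add_le _ _).trans (add_le_add ((norm_add_le _ _).trans (add_le_add b1 b2)) b3)) b4).trans ?_
    have h3 : KY * δ * H ≤ KY * (ρ * H) := by
      rw [mul_assoc]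
      gcongr
    have h4 : 0 ≤ KY * ρ + KY := by positivity
    have h5 : 0 ≤ Sg * (ρ * (H + 1)) := by positivity
    have h6 : 0 ≤ C := hC.le
    nlinarith
  have hlim : Tendsto (fun Y' : ℕ => (C + KY + Sg) * (ρ * (H + 1) + 1) + C' * δ ^ (-(3/2):ℝ) * (Y':ℝ) ^ (-(24/25):ℝ) * H)
      atTop (𝓝 ((C + KY + Sg) * (ρ * (H + 1) + 1))) := by
    have h2 : Tendsto (fun Y' : ℕ => (Y':ℝ) ^ (-(24/25):ℝ)) atTop (𝓝 0) :=
      (tendsto_rpow_neg_atTop (by norm_num : (0:ℝ) < 24/25)).comp tendsto_natCast_atTop_atTop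
    have h3 := ((h2.const_mul (C' * δ ^ (-(3/2):ℝ))).mul_const H).const_add ((C + KY + Sg) * (ρ * (H + 1) + 1))
    simpa using h3
  refine ge_of_tendsto hlim ?_
  filter_upwards [eventually_ge_atTop Y, eventually_ge_atTop 1] with Y' h1 h2
  exact key Y' h1 h2

/-- long windows -/
theorem pair_long (ha : Bd a) (ha0 : a 0 = 0) (hw : Wt w) (hC0 : 0 < C0)
    (hS : Sand E a φ w κ₁ κ₂ C0) (hEm : Measurable E)
    (hEb : ∀ R₁ R₂ : ℝ, 0 < R₁ → ∃ B : ℝ, ∀ r, R₁ ≤ r → r ≤ R₂ → |E r| ≤ B) {θ : ℝ} {Y : ℕ}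
    (hθ : |θ| ≤ Real.pi * Y) :
    ∃ K : ℝ, 0 < K ∧ ∀ n : ℕ, ∀ R H : ℝ, 4 ≤ R → 0 ≤ H → R + H ≤ 2 ^ n * R →
      ‖∫ r in R..(R+H), ((E r - U a φ r Y : ℝ) : ℂ) * ch θ r‖ ≤ K * (R ^ (-(1/100):ℝ) * (H + n) + n) := by
  obtain ⟨K, hK, hb⟩ := pair_base ha ha0 hw hC0 hS hEm hEb hθ
  refine ⟨K, hK, ?_⟩
  intro n
  induction n with
  | zero =>
    intro R H hR hH h
    have h0 : H = 0 := by rw [pow_zero, one_mul] at h; linarith
    rw [h0, add_zero, intervalIntegral.integral_same]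
    simp
  | succ n ih =>
    intro R H hR hH h
    have hρ0 : 0 < R ^ (-(1/100):ℝ) := by positivity
    by_cases hHR : H ≤ R
    · refine (hb R H hR hH hHR).trans ?_
      have hn : (0:ℝ) ≤ n := Nat.cast_nonneg n
      push_cast
      apply mul_le_mul_of_nonneg_left _ hK.le
      have h1 : R ^ (-(1/100):ℝ) * (H + 1) ≤ R ^ (-(1/100):ℝ) * (H + (n + 1)) := by
        apply mul_le_mul_of_nonneg_left _ hρ0.le
        linarith
      linarith
    · push Not at hHR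
      have hR0 : 0 < R := by linarith
      have hc := U_cont a φ Y
      have h1 := hb R R hR hR0.le le_rfl
      have h2 := ih (R + R) (H - R) (by linarith) (by linarith) (by
        rw [show R + R + (H - R) = R + H by ring]
        refine h.trans (le_of_eq ?_)
        rw [pow_succ]; ring)
      rw [show R + R + (H - R) = R + H by ring] at h2
      rw [← intervalIntegral.integral_add_adjacent_intervals (b := R + R)
        (Ech_ii hEm hEb hc (ch_cont θ) hR0 (by linarith)) (Ech_ii hEm hEb hc (ch_cont θ) (by linarith) (by linarith))]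
      refine (norm_add_le _ _).trans ((add_le_add h1 h2).trans ?_)
      have h3 : (R + R) ^ (-(1/100):ℝ) ≤ R ^ (-(1/100):ℝ) := Real.rpow_le_rpow_of_nonpos hR0 (by linarith) (by norm_num)
      have hn : (0:ℝ) ≤ n := Nat.cast_nonneg n
      have h4 : (R + R) ^ (-(1/100):ℝ) * (H - R + n) ≤ R ^ (-(1/100):ℝ) * (H - R + n) := by
        apply mul_le_mul_of_nonneg_right h3
        linarith
      rw [← mul_add]
      apply mul_le_mul_of_nonneg_left _ hK.le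
      push_cast
      nlinarith

lemma two_pow_ge (n : ℕ) (hn : 5 ≤ n) : n ^ 2 + 1 ≤ 2 ^ n := by
  induction n, hn using Nat.le_induction with
  | base => norm_num
  | succ n hn ih =>
    rw [pow_succ 2 n]
    nlinarith

/-- all windows, one character -/
theorem pair_ch (ha : Bd a) (ha0 : a 0 = 0) (hw : Wt w) (hC0 : 0 < C0)
    (hS : Sand E a φ w κ₁ κ₂ C0) (hEm : Measurable E)
    (hEb : ∀ R₁ R₂ : ℝ, 0 < R₁ → ∃ B : ℝ, ∀ r, R₁ ≤ r → r ≤ R₂ → |E r| ≤ B) {θ : ℝ} {Y : ℕ}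
    (hθ : |θ| ≤ Real.pi * Y) {η : ℝ} (hη : 0 < η) :
    ∃ H₀ : ℝ, 0 < H₀ ∧ ∀ R H : ℝ, 1 ≤ R → H₀ ≤ H →
      ‖∫ r in R..(R+H), ((E r - U a φ r Y : ℝ) : ℂ) * ch θ r‖ ≤ η * H := by
  obtain ⟨K, hK, hb⟩ := pair_long ha ha0 hw hC0 hS hEm hEb hθ
  -- the radius from which the error is small
  obtain ⟨R₁, hR₁, hR₁4⟩ : ∃ R₁ : ℝ, (∀ R, R₁ ≤ R → K * R ^ (-(1/100):ℝ) ≤ η / 4) ∧ 4 ≤ R₁ := by
    have h1 := (tendsto_rpow_neg_atTop (show (0:ℝ) < 1/100 by norm_num)).const_mul K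
    rw [mul_zero] at h1
    have h2 := h1.eventually (gt_mem_nhds (show (0:ℝ) < η/4 by positivity))
    obtain ⟨R₁, hR₁⟩ := Filter.eventually_atTop.1 h2
    exact ⟨max R₁ 4, fun R hR => (hR₁ R ((le_max_left _ _).trans hR)).le, le_max_right _ _⟩
  obtain ⟨H₁, hH₁⟩ : ∃ H₁ : ℝ, ∀ H, H₁ ≤ H → 2 * K * (√H + 6) ≤ η / 4 * H := by
    have h1 : Tendsto (fun H : ℝ => H ^ (1/2:ℝ)) atTop atTop := tendsto_rpow_atTop (by norm_num)
    have h2 := h1.eventually_ge_atTop (14 * K * 4 / η)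
    obtain ⟨H₁, hH₁⟩ := Filter.eventually_atTop.1 h2
    refine ⟨max H₁ 1, fun H hH => ?_⟩
    have h3 := hH₁ H ((le_max_left _ _).trans hH)
    have h4 : 1 ≤ H := (le_max_right _ _).trans hH
    rw [← Real.sqrt_eq_rpow] at h3
    have h5 : 1 ≤ √H := Real.one_le_sqrt.mpr h4
    have h6 : √H * √H = H := Real.mul_self_sqrt (by linarith)
    rw [div_le_iff₀ hη] at h3
    nlinarith
  -- windows that begin far out
  have far : ∀ R H : ℝ, R₁ ≤ R → 0 ≤ H →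
      ‖∫ r in R..(R+H), ((E r - U a φ r Y : ℝ) : ℂ) * ch θ r‖ ≤ η / 4 * H + 2 * K * (√H + 6) := by
    intro R H hR hH
    obtain ⟨n, hn⟩ : ∃ n : ℕ, n = max 5 ⌈√H⌉₊ := ⟨_, rfl⟩
    have hn5 : 5 ≤ n := by rw [hn]; exact le_max_left _ _
    have hn1 : √H ≤ n := by
      rw [hn]
      refine (Nat.le_ceil _).trans ?_
      exact_mod_cast le_max_right _ _
    have hn2 : (n:ℝ) ≤ √H + 6 := by
      rw [hn]
      rw [Nat.cast_max]
      apply max_le
      · have := Real.sqrt_nonneg H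
        push_cast; linarith
      · have := Nat.ceil_lt_add_one (Real.sqrt_nonneg H)
        linarith
    have hn3 : H + 1 ≤ 2 ^ n := by
      have h1 : ((n^2 + 1 : ℕ) : ℝ) ≤ ((2^n : ℕ) : ℝ) := by exact_mod_cast two_pow_ge n hn5
      push_cast at h1
      have h2 : H = √H ^ 2 := (Real.sq_sqrt hH).symm
      have h3 : √H ^ 2 ≤ (n:ℝ)^2 := by
        have := Real.sqrt_nonneg H
        gcongr
      linarith
    have hR1 : 1 ≤ R := by linarith
    have h4 := hb n R H (by linarith) hH (by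
      calc R + H ≤ (H + 1) * R := by nlinarith
        _ ≤ 2 ^ n * R := by gcongr)
    refine h4.trans ?_
    have h5 := hR₁ R hR
    have h6 : R ^ (-(1/100):ℝ) ≤ 1 := Real.rpow_le_one_of_one_le_of_nonpos hR1 (by norm_num)
    have hn0 : (0:ℝ) ≤ n := Nat.cast_nonneg n
    calc K * (R ^ (-(1/100):ℝ) * (H + n) + n) = (K * R ^ (-(1/100):ℝ)) * H + K * (R ^ (-(1/100):ℝ) * n) + K * n := by ring
      _ ≤ η / 4 * H + K * (1 * n) + K * n := by gcongr
      _ = η / 4 * H + 2 * K * n := by ring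
      _ ≤ _ := by gcongr
  obtain ⟨B, hB⟩ : ∃ B : ℝ, ∀ r, 1 ≤ r → r ≤ R₁ → |E r - U a φ r Y| ≤ B := by
    obtain ⟨B1, hB1⟩ := hEb 1 R₁ one_pos
    obtain ⟨B2, hB2⟩ := (isCompact_Icc (a := (1:ℝ)) (b := R₁)).exists_bound_of_continuousOn (U_cont a φ Y).continuousOn
    refine ⟨B1 + B2, fun r h1 h2 => ?_⟩
    have h3 := hB2 r ⟨h1, h2⟩
    rw [Real.norm_eq_abs] at h3
    exact (abs_sub _ _).trans (add_le_add (hB1 r h1 h2) h3)
  have hB0 : 0 ≤ B := (abs_nonneg _).trans (hB 1 le_rfl (by linarith))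
  refine ⟨max (max H₁ R₁) (max 1 (2 * (B * R₁) / η)), by positivity, ?_⟩
  intro R H hR hH
  have hH1 : H₁ ≤ H := ((le_max_left _ _).trans (le_max_left _ _)).trans hH
  have hH2 : R₁ ≤ H := ((le_max_right _ _).trans (le_max_left _ _)).trans hH
  have hH3 : 1 ≤ H := ((le_max_left _ _).trans (le_max_right _ _)).trans hH
  have hH4 : 2 * (B * R₁) / η ≤ H := ((le_max_right _ _).trans (le_max_right _ _)).trans hH
  rw [div_le_iff₀ hη] at hH4
  have h5 := hH₁ H hH1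
  by_cases hRR : R₁ ≤ R
  · have h6 := far R H hRR (by linarith)
    nlinarith
  · push Not at hRR
    have hc := U_cont a φ Y
    rw [← intervalIntegral.integral_add_adjacent_intervals (b := R₁)
        (Ech_ii hEm hEb hc (ch_cont θ) (by linarith) (by linarith)) (Ech_ii hEm hEb hc (ch_cont θ) (by linarith) (by linarith))]
    refine (norm_add_le _ _).trans ?_
    have h6 := far R₁ (R + H - R₁) le_rfl (by linarith)
    rw [show R₁ + (R + H - R₁) = R + H by ring] at h6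
    have h7 : ‖∫ r in R..R₁, ((E r - U a φ r Y : ℝ) : ℂ) * ch θ r‖ ≤ B * (R₁ - R) := by
      have h := intervalIntegral.norm_integral_le_of_norm_le_const (a := R) (b := R₁)
        (f := fun r => ((E r - U a φ r Y : ℝ) : ℂ) * ch θ r) (C := B) (fun r hr => by
          rw [Set.uIoc_of_le hRR.le] at hr
          rw [norm_mul, norm_ch, mul_one, Complex.norm_real, Real.norm_eq_abs]
          exact hB r (by linarith [hr.1]) hr.2)
      rwa [abs_of_pos (by linarith)] at h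
    have h8 : √(R + H - R₁) ≤ √H := Real.sqrt_le_sqrt (by linarith)
    have h9 : B * (R₁ - R) ≤ B * R₁ := by nlinarith
    nlinarith

end Pool.Agent.N687.W
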