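import Mathlib
import Pool.Agent.N687.W.A2
import Pool.Agent.R461.GC.G4

/-!
# Trigonometric polynomials over windows, and the Bernstein partition of unity
-/

set_option autoImplicit false

open MeasureTheory Filter Topology

namespace Pool.Agent.N687.W

open Pool.Agent.H383.Gen (U Bd)
open Pool.Agent.H383.GW (Wt wt WS er Sand WS_tail WS_low wt_summable wt_far)
open Pool.Agent.R461.GC (ch norm_ch ch_cont ch_zero TrigS TrigS_cont ch_mem TrigS_mul TrigS_poly U_trigS Lam)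

variable {a : ℕ → ℝ} {φ : ℝ} {w : ℝ → ℂ} {E : ℝ → ℝ} {κ₁ κ₂ C0 : ℝ}

/-- pairing with a trigonometric polynomial -/
theorem pair_trig (ha : Bd a) (ha0 : a 0 = 0) (hw : Wt w) (hC0 : 0 < C0)
    (hS : Sand E a φ w κ₁ κ₂ C0) (hEm : Measurable E)
    (hEb : ∀ R₁ R₂ : ℝ, 0 < R₁ → ∃ B : ℝ, ∀ r, R₁ ≤ r → r ≤ R₂ → |E r| ≤ B)
    {T : ℝ → ℂ} (hT : T ∈ TrigS (⊤ : AddSubgroup ℝ)) :
    ∃ Y₀ : ℕ, ∀ Y : ℕ, Y₀ ≤ Y → ∀ η : ℝ, 0 < η → ∃ H₀ : ℝ, 0 < H₀ ∧ ∀ R H : ℝ, 1 ≤ R → H₀ ≤ H →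
      ‖∫ r in R..(R+H), ((E r - U a φ r Y : ℝ) : ℂ) * T r‖ ≤ η * H := by
  have hpi := Real.pi_gt_three
  have hT' := hT
  unfold TrigS at hT'
  induction hT' using Submodule.span_induction with
  | mem x hx =>
    obtain ⟨θ, _, rfl⟩ := hx
    obtain ⟨Y₀, hY₀⟩ := exists_nat_ge |θ|
    refine ⟨Y₀, fun Y hY η hη => pair_ch ha ha0 hw hC0 hS hEm hEb (θ := θ) (Y := Y) ?_ hη⟩
    have h1 : (Y₀:ℝ) ≤ Y := by exact_mod_cast hY
    have h2 : (0:ℝ) ≤ Y := Nat.cast_nonneg Y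
    nlinarith
  | zero =>
    refine ⟨0, fun Y _ η hη => ⟨1, one_pos, fun R H _ hH => ?_⟩⟩
    simp only [Pi.zero_apply, mul_zero, intervalIntegral.integral_zero, norm_zero]
    have : 0 < H := by linarith
    positivity
  | add x y hx hy ihx ihy =>
    obtain ⟨Y₁, h1⟩ := ihx hx
    obtain ⟨Y₂, h2⟩ := ihy hy
    refine ⟨max Y₁ Y₂, fun Y hY η hη => ?_⟩
    obtain ⟨H₁, hH₁, k1⟩ := h1 Y (by omega) (η/2) (by positivity)
    obtain ⟨H₂, hH₂, k2⟩ := h2 Y (by omega) (η/2) (by positivity)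
    refine ⟨max H₁ H₂, lt_max_of_lt_left hH₁, fun R H hR hH => ?_⟩
    have hH0 : 0 < H := lt_of_lt_of_le (lt_max_of_lt_left hH₁) hH
    have c1 := (TrigS_cont hx).1
    have c2 := (TrigS_cont hy).1
    have hc := U_cont a φ Y
    have e0 : ∀ r : ℝ, ((E r - U a φ r Y : ℝ) : ℂ) * (x + y) r =
        ((E r - U a φ r Y : ℝ) : ℂ) * x r + ((E r - U a φ r Y : ℝ) : ℂ) * y r := fun r => by
      rw [Pi.add_apply, mul_add]
    simp only [e0]
    rw [intervalIntegral.integral_add (Ech_ii hEm hEb hc c1 (by linarith) (by linarith)) (Ech_ii hEm hEb hc c2 (by linarith) (by linarith))]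
    refine (norm_add_le _ _).trans ?_
    have a1 := k1 R H hR ((le_max_left _ _).trans hH)
    have a2 := k2 R H hR ((le_max_right _ _).trans hH)
    linarith
  | smul c x hx ihx =>
    obtain ⟨Y₁, h1⟩ := ihx hx
    refine ⟨Y₁, fun Y hY η hη => ?_⟩
    have hc0 : 0 < ‖c‖ + 1 := by positivity
    obtain ⟨H₁, hH₁, k1⟩ := h1 Y hY (η/(‖c‖+1)) (by positivity)
    refine ⟨H₁, hH₁, fun R H hR hH => ?_⟩
    have hH0 : 0 < H := by linarith
    have e0 : ∀ r : ℝ, ((E r - U a φ r Y : ℝ) : ℂ) * (c • x) r = c * (((E r - U a φ r Y : ℝ) : ℂ) * x r) := fun r => by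
      rw [Pi.smul_apply, smul_eq_mul]; ring
    simp only [e0]
    rw [intervalIntegral.integral_const_mul, norm_mul]
    have a1 := k1 R H hR hH
    calc ‖c‖ * _ ≤ (‖c‖ + 1) * (η/(‖c‖+1) * H) := by
          apply mul_le_mul (by linarith) a1 (norm_nonneg _) hc0.le
      _ = η * H := by field_simp

/-- windows means of trigonometric polynomials -/
theorem mean_trig {T : ℝ → ℂ} (hT : T ∈ TrigS (⊤ : AddSubgroup ℝ)) :
    ∃ m : ℂ, ∀ η : ℝ, 0 < η → ∃ H₀ : ℝ, 0 < H₀ ∧ ∀ R H : ℝ, H₀ ≤ H →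
      ‖(∫ r in R..(R+H), T r) - m * H‖ ≤ η * H := by
  have hT' := hT
  unfold TrigS at hT'
  induction hT' using Submodule.span_induction with
  | mem x hx =>
    obtain ⟨θ, _, rfl⟩ := hx
    by_cases h0 : θ = 0
    · refine ⟨1, fun η hη => ⟨1, one_pos, fun R H hH => ?_⟩⟩
      rw [h0, ch_zero]
      simp only [Pi.one_apply, intervalIntegral.integral_const, add_sub_cancel_left, Complex.real_smul, mul_one, one_mul, sub_self, norm_zero]
      have : 0 < H := by linarith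
      positivity
    · have hθ0 : 0 < |θ| := abs_pos.2 h0
      refine ⟨0, fun η hη => ⟨2 / |θ| / η, by positivity, fun R H hH => ?_⟩⟩
      rw [zero_mul, sub_zero]
      refine (norm_int_ch h0 _ _).trans ?_
      rw [div_le_iff₀ hη] at hH
      linarith
  | zero =>
    refine ⟨0, fun η hη => ⟨1, one_pos, fun R H hH => ?_⟩⟩
    simp only [Pi.zero_apply, intervalIntegral.integral_zero, zero_mul, sub_zero, norm_zero]
    have : 0 < H := by linarith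
    positivity
  | add x y hx hy ihx ihy =>
    obtain ⟨m₁, h1⟩ := ihx hx
    obtain ⟨m₂, h2⟩ := ihy hy
    refine ⟨m₁ + m₂, fun η hη => ?_⟩
    obtain ⟨H₁, hH₁, k1⟩ := h1 (η/2) (by positivity)
    obtain ⟨H₂, hH₂, k2⟩ := h2 (η/2) (by positivity)
    refine ⟨max H₁ H₂, lt_max_of_lt_left hH₁, fun R H hH => ?_⟩
    have c1 := (TrigS_cont hx).1
    have c2 := (TrigS_cont hy).1
    simp only [Pi.add_apply]
    rw [intervalIntegral.integral_add (c1.intervalIntegrable _ _) (c2.intervalIntegrable _ _)]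
    have e : (∫ r in R..(R+H), x r) + (∫ r in R..(R+H), y r) - (m₁ + m₂) * H =
        ((∫ r in R..(R+H), x r) - m₁ * H) + ((∫ r in R..(R+H), y r) - m₂ * H) := by ring
    rw [e]
    refine (norm_add_le _ _).trans ?_
    have a1 := k1 R H ((le_max_left _ _).trans hH)
    have a2 := k2 R H ((le_max_right _ _).trans hH)
    linarith
  | smul c x hx ihx =>
    obtain ⟨m₁, h1⟩ := ihx hx
    refine ⟨c * m₁, fun η hη => ?_⟩
    have hc0 : 0 < ‖c‖ + 1 := by positivity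
    obtain ⟨H₁, hH₁, k1⟩ := h1 (η/(‖c‖+1)) (by positivity)
    refine ⟨H₁, hH₁, fun R H hH => ?_⟩
    simp only [Pi.smul_apply, smul_eq_mul]
    rw [intervalIntegral.integral_const_mul]
    have e : c * (∫ r in R..(R+H), x r) - c * m₁ * H = c * ((∫ r in R..(R+H), x r) - m₁ * H) := by ring
    rw [e, norm_mul]
    have a1 := k1 R H hH
    calc ‖c‖ * _ ≤ (‖c‖ + 1) * (η/(‖c‖+1) * H) := by
          apply mul_le_mul (by linarith) a1 (norm_nonneg _) hc0.le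
      _ = η * H := by field_simp

lemma trigS_top {Λ : AddSubgroup ℝ} {T : ℝ → ℂ} (hT : T ∈ TrigS Λ) : T ∈ TrigS (⊤ : AddSubgroup ℝ) := by
  unfold TrigS at hT ⊢
  refine Submodule.span_mono ?_ hT
  rintro _ ⟨θ, _, rfl⟩
  exact ⟨θ, AddSubgroup.mem_top _, rfl⟩

theorem pair_real (ha : Bd a) (ha0 : a 0 = 0) (hw : Wt w) (hC0 : 0 < C0)
    (hS : Sand E a φ w κ₁ κ₂ C0) (hEm : Measurable E)
    (hEb : ∀ R₁ R₂ : ℝ, 0 < R₁ → ∃ B : ℝ, ∀ r, R₁ ≤ r → r ≤ R₂ → |E r| ≤ B)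
    {T : ℝ → ℝ} (hT : (fun r => ((T r : ℝ) : ℂ)) ∈ TrigS (⊤ : AddSubgroup ℝ)) :
    ∃ Y₀ : ℕ, ∀ Y : ℕ, Y₀ ≤ Y → ∀ η : ℝ, 0 < η → ∃ H₀ : ℝ, 0 < H₀ ∧ ∀ R H : ℝ, 1 ≤ R → H₀ ≤ H →
      |∫ r in R..(R+H), (E r - U a φ r Y) * T r| ≤ η * H := by
  obtain ⟨Y₀, hY₀⟩ := pair_trig ha ha0 hw hC0 hS hEm hEb hT
  refine ⟨Y₀, fun Y hY η hη => ?_⟩
  obtain ⟨H₀, h1, h2⟩ := hY₀ Y hY η hη
  refine ⟨H₀, h1, fun R H hR hH => ?_⟩
  have h3 := h2 R H hR hH
  simp only [← Complex.ofReal_mul] at h3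
  rwa [intervalIntegral.integral_ofReal, Complex.norm_real, Real.norm_eq_abs] at h3

theorem mean_real {T : ℝ → ℝ} (hT : (fun r => ((T r : ℝ) : ℂ)) ∈ TrigS (⊤ : AddSubgroup ℝ)) :
    ∃ m : ℝ, ∀ η : ℝ, 0 < η → ∃ H₀ : ℝ, 0 < H₀ ∧ ∀ R H : ℝ, H₀ ≤ H →
      |(∫ r in R..(R+H), T r) - m * H| ≤ η * H := by
  obtain ⟨m, hm⟩ := mean_trig hT
  refine ⟨m.re, fun η hη => ?_⟩
  obtain ⟨H₀, h1, h2⟩ := hm η hη
  refine ⟨H₀, h1, fun R H hH => ?_⟩
  have h3 := h2 R H hH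
  rw [intervalIntegral.integral_ofReal] at h3
  refine le_trans ?_ h3
  have h4 := Complex.abs_re_le_norm ((((∫ r in R..(R+H), T r : ℝ)) : ℂ) - m * H)
  rwa [Complex.sub_re, Complex.ofReal_re, Complex.re_mul_ofReal] at h4

/-- the Bernstein weights -/
noncomputable def bw (n : ℕ) (B : ℝ) (j : ℕ) (x : ℝ) : ℝ :=
  ((bernsteinPolynomial ℝ n j).comp (Polynomial.C (1/(2*B)) * Polynomial.X + Polynomial.C (1/2))).eval x

lemma bw_eq (n : ℕ) {B : ℝ} (hB : 0 < B) (j : ℕ) (x : ℝ) : bw n B j x = (bernsteinPolynomial ℝ n j).eval ((x + B)/(2*B)) := by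
  unfold bw
  rw [Polynomial.eval_comp]
  congr 1
  simp only [Polynomial.eval_add, Polynomial.eval_mul, Polynomial.eval_C, Polynomial.eval_X]
  field_simp

lemma bw_nonneg {n : ℕ} {B : ℝ} (hB : 0 < B) (j : ℕ) {x : ℝ} (hx : |x| ≤ B) : 0 ≤ bw n B j x := by
  rw [bw_eq n hB]
  have h1 := abs_le.mp hx
  have t0 : 0 ≤ (x + B)/(2*B) := div_nonneg (by linarith) (by linarith)
  have t1 : 0 ≤ 1 - (x + B)/(2*B) := by
    rw [sub_nonneg, div_le_one (by linarith)]; linarith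
  unfold bernsteinPolynomial
  simp only [Polynomial.eval_mul, Polynomial.eval_pow, Polynomial.eval_sub, Polynomial.eval_one, Polynomial.eval_X,
    Polynomial.eval_natCast]
  positivity

lemma bw_sum (n : ℕ) {B : ℝ} (hB : 0 < B) (x : ℝ) : ∑ j ∈ Finset.range (n+1), bw n B j x = 1 := by
  have h := congrArg (Polynomial.eval ((x + B)/(2*B))) (bernsteinPolynomial.sum ℝ n)
  rw [Polynomial.eval_finsetSum, Polynomial.eval_one] at h
  rw [← h]
  exact Finset.sum_congr rfl fun j _ => bw_eq n hB j x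

/-- the nodes -/
noncomputable def nd (n : ℕ) (B : ℝ) (j : ℕ) : ℝ := 2 * B * (j / n) - B

lemma bw_var {n : ℕ} (hn : 0 < n) {B : ℝ} (hB : 0 < B) {x : ℝ} (hx : |x| ≤ B) :
    ∑ j ∈ Finset.range (n+1), bw n B j x * (x - nd n B j)^2 ≤ B^2 / n := by
  have hn0 : (0:ℝ) < n := by exact_mod_cast hn
  have h := congrArg (Polynomial.eval ((x + B)/(2*B))) (bernsteinPolynomial.variance ℝ n)
  rw [Polynomial.eval_finsetSum] at h
  simp only [Polynomial.eval_mul, Polynomial.eval_pow, Polynomial.eval_sub, Polynomial.eval_one, Polynomial.eval_X,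
    Polynomial.eval_natCast, nsmul_eq_mul] at h
  have h1 := abs_le.mp hx
  obtain ⟨t, ht⟩ : ∃ t, t = (x + B)/(2*B) := ⟨_, rfl⟩
  rw [← ht] at h
  have hxt : x = 2 * B * t - B := by rw [ht]; field_simp; ring
  have e1 : ∑ j ∈ Finset.range (n+1), bw n B j x * (x - nd n B j)^2 =
      (2 * B / n)^2 * ∑ j ∈ Finset.range (n+1), (n * t - j)^2 * Polynomial.eval t (bernsteinPolynomial ℝ n j) := by
    rw [Finset.mul_sum]
    apply Finset.sum_congr rfl
    intro j _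
    rw [bw_eq n hB, ← ht]
    unfold nd
    rw [hxt]
    field_simp
    ring
  rw [e1, h]
  have h2 : t * (1 - t) ≤ 1/4 := by nlinarith [sq_nonneg (t - 1/2)]
  calc (2 * B / n)^2 * (n * t * (1 - t)) = 4 * B^2 / n * (t * (1 - t)) := by field_simp; ring
    _ ≤ 4 * B^2 / n * (1/4) := by gcongr
    _ = B^2 / n := by ring

lemma bw_abs {n : ℕ} (hn : 0 < n) {B τ : ℝ} (hB : 0 < B) (hτ : 0 < τ) (hnτ : B^2 / n ≤ τ^2) {x : ℝ} (hx : |x| ≤ B) :
    ∑ j ∈ Finset.range (n+1), bw n B j x * |x - nd n B j| ≤ 2 * τ := by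
  have h1 : ∀ j ∈ Finset.range (n+1), bw n B j x * |x - nd n B j| ≤ bw n B j x * τ + (bw n B j x * (x - nd n B j)^2) / τ := by
    intro j _
    have h2 : |x - nd n B j| ≤ τ + (x - nd n B j)^2 / τ := by
      have h3 : 0 ≤ (x - nd n B j)^2 / τ := by positivity
      rcases le_total |x - nd n B j| τ with h | h
      · linarith
      · have h4 : |x - nd n B j| ≤ (x - nd n B j)^2 / τ := by
          rw [le_div_iff₀ hτ, ← sq_abs (x - nd n B j)]
          nlinarith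
        linarith
    have h5 := mul_le_mul_of_nonneg_left h2 (bw_nonneg (n := n) hB j hx)
    rw [mul_add] at h5
    rwa [mul_div_assoc]
  refine (Finset.sum_le_sum h1).trans ?_
  rw [Finset.sum_add_distrib, ← Finset.sum_mul, bw_sum n hB, ← Finset.sum_div, one_mul]
  have h6 := bw_var hn hB hx
  have h7 : (∑ j ∈ Finset.range (n+1), bw n B j x * (x - nd n B j)^2) / τ ≤ τ := by
    rw [div_le_iff₀ hτ]
    nlinarith
  linarith

end Pool.Agent.N687.W
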