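import Mathlib
import Pool.Agent.N687.W.A3

/-!
# Convex domination in every window: piecewise linear functions
-/

set_option autoImplicit false

open MeasureTheory Filter Topology

namespace Pool.Agent.N687.W

open Pool.Agent.H383.Gen (U Bd)
open Pool.Agent.H383.GW (Wt wt WS er Sand WS_tail WS_low wt_summable wt_far)
open Pool.Agent.R461.GC (ch norm_ch ch_cont ch_zero TrigS TrigS_cont ch_mem TrigS_mul TrigS_poly U_trigS Lam)

variable {a : ℕ → ℝ} {φ : ℝ} {w : ℝ → ℂ} {E : ℝ → ℝ} {κ₁ κ₂ C0 : ℝ}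

lemma gE_ii (hEm : Measurable E) (hEb : ∀ R₁ R₂ : ℝ, 0 < R₁ → ∃ B : ℝ, ∀ r, R₁ ≤ r → r ≤ R₂ → |E r| ≤ B)
    {g : ℝ → ℝ} (hg : Continuous g) {x y : ℝ} (hx : 0 < x) (hy : 0 < y) :
    IntervalIntegrable (fun r => g (E r)) volume x y := by
  rw [intervalIntegrable_iff]
  obtain ⟨B, hB⟩ := hEb (min x y) (max x y) (lt_min hx hy)
  obtain ⟨C, hC⟩ := (isCompact_Icc (a := -B) (b := B)).exists_bound_of_continuousOn hg.continuousOn
  have : IsFiniteMeasure (volume.restrict (Set.uIoc x y)) := ⟨by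
    rw [Measure.restrict_apply_univ, Set.uIoc]
    exact measure_Ioc_lt_top⟩
  apply Integrable.of_bound (C := C) (hg.measurable.comp hEm).aestronglyMeasurable
  rw [ae_restrict_iff' measurableSet_uIoc]
  exact Eventually.of_forall fun r hr => by
    rw [Set.uIoc, Set.mem_Ioc] at hr
    exact hC _ (abs_le.mp (hB r hr.1.le hr.2))

lemma trig_bw (a : ℕ → ℝ) (φ : ℝ) (M n : ℕ) (B : ℝ) (c : ℕ → ℝ) :
    (fun r => ((∑ j ∈ Finset.range (n+1), c j * bw n B j (U a φ r M) : ℝ) : ℂ)) ∈ TrigS (⊤ : AddSubgroup ℝ) := by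
  have h1 : (fun r => ((∑ j ∈ Finset.range (n+1), c j * bw n B j (U a φ r M) : ℝ) : ℂ)) =
      ∑ j ∈ Finset.range (n+1), ((c j : ℝ) : ℂ) • (fun r => ((bw n B j (U a φ r M) : ℝ) : ℂ)) := by
    funext r
    rw [Finset.sum_apply]
    push_cast
    rfl
  rw [h1]
  apply Submodule.sum_mem
  intro j _
  apply Submodule.smul_mem
  exact TrigS_poly (trigS_top (U_trigS a φ M)) _

/-- convex domination in every window for the maximum of finitely many affine functions -/
theorem dom_PL (ha : Bd a) (ha0 : a 0 = 0) (hw : Wt w) (hC0 : 0 < C0)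
    (hS : Sand E a φ w κ₁ κ₂ C0) (hEm : Measurable E)
    (hEb : ∀ R₁ R₂ : ℝ, 0 < R₁ → ∃ B : ℝ, ∀ r, R₁ ≤ r → r ≤ R₂ → |E r| ≤ B)
    {s : Finset ℕ} {α β : ℕ → ℝ} {Φ : ℝ → ℝ} (h1 : ∀ i ∈ s, ∀ y, α i * y + β i ≤ Φ y)
    (h2 : ∀ y, ∃ i ∈ s, Φ y = α i * y + β i) {L₀ : ℝ}
    (hlaw : ∀ η : ℝ, 0 < η → ∃ T₀ : ℝ, ∀ T, T₀ ≤ T → (L₀ - η) * T ≤ ∫ r in T..(T+T), Φ (E r))
    (hms : ∀ η : ℝ, 0 < η → ∃ M : ℕ, ∃ T₀ : ℝ, ∀ T, T₀ ≤ T → ∫ r in T..(T+T), |E r - U a φ r M| ≤ η * T)
    {ε : ℝ} (hε : 0 < ε) :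
    ∃ H₀ : ℝ, 0 < H₀ ∧ ∀ R H : ℝ, 1 ≤ R → H₀ ≤ H → (L₀ - ε) * H ≤ ∫ r in R..(R+H), Φ (E r) := by
  obtain ⟨L, hL, hL0⟩ : ∃ L : ℝ, (∀ i ∈ s, |α i| ≤ L) ∧ 0 < L := by
    refine ⟨∑ i ∈ s, |α i| + 1, fun i hi => ?_, ?_⟩
    · have := Finset.single_le_sum (f := fun i => |α i|) (fun i _ => abs_nonneg _) hi
      linarith
    · have : 0 ≤ ∑ i ∈ s, |α i| := Finset.sum_nonneg (fun i _ => abs_nonneg _)
      linarith
  have hlip : ∀ y z, Φ y ≤ Φ z + L * |y - z| := by
    intro y z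
    obtain ⟨i, hi, h3⟩ := h2 y
    have h4 := h1 i hi z
    have h5 : α i * (y - z) ≤ L * |y - z| := by
      refine (le_abs_self _).trans ?_
      rw [abs_mul]
      exact mul_le_mul_of_nonneg_right (hL i hi) (abs_nonneg _)
    rw [h3]; linarith
  have hΦc : Continuous Φ := by
    have : LipschitzWith ⟨L, hL0.le⟩ Φ := LipschitzWith.of_le_add_mul _ (fun x y => by
      rw [Real.dist_eq]; exact hlip x y)
    exact this.continuous
  obtain ⟨M, T₁, hM⟩ := hms (ε / (16 * L)) (by positivity)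
  obtain ⟨B, hB1, hB⟩ : ∃ B : ℝ, 1 ≤ B ∧ ∀ r, |U a φ r M| ≤ B := by
    obtain ⟨_, B, hB0, hB⟩ := TrigS_cont (U_trigS a φ M)
    refine ⟨B + 1, by linarith, fun r => ?_⟩
    have := hB r
    rw [Complex.norm_real, Real.norm_eq_abs] at this
    linarith
  have hB0 : 0 < B := by linarith
  obtain ⟨τ, hτ⟩ : ∃ τ : ℝ, τ = ε / (32 * L) := ⟨_, rfl⟩
  have hτ0 : 0 < τ := by rw [hτ]; positivity
  obtain ⟨n, hn, hnτ⟩ : ∃ n : ℕ, 0 < n ∧ B^2 / n ≤ τ^2 := by
    obtain ⟨n, hn⟩ := exists_nat_gt (B^2 / τ^2)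
    have h3 : 0 < B^2 / τ^2 := by positivity
    have h4 : (0:ℝ) < n := h3.trans hn
    refine ⟨n, by exact_mod_cast h4, ?_⟩
    rw [div_lt_iff₀ (by positivity)] at hn
    rw [div_le_iff₀ h4]
    linarith
  choose! ix hix1 hix2 using h2
  obtain ⟨Tr, hTr⟩ : ∃ Tr : ℝ → ℝ, Tr = fun r => ∑ j ∈ Finset.range (n+1), α (ix (nd n B j)) * bw n B j (U a φ r M) := ⟨_, rfl⟩
  obtain ⟨Sr, hSr⟩ : ∃ Sr : ℝ → ℝ, Sr = fun r => ∑ j ∈ Finset.range (n+1), β (ix (nd n B j)) * bw n B j (U a φ r M) := ⟨_, rfl⟩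
  have hTt : (fun r => ((Tr r : ℝ) : ℂ)) ∈ TrigS (⊤ : AddSubgroup ℝ) := by rw [hTr]; exact trig_bw a φ M n B _
  have hSt : (fun r => ((Sr r : ℝ) : ℂ)) ∈ TrigS (⊤ : AddSubgroup ℝ) := by rw [hSr]; exact trig_bw a φ M n B _
  have hTc : Continuous Tr := Complex.continuous_re.comp (TrigS_cont hTt).1
  have hSc : Continuous Sr := Complex.continuous_re.comp (TrigS_cont hSt).1
  -- pointwise bounds
  have hup : ∀ r y, Tr r * y + Sr r ≤ Φ y := by
    intro r y
    have e1 : Tr r * y + Sr r = ∑ j ∈ Finset.range (n+1), bw n B j (U a φ r M) * (α (ix (nd n B j)) * y + β (ix (nd n B j))) := by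
      rw [hTr, hSr]
      simp only
      rw [Finset.sum_mul, ← Finset.sum_add_distrib]
      apply Finset.sum_congr rfl
      intro j _
      ring
    have e2 : Φ y = ∑ j ∈ Finset.range (n+1), bw n B j (U a φ r M) * Φ y := by
      rw [← Finset.sum_mul, bw_sum n hB0, one_mul]
    rw [e1, e2]
    apply Finset.sum_le_sum
    intro j _
    apply mul_le_mul_of_nonneg_left _ (bw_nonneg hB0 j (hB r))
    exact h1 _ (hix1 _) y
  have hlo : ∀ r y, Φ y - 2 * L * |y - U a φ r M| - ε / 8 ≤ Tr r * y + Sr r := by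
    intro r y
    have e1 : Tr r * y + Sr r = ∑ j ∈ Finset.range (n+1), bw n B j (U a φ r M) * (α (ix (nd n B j)) * y + β (ix (nd n B j))) := by
      rw [hTr, hSr]
      simp only
      rw [Finset.sum_mul, ← Finset.sum_add_distrib]
      apply Finset.sum_congr rfl
      intro j _
      ring
    rw [e1]
    have h3 : ∀ j ∈ Finset.range (n+1), bw n B j (U a φ r M) * (Φ y - 2 * L * |y - U a φ r M|) -
        2 * L * (bw n B j (U a φ r M) * |U a φ r M - nd n B j|) ≤
        bw n B j (U a φ r M) * (α (ix (nd n B j)) * y + β (ix (nd n B j))) := by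
      intro j _
      have h4 := bw_nonneg (n := n) hB0 j (hB r)
      have h5 : Φ y - 2 * L * |y - nd n B j| ≤ α (ix (nd n B j)) * y + β (ix (nd n B j)) := by
        have h6 := hlip y (nd n B j)
        have h7 := hix2 (nd n B j)
        have h8 : -(L * |y - nd n B j|) ≤ α (ix (nd n B j)) * (y - nd n B j) := by
          have h9 : |α (ix (nd n B j)) * (y - nd n B j)| ≤ L * |y - nd n B j| := by
            rw [abs_mul]
            exact mul_le_mul_of_nonneg_right (hL _ (hix1 _)) (abs_nonneg _)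
          exact (abs_le.mp h9).1
        nlinarith
      have h6 : |y - nd n B j| ≤ |y - U a φ r M| + |U a φ r M - nd n B j| := abs_sub_le _ _ _
      have h7 : Φ y - 2 * L * |y - U a φ r M| - 2 * L * |U a φ r M - nd n B j| ≤ α (ix (nd n B j)) * y + β (ix (nd n B j)) := by
        nlinarith
      have h8 := mul_le_mul_of_nonneg_left h7 h4
      linarith
    refine le_trans ?_ (Finset.sum_le_sum h3)
    rw [Finset.sum_sub_distrib, ← Finset.sum_mul, bw_sum n hB0, one_mul, ← Finset.mul_sum]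
    have h4 := bw_abs hn hB0 hτ0 hnτ (hB r)
    have h5 : 2 * L * (∑ j ∈ Finset.range (n+1), bw n B j (U a φ r M) * |U a φ r M - nd n B j|) ≤ 2 * L * (2 * τ) := by
      gcongr
    have h6 : 2 * L * (2 * τ) = ε / 8 := by rw [hτ]; field_simp; norm_num
    linarith
  -- the pairing
  obtain ⟨Y, hY⟩ := pair_real ha ha0 hw hC0 hS hEm hEb hTt
  obtain ⟨H₁, hH₁, hp⟩ := hY Y le_rfl (ε/16) (by positivity)
  have hGt : (fun r => ((U a φ r Y * Tr r + Sr r : ℝ) : ℂ)) ∈ TrigS (⊤ : AddSubgroup ℝ) := by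
    have h3 := Submodule.add_mem _ (TrigS_mul (trigS_top (U_trigS a φ Y)) hTt) hSt
    convert h3 using 1
    funext r
    simp only [Pi.add_apply, Pi.mul_apply]
    push_cast
    rfl
  obtain ⟨m, hm⟩ := mean_real hGt
  obtain ⟨H₂, hH₂, hm⟩ := hm (ε/16) (by positivity)
  have hUc := U_cont a φ Y
  have hii : ∀ R H : ℝ, 1 ≤ R → 0 < H → IntervalIntegrable (fun r => Tr r * E r + Sr r) volume R (R+H) := by
    intro R H hR hH
    exact ((E_ii hEm hEb (by linarith) (by linarith)).continuousOn_mul hTc.continuousOn).add (hSc.intervalIntegrable _ _)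
  have hmain : ∀ R H : ℝ, 1 ≤ R → max H₁ H₂ ≤ H → |(∫ r in R..(R+H), (Tr r * E r + Sr r)) - m * H| ≤ ε / 8 * H := by
    intro R H hR hH
    have hH0 : 0 < H := lt_of_lt_of_le (lt_max_of_lt_left hH₁) hH
    have k1 := hp R H hR ((le_max_left _ _).trans hH)
    have k2 := hm R H ((le_max_right _ _).trans hH)
    have i1 : IntervalIntegrable (fun r => (E r - U a φ r Y) * Tr r) volume R (R+H) := by
      have := (E_ii hEm hEb (x := R) (y := R+H) (by linarith) (by linarith)).sub (hUc.intervalIntegrable _ _)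
      exact this.mul_continuousOn hTc.continuousOn
    have i2 : IntervalIntegrable (fun r => U a φ r Y * Tr r + Sr r) volume R (R+H) :=
      ((hUc.mul hTc).add hSc).intervalIntegrable _ _
    have e1 : (∫ r in R..(R+H), (Tr r * E r + Sr r)) = (∫ r in R..(R+H), (E r - U a φ r Y) * Tr r) +
        ∫ r in R..(R+H), (U a φ r Y * Tr r + Sr r) := by
      rw [← intervalIntegral.integral_add i1 i2]
      congr 1
      funext r
      ring
    rw [e1]
    have k3 := abs_le.mp k1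
    have k4 := abs_le.mp k2
    rw [abs_le]
    constructor <;> linarith [k3.1, k3.2, k4.1, k4.2]
  obtain ⟨T₂, hT₂⟩ := hlaw (ε/16) (by positivity)
  -- a long window
  have hm0 : L₀ - ε / 2 ≤ m := by
    obtain ⟨T, hT⟩ : ∃ T : ℝ, T = max (max T₁ T₂) (max (max H₁ H₂) 1) := ⟨_, rfl⟩
    have t1 : T₁ ≤ T := by rw [hT]; exact (le_max_left _ _).trans (le_max_left _ _)
    have t2 : T₂ ≤ T := by rw [hT]; exact (le_max_right _ _).trans (le_max_left _ _)
    have t3 : max H₁ H₂ ≤ T := by rw [hT]; exact (le_max_left _ _).trans (le_max_right _ _)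
    have t4 : 1 ≤ T := by rw [hT]; exact (le_max_right _ _).trans (le_max_right _ _)
    have k1 := (abs_le.mp (hmain T T t4 t3)).2
    have k2 := hM T t1
    have k3 := hT₂ T t2
    have i1 : IntervalIntegrable (fun r => Φ (E r)) volume T (T+T) := gE_ii hEm hEb hΦc (by linarith) (by linarith)
    have i2 : IntervalIntegrable (fun r => |E r - U a φ r M|) volume T (T+T) :=
      ((E_ii hEm hEb (by linarith) (by linarith)).sub ((U_cont a φ M).intervalIntegrable _ _)).abs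
    have i3 : IntervalIntegrable (fun r => Φ (E r) - 2 * L * |E r - U a φ r M| - ε / 8) volume T (T+T) :=
      (i1.sub (i2.const_mul (2 * L))).sub (continuous_const.intervalIntegrable _ _)
    have k4 : ∫ r in T..(T+T), (Φ (E r) - 2 * L * |E r - U a φ r M| - ε / 8) ≤ ∫ r in T..(T+T), (Tr r * E r + Sr r) := by
      apply intervalIntegral.integral_mono_on (by linarith) i3 (hii T T t4 (by linarith))
      intro r _
      exact hlo r (E r)
    have k5 : ∫ r in T..(T+T), (Φ (E r) - 2 * L * |E r - U a φ r M| - ε / 8) =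
        (∫ r in T..(T+T), Φ (E r)) - 2 * L * (∫ r in T..(T+T), |E r - U a φ r M|) - ε / 8 * T := by
      rw [intervalIntegral.integral_sub (i1.sub (i2.const_mul (2 * L))) (continuous_const.intervalIntegrable _ _),
        intervalIntegral.integral_sub i1 (i2.const_mul (2 * L)), intervalIntegral.integral_const_mul,
        intervalIntegral.integral_const, smul_eq_mul]
      ring
    rw [k5] at k4
    have k6 : 2 * L * (∫ r in T..(T+T), |E r - U a φ r M|) ≤ ε / 8 * T := by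
      calc _ ≤ 2 * L * (ε / (16 * L) * T) := by gcongr
        _ = ε / 8 * T := by field_simp; norm_num
    have hT0 : 0 < T := by linarith
    have k7 : (L₀ - ε/2) * T ≤ m * T := by nlinarith
    exact le_of_mul_le_mul_right k7 hT0
  refine ⟨max H₁ H₂, lt_max_of_lt_left hH₁, fun R H hR hH => ?_⟩
  have hH0 : 0 < H := lt_of_lt_of_le (lt_max_of_lt_left hH₁) hH
  have k1 := (abs_le.mp (hmain R H hR hH)).1
  have k2 : ∫ r in R..(R+H), (Tr r * E r + Sr r) ≤ ∫ r in R..(R+H), Φ (E r) := by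
    apply intervalIntegral.integral_mono_on (by linarith) (hii R H hR hH0) (gE_ii hEm hEb hΦc (by linarith) (by linarith))
    intro r _
    exact hup r (E r)
  nlinarith

end Pool.Agent.N687.W
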