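import Mathlib
import Pool.Agent.N687.W.A4
import Pool.Agent.R461.GC.G5

/-!
# Convex functions as limits of maxima of affine functions; the limit law over long windows
-/

set_option autoImplicit false

open MeasureTheory Filter Topology

namespace Pool.Agent.N687.W

open Pool.Agent.H383.Gen (U Bd)
open Pool.Agent.H383.Gauss (En F)
open Pool.Agent.H383.Circ (ag ag_Bd ag_zero wg wg_Wt En_Sand)
open Pool.Agent.R461.GC (ch norm_ch ch_cont fractal tail_conv Adm En_meas En_bdd)
open Pool.Agent.H452R2.Win (ag_Bdw En_SandW)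

/-- the slope of a tangent line -/
noncomputable def sl (Φ : ℝ → ℝ) (x : ℝ) : ℝ := derivWithin Φ (Set.Ioi x) x

lemma tangent {Φ : ℝ → ℝ} (hΦ : ConvexOn ℝ Set.univ Φ) (x y : ℝ) : Φ x + sl Φ x * (y - x) ≤ Φ y := by
  have hx : x ∈ interior (Set.univ : Set ℝ) := by rw [interior_univ]; exact Set.mem_univ x
  rcases lt_trichotomy x y with h | h | h
  · have h1 := hΦ.rightDeriv_le_slope_of_mem_interior hx (Set.mem_univ y) h
    rw [slope_def_field, le_div_iff₀ (by linarith)] at h1
    unfold sl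
    linarith
  · rw [h]; simp
  · have h1 := hΦ.slope_le_leftDeriv_of_mem_interior (Set.mem_univ y) hx h
    have h2 := hΦ.leftDeriv_le_rightDeriv_of_mem_interior hx
    have h3 := h1.trans h2
    rw [slope_def_field, div_le_iff₀ (by linarith)] at h3
    unfold sl
    linarith

lemma sl_mono {Φ : ℝ → ℝ} (hΦ : ConvexOn ℝ Set.univ Φ) : Monotone (sl Φ) := by
  have h := hΦ.monotoneOn_rightDeriv
  rw [interior_univ] at h
  intro x y hxy
  exact h (Set.mem_univ x) (Set.mem_univ y) hxy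

lemma conv_cont {Φ : ℝ → ℝ} (hΦ : ConvexOn ℝ Set.univ Φ) : Continuous Φ := by
  have h := hΦ.continuousOn isOpen_univ
  rwa [← continuousOn_univ]

/-- the maximum of finitely many affine functions -/
noncomputable def mx (α β : ℕ → ℝ) (n : ℕ) (y : ℝ) : ℝ :=
  (Finset.range (n+1)).sup' ⟨0, by simp⟩ (fun i => α i * y + β i)

lemma mx_ge (α β : ℕ → ℝ) {n i : ℕ} (hi : i ∈ Finset.range (n+1)) (y : ℝ) : α i * y + β i ≤ mx α β n y :=
  Finset.le_sup' (fun i => α i * y + β i) hi

lemma mx_eq (α β : ℕ → ℝ) (n : ℕ) (y : ℝ) : ∃ i ∈ Finset.range (n+1), mx α β n y = α i * y + β i :=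
  Finset.exists_mem_eq_sup' _ _

lemma mx_mono (α β : ℕ → ℝ) (y : ℝ) : Monotone (fun n => mx α β n y) := by
  intro n m hnm
  apply Finset.sup'_mono
  intro i hi
  rw [Finset.mem_range] at hi ⊢
  omega

lemma mx_cont (α β : ℕ → ℝ) (n : ℕ) : Continuous (mx α β n) := by
  unfold mx
  exact Continuous.finset_sup'_apply _ (fun i _ => by fun_prop)

lemma mx_growth (α β : ℕ → ℝ) (n : ℕ) : ∃ C : ℝ, ∀ y, |mx α β n y| ≤ C * (1 + y^2) := by
  refine ⟨∑ i ∈ Finset.range (n+1), (|α i| + |β i|), fun y => ?_⟩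
  obtain ⟨i, hi, h⟩ := mx_eq α β n y
  rw [h]
  have h1 : |α i| + |β i| ≤ ∑ i ∈ Finset.range (n+1), (|α i| + |β i|) :=
    Finset.single_le_sum (f := fun i => |α i| + |β i|) (fun i _ => by positivity) hi
  have h2 : |y| ≤ 1 + y^2 := by
    have := sq_nonneg (|y| - 1)
    rw [← sq_abs y]; nlinarith [abs_nonneg y]
  calc |α i * y + β i| ≤ |α i * y| + |β i| := abs_add_le _ _
    _ = |α i| * |y| + |β i| * 1 := by rw [abs_mul, mul_one]
    _ ≤ |α i| * (1 + y^2) + |β i| * (1 + y^2) := by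
        gcongr
        nlinarith [sq_nonneg y]
    _ = (|α i| + |β i|) * (1 + y^2) := by ring
    _ ≤ _ := by gcongr

lemma mx_int (α β : ℕ → ℝ) (n : ℕ) {ν : Measure ℝ} [IsProbabilityMeasure ν] (hν : Integrable (fun x : ℝ => x) ν) :
    Integrable (mx α β n) ν := by
  have h1 : Integrable (fun y : ℝ => (∑ i ∈ Finset.range (n+1), |α i|) * |y| + ∑ i ∈ Finset.range (n+1), |β i|) ν :=
    (hν.abs.const_mul _).add (integrable_const _)
  apply h1.mono' (mx_cont α β n).aestronglyMeasurable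
  apply Eventually.of_forall
  intro y
  obtain ⟨i, hi, h⟩ := mx_eq α β n y
  rw [h, Real.norm_eq_abs]
  have h2 : |α i| ≤ ∑ i ∈ Finset.range (n+1), |α i| :=
    Finset.single_le_sum (f := fun i => |α i|) (fun i _ => by positivity) hi
  have h3 : |β i| ≤ ∑ i ∈ Finset.range (n+1), |β i| :=
    Finset.single_le_sum (f := fun i => |β i|) (fun i _ => by positivity) hi
  calc |α i * y + β i| ≤ |α i * y| + |β i| := abs_add_le _ _
    _ = |α i| * |y| + |β i| := by rw [abs_mul]
    _ ≤ _ := by gcongr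

/-- a convex function is the increasing limit of maxima of finitely many of its tangents -/
lemma exists_mx {Φ : ℝ → ℝ} (hΦ : ConvexOn ℝ Set.univ Φ) : ∃ α β : ℕ → ℝ, (∀ n y, mx α β n y ≤ Φ y) ∧
    ∀ y, Tendsto (fun n => mx α β n y) atTop (𝓝 (Φ y)) := by
  obtain ⟨q, hq⟩ : ∃ q : ℕ → ℝ, q = TopologicalSpace.denseSeq ℝ := ⟨_, rfl⟩
  have hd : DenseRange q := by rw [hq]; exact TopologicalSpace.denseRange_denseSeq ℝ
  refine ⟨fun i => sl Φ (q i), fun i => Φ (q i) - sl Φ (q i) * q i, ?_, ?_⟩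
  · intro n y
    obtain ⟨i, _, h⟩ := mx_eq (fun i => sl Φ (q i)) (fun i => Φ (q i) - sl Φ (q i) * q i) n y
    rw [h]
    have := tangent hΦ (q i) y
    linarith
  · intro y
    have hle : ∀ n, mx (fun i => sl Φ (q i)) (fun i => Φ (q i) - sl Φ (q i) * q i) n y ≤ Φ y := by
      intro n
      obtain ⟨i, _, h⟩ := mx_eq (fun i => sl Φ (q i)) (fun i => Φ (q i) - sl Φ (q i) * q i) n y
      rw [h]
      have := tangent hΦ (q i) y
      linarith
    rw [Metric.tendsto_atTop]
    intro ε hε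
    obtain ⟨G, hG⟩ : ∃ G : ℝ, G = |sl Φ (y-1)| + |sl Φ (y+1)| + 1 := ⟨_, rfl⟩
    have hG0 : 0 < G := by rw [hG]; positivity
    have hc := (conv_cont hΦ).continuousAt (x := y)
    rw [Metric.continuousAt_iff] at hc
    obtain ⟨δ, hδ, hc⟩ := hc (ε/2) (by positivity)
    obtain ⟨i, hi⟩ := Metric.denseRange_iff.mp hd y (min δ (min 1 (ε / (4 * G)))) (by positivity)
    rw [Real.dist_eq, abs_sub_comm] at hi
    have hi1 : |q i - y| < δ := hi.trans_le (min_le_left _ _)
    have hi2 : |q i - y| < 1 := hi.trans_le ((min_le_right _ _).trans (min_le_left _ _))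
    have hi3 : |q i - y| < ε / (4 * G) := hi.trans_le ((min_le_right _ _).trans (min_le_right _ _))
    have h1 := hc (by rw [Real.dist_eq]; exact hi1)
    rw [Real.dist_eq] at h1
    have h2 : |sl Φ (q i)| ≤ G := by
      have m1 := sl_mono hΦ (show y - 1 ≤ q i by linarith [(abs_lt.mp hi2).1])
      have m2 := sl_mono hΦ (show q i ≤ y + 1 by linarith [(abs_lt.mp hi2).2])
      rw [hG, abs_le]
      constructor
      · linarith [neg_abs_le (sl Φ (y-1)), abs_nonneg (sl Φ (y+1))]
      · linarith [le_abs_self (sl Φ (y+1)), abs_nonneg (sl Φ (y-1))]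
    refine ⟨i, fun n hn => ?_⟩
    have h3 := mx_ge (fun i => sl Φ (q i)) (fun i => Φ (q i) - sl Φ (q i) * q i) (n := n) (i := i)
      (Finset.mem_range.mpr (by omega)) y
    have h4 : |sl Φ (q i) * (q i - y)| < ε / 2 := by
      rw [abs_mul]
      calc |sl Φ (q i)| * |q i - y| ≤ G * |q i - y| := by gcongr
        _ < G * (ε / (4 * G)) := by gcongr
        _ = ε / 4 := by field_simp
        _ < ε / 2 := by linarith
    have h5 := (abs_lt.mp h4).2
    have h6 := (abs_lt.mp h1).1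
    rw [Real.dist_eq, abs_lt]
    constructor
    · linarith
    · linarith [hle n]

/-- approximation of the integral of a convex function from below -/
theorem exists_mx_int {Φ : ℝ → ℝ} (hΦ : ConvexOn ℝ Set.univ Φ) {ν : Measure ℝ} [IsProbabilityMeasure ν]
    (hν : Integrable (fun x : ℝ => x) ν) {A : ℝ} (hA : Integrable Φ ν → A < ∫ x, Φ x ∂ν) :
    ∃ (α β : ℕ → ℝ) (n : ℕ), (∀ y, mx α β n y ≤ Φ y) ∧ A < ∫ x, mx α β n x ∂ν := by
  obtain ⟨α, β, h1, h2⟩ := exists_mx hΦ
  by_contra hcon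
  push Not at hcon
  have h3 : ∀ n, ∫ x, mx α β n x ∂ν ≤ A := fun n => hcon α β n (h1 n)
  have hi := fun n => mx_int α β n hν
  -- the differences to the first tangent
  have hmono : ∀ y, Monotone (fun n => mx α β n y - mx α β 0 y) := fun y n m hnm => by
    have := mx_mono α β y hnm
    simp only at this ⊢
    linarith
  have hlim : ∀ y, Tendsto (fun n => mx α β n y - mx α β 0 y) atTop (𝓝 (Φ y - mx α β 0 y)) := fun y =>
    (h2 y).sub tendsto_const_nhds
  have hnn : ∀ y, 0 ≤ Φ y - mx α β 0 y := fun y => by linarith [h1 0 y]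
  have hnn' : ∀ n y, 0 ≤ mx α β n y - mx α β 0 y := fun n y => by
    have := mx_mono α β y (Nat.zero_le n)
    simp only at this
    linarith
  have hmeas : Measurable (fun y => Φ y - mx α β 0 y) := ((conv_cont hΦ).sub (mx_cont α β 0)).measurable
  have hmc := lintegral_tendsto_of_tendsto_of_monotone (μ := ν) (f := fun n y => ENNReal.ofReal (mx α β n y - mx α β 0 y))
    (F := fun y => ENNReal.ofReal (Φ y - mx α β 0 y))
    (fun n => (((mx_cont α β n).sub (mx_cont α β 0)).measurable.ennreal_ofReal).aemeasurable)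
    (Eventually.of_forall fun y n m hnm => ENNReal.ofReal_le_ofReal (hmono y hnm))
    (Eventually.of_forall fun y => (ENNReal.continuous_ofReal.tendsto _).comp (hlim y))
  have hle : ∀ n, ∫⁻ y, ENNReal.ofReal (mx α β n y - mx α β 0 y) ∂ν ≤ ENNReal.ofReal (A - ∫ x, mx α β 0 x ∂ν) := by
    intro n
    have hin : Integrable (fun y => mx α β n y - mx α β 0 y) ν := (hi n).sub (hi 0)
    rw [← ofReal_integral_eq_lintegral_ofReal hin (Eventually.of_forall fun y => hnn' n y)]
    apply ENNReal.ofReal_le_ofReal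
    have e : ∫ x, (mx α β n x - mx α β 0 x) ∂ν = ∫ x, mx α β n x ∂ν - ∫ x, mx α β 0 x ∂ν := integral_sub (hi n) (hi 0)
    rw [e]
    linarith [h3 n]
  have hfin := le_of_tendsto' hmc hle
  have hint : Integrable (fun y => Φ y - mx α β 0 y) ν := by
    refine ⟨hmeas.aestronglyMeasurable, ?_⟩
    rw [hasFiniteIntegral_iff_ofReal (Eventually.of_forall hnn)]
    exact hfin.trans_lt ENNReal.ofReal_lt_top
  have hΦi : Integrable Φ ν := by
    have := hint.add (hi 0)
    refine this.congr (Eventually.of_forall fun y => ?_)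
    simp
  have h4 := hA hΦi
  have h5 : ∫ x, (Φ x - mx α β 0 x) ∂ν ≤ A - ∫ x, mx α β 0 x ∂ν := by
    rw [← ofReal_integral_eq_lintegral_ofReal hint (Eventually.of_forall hnn)] at hfin
    rw [ENNReal.ofReal_le_ofReal_iff'] at hfin
    rcases hfin with h | h
    · exact h
    · have h0 : 0 ≤ ∫ x, (Φ x - mx α β 0 x) ∂ν := integral_nonneg hnn
      have h6 := h3 0
      linarith
  have h6 : ∫ x, (Φ x - mx α β 0 x) ∂ν = ∫ x, Φ x ∂ν - ∫ x, mx α β 0 x ∂ν := integral_sub hΦi (hi 0)
  linarith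

/-- the uniform measure on `[1, 2]` is admissible -/
lemma unif_adm {T : ℝ} (hT : 1 ≤ T) : Adm 1 2 2 (2/5) T (volume.restrict (Set.Ioc (1:ℝ) 2)) := by
  refine ⟨⟨?_⟩, ?_, ?_⟩
  · rw [Measure.restrict_apply_univ, Real.volume_Ioc]; norm_num
  · rw [ae_restrict_iff' measurableSet_Ioc]
    exact Eventually.of_forall fun x hx => ⟨hx.1.le, hx.2⟩
  · intro t ht _
    have ht1 : 1 ≤ |t| := le_trans (Real.one_le_rpow hT (by norm_num)) ht
    have ht0 : t ≠ 0 := fun h => by rw [h, abs_zero] at ht1; linarith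
    have h1 := norm_int_ch ht0 1 2
    rw [intervalIntegral.integral_of_le (by norm_num)] at h1
    refine h1.trans ?_
    rw [div_eq_mul_inv, ← Real.rpow_neg_one]
    apply mul_le_mul_of_nonneg_left _ (by norm_num)
    exact Real.rpow_le_rpow_of_exponent_le ht1 (by norm_num)

lemma unif_int {T : ℝ} (hT : 1 ≤ T) (g : ℝ → ℝ) :
    ∫ x, g (T * x) ∂(volume.restrict (Set.Ioc (1:ℝ) 2)) = (∫ r in T..(T+T), g r) / T := by
  have hT0 : T ≠ 0 := by linarith
  rw [← intervalIntegral.integral_of_le (by norm_num : (1:ℝ) ≤ 2), intervalIntegral.integral_comp_mul_left _ hT0,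
    smul_eq_mul, mul_one, show T * 2 = T + T by ring]
  field_simp

/-- the mean square of the tail over long windows -/
theorem En_ms : ∀ η : ℝ, 0 < η → ∃ M : ℕ, ∃ T₀ : ℝ, ∀ T, T₀ ≤ T →
    ∫ r in T..(T+T), |En r - U ag (3 * Real.pi / 4) r M| ≤ η * T := by
  intro η hη
  obtain ⟨M, hM⟩ := tail_conv (c₁ := 1) (c₂ := 2) (K := 2) (s := 2/5) ag_Bdw ag_zero wg_Wt En_SandW one_pos (by norm_num)
    (by norm_num) (by norm_num) le_rfl (η^2 / 4) (by positivity)
  obtain ⟨T₀, hT₀⟩ := hM M le_rfl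
  refine ⟨M, max T₀ 1, fun T hT => ?_⟩
  have hT1 : 1 ≤ T := (le_max_right _ _).trans hT
  have h1 := hT₀ T ((le_max_left _ _).trans hT) _ (unif_adm hT1)
  rw [unif_int hT1 (fun r => (En r - U ag (3 * Real.pi / 4) r M)^2)] at h1
  have hT0 : 0 < T := by linarith
  rw [div_le_iff₀ hT0] at h1
  -- `|x| ≤ η/2 + x²/(2η)`
  have i0 : IntervalIntegrable (fun r => En r - U ag (3 * Real.pi / 4) r M) volume T (T+T) :=
    (E_ii En_meas En_bdd hT0 (by linarith)).sub ((U_cont _ _ M).intervalIntegrable _ _)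
  have i1 : IntervalIntegrable (fun r => (En r - U ag (3 * Real.pi / 4) r M)^2) volume T (T+T) := by
    rw [intervalIntegrable_iff]
    obtain ⟨B, hB⟩ := En_bdd T (T+T) hT0
    obtain ⟨B2, hB2⟩ := (isCompact_Icc (a := T) (b := T+T)).exists_bound_of_continuousOn (U_cont ag (3 * Real.pi / 4) M).continuousOn
    have : IsFiniteMeasure (volume.restrict (Set.uIoc T (T+T))) := ⟨by
      rw [Measure.restrict_apply_univ, Set.uIoc]
      exact measure_Ioc_lt_top⟩
    apply Integrable.of_bound (C := (B + B2)^2) (((En_meas.sub (U_cont _ _ M).measurable).pow_const 2).aestronglyMeasurable)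
    rw [ae_restrict_iff' measurableSet_uIoc]
    apply Eventually.of_forall
    intro r hr
    rw [Set.uIoc_of_le (by linarith)] at hr
    have b1 := hB r hr.1.le hr.2
    have b2 := hB2 r ⟨hr.1.le, hr.2⟩
    rw [Real.norm_eq_abs] at b2 ⊢
    have b3 : |En r - U ag (3 * Real.pi / 4) r M| ≤ B + B2 := (abs_sub _ _).trans (add_le_add b1 b2)
    change |(En r - U ag (3 * Real.pi / 4) r M) ^ 2| ≤ (B + B2) ^ 2
    rw [abs_pow]
    gcongr
  have i2 : IntervalIntegrable (fun r => η / 2 + (En r - U ag (3 * Real.pi / 4) r M)^2 * (1 / (2 * η))) volume T (T+T) :=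
    (continuous_const.intervalIntegrable _ _).add (i1.mul_const _)
  have h2 : ∫ r in T..(T+T), |En r - U ag (3 * Real.pi / 4) r M| ≤
      ∫ r in T..(T+T), (η / 2 + (En r - U ag (3 * Real.pi / 4) r M)^2 * (1 / (2 * η))) := by
    apply intervalIntegral.integral_mono_on (by linarith) i0.abs i2
    intro r _
    generalize En r - U ag (3 * Real.pi / 4) r M = x
    have h3 : 0 ≤ (|x| - η)^2 := sq_nonneg _
    have h4 : |x|^2 = x^2 := sq_abs x
    have h5 : η / 2 + x^2 * (1 / (2 * η)) = (η^2 + x^2) / (2 * η) := by field_simp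
    rw [h5, le_div_iff₀ (by positivity)]
    nlinarith
  refine h2.trans ?_
  rw [intervalIntegral.integral_add (continuous_const.intervalIntegrable _ _) (i1.mul_const _),
    intervalIntegral.integral_const, intervalIntegral.integral_mul_const, smul_eq_mul]
  have h6 : (∫ r in T..(T+T), (En r - U ag (3 * Real.pi / 4) r M)^2) * (1 / (2 * η)) ≤ (η^2 / 4 * T) * (1 / (2 * η)) := by
    gcongr
  have h7 : (η^2 / 4 * T) * (1 / (2 * η)) = η / 8 * T := by field_simp; norm_num
  nlinarith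

end Pool.Agent.N687.W
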