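import Mathlib
import Pool.Agent.N687.W.A5

/-!
# Convex domination in every window for the error term of the circle problem
-/

set_option autoImplicit false

open MeasureTheory Filter Topology

namespace Pool.Agent.N687.W

open Pool.Agent.H383.Gen (U Bd)
open Pool.Agent.H383.Gauss (En F)
open Pool.Agent.H383.Circ (ag ag_Bd ag_zero wg wg_Wt En_Sand)
open Pool.Agent.R461.GC (ch norm_ch ch_cont fractal tail_conv Adm En_meas En_bdd)
open Pool.Agent.H452R2.Win (ag_Bdw En_SandW)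

/-- the limit law over long windows -/
theorem En_law : ∃ (ν : ProbabilityMeasure ℝ) (G : ℂ → ℂ),
    Differentiable ℂ G ∧ (∀ x : ℝ, 0 ≤ (G x).re ∧ (G x).im = 0) ∧
    (ν : Measure ℝ) = volume.withDensity (fun x : ℝ => ENNReal.ofReal (G x).re) ∧
    (∀ u v : ℝ, u < v → 0 < (ν : Measure ℝ) (Set.Ioo u v)) ∧
    Integrable (fun x : ℝ => x ^ 2) (ν : Measure ℝ) ∧
    ∫ x, x ∂(ν : Measure ℝ) = 0 ∧
    HasSum (fun m : ℕ => if 1 ≤ m then (ag m) ^ 2 / 2 else 0) (∫ x, x ^ 2 ∂(ν : Measure ℝ)) ∧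
    ∀ f : ℝ → ℝ, Continuous f → (∃ C : ℝ, ∀ x, |f x| ≤ C * (1 + x ^ 2)) → ∀ η : ℝ, 0 < η →
      ∃ T₀ : ℝ, ∀ T, T₀ ≤ T → |(∫ r in T..(T+T), f (En r)) / T - ∫ x, f x ∂(ν : Measure ℝ)| ≤ η := by
  obtain ⟨ν, G, h1, h2, h3, h4, h5, h6, h7, h8⟩ := fractal
  refine ⟨ν, G, h1, h2, h3, h4, h5, h6, h7, fun f hf hC η hη => ?_⟩
  obtain ⟨T₀, hT₀⟩ := h8 1 2 2 (2/5) one_pos (by norm_num) f hf hC η hη
  refine ⟨max T₀ 1, fun T hT => ?_⟩
  have hT1 : 1 ≤ T := (le_max_right _ _).trans hT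
  have h9 := hT₀ T ((le_max_left _ _).trans hT) _ (unif_adm hT1)
  rwa [unif_int hT1 (fun r => f (En r))] at h9

/-- convex domination in every window -/
theorem dom_En {ν : ProbabilityMeasure ℝ} (h5 : Integrable (fun x : ℝ => x ^ 2) (ν : Measure ℝ))
    (hlaw : ∀ f : ℝ → ℝ, Continuous f → (∃ C : ℝ, ∀ x, |f x| ≤ C * (1 + x ^ 2)) → ∀ η : ℝ, 0 < η →
      ∃ T₀ : ℝ, ∀ T, T₀ ≤ T → |(∫ r in T..(T+T), f (En r)) / T - ∫ x, f x ∂(ν : Measure ℝ)| ≤ η)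
    {Φ : ℝ → ℝ} (hΦ : ConvexOn ℝ Set.univ Φ) {A : ℝ} (hA : Integrable Φ (ν : Measure ℝ) → A < ∫ x, Φ x ∂(ν : Measure ℝ)) :
    ∃ H₀ : ℝ, 0 < H₀ ∧ ∀ R H : ℝ, 1 ≤ R → H₀ ≤ H → A * H ≤ ∫ r in R..(R+H), Φ (En r) := by
  have hint : Integrable (fun x : ℝ => x) (ν : Measure ℝ) := by
    have h1 : Integrable (fun x : ℝ => 1 + x^2) (ν : Measure ℝ) := (integrable_const _).add h5
    apply h1.mono' measurable_id.aestronglyMeasurable
    apply Eventually.of_forall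
    intro x
    rw [Real.norm_eq_abs]
    have := sq_nonneg (|x| - 1)
    simp only [id]
    rw [← sq_abs x]; nlinarith [abs_nonneg x]
  obtain ⟨α, β, n, k1, k2⟩ := exists_mx_int hΦ hint hA
  obtain ⟨C0, hC0, hS⟩ := En_Sand
  obtain ⟨ε, hε⟩ : ∃ ε, ε = ∫ x, mx α β n x ∂(ν : Measure ℝ) - A := ⟨_, rfl⟩
  have hε0 : 0 < ε := by rw [hε]; linarith
  obtain ⟨H₀, hH₀, k3⟩ := dom_PL (s := Finset.range (n+1)) (α := α) (β := β) (Φ := mx α β n) ag_Bd ag_zero wg_Wt hC0 hS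
    En_meas En_bdd (fun i hi y => mx_ge α β hi y) (mx_eq α β n) (L₀ := ∫ x, mx α β n x ∂(ν : Measure ℝ)) (by
      intro η hη
      obtain ⟨T₀, hT₀⟩ := hlaw (mx α β n) (mx_cont α β n) (mx_growth α β n) η hη
      refine ⟨max T₀ 1, fun T hT => ?_⟩
      have hT1 : 1 ≤ T := (le_max_right _ _).trans hT
      have h1 := (abs_le.mp (hT₀ T ((le_max_left _ _).trans hT))).1
      have h2 : (∫ x, mx α β n x ∂(ν : Measure ℝ)) - η ≤ (∫ r in T..(T+T), mx α β n (En r)) / T := by linarith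
      rwa [le_div_iff₀ (by linarith)] at h2) En_ms hε0
  refine ⟨H₀, hH₀, fun R H hR hH => ?_⟩
  have k4 := k3 R H hR hH
  have e1 : (∫ x, mx α β n x ∂(ν : Measure ℝ)) - ε = A := by rw [hε]; ring
  rw [e1] at k4
  refine k4.trans ?_
  apply intervalIntegral.integral_mono_on (by linarith) (gE_ii En_meas En_bdd (mx_cont α β n) (by linarith) (by linarith))
    (gE_ii En_meas En_bdd (conv_cont hΦ) (by linarith) (by linarith))
  intro r _
  exact k1 (En r)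

/-- the bound cannot be improved -/
theorem sharp_En {ν : ProbabilityMeasure ℝ}
    (hlaw : ∀ f : ℝ → ℝ, Continuous f → (∃ C : ℝ, ∀ x, |f x| ≤ C * (1 + x ^ 2)) → ∀ η : ℝ, 0 < η →
      ∃ T₀ : ℝ, ∀ T, T₀ ≤ T → |(∫ r in T..(T+T), f (En r)) / T - ∫ x, f x ∂(ν : Measure ℝ)| ≤ η)
    {Φ : ℝ → ℝ} (hΦ : Continuous Φ) (hC : ∃ C : ℝ, ∀ x, |Φ x| ≤ C * (1 + x ^ 2)) {ε H : ℝ} (hε : 0 < ε) (hH : 0 < H) :
    ∃ R : ℝ, 1 ≤ R ∧ ∫ r in R..(R+H), Φ (En r) ≤ ((∫ x, Φ x ∂(ν : Measure ℝ)) + ε) * H := by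
  by_contra hcon
  push Not at hcon
  obtain ⟨T₀, hT₀⟩ := hlaw Φ hΦ hC (ε/2) (by positivity)
  obtain ⟨n, hn⟩ := exists_nat_ge ((max T₀ 1) / H)
  rw [div_le_iff₀ hH] at hn
  have hT1 : 1 ≤ n * H := (le_max_right _ _).trans hn
  have h1 := (abs_le.mp (hT₀ (n * H) ((le_max_left _ _).trans hn))).2
  have hT0 : 0 < n * H := by linarith
  have hn0 : (0:ℝ) < n := by
    by_contra h
    push Not at h
    nlinarith
  have h2 := intervalIntegral.sum_integral_adjacent_intervals (f := fun r => Φ (En r)) (μ := volume)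
    (a := fun j : ℕ => n * H + j * H) (n := n) (fun j _ => gE_ii En_meas En_bdd hΦ (by positivity) (by positivity))
  simp only [Nat.cast_zero, zero_mul, add_zero] at h2
  have h3 : ∑ j ∈ Finset.range n, ((∫ x, Φ x ∂(ν : Measure ℝ)) + ε) * H ≤
      ∑ j ∈ Finset.range n, ∫ r in (n * H + (j:ℝ) * H)..(n * H + ((j + 1 : ℕ):ℝ) * H), Φ (En r) := by
    apply Finset.sum_le_sum
    intro j _
    have h4 := hcon (n * H + j * H) (by
      have : (0:ℝ) ≤ j * H := by positivity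
      linarith)
    have e : n * H + (j:ℝ) * H + H = n * H + ((j + 1 : ℕ):ℝ) * H := by push_cast; ring
    rw [e] at h4
    exact h4.le
  rw [h2, Finset.sum_const, Finset.card_range, nsmul_eq_mul] at h3
  have h5 : (∫ r in (n * H)..(n * H + n * H), Φ (En r)) / (n * H) ≤ (∫ x, Φ x ∂(ν : Measure ℝ)) + ε / 2 := by linarith
  rw [div_le_iff₀ hT0] at h5
  nlinarith

end Pool.Agent.N687.W
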