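import Mathlib

/-!
# Signs of the difference of a nondecreasing and a continuous function

If `F` is nondecreasing, `q` continuous and `F - q` has at most `n` zeros in an interval, then the sign of
`F - q` differs from its shift by `h` on a set of measure at most `(2n+1)h`.
-/

set_option autoImplicit false

open MeasureTheory Filter Topology

namespace Pool.Agent.N687.W

/-- intermediate values: a downward change of sign goes through a zero -/
lemma down_zero {F q : ℝ → ℝ} {x y : ℝ} (hF : ∀ s t, x ≤ s → s ≤ t → t ≤ y → F s ≤ F t) (hq : Continuous q)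
    (hxy : x ≤ y) (h1 : q x ≤ F x) (h2 : F y < q y) : ∃ z ∈ Set.Ico x y, F z = q z := by
  obtain ⟨S, hS⟩ : ∃ S : Set ℝ, S = {t | x ≤ t ∧ t ≤ y ∧ q t ≤ F t} := ⟨_, rfl⟩
  have hne : S.Nonempty := ⟨x, by rw [hS]; exact ⟨le_rfl, hxy, h1⟩⟩
  have hbd : BddAbove S := ⟨y, fun t ht => by rw [hS] at ht; exact ht.2.1⟩
  obtain ⟨z, hz⟩ : ∃ z, z = sSup S := ⟨_, rfl⟩
  have hxz : x ≤ z := by
    rw [hz]
    apply le_csSup hbd
    rw [hS]; exact ⟨le_rfl, hxy, h1⟩
  have hzy : z ≤ y := by
    rw [hz]
    apply csSup_le hne
    intro t ht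
    rw [hS] at ht; exact ht.2.1
  -- `q z ≤ F z`
  have hge : q z ≤ F z := by
    apply le_of_forall_pos_le_add
    intro ε hε
    have hc := hq.continuousAt (x := z)
    rw [Metric.continuousAt_iff] at hc
    obtain ⟨δ, hδ, hc⟩ := hc ε hε
    obtain ⟨t, ht, htz⟩ := exists_lt_of_lt_csSup hne (show z - δ < sSup S by rw [← hz]; linarith)
    have htz2 : t ≤ z := by rw [hz]; exact le_csSup hbd ht
    rw [hS] at ht
    have h3 := hc (show dist t z < δ by rw [Real.dist_eq, abs_lt]; constructor <;> linarith)
    rw [Real.dist_eq, abs_lt] at h3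
    have h4 := hF t z ht.1 htz2 hzy
    linarith [ht.2.2, h3.1]
  have hlt : z < y := by
    rcases hzy.lt_or_eq with h | h
    · exact h
    · rw [h] at hge; linarith
  refine ⟨z, ⟨hxz, hlt⟩, le_antisymm ?_ hge⟩
  apply le_of_forall_pos_le_add
  intro ε hε
  have hc := hq.continuousAt (x := z)
  rw [Metric.continuousAt_iff] at hc
  obtain ⟨δ, hδ, hc⟩ := hc ε hε
  obtain ⟨t, ht⟩ : ∃ t, t = min y (z + δ/2) := ⟨_, rfl⟩
  have ht1 : z < t := by rw [ht]; exact lt_min hlt (by linarith)
  have ht2 : t ≤ y := by rw [ht]; exact min_le_left _ _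
  have ht3 : t ≤ z + δ/2 := by rw [ht]; exact min_le_right _ _
  have h3 := hc (show dist t z < δ by rw [Real.dist_eq, abs_lt]; constructor <;> linarith)
  rw [Real.dist_eq, abs_lt] at h3
  have h4 := hF z t hxz ht1.le ht2
  have h5 : F t < q t := by
    by_contra hcon
    push Not at hcon
    have : t ≤ z := by
      rw [hz]
      apply le_csSup hbd
      rw [hS]; exact ⟨by linarith, ht2, hcon⟩
    linarith
  linarith [h3.2]

open Classical in
/-- the sign -/
noncomputable def sg (F q : ℝ → ℝ) (r : ℝ) : ℝ := if q r ≤ F r then 1 else -1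

lemma sg_abs (F q : ℝ → ℝ) (r : ℝ) : |sg F q r| = 1 := by
  unfold sg
  split_ifs <;> simp

lemma sg_mul (F q : ℝ → ℝ) (r : ℝ) : sg F q r * (F r - q r) = |F r - q r| := by
  unfold sg
  split_ifs with h
  · rw [abs_of_nonneg (by linarith), one_mul]
  · push Not at h
    rw [abs_of_neg (by linarith)]; ring

lemma sg_meas {F q : ℝ → ℝ} (hF : Measurable F) (hq : Measurable q) : Measurable (sg F q) := by
  unfold sg
  exact Measurable.ite (measurableSet_le hq hF) measurable_const measurable_const

lemma sg_ii {F q : ℝ → ℝ} (hF : Measurable F) (hq : Measurable q) (x y : ℝ) : IntervalIntegrable (sg F q) volume x y := by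
  rw [intervalIntegrable_iff]
  have : IsFiniteMeasure (volume.restrict (Set.uIoc x y)) := ⟨by
    rw [Measure.restrict_apply_univ, Set.uIoc]
    exact measure_Ioc_lt_top⟩
  apply Integrable.of_bound (C := 1) (sg_meas hF hq).aestronglyMeasurable
  exact Eventually.of_forall fun r => by rw [Real.norm_eq_abs, sg_abs]

/-- the shifted sign differs from the sign on a small set -/
theorem sg_shift {F q : ℝ → ℝ} (hFm : Measurable F) (hq : Continuous q) {R S h : ℝ} (hRS : R ≤ S) (hh : 0 < h)
    (hF : ∀ s t, R ≤ s → s ≤ t → F s ≤ F t) {Z : Finset ℝ}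
    (hZ : ∀ z, R ≤ z → z ≤ S + h → F z = q z → z ∈ Z) :
    ∫ r in R..S, (sg F q (r + h) - sg F q r)^2 ≤ 4 * (2 * Z.card + 1) * h := by
  classical
  -- the downward changes
  obtain ⟨dn, hdn⟩ : ∃ dn : ℝ → ℝ, dn = fun r => if sg F q r = 1 ∧ sg F q (r + h) = -1 then 1 else 0 := ⟨_, rfl⟩
  have hsm := sg_meas hFm hq.measurable
  have hsm' : Measurable (fun r => sg F q (r + h)) := hsm.comp (measurable_id.add_const h)
  have hdm : Measurable dn := by
    rw [hdn]
    exact Measurable.ite ((hsm (measurableSet_singleton 1)).inter (hsm' (measurableSet_singleton (-1)))) measurable_const measurable_const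
  have hdi : ∀ x y, IntervalIntegrable dn volume x y := by
    intro x y
    rw [intervalIntegrable_iff]
    have : IsFiniteMeasure (volume.restrict (Set.uIoc x y)) := ⟨by
      rw [Measure.restrict_apply_univ, Set.uIoc]
      exact measure_Ioc_lt_top⟩
    apply Integrable.of_bound (C := 1) hdm.aestronglyMeasurable
    exact Eventually.of_forall fun r => by
      rw [Real.norm_eq_abs, hdn]
      simp only
      split_ifs <;> simp
  -- their measure
  have hdn_le : ∫ r in R..S, dn r ≤ Z.card * h := by
    have h1 : ∀ r ∈ Set.Icc R S, dn r ≤ ∑ z ∈ Z, Set.indicator (Set.Ioc (z - h) z) (fun _ => (1:ℝ)) r := by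
      intro r hr
      rw [hdn]
      simp only
      split_ifs with hc
      · obtain ⟨hc1, hc2⟩ := hc
        have hc1' : q r ≤ F r := by
          by_contra hcon
          unfold sg at hc1
          rw [if_neg hcon] at hc1
          norm_num at hc1
        have hc2' : F (r + h) < q (r + h) := by
          by_contra hcon
          push Not at hcon
          unfold sg at hc2
          rw [if_pos hcon] at hc2
          norm_num at hc2
        obtain ⟨z, hz, hzz⟩ := down_zero (fun s t hs hst _ => hF s t (by linarith [hr.1]) hst) hq (by linarith) hc1' hc2'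
        have hzZ := hZ z (by linarith [hr.1, hz.1]) (by linarith [hr.2, hz.2]) hzz
        have h2 : (1:ℝ) = Set.indicator (Set.Ioc (z - h) z) (fun _ => (1:ℝ)) r := by
          rw [Set.indicator_of_mem]
          exact ⟨by linarith [hz.2], hz.1⟩
        exact h2.le.trans (Finset.single_le_sum (f := fun z => Set.indicator (Set.Ioc (z - h) z) (fun _ => (1:ℝ)) r)
          (fun z _ => Set.indicator_nonneg (fun _ _ => zero_le_one) r) hzZ)
      · exact Finset.sum_nonneg (fun z _ => Set.indicator_nonneg (fun _ _ => zero_le_one) r)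
    have hii : ∀ z : ℝ, IntervalIntegrable (Set.indicator (Set.Ioc (z - h) z) (fun _ => (1:ℝ))) volume R S := by
      intro z
      rw [intervalIntegrable_iff]
      exact (integrableOn_const (by rw [Set.uIoc]; exact measure_Ioc_lt_top.ne)).indicator measurableSet_Ioc
    have h3 : IntervalIntegrable (fun r => ∑ z ∈ Z, Set.indicator (Set.Ioc (z - h) z) (fun _ => (1:ℝ)) r) volume R S := by
      rw [intervalIntegrable_iff]
      exact integrable_finsetSum Z (fun z _ => intervalIntegrable_iff.mp (hii z))
    refine (intervalIntegral.integral_mono_on hRS (hdi R S) h3 h1).trans ?_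
    rw [intervalIntegral.integral_finsetSum (fun z _ => hii z)]
    have h4 : ∀ z ∈ Z, ∫ r in R..S, Set.indicator (Set.Ioc (z - h) z) (fun _ => (1:ℝ)) r ≤ h := by
      intro z _
      rw [intervalIntegral.integral_of_le hRS, integral_indicator measurableSet_Ioc, Measure.restrict_restrict measurableSet_Ioc]
      rw [integral_const, smul_eq_mul, mul_one, Measure.real, Measure.restrict_apply_univ]
      have h5 : volume (Set.Ioc (z - h) z ∩ Set.Ioc R S) ≤ ENNReal.ofReal h := by
        refine (measure_mono Set.inter_subset_left).trans ?_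
        rw [Real.volume_Ioc]
        exact ENNReal.ofReal_le_ofReal (by linarith)
      exact ENNReal.toReal_le_of_le_ofReal hh.le h5
    refine (Finset.sum_le_sum h4).trans ?_
    rw [Finset.sum_const, nsmul_eq_mul]
  -- the total change
  have hi1 := sg_ii hFm hq.measurable
  have hi2 : ∀ x y, IntervalIntegrable (fun r => sg F q (r + h)) volume x y := fun x y =>
    (IntervalIntegrable.comp_add_right_iff).mpr (hi1 _ _)
  have htot : ∫ r in R..S, (sg F q (r + h) - sg F q r) ≤ 2 * h := by
    rw [intervalIntegral.integral_sub (hi2 _ _) (hi1 _ _), intervalIntegral.integral_comp_add_right (sg F q) h,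
      intervalIntegral.integral_interval_sub_interval_comm (hi1 _ _) (hi1 _ _) (hi1 _ _)]
    have hb : ∀ x, |∫ r in x..(x+h), sg F q r| ≤ h := by
      intro x
      have := intervalIntegral.norm_integral_le_of_norm_le_const (f := sg F q) (a := x) (b := x+h)
        (C := 1) (fun r _ => by rw [Real.norm_eq_abs, sg_abs])
      rwa [Real.norm_eq_abs, add_sub_cancel_left, abs_of_pos hh, one_mul] at this
    have b1 := (abs_le.mp (hb R)).1
    have b2 := (abs_le.mp (hb S)).2
    have e1 : ∫ r in (R+h)..R, sg F q r = -∫ r in R..(R+h), sg F q r := intervalIntegral.integral_symm _ _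
    have e2 : ∫ r in (S+h)..S, sg F q r = -∫ r in S..(S+h), sg F q r := intervalIntegral.integral_symm _ _
    rw [e1, e2]
    linarith
  -- the square
  have hpt : ∀ r, (sg F q (r + h) - sg F q r)^2 = 2 * (sg F q (r + h) - sg F q r) + 8 * dn r := by
    intro r
    have h1 : sg F q r = 1 ∨ sg F q r = -1 := by unfold sg; split_ifs <;> simp
    have h2 : sg F q (r + h) = 1 ∨ sg F q (r + h) = -1 := by unfold sg; split_ifs <;> simp
    rw [hdn]
    simp only
    rcases h1 with h1 | h1 <;> rcases h2 with h2 | h2 <;> rw [h1, h2] <;> norm_num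
  simp only [hpt]
  have hi3 : IntervalIntegrable (fun r => 2 * (sg F q (r + h) - sg F q r)) volume R S := ((hi2 _ _).sub (hi1 _ _)).const_mul 2
  rw [intervalIntegral.integral_add hi3 ((hdi _ _).const_mul 8), intervalIntegral.integral_const_mul,
    intervalIntegral.integral_const_mul]
  nlinarith

end Pool.Agent.N687.W
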