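import Mathlib
import Pool.Agent.N687.W.A1
import Pool.Agent.N687.W.B1

/-!
# Pairing of a function with few sign changes and a block of a trigonometric series
-/

set_option autoImplicit false

open MeasureTheory Filter Topology

namespace Pool.Agent.N687.W

open Pool.Agent.R461.GC (ch norm_ch ch_cont ch_zero)

/-- the mean square of an exponential polynomial -/
lemma quad_fin (μ : Measure ℝ) [IsFiniteMeasure μ] (S : Finset ℕ) (c : ℕ → ℂ) (l : ℕ → ℝ) :
    ∫ x, ‖∑ m ∈ S, c m * ch (l m) x‖ ^ 2 ∂μ ≤ ∑ m ∈ S, ∑ m' ∈ S, ‖c m‖ * ‖c m'‖ * ‖∫ x, ch (l m - l m') x ∂μ‖ := by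
  have hint : ∀ θ : ℝ, Integrable (ch θ) μ := fun θ =>
    Integrable.of_bound (ch_cont θ).aestronglyMeasurable 1 (Eventually.of_forall fun x => (norm_ch θ x).le)
  have h1 : ((∫ x, ‖∑ m ∈ S, c m * ch (l m) x‖ ^ 2 ∂μ : ℝ) : ℂ) =
      ∑ m ∈ S, ∑ m' ∈ S, (c m * (starRingEnd ℂ) (c m')) * ∫ x, ch (l m - l m') x ∂μ := by
    rw [← integral_complex_ofReal]
    have h2 : ∀ x, ((‖∑ m ∈ S, c m * ch (l m) x‖ ^ 2 : ℝ) : ℂ) =
        ∑ m ∈ S, ∑ m' ∈ S, (c m * (starRingEnd ℂ) (c m')) * ch (l m - l m') x := by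
      intro x
      push_cast
      rw [← Complex.mul_conj', map_sum, Finset.sum_mul_sum]
      apply Finset.sum_congr rfl
      intro m _
      apply Finset.sum_congr rfl
      intro m' _
      rw [map_mul]
      have h3 : ch (l m - l m') x = ch (l m) x * (starRingEnd ℂ) (ch (l m') x) := by
        unfold ch
        rw [← Complex.exp_conj, map_mul, Complex.conj_ofReal, Complex.conj_I, ← Complex.exp_add]
        congr 1
        push_cast
        ring
      rw [h3]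
      ring
    simp_rw [h2]
    rw [integral_finsetSum]
    · apply Finset.sum_congr rfl
      intro m _
      rw [integral_finsetSum]
      · apply Finset.sum_congr rfl
        intro m' _
        rw [integral_const_mul]
      · intro m' _
        exact (hint _).const_mul _
    · intro m _
      exact integrable_finsetSum _ fun m' _ => (hint _).const_mul _
  have h4 : 0 ≤ ∫ x, ‖∑ m ∈ S, c m * ch (l m) x‖ ^ 2 ∂μ := integral_nonneg fun x => by positivity
  have h5 : ‖((∫ x, ‖∑ m ∈ S, c m * ch (l m) x‖ ^ 2 ∂μ : ℝ) : ℂ)‖ = ∫ x, ‖∑ m ∈ S, c m * ch (l m) x‖ ^ 2 ∂μ := by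
    rw [Complex.norm_real, Real.norm_eq_abs, abs_of_nonneg h4]
  rw [← h5, h1]
  refine (norm_sum_le _ _).trans (Finset.sum_le_sum fun m _ => (norm_sum_le _ _).trans (Finset.sum_le_sum fun m' _ => ?_))
  rw [norm_mul, norm_mul, RCLike.norm_conj]

lemma harm (n : ℕ) : ∑ k ∈ Finset.Icc (1:ℕ) (2^n), 1/(k:ℝ) ≤ 1 + n := by
  induction n with
  | zero => simp
  | succ n ih =>
    have h1 : Finset.Icc (1:ℕ) (2^(n+1)) = Finset.Icc 1 (2^n) ∪ Finset.Ioc (2^n) (2^(n+1)) := by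
      have h0 : 1 ≤ 2^n := Nat.one_le_two_pow
      have h2 : 2^n ≤ 2^(n+1) := Nat.pow_le_pow_right (by norm_num) (by omega)
      ext k
      simp only [Finset.mem_union, Finset.mem_Icc, Finset.mem_Ioc]
      omega
    have h2 : Disjoint (Finset.Icc (1:ℕ) (2^n)) (Finset.Ioc (2^n) (2^(n+1))) := by
      rw [Finset.disjoint_left]
      intro k hk hk'
      rw [Finset.mem_Icc] at hk
      rw [Finset.mem_Ioc] at hk'
      omega
    rw [h1, Finset.sum_union h2]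
    have h3 : ∑ k ∈ Finset.Ioc ((2:ℕ)^n) (2^(n+1)), 1/(k:ℝ) ≤ 1 := by
      calc ∑ k ∈ Finset.Ioc ((2:ℕ)^n) (2^(n+1)), 1/(k:ℝ) ≤ ∑ k ∈ Finset.Ioc ((2:ℕ)^n) (2^(n+1)), 1/((2:ℝ)^n) := by
            apply Finset.sum_le_sum
            intro k hk
            rw [Finset.mem_Ioc] at hk
            have : (2:ℝ)^n ≤ k := by exact_mod_cast hk.1.le
            gcongr
        _ = 1 := by
            rw [Finset.sum_const, Nat.card_Ioc, nsmul_eq_mul]
            have : 2^(n+1) - 2^n = 2^n := by rw [pow_succ]; omega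
            rw [this]
            push_cast
            field_simp
    push_cast
    linarith

/-- the reciprocals of the distances to a point of the block -/
lemma off_sum {j : ℕ} {I : Finset ℕ} (hI : I ⊆ Finset.Ico (2^j) (2^(j+1))) {m : ℕ} (hm : m ∈ I) :
    ∑ m' ∈ I.erase m, 1/|(m:ℝ) - m'| ≤ 2 * (1 + j) := by
  classical
  have hmI := Finset.mem_Ico.mp (hI hm)
  have h2j : 2^(j+1) = 2 * 2^j := by rw [pow_succ]; ring
  have hsplit : I.erase m = (I.filter (fun m' => m' < m)) ∪ (I.filter (fun m' => m < m')) := by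
    ext k
    simp only [Finset.mem_erase, Finset.mem_union, Finset.mem_filter]
    constructor
    · rintro ⟨h1, h2⟩
      rcases lt_or_gt_of_ne h1 with h | h
      · exact Or.inl ⟨h2, h⟩
      · exact Or.inr ⟨h2, h⟩
    · rintro (⟨h1, h2⟩ | ⟨h1, h2⟩)
      · exact ⟨by omega, h1⟩
      · exact ⟨by omega, h1⟩
  have hdis : Disjoint (I.filter (fun m' => m' < m)) (I.filter (fun m' => m < m')) := by
    rw [Finset.disjoint_left]
    intro k hk hk'
    rw [Finset.mem_filter] at hk hk'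
    omega
  rw [hsplit, Finset.sum_union hdis]
  have hA : ∑ m' ∈ I.filter (fun m' => m' < m), 1/|(m:ℝ) - m'| ≤ 1 + j := by
    have e1 : ∀ m' ∈ I.filter (fun m' => m' < m), 1/|(m:ℝ) - m'| = (fun k : ℕ => 1/(k:ℝ)) (m - m') := by
      intro m' hm'
      rw [Finset.mem_filter] at hm'
      simp only
      rw [Nat.cast_sub hm'.2.le, abs_of_pos (by
        have : (m':ℝ) < m := by exact_mod_cast hm'.2
        linarith)]
    rw [Finset.sum_congr rfl e1, ← Finset.sum_image (f := fun k : ℕ => 1/(k:ℝ)) (g := fun m' => m - m')]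
    · refine le_trans (Finset.sum_le_sum_of_subset_of_nonneg ?_ (fun k _ _ => by positivity)) (harm j)
      intro k hk
      rw [Finset.mem_image] at hk
      obtain ⟨m', hm', rfl⟩ := hk
      rw [Finset.mem_filter] at hm'
      have := Finset.mem_Ico.mp (hI hm'.1)
      rw [Finset.mem_Icc]
      omega
    · intro x hx y hy hxy
      rw [Finset.mem_coe, Finset.mem_filter] at hx hy
      simp only at hxy
      omega
  have hB : ∑ m' ∈ I.filter (fun m' => m < m'), 1/|(m:ℝ) - m'| ≤ 1 + j := by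
    have e1 : ∀ m' ∈ I.filter (fun m' => m < m'), 1/|(m:ℝ) - m'| = (fun k : ℕ => 1/(k:ℝ)) (m' - m) := by
      intro m' hm'
      rw [Finset.mem_filter] at hm'
      simp only
      rw [Nat.cast_sub hm'.2.le, abs_sub_comm, abs_of_pos (by
        have : (m:ℝ) < m' := by exact_mod_cast hm'.2
        linarith)]
    rw [Finset.sum_congr rfl e1, ← Finset.sum_image (f := fun k : ℕ => 1/(k:ℝ)) (g := fun m' => m' - m)]
    · refine le_trans (Finset.sum_le_sum_of_subset_of_nonneg ?_ (fun k _ _ => by positivity)) (harm j)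
      intro k hk
      rw [Finset.mem_image] at hk
      obtain ⟨m', hm', rfl⟩ := hk
      rw [Finset.mem_filter] at hm'
      have := Finset.mem_Ico.mp (hI hm'.1)
      rw [Finset.mem_Icc]
      omega
    · intro x hx y hy hxy
      rw [Finset.mem_coe, Finset.mem_filter] at hx hy
      simp only at hxy
      omega
  linarith

/-- frequencies -/
noncomputable def fq (m : ℕ) : ℝ := 2 * Real.pi * √(m:ℝ)

lemma fq_cross {j : ℕ} {m m' : ℕ} (hm : m ∈ Finset.Ico (2^j) (2^(j+1))) (hm' : m' ∈ Finset.Ico (2^j) (2^(j+1)))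
    (hne : m ≠ m') (R S : ℝ) : ‖∫ r in R..S, ch (fq m - fq m') r‖ ≤ √((2:ℝ)^j) * (1/|(m:ℝ) - m'|) := by
  rw [Finset.mem_Ico] at hm hm'
  have hpi := Real.pi_gt_three
  have hmR : (m:ℝ) ≠ m' := by exact_mod_cast hne
  have hd : 0 < |(m:ℝ) - m'| := abs_pos.mpr (sub_ne_zero.mpr hmR)
  have h0 : (1:ℝ) ≤ m := by
    have : 1 ≤ m := le_trans Nat.one_le_two_pow hm.1
    exact_mod_cast this
  have h0' : (1:ℝ) ≤ m' := by
    have : 1 ≤ m' := le_trans Nat.one_le_two_pow hm'.1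
    exact_mod_cast this
  have hs : 0 < √(m:ℝ) := Real.sqrt_pos.mpr (by linarith)
  have hs' : 0 < √(m':ℝ) := Real.sqrt_pos.mpr (by linarith)
  have e1 : fq m - fq m' = 2 * Real.pi * ((m:ℝ) - m') / (√(m:ℝ) + √(m':ℝ)) := by
    unfold fq
    rw [eq_div_iff (by positivity)]
    have a1 := Real.mul_self_sqrt (show (0:ℝ) ≤ m by linarith)
    have a2 := Real.mul_self_sqrt (show (0:ℝ) ≤ m' by linarith)
    calc (2 * Real.pi * √(m:ℝ) - 2 * Real.pi * √(m':ℝ)) * (√(m:ℝ) + √(m':ℝ)) =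
        2 * Real.pi * (√(m:ℝ) * √(m:ℝ) - √(m':ℝ) * √(m':ℝ)) := by ring
      _ = _ := by rw [a1, a2]
  have e2 : |fq m - fq m'| = 2 * Real.pi * |(m:ℝ) - m'| / (√(m:ℝ) + √(m':ℝ)) := by
    rw [e1, abs_div, abs_mul, abs_of_pos (by positivity : (0:ℝ) < 2 * Real.pi), abs_of_pos (by positivity : 0 < √(m:ℝ) + √(m':ℝ))]
  have hne' : fq m - fq m' ≠ 0 := by
    rw [← abs_pos, e2]; positivity
  refine (norm_int_ch hne' R S).trans ?_
  rw [e2]
  have h2N : ∀ k : ℕ, k < 2^(j+1) → √(k:ℝ) ≤ √2 * √((2:ℝ)^j) := by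
    intro k hk
    rw [← Real.sqrt_mul (by norm_num)]
    apply Real.sqrt_le_sqrt
    have : (k:ℝ) < 2^(j+1) := by exact_mod_cast hk
    rw [pow_succ] at this
    linarith
  have b1 := h2N m hm.2
  have b2 := h2N m' hm'.2
  have hs2 : √2 ≤ 3/2 := by
    rw [Real.sqrt_le_left (by norm_num)]; norm_num
  have hN : 0 < √((2:ℝ)^j) := Real.sqrt_pos.mpr (by positivity)
  calc 2 / (2 * Real.pi * |(m:ℝ) - m'| / (√(m:ℝ) + √(m':ℝ))) = (√(m:ℝ) + √(m':ℝ)) / Real.pi * (1/|(m:ℝ) - m'|) := by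
        field_simp
    _ ≤ √((2:ℝ)^j) * (1/|(m:ℝ) - m'|) := by
        apply mul_le_mul_of_nonneg_right _ (by positivity)
        rw [div_le_iff₀ (by positivity)]
        nlinarith

/-- the mean square of a block over a window -/
theorem ms_block {j : ℕ} {I : Finset ℕ} (hI : I ⊆ Finset.Ico (2^j) (2^(j+1))) (q : ℕ → ℂ) {R S : ℝ} (hRS : R ≤ S) :
    ∫ r in R..S, ‖∑ m ∈ I, q m * ch (fq m) r‖ ^ 2 ≤
      (∑ m ∈ I, ‖q m‖^2) * ((S - R) + 2 * √((2:ℝ)^j) * (1 + j)) := by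
  classical
  rw [intervalIntegral.integral_of_le hRS]
  have hfin : IsFiniteMeasure (volume.restrict (Set.Ioc R S)) := ⟨by
    rw [Measure.restrict_apply_univ]
    exact measure_Ioc_lt_top⟩
  refine (quad_fin (volume.restrict (Set.Ioc R S)) I q fq).trans ?_
  simp only [← intervalIntegral.integral_of_le hRS]
  have hN : 0 ≤ √((2:ℝ)^j) := Real.sqrt_nonneg _
  -- the diagonal and the rest
  have h1 : ∀ m ∈ I, ∑ m' ∈ I, ‖q m‖ * ‖q m'‖ * ‖∫ r in R..S, ch (fq m - fq m') r‖ ≤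
      ‖q m‖^2 * (S - R) + ∑ m' ∈ I.erase m, ((‖q m‖^2 + ‖q m'‖^2)/2) * (√((2:ℝ)^j) * (1/|(m:ℝ) - m'|)) := by
    intro m hm
    rw [← Finset.add_sum_erase I _ hm]
    apply add_le_add
    · rw [sub_self, ch_zero]
      simp only [Pi.one_apply]
      rw [intervalIntegral.integral_const, norm_smul, norm_one, mul_one, Real.norm_eq_abs, abs_of_nonneg (by linarith), ← pow_two]
    · apply Finset.sum_le_sum
      intro m' hm'
      rw [Finset.mem_erase] at hm'
      have h2 := fq_cross (hI hm) (hI hm'.2) (Ne.symm hm'.1) R S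
      have h3 : ‖q m‖ * ‖q m'‖ ≤ (‖q m‖^2 + ‖q m'‖^2)/2 := by nlinarith [sq_nonneg (‖q m‖ - ‖q m'‖)]
      exact mul_le_mul h3 h2 (norm_nonneg _) (by positivity)
  refine (Finset.sum_le_sum h1).trans ?_
  rw [Finset.sum_add_distrib, ← Finset.sum_mul, mul_add]
  apply add_le_add le_rfl
  -- symmetrize
  have h4 : ∑ m ∈ I, ∑ m' ∈ I.erase m, ((‖q m‖^2 + ‖q m'‖^2)/2) * (√((2:ℝ)^j) * (1/|(m:ℝ) - m'|)) =
      ∑ m ∈ I, ∑ m' ∈ I.erase m, ‖q m‖^2 * (√((2:ℝ)^j) * (1/|(m:ℝ) - m'|)) := by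
    have h5 : ∀ g : ℕ → ℕ → ℝ, ∑ m ∈ I, ∑ m' ∈ I.erase m, g m m' = ∑ m ∈ I, ∑ m' ∈ I, if m' ≠ m then g m m' else 0 := by
      intro g
      apply Finset.sum_congr rfl
      intro m _
      rw [← Finset.sum_filter]
      apply Finset.sum_congr _ (fun _ _ => rfl)
      ext k
      simp only [Finset.mem_erase, Finset.mem_filter]
      tauto
    have h6 : ∑ m ∈ I, ∑ m' ∈ I.erase m, ‖q m'‖^2 * (√((2:ℝ)^j) * (1/|(m:ℝ) - m'|)) =
        ∑ m ∈ I, ∑ m' ∈ I.erase m, ‖q m‖^2 * (√((2:ℝ)^j) * (1/|(m:ℝ) - m'|)) := by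
      rw [h5 (fun m m' => ‖q m'‖^2 * (√((2:ℝ)^j) * (1/|(m:ℝ) - m'|))),
        h5 (fun m m' => ‖q m‖^2 * (√((2:ℝ)^j) * (1/|(m:ℝ) - m'|))), Finset.sum_comm]
      apply Finset.sum_congr rfl
      intro m _
      apply Finset.sum_congr rfl
      intro m' _
      simp only [ne_comm (a := m), abs_sub_comm (m':ℝ)]
    have h7 : ∀ m m' : ℕ, ((‖q m‖^2 + ‖q m'‖^2)/2) * (√((2:ℝ)^j) * (1/|(m:ℝ) - m'|)) =
        (1/2) * (‖q m‖^2 * (√((2:ℝ)^j) * (1/|(m:ℝ) - m'|))) + (1/2) * (‖q m'‖^2 * (√((2:ℝ)^j) * (1/|(m:ℝ) - m'|))) := by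
      intro m m'; ring
    have h8 : ∑ m ∈ I, ∑ m' ∈ I.erase m, ((‖q m‖^2 + ‖q m'‖^2)/2) * (√((2:ℝ)^j) * (1/|(m:ℝ) - m'|)) =
        (1/2) * ∑ m ∈ I, ∑ m' ∈ I.erase m, ‖q m‖^2 * (√((2:ℝ)^j) * (1/|(m:ℝ) - m'|)) +
        (1/2) * ∑ m ∈ I, ∑ m' ∈ I.erase m, ‖q m'‖^2 * (√((2:ℝ)^j) * (1/|(m:ℝ) - m'|)) := by
      rw [Finset.mul_sum, Finset.mul_sum, ← Finset.sum_add_distrib]
      apply Finset.sum_congr rfl
      intro m _
      rw [Finset.mul_sum, Finset.mul_sum, ← Finset.sum_add_distrib]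
      apply Finset.sum_congr rfl
      intro m' _
      exact h7 m m'
    rw [h8, h6]
    ring
  rw [h4, Finset.sum_mul]
  apply Finset.sum_le_sum
  intro m hm
  rw [← Finset.mul_sum, ← Finset.mul_sum]
  apply mul_le_mul_of_nonneg_left _ (by positivity)
  have h8 := off_sum hI hm
  calc √((2:ℝ)^j) * ∑ m' ∈ I.erase m, 1/|(m:ℝ) - m'| ≤ √((2:ℝ)^j) * (2 * (1 + j)) := by gcongr
    _ = _ := by ring

lemma le_sqrt_of_param {x X Y : ℝ} (hX : 0 < X) (hY : 0 < Y) (h : ∀ l : ℝ, 0 < l → x ≤ l * X / 2 + Y / (2 * l)) :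
    x ≤ √(X * Y) := by
  have hsX : 0 < √X := Real.sqrt_pos.mpr hX
  have hsY : 0 < √Y := Real.sqrt_pos.mpr hY
  have h1 := h (√Y / √X) (by positivity)
  have e1 : √Y / √X * X / 2 + Y / (2 * (√Y / √X)) = √X * √Y := by
    have a1 := Real.mul_self_sqrt hX.le
    have a2 := Real.mul_self_sqrt hY.le
    have b1 : √Y / √X * X = √X * √Y := by
      nth_rewrite 2 [← a1]
      field_simp
    have b2 : Y / (2 * (√Y / √X)) = √X * √Y / 2 := by
      nth_rewrite 1 [← a2]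
      field_simp
    rw [b1, b2]; ring
  rw [e1] at h1
  rwa [Real.sqrt_mul hX.le]

/-- Cauchy-Schwarz -/
lemma cs_int {f g : ℝ → ℝ} {x y X Y : ℝ} (hxy : x ≤ y) (hf : IntervalIntegrable (fun r => f r ^ 2) volume x y)
    (hg : IntervalIntegrable (fun r => g r ^ 2) volume x y) (hfg : IntervalIntegrable (fun r => f r * g r) volume x y)
    (hX : ∫ r in x..y, f r ^ 2 ≤ X) (hY : ∫ r in x..y, g r ^ 2 ≤ Y) (hX0 : 0 < X) (hY0 : 0 < Y) :
    |∫ r in x..y, f r * g r| ≤ √(X * Y) := by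
  apply le_sqrt_of_param hX0 hY0
  intro l hl
  refine (intervalIntegral.abs_integral_le_integral_abs hxy).trans ?_
  have h1 : ∫ r in x..y, |f r * g r| ≤ ∫ r in x..y, (l / 2 * f r ^ 2 + 1 / (2 * l) * g r ^ 2) := by
    apply intervalIntegral.integral_mono_on hxy hfg.abs ((hf.const_mul _).add (hg.const_mul _))
    intro r _
    rw [abs_mul]
    have h2 : 0 ≤ (l * |f r| - |g r|)^2 := sq_nonneg _
    have h3 : l / 2 * f r ^ 2 + 1 / (2 * l) * g r ^ 2 = (l^2 * |f r|^2 + |g r|^2) / (2 * l) := by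
      rw [sq_abs, sq_abs]; field_simp
    rw [h3, le_div_iff₀ (by positivity)]
    nlinarith
  refine h1.trans ?_
  rw [intervalIntegral.integral_add (hf.const_mul _) (hg.const_mul _), intervalIntegral.integral_const_mul,
    intervalIntegral.integral_const_mul]
  have h4 : l / 2 * ∫ r in x..y, f r ^ 2 ≤ l / 2 * X := by gcongr
  have h5 : 1 / (2 * l) * ∫ r in x..y, g r ^ 2 ≤ 1 / (2 * l) * Y := by gcongr
  have e1 : l / 2 * X = l * X / 2 := by ring
  have e2 : 1 / (2 * l) * Y = Y / (2 * l) := by ring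
  linarith

end Pool.Agent.N687.W
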