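import Mathlib
import Pool.Agent.N687.W.B2

/-!
# Pairing of a function with few sign changes and a trigonometric sum
-/

set_option autoImplicit false

open MeasureTheory Filter Topology

namespace Pool.Agent.N687.W

open Pool.Agent.R461.GC (ch norm_ch ch_cont ch_zero)

lemma cs_int0 {f g : ℝ → ℝ} {x y X Y : ℝ} (hxy : x ≤ y) (hf : IntervalIntegrable (fun r => f r ^ 2) volume x y)
    (hg : IntervalIntegrable (fun r => g r ^ 2) volume x y) (hfg : IntervalIntegrable (fun r => f r * g r) volume x y)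
    (hX : ∫ r in x..y, f r ^ 2 ≤ X) (hY : ∫ r in x..y, g r ^ 2 ≤ Y) (hX0 : 0 ≤ X) (hY0 : 0 ≤ Y) :
    |∫ r in x..y, f r * g r| ≤ √(X * Y) := by
  have h1 : ∀ ε : ℝ, 0 < ε → |∫ r in x..y, f r * g r| ≤ √((X + ε) * (Y + ε)) := fun ε hε =>
    cs_int hxy hf hg hfg (hX.trans (by linarith)) (hY.trans (by linarith)) (by linarith) (by linarith)
  have hc : Continuous (fun ε : ℝ => √((X + ε) * (Y + ε))) := by fun_prop
  have h2 : Tendsto (fun ε : ℝ => √((X + ε) * (Y + ε))) (𝓝[>] 0) (𝓝 (√(X * Y))) := by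
    have := (hc.tendsto 0).mono_left (nhdsWithin_le_nhds (s := Set.Ioi 0))
    simpa using this
  refine ge_of_tendsto h2 ?_
  filter_upwards [self_mem_nhdsWithin] with ε hε
  exact h1 ε hε

lemma bdd_ii {f : ℝ → ℝ} (hf : Measurable f) {B : ℝ} {x y : ℝ} (hB : ∀ r ∈ Set.uIoc x y, |f r| ≤ B) :
    IntervalIntegrable f volume x y := by
  rw [intervalIntegrable_iff]
  have : IsFiniteMeasure (volume.restrict (Set.uIoc x y)) := ⟨by
    rw [Measure.restrict_apply_univ, Set.uIoc]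
    exact measure_Ioc_lt_top⟩
  apply Integrable.of_bound (C := B) hf.aestronglyMeasurable
  rw [ae_restrict_iff' measurableSet_uIoc]
  exact Eventually.of_forall fun r hr => by rw [Real.norm_eq_abs]; exact hB r hr

lemma ch_sub_one {x : ℝ} (h1 : Real.pi / 2 ≤ x) (h2 : x ≤ Real.pi) : 1 ≤ ‖ch x 1 - 1‖ := by
  have hc : Real.cos x ≤ 0 := Real.cos_nonpos_of_pi_div_two_le_of_le h1 (by linarith [Real.pi_pos])
  have e : ch x 1 - 1 = ((Real.cos x - 1 : ℝ) : ℂ) + ((Real.sin x : ℝ) : ℂ) * Complex.I := by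
    unfold ch
    rw [mul_one, Complex.exp_mul_I, ← Complex.ofReal_cos, ← Complex.ofReal_sin]
    push_cast; ring
  have h3 : ‖ch x 1 - 1‖ ^ 2 = (Real.cos x - 1)^2 + Real.sin x ^ 2 := by
    rw [← Complex.normSq_eq_norm_sq, e, Complex.normSq_add_mul_I]
  have h4 : 1 ≤ ‖ch x 1 - 1‖ ^ 2 := by
    rw [h3]
    nlinarith [Real.sin_sq_add_cos_sq x]
  have h5 := norm_nonneg (ch x 1 - 1)
  nlinarith

/-- one block -/
theorem block_pair {s : ℝ → ℝ} (hsm : Measurable s) (hs1 : ∀ r, |s r| ≤ 1) {R S X0 : ℝ} (hRS : R ≤ S) (hX0 : 4 ≤ X0)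
    (hsh : ∀ h : ℝ, 0 < h → h ≤ 1 → ∫ r in R..S, (s (r + h) - s r)^2 ≤ X0 * h)
    {j : ℕ} {I : Finset ℕ} (hI : I ⊆ Finset.Ico (2^j) (2^(j+1))) (c : ℕ → ℂ) {b : ℕ → ℝ} (hb : ∀ m ∈ I, ‖c m‖ ≤ b m)
    {V : ℝ} (hV : ∑ m ∈ I, (b m)^2 ≤ V) :
    |∫ r in R..S, s r * (∑ m ∈ I, c m * ch (fq m) r).re| ≤ √(X0 * (V * ((S - R + 1)/√((2:ℝ)^j) + 2 * (1 + j)))) := by
  classical
  have hpi := Real.pi_pos
  have hV0 : 0 ≤ V := (Finset.sum_nonneg (fun m _ => sq_nonneg (b m))).trans hV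
  have hNp : (0:ℝ) < 2^j := by positivity
  have hsN : 0 < √((2:ℝ)^j) := Real.sqrt_pos.mpr hNp
  have hsN1 : 1 ≤ √((2:ℝ)^j) := Real.one_le_sqrt.mpr (one_le_pow₀ (by norm_num))
  obtain ⟨h, hh⟩ : ∃ h : ℝ, h = 1 / (4 * √((2:ℝ)^j)) := ⟨_, rfl⟩
  have hh0 : 0 < h := by rw [hh]; positivity
  have hh1 : h ≤ 1 := by
    rw [hh, div_le_one (by positivity)]; linarith
  -- the differences of the characters
  have hd : ∀ m ∈ I, 1 ≤ ‖ch (fq m) h - 1‖ := by
    intro m hm
    have hm' := Finset.mem_Ico.mp (hI hm)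
    have e : ch (fq m) h = ch (fq m * h) 1 := by unfold ch; rw [mul_one]
    rw [e]
    have h1 : √((2:ℝ)^j) ≤ √(m:ℝ) := Real.sqrt_le_sqrt (by exact_mod_cast hm'.1)
    have h2 : √(m:ℝ) ≤ 2 * √((2:ℝ)^j) := by
      rw [show (2:ℝ) * √((2:ℝ)^j) = √(4 * 2^j) by
        rw [Real.sqrt_mul (by norm_num), show (4:ℝ) = 2^2 by norm_num, Real.sqrt_sq (by norm_num)]]
      apply Real.sqrt_le_sqrt
      have : (m:ℝ) < 2^(j+1) := by exact_mod_cast hm'.2
      rw [pow_succ] at this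
      linarith
    have e2 : fq m * h = Real.pi / 2 * (√(m:ℝ) / √((2:ℝ)^j)) := by
      unfold fq; rw [hh]; field_simp; ring
    rw [e2]
    apply ch_sub_one
    · have : 1 ≤ √(m:ℝ) / √((2:ℝ)^j) := by rw [one_le_div hsN]; exact h1
      nlinarith
    · have : √(m:ℝ) / √((2:ℝ)^j) ≤ 2 := by rw [div_le_iff₀ hsN]; exact h2
      nlinarith
  obtain ⟨q, hq⟩ : ∃ q : ℕ → ℂ, q = fun m => c m / (ch (fq m) h - 1) := ⟨_, rfl⟩
  have hqb : ∀ m ∈ I, ‖q m‖ ≤ b m := by
    intro m hm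
    rw [hq]
    simp only
    rw [norm_div]
    exact (div_le_self (norm_nonneg _) (hd m hm)).trans (hb m hm)
  obtain ⟨Q, hQ⟩ : ∃ Q : ℝ → ℝ, Q = fun r => (∑ m ∈ I, q m * ch (fq m) r).re := ⟨_, rfl⟩
  have hQcc : Continuous (fun r => ∑ m ∈ I, q m * ch (fq m) r) :=
    continuous_finsetSum I (fun m _ => continuous_const.mul (ch_cont _))
  have hQc : Continuous Q := by
    rw [hQ]; exact Complex.continuous_re.comp hQcc
  have hD : ∀ r, (∑ m ∈ I, c m * ch (fq m) r).re = Q (r + h) - Q r := by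
    intro r
    rw [hQ]
    simp only
    rw [← Complex.sub_re, ← Finset.sum_sub_distrib]
    congr 1
    apply Finset.sum_congr rfl
    intro m hm
    have hne : ch (fq m) h - 1 ≠ 0 := by
      intro h0
      have := hd m hm
      rw [h0, norm_zero] at this
      linarith
    have e : ch (fq m) (r + h) = ch (fq m) r * ch (fq m) h := by
      unfold ch
      rw [← Complex.exp_add]
      congr 1
      push_cast; ring
    rw [hq]
    simp only
    rw [e]
    field_simp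
  -- the mean square of `Q`
  obtain ⟨Y, hY⟩ : ∃ Y : ℝ, Y = V * ((S + h - R) + 2 * √((2:ℝ)^j) * (1 + j)) := ⟨_, rfl⟩
  have hj0 : (0:ℝ) ≤ j := Nat.cast_nonneg j
  have hY0 : 0 ≤ Y := by
    rw [hY]
    apply mul_nonneg hV0
    have : 0 ≤ S + h - R := by linarith
    positivity
  have hQ2 : ∀ x y, R ≤ x → x ≤ y → y ≤ S + h → ∫ r in x..y, Q r ^ 2 ≤ Y := by
    intro x y hx hxy hy
    have h1 : ∫ r in x..y, Q r ^ 2 ≤ ∫ r in R..(S+h), Q r ^ 2 :=
      intervalIntegral.integral_mono_interval hx hxy hy (Eventually.of_forall fun r => sq_nonneg _)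
        ((hQc.pow 2).intervalIntegrable _ _)
    refine h1.trans ?_
    have h2 : ∫ r in R..(S+h), Q r ^ 2 ≤ ∫ r in R..(S+h), ‖∑ m ∈ I, q m * ch (fq m) r‖ ^ 2 := by
      apply intervalIntegral.integral_mono_on (by linarith) ((hQc.pow 2).intervalIntegrable _ _)
        ((hQcc.norm.pow 2).intervalIntegrable _ _)
      intro r _
      have h3 := Complex.abs_re_le_norm (∑ m ∈ I, q m * ch (fq m) r)
      have h4 : Q r ^ 2 = |(∑ m ∈ I, q m * ch (fq m) r).re| ^ 2 := by rw [sq_abs, hQ]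
      change Q r ^ 2 ≤ ‖∑ m ∈ I, q m * ch (fq m) r‖ ^ 2
      rw [h4]
      gcongr
    refine h2.trans ((ms_block hI q (by linarith)).trans ?_)
    rw [hY]
    apply mul_le_mul_of_nonneg_right
    · refine le_trans (Finset.sum_le_sum fun m hm => ?_) hV
      have := hqb m hm
      have h0 := norm_nonneg (q m)
      gcongr
    · have : 0 ≤ S + h - R := by linarith
      positivity
  have hsb : ∀ x y, IntervalIntegrable s volume x y := fun x y => bdd_ii hsm (fun r _ => hs1 r)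
  have hsm' : Measurable (fun r => s (r + h)) := hsm.comp (measurable_id.add_const h)
  have hsb' : ∀ x y, IntervalIntegrable (fun r => s (r + h)) volume x y := fun x y => bdd_ii hsm' (fun r _ => hs1 _)
  have hQh : Continuous (fun r => Q (r + h)) := hQc.comp (by fun_prop)
  have i1 : ∀ x y, IntervalIntegrable (fun r => (s r - s (r + h)) * Q (r + h)) volume x y := fun x y =>
    ((hsb x y).sub (hsb' x y)).mul_continuousOn hQh.continuousOn
  have i2 : ∀ x y, IntervalIntegrable (fun r => s (r + h) * Q (r + h)) volume x y := fun x y =>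
    (hsb' x y).mul_continuousOn hQh.continuousOn
  have i3 : ∀ x y, IntervalIntegrable (fun r => s r * Q r) volume x y := fun x y =>
    (hsb x y).mul_continuousOn hQc.continuousOn
  have e0 : ∫ r in R..S, s r * (∑ m ∈ I, c m * ch (fq m) r).re =
      (∫ r in R..S, (s r - s (r + h)) * Q (r + h)) + (∫ r in S..(S+h), s r * Q r) - ∫ r in R..(R+h), s r * Q r := by
    have e1 : ∀ r, s r * (∑ m ∈ I, c m * ch (fq m) r).re =
        ((s r - s (r + h)) * Q (r + h) + s (r + h) * Q (r + h)) - s r * Q r := by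
      intro r
      rw [hD r]; ring
    simp only [e1]
    rw [intervalIntegral.integral_sub ((i1 _ _).add (i2 _ _)) (i3 _ _), intervalIntegral.integral_add (i1 _ _) (i2 _ _)]
    have e2 : ∫ r in R..S, s (r + h) * Q (r + h) = ∫ r in (R+h)..(S+h), s r * Q r :=
      intervalIntegral.integral_comp_add_right (fun r => s r * Q r) h
    rw [e2]
    have e3 := intervalIntegral.integral_interval_sub_interval_comm (i3 (R+h) (S+h)) (i3 R S) (i3 (R+h) R)
    have e4 : ∫ r in (R+h)..R, s r * Q r = -∫ r in R..(R+h), s r * Q r := intervalIntegral.integral_symm _ _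
    have e5 : ∫ r in (S+h)..S, s r * Q r = -∫ r in S..(S+h), s r * Q r := intervalIntegral.integral_symm _ _
    rw [e4, e5] at e3
    linarith
  rw [e0]
  have b1 : |∫ r in R..S, (s r - s (r + h)) * Q (r + h)| ≤ √((X0 * h) * Y) := by
    apply cs_int0 hRS
    · apply bdd_ii (B := 4) ((hsm.sub hsm').pow_const 2)
      intro r _
      have a1 := abs_le.mp (hs1 r)
      have a2 := abs_le.mp (hs1 (r + h))
      change |(s r - s (r + h)) ^ 2| ≤ 4
      rw [abs_of_nonneg (sq_nonneg _)]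
      nlinarith
    · exact (hQh.pow 2).intervalIntegrable _ _
    · exact i1 _ _
    · have := hsh h hh0 hh1
      refine le_trans (le_of_eq ?_) this
      congr 1
      funext r
      ring
    · have e2 : ∫ r in R..S, Q (r + h) ^ 2 = ∫ r in (R+h)..(S+h), Q r ^ 2 :=
        intervalIntegral.integral_comp_add_right (fun r => Q r ^ 2) h
      rw [e2]
      exact hQ2 _ _ (by linarith) (by linarith) le_rfl
    · positivity
    · exact hY0
  have b2 : ∀ x, R ≤ x → x ≤ S → |∫ r in x..(x+h), s r * Q r| ≤ √(h * Y) := by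
    intro x hx hxS
    have i4 : IntervalIntegrable (fun r => s r ^ 2) volume x (x+h) := by
      apply bdd_ii (B := 1) (hsm.pow_const 2)
      intro r _
      rw [abs_pow]
      exact pow_le_one₀ (abs_nonneg _) (hs1 r)
    apply cs_int0 (by linarith) i4 ((hQc.pow 2).intervalIntegrable _ _) (i3 _ _) ?_ (hQ2 _ _ hx (by linarith) (by linarith))
      hh0.le hY0
    calc ∫ r in x..(x+h), s r ^ 2 ≤ ∫ r in x..(x+h), (1:ℝ) := by
          apply intervalIntegral.integral_mono_on (by linarith) i4 (continuous_const.intervalIntegrable _ _)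
          intro r _
          rw [← sq_abs]
          exact pow_le_one₀ (abs_nonneg _) (hs1 r)
      _ = h := by rw [intervalIntegral.integral_const, smul_eq_mul]; ring
  have b3 := b2 S hRS le_rfl
  have b4 := b2 R le_rfl hRS
  have c1 : √(h * Y) ≤ √((X0 * h) * Y) / 2 := by
    have : √((X0 * h) * Y) / 2 = √((X0 * h * Y) / 4) := by
      rw [Real.sqrt_div' _ (by norm_num), show (4:ℝ) = 2^2 by norm_num, Real.sqrt_sq (by norm_num)]
    rw [this]
    apply Real.sqrt_le_sqrt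
    have : 0 ≤ h * Y := by positivity
    nlinarith
  have c2 : 2 * √((X0 * h) * Y) = √(X0 * (Y / √((2:ℝ)^j))) := by
    have e : X0 * (Y / √((2:ℝ)^j)) = 4 * ((X0 * h) * Y) := by
      rw [hh]; field_simp
    rw [e, Real.sqrt_mul (by norm_num : (0:ℝ) ≤ 4), show √(4:ℝ) = 2 by
      rw [show (4:ℝ) = 2^2 by norm_num, Real.sqrt_sq (by norm_num)]]
  have c3 : Y / √((2:ℝ)^j) ≤ V * ((S - R + 1)/√((2:ℝ)^j) + 2 * (1 + j)) := by
    rw [hY]
    have e : V * ((S + h - R) + 2 * √((2:ℝ)^j) * (1 + j)) / √((2:ℝ)^j) = V * ((S + h - R)/√((2:ℝ)^j) + 2 * (1 + j)) := by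
      field_simp
    rw [e]
    gcongr
    linarith
  have c4 : √(X0 * (Y / √((2:ℝ)^j))) ≤ √(X0 * (V * ((S - R + 1)/√((2:ℝ)^j) + 2 * (1 + j)))) := by
    apply Real.sqrt_le_sqrt
    gcongr
  have b5 := abs_le.mp b1
  have b6 := abs_le.mp b3
  have b7 := abs_le.mp b4
  rw [abs_le]
  constructor <;> linarith [b5.1, b5.2, b6.1, b6.2, b7.1, b7.2]

lemma sqrt_add_le' {x y : ℝ} (hx : 0 ≤ x) (hy : 0 ≤ y) : √(x + y) ≤ √x + √y := by
  rw [Real.sqrt_le_left (by positivity)]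
  have a1 := Real.sq_sqrt hx
  have a2 := Real.sq_sqrt hy
  have a3 : 0 ≤ √x * √y := by positivity
  nlinarith

/-- the energy of a block -/
noncomputable def Vb (b : ℕ → ℝ) (j : ℕ) : ℝ := ∑ m ∈ Finset.Ico (2^j) (2^(j+1)), (b m)^2

lemma Vb_nonneg (b : ℕ → ℝ) (j : ℕ) : 0 ≤ Vb b j := Finset.sum_nonneg (fun m _ => sq_nonneg _)

/-- all blocks -/
theorem sum_pair {s : ℝ → ℝ} (hsm : Measurable s) (hs1 : ∀ r, |s r| ≤ 1) {R S X0 : ℝ} (hRS : R ≤ S) (hX0 : 4 ≤ X0)
    (hsh : ∀ h : ℝ, 0 < h → h ≤ 1 → ∫ r in R..S, (s (r + h) - s r)^2 ≤ X0 * h)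
    (c : ℕ → ℂ) {b : ℕ → ℝ} (hb : ∀ m, ‖c m‖ ≤ b m) (Y : ℕ)
    (hS1 : Summable (fun j : ℕ => √(Vb b j / √((2:ℝ)^j)))) (hS2 : Summable (fun j : ℕ => √(2 * (1 + j) * Vb b j))) :
    |∫ r in R..S, s r * (∑ m ∈ Finset.Icc 1 Y, c m * ch (fq m) r).re| ≤
      √(X0 * (S - R + 1)) * ∑' j : ℕ, √(Vb b j / √((2:ℝ)^j)) + √X0 * ∑' j : ℕ, √(2 * (1 + j) * Vb b j) := by
  classical
  have hsb : ∀ x y, IntervalIntegrable s volume x y := fun x y => bdd_ii hsm (fun r _ => hs1 r)
  obtain ⟨I, hI⟩ : ∃ I : ℕ → Finset ℕ, I = fun j => (Finset.Icc 1 Y).filter (fun m => Nat.log 2 m = j) := ⟨_, rfl⟩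
  have hIs : ∀ j, I j ⊆ Finset.Ico (2^j) (2^(j+1)) := by
    intro j m hm
    rw [hI] at hm
    simp only [Finset.mem_filter, Finset.mem_Icc] at hm
    rw [Finset.mem_Ico, ← hm.2]
    exact ⟨Nat.pow_log_le_self 2 (by omega), Nat.lt_pow_succ_log_self (by norm_num) m⟩
  have hmap : ∀ m ∈ Finset.Icc 1 Y, Nat.log 2 m ∈ Finset.range (Y+1) := by
    intro m hm
    rw [Finset.mem_Icc] at hm
    rw [Finset.mem_range]
    have := Nat.log_lt_self 2 (show m ≠ 0 by omega)
    omega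
  have e1 : ∀ r, ∑ m ∈ Finset.Icc 1 Y, c m * ch (fq m) r = ∑ j ∈ Finset.range (Y+1), ∑ m ∈ I j, c m * ch (fq m) r := by
    intro r
    rw [← Finset.sum_fiberwise_of_maps_to hmap (fun m => c m * ch (fq m) r)]
    rw [hI]
  have e2 : ∀ r, s r * (∑ m ∈ Finset.Icc 1 Y, c m * ch (fq m) r).re =
      ∑ j ∈ Finset.range (Y+1), s r * (∑ m ∈ I j, c m * ch (fq m) r).re := by
    intro r
    rw [e1, Complex.re_sum, Finset.mul_sum]
  simp only [e2]
  have hii : ∀ j ∈ Finset.range (Y+1), IntervalIntegrable (fun r => s r * (∑ m ∈ I j, c m * ch (fq m) r).re) volume R S := by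
    intro j _
    apply (hsb R S).mul_continuousOn
    apply Continuous.continuousOn
    exact Complex.continuous_re.comp (continuous_finsetSum (I j) (fun m _ => continuous_const.mul (ch_cont _)))
  rw [intervalIntegral.integral_finsetSum hii]
  refine (Finset.abs_sum_le_sum_abs _ _).trans ?_
  have hblk : ∀ j ∈ Finset.range (Y+1), |∫ r in R..S, s r * (∑ m ∈ I j, c m * ch (fq m) r).re| ≤
      √(X0 * (S - R + 1)) * √(Vb b j / √((2:ℝ)^j)) + √X0 * √(2 * (1 + j) * Vb b j) := by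
    intro j _
    have hV : ∑ m ∈ I j, (b m)^2 ≤ Vb b j := by
      unfold Vb
      exact Finset.sum_le_sum_of_subset_of_nonneg (hIs j) (fun m _ _ => sq_nonneg _)
    refine (block_pair hsm hs1 hRS hX0 hsh (hIs j) c (fun m _ => hb m) hV).trans ?_
    have hj0 : (0:ℝ) ≤ j := Nat.cast_nonneg j
    have hVb := Vb_nonneg b j
    have hSR : 0 ≤ S - R + 1 := by linarith
    have e3 : X0 * (Vb b j * ((S - R + 1)/√((2:ℝ)^j) + 2 * (1 + j))) =
        (X0 * (S - R + 1)) * (Vb b j / √((2:ℝ)^j)) + X0 * (2 * (1 + j) * Vb b j) := by ring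
    rw [e3, ← Real.sqrt_mul (by positivity), ← Real.sqrt_mul (by linarith)]
    exact sqrt_add_le' (by positivity) (by positivity)
  refine (Finset.sum_le_sum hblk).trans ?_
  rw [Finset.sum_add_distrib, ← Finset.mul_sum, ← Finset.mul_sum]
  have t1 := hS1.sum_le_tsum (Finset.range (Y+1)) (fun j _ => Real.sqrt_nonneg _)
  have t2 := hS2.sum_le_tsum (Finset.range (Y+1)) (fun j _ => Real.sqrt_nonneg _)
  have n1 := Real.sqrt_nonneg (X0 * (S - R + 1))
  have n2 := Real.sqrt_nonneg X0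
  gcongr

end Pool.Agent.N687.W
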