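import Mathlib
import Pool.Agent.N687.W.A4
import Pool.Agent.N687.W.B3

/-!
# Pairing of a function with few sign changes and the error term
-/

set_option autoImplicit false

open MeasureTheory Filter Topology

namespace Pool.Agent.N687.W

open Pool.Agent.H383.Gen (U Bd)
open Pool.Agent.H383.GW (Wt wt WS er Sand WS_tail WS_low wt_summable wt_far abs_wt_le)
open Pool.Agent.R461.GC (ch norm_ch ch_cont ch_zero)

variable {a : ℕ → ℝ} {φ : ℝ} {w : ℝ → ℂ} {E : ℝ → ℝ} {κ₁ κ₂ C0 : ℝ}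

open Classical in
/-- the coefficients in a set -/
noncomputable def aIn (𝒜 : Set ℕ) (a : ℕ → ℝ) (m : ℕ) : ℝ := if m ∈ 𝒜 then a m else 0

lemma aIn_add (𝒜 : Set ℕ) (a : ℕ → ℝ) (m : ℕ) : aIn 𝒜 a m + aIn 𝒜ᶜ a m = a m := by
  unfold aIn
  by_cases h : m ∈ 𝒜
  · rw [if_pos h, if_neg (by simpa using h), add_zero]
  · rw [if_neg h, if_pos (by simpa using h), zero_add]

lemma aIn_abs_le (𝒜 : Set ℕ) (a : ℕ → ℝ) (m : ℕ) : |aIn 𝒜 a m| ≤ |a m| := by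
  unfold aIn
  split_ifs
  · exact le_rfl
  · rw [abs_zero]; exact abs_nonneg _

lemma aIn_Bd (𝒜 : Set ℕ) (ha : Bd a) : Bd (aIn 𝒜 a) := by
  obtain ⟨C, hC, h⟩ := ha
  exact ⟨C, hC, fun m hm => (aIn_abs_le 𝒜 a m).trans (h m hm)⟩

lemma aIn_zero (𝒜 : Set ℕ) (ha0 : a 0 = 0) : aIn 𝒜 a 0 = 0 := by
  unfold aIn
  split_ifs
  · exact ha0
  · rfl

lemma wt_add (𝒜 : Set ℕ) (a : ℕ → ℝ) (φ : ℝ) (w : ℝ → ℂ) (R δ : ℝ) (m : ℕ) :
    wt a φ w R δ m = wt (aIn 𝒜 a) φ w R δ m + wt (aIn 𝒜ᶜ a) φ w R δ m := by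
  unfold wt
  rw [← add_mul, aIn_add]

lemma WS_add (𝒜 : Set ℕ) (ha : Bd a) (ha0 : a 0 = 0) (hw : Wt w) {δ : ℝ} (hδ : 0 < δ) (R : ℝ) :
    WS a φ w R δ = WS (aIn 𝒜 a) φ w R δ + WS (aIn 𝒜ᶜ a) φ w R δ := by
  have h1 := wt_summable (φ := φ) (aIn_Bd 𝒜 ha) (aIn_zero 𝒜 ha0) hw hδ R
  have h2 := wt_summable (φ := φ) (aIn_Bd 𝒜ᶜ ha) (aIn_zero 𝒜ᶜ ha0) hw hδ R
  unfold WS
  rw [← h1.tsum_add h2]
  exact tsum_congr (fun m => wt_add 𝒜 a φ w R δ m)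

/-- one term as the real part of a character -/
lemma wt_as_re (hw : Wt w) {δ : ℝ} (hδ : 0 < δ) (κ : ℝ) {m : ℕ} (hm : 1 ≤ m) : ∃ c : ℂ, ‖c‖ ≤ |a m| ∧
    ∀ r : ℝ, wt a φ w (r + κ * δ) δ m = (c * ch (fq m) r).re := by
  have hm0 : (0:ℝ) < m := by exact_mod_cast hm
  have hs : 0 < √(m:ℝ) := Real.sqrt_pos.mpr hm0
  refine ⟨((a m : ℝ) : ℂ) * (Complex.exp (((2 * Real.pi * (κ * δ * √(m:ℝ)) - φ : ℝ) : ℂ) * Complex.I) * w (√(m:ℝ) * δ)), ?_, ?_⟩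
  · rw [norm_mul, norm_mul, Complex.norm_exp_ofReal_mul_I, one_mul, Complex.norm_real, Real.norm_eq_abs]
    exact mul_le_of_le_one_right (abs_nonneg _) (hw.one _ (by positivity))
  · intro r
    unfold wt
    rw [← Complex.re_ofReal_mul]
    congr 1
    rw [mul_assoc ((a m : ℝ) : ℂ)]
    congr 1
    have e : Complex.exp (((2 * Real.pi * ((r + κ * δ) * √(m:ℝ)) - φ : ℝ) : ℂ) * Complex.I) =
        Complex.exp (((2 * Real.pi * (κ * δ * √(m:ℝ)) - φ : ℝ) : ℂ) * Complex.I) * ch (fq m) r := by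
      unfold ch fq
      rw [← Complex.exp_add]
      congr 1
      push_cast; ring
    rw [e]; ring

/-- tail of an absolutely summable part -/
lemma WS_abs_tail (ha : Bd a) (ha0 : a 0 = 0) (hw : Wt w) (hsum : Summable (fun m => |a m|)) (M : ℕ) {δ : ℝ} (hδ : 0 < δ) (R : ℝ) :
    |WS a φ w R δ - ∑ m ∈ Finset.Icc 1 (M^2), wt a φ w R δ m| ≤ ∑' m, (Set.indicator {m : ℕ | m ∉ Finset.Icc 1 (M^2)} (fun m => |a m|) m) := by
  have h1 := wt_summable (φ := φ) ha ha0 hw hδ R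
  have h2 : WS a φ w R δ - ∑ m ∈ Finset.Icc 1 (M^2), wt a φ w R δ m =
      ∑' m, (Set.indicator {m : ℕ | m ∉ Finset.Icc 1 (M^2)} (fun m => wt a φ w R δ m) m) := by
    unfold WS
    rw [← h1.sum_add_tsum_compl (s := Finset.Icc 1 (M^2)), add_sub_cancel_left]
    exact tsum_subtype ({m : ℕ | m ∉ Finset.Icc 1 (M^2)}) (fun m => wt a φ w R δ m)
  rw [h2]
  have hsi := hsum.indicator {m : ℕ | m ∉ Finset.Icc 1 (M^2)}
  have hle : ∀ m, ‖Set.indicator {m : ℕ | m ∉ Finset.Icc 1 (M^2)} (fun m => wt a φ w R δ m) m‖ ≤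
      Set.indicator {m : ℕ | m ∉ Finset.Icc 1 (M^2)} (fun m => |a m|) m := by
    intro m
    by_cases hm : m ∈ {m : ℕ | m ∉ Finset.Icc 1 (M^2)}
    · rw [Set.indicator_of_mem hm, Set.indicator_of_mem hm, Real.norm_eq_abs]
      rcases Nat.eq_zero_or_pos m with rfl | h0
      · unfold wt
        rw [ha0, zero_mul]
      · refine (abs_wt_le _ _ _).trans ?_
        have hm0 : (0:ℝ) < m := by exact_mod_cast h0
        exact mul_le_of_le_one_right (abs_nonneg _) (hw.one _ (mul_pos (Real.sqrt_pos.mpr hm0) hδ))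
    · rw [Set.indicator_of_notMem hm, Set.indicator_of_notMem hm, norm_zero]
  rw [← Real.norm_eq_abs]
  exact tsum_of_norm_bounded hsi.hasSum hle

lemma int_abs_le_const {f : ℝ → ℝ} {x y K : ℝ} (hxy : x ≤ y) (h : ∀ r, x ≤ r → r ≤ y → |f r| ≤ K) :
    |∫ r in x..y, f r| ≤ K * (y - x) := by
  have h1 := intervalIntegral.norm_integral_le_of_norm_le_const (a := x) (b := y) (C := K) (f := f) (fun r hr => by
    rw [Set.uIoc_of_le hxy] at hr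
    rw [Real.norm_eq_abs]
    exact h r hr.1.le hr.2)
  rwa [Real.norm_eq_abs, abs_of_nonneg (by linarith : 0 ≤ y - x)] at h1

/-- the smoothed tail part against a function with few sign changes -/
theorem WS_pair (ha : Bd a) (ha0 : a 0 = 0) (hw : Wt w)
    (hS1 : Summable (fun j : ℕ => √(Vb (fun m => |a m|) j / √((2:ℝ)^j))))
    (hS2 : Summable (fun j : ℕ => √(2 * (1 + j) * Vb (fun m => |a m|) j)))
    {s : ℝ → ℝ} (hsm : Measurable s) (hs1 : ∀ r, |s r| ≤ 1) {R S X0 : ℝ} (hRS : R ≤ S) (hX0 : 4 ≤ X0)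
    (hsh : ∀ h : ℝ, 0 < h → h ≤ 1 → ∫ r in R..S, (s (r + h) - s r)^2 ≤ X0 * h) {δ : ℝ} (hδ : 0 < δ) (κ : ℝ) :
    |∫ r in R..S, s r * WS a φ w (r + κ * δ) δ| ≤
      √(X0 * (S - R + 1)) * ∑' j : ℕ, √(Vb (fun m => |a m|) j / √((2:ℝ)^j)) +
        √X0 * ∑' j : ℕ, √(2 * (1 + j) * Vb (fun m => |a m|) j) := by
  obtain ⟨C', hC', htail⟩ := WS_tail (φ := φ) ha ha0 hw
  have hch : ∀ m : ℕ, ∃ c : ℂ, ‖c‖ ≤ |a m| ∧ (1 ≤ m → ∀ r : ℝ, wt a φ w (r + κ * δ) δ m = (c * ch (fq m) r).re) := by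
    intro m
    by_cases hm : 1 ≤ m
    · obtain ⟨c, h1, h2⟩ := wt_as_re (a := a) (φ := φ) hw hδ κ hm
      exact ⟨c, h1, fun _ => h2⟩
    · exact ⟨0, by rw [norm_zero]; exact abs_nonneg _, fun h => absurd h hm⟩
  choose c hc1 hc2 using hch
  have hsb : ∀ x y, IntervalIntegrable s volume x y := fun x y => bdd_ii hsm (fun r _ => hs1 r)
  have hWc : Continuous (fun r : ℝ => WS a φ w (r + κ * δ) δ) := (WS_cont ha ha0 hw hδ).comp (by fun_prop)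
  apply le_of_forall_pos_le_add
  intro ε hε
  obtain ⟨Y, hY1, hY2⟩ : ∃ Y : ℕ, 1 ≤ Y ∧ C' * δ ^ (-(3/2):ℝ) * (Y:ℝ) ^ (-(24/25):ℝ) * (S - R) ≤ ε := by
    have h1 : Tendsto (fun Y : ℕ => C' * δ ^ (-(3/2):ℝ) * (Y:ℝ) ^ (-(24/25):ℝ) * (S - R)) atTop (𝓝 0) := by
      have h2 := ((tendsto_rpow_neg_atTop (show (0:ℝ) < 24/25 by norm_num)).comp tendsto_natCast_atTop_atTop).const_mul (C' * δ ^ (-(3/2):ℝ))
      have h3 := h2.mul_const (S - R)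
      rw [mul_zero, zero_mul] at h3
      exact h3
    obtain ⟨Y, hY⟩ := ((h1.eventually (gt_mem_nhds hε)).and (eventually_ge_atTop 1)).exists
    exact ⟨Y, hY.2, hY.1.le⟩
  have hTc : Continuous (fun r : ℝ => (∑ m ∈ Finset.Icc 1 (Y^2), c m * ch (fq m) r).re) :=
    Complex.continuous_re.comp (continuous_finsetSum _ (fun m _ => continuous_const.mul (ch_cont _)))
  have hT : ∀ r, ∑ m ∈ Finset.Icc 1 (Y^2), wt a φ w (r + κ * δ) δ m = (∑ m ∈ Finset.Icc 1 (Y^2), c m * ch (fq m) r).re := by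
    intro r
    rw [Complex.re_sum]
    exact Finset.sum_congr rfl fun m hm => hc2 m (Finset.mem_Icc.mp hm).1 r
  have e1 : ∫ r in R..S, s r * WS a φ w (r + κ * δ) δ =
      (∫ r in R..S, s r * (∑ m ∈ Finset.Icc 1 (Y^2), c m * ch (fq m) r).re) +
      ∫ r in R..S, s r * (WS a φ w (r + κ * δ) δ - (∑ m ∈ Finset.Icc 1 (Y^2), c m * ch (fq m) r).re) := by
    have i1 : IntervalIntegrable (fun r => s r * (∑ m ∈ Finset.Icc 1 (Y^2), c m * ch (fq m) r).re) volume R S :=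
      (hsb _ _).mul_continuousOn hTc.continuousOn
    have i2 : IntervalIntegrable (fun r => s r * (WS a φ w (r + κ * δ) δ - (∑ m ∈ Finset.Icc 1 (Y^2), c m * ch (fq m) r).re)) volume R S :=
      (hsb _ _).mul_continuousOn (hWc.sub hTc).continuousOn
    rw [← intervalIntegral.integral_add i1 i2]
    congr 1
    funext r
    ring
  rw [e1]
  refine (abs_add_le _ _).trans ?_
  have k1 := sum_pair hsm hs1 hRS hX0 hsh c hc1 (Y^2) hS1 hS2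
  have k2 : |∫ r in R..S, s r * (WS a φ w (r + κ * δ) δ - (∑ m ∈ Finset.Icc 1 (Y^2), c m * ch (fq m) r).re)| ≤
      C' * δ ^ (-(3/2):ℝ) * (Y:ℝ) ^ (-(24/25):ℝ) * (S - R) := by
    apply int_abs_le_const hRS
    intro r _ _
    rw [abs_mul, ← hT r]
    calc |s r| * _ ≤ 1 * _ := mul_le_mul_of_nonneg_right (hs1 r) (abs_nonneg _)
      _ = _ := one_mul _
      _ ≤ _ := htail δ hδ _ Y hY1
  linarith

/-- upper bound for the pairing with the error term minus the low part -/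
theorem up_pair (ha : Bd a) (ha0 : a 0 = 0) (hw : Wt w) (hC0 : 0 < C0)
    (hS : Sand E a φ w κ₁ κ₂ C0) (hEm : Measurable E)
    (hEb : ∀ R₁ R₂ : ℝ, 0 < R₁ → ∃ B : ℝ, ∀ r, R₁ ≤ r → r ≤ R₂ → |E r| ≤ B)
    (𝒜 : Set ℕ) (hsum : Summable (fun m => |aIn 𝒜 a m|))
    (hS1 : Summable (fun j : ℕ => √(Vb (fun m => |aIn 𝒜ᶜ a m|) j / √((2:ℝ)^j))))
    (hS2 : Summable (fun j : ℕ => √(2 * (1 + j) * Vb (fun m => |aIn 𝒜ᶜ a m|) j))) (M : ℕ) :
    ∃ K : ℝ, 0 < K ∧ ∀ (R H : ℝ), 4 ≤ R → 0 ≤ H → H ≤ R → ∀ s : ℝ → ℝ, Measurable s → (∀ r, |s r| ≤ 1) →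
      ∀ X0 : ℝ, 4 ≤ X0 → (∀ h : ℝ, 0 < h → h ≤ 1 → ∫ r in R..(R+H), (s (r + h) - s r)^2 ≤ X0 * h) →
      |∫ r in R..(R+H), s r * (E r - U (aIn 𝒜 a) φ r M)| ≤ K * (R ^ (-(1/100):ℝ) * (H + 1)) +
        (∑' m, (Set.indicator {m : ℕ | m ∉ Finset.Icc 1 (M^2)} (fun m => |aIn 𝒜 a m|) m)) * H +
        (√(X0 * (H + 1)) * ∑' j : ℕ, √(Vb (fun m => |aIn 𝒜ᶜ a m|) j / √((2:ℝ)^j)) +
        √X0 * ∑' j : ℕ, √(2 * (1 + j) * Vb (fun m => |aIn 𝒜ᶜ a m|) j)) := by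
  obtain ⟨C, hC, hL⟩ := L1_close ha ha0 hw hC0 hS hEm hEb
  obtain ⟨Kl, hKl, hlow⟩ := WS_low (aIn 𝒜 a) φ hw κ₂ M
  refine ⟨C + Kl, by positivity, ?_⟩
  intro R H hR hH hHR s hsm hs1 X0 hX0 hsh
  have hR0 : 0 < R := by linarith
  obtain ⟨δ, hδ⟩ : ∃ δ : ℝ, δ = R ^ (-(52/100):ℝ) := ⟨_, rfl⟩
  have hδ0 : 0 < δ := by rw [hδ]; positivity
  have hδ1 : δ ≤ R ^ (-(1/100):ℝ) := by
    rw [hδ]
    exact Real.rpow_le_rpow_of_exponent_le (by linarith) (by norm_num)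
  have hL1 := hL R H hR hH hHR
  rw [← hδ] at hL1
  have hsb : ∀ x y, IntervalIntegrable s volume x y := fun x y => bdd_ii hsm (fun r _ => hs1 r)
  have hWc : Continuous (fun r : ℝ => WS a φ w (r + κ₂ * δ) δ) := (WS_cont ha ha0 hw hδ0).comp (by fun_prop)
  have hWAc : Continuous (fun r : ℝ => WS (aIn 𝒜 a) φ w (r + κ₂ * δ) δ) :=
    (WS_cont (aIn_Bd 𝒜 ha) (aIn_zero 𝒜 ha0) hw hδ0).comp (by fun_prop)
  have hWBc : Continuous (fun r : ℝ => WS (aIn 𝒜ᶜ a) φ w (r + κ₂ * δ) δ) :=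
    (WS_cont (aIn_Bd 𝒜ᶜ ha) (aIn_zero 𝒜ᶜ ha0) hw hδ0).comp (by fun_prop)
  have hUc := U_cont (aIn 𝒜 a) φ M
  have hE := E_ii hEm hEb (x := R) (y := R+H) (by linarith) (by linarith)
  have hEW : IntervalIntegrable (fun r => E r - WS a φ w (r + κ₂ * δ) δ) volume R (R+H) := hE.sub (hWc.intervalIntegrable _ _)
  have hsEW : IntervalIntegrable (fun r => s r * (E r - WS a φ w (r + κ₂ * δ) δ)) volume R (R+H) := by
    have : (fun r => s r * (E r - WS a φ w (r + κ₂ * δ) δ)) = fun r => s r * E r - s r * WS a φ w (r + κ₂ * δ) δ := by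
      funext r; ring
    rw [this]
    refine IntervalIntegrable.sub ?_ ((hsb _ _).mul_continuousOn hWc.continuousOn)
    obtain ⟨B, hB⟩ := hEb R (R+H) hR0
    apply bdd_ii (B := B) (hsm.mul hEm)
    intro r hr
    rw [Set.uIoc_of_le (by linarith)] at hr
    change |s r * E r| ≤ B
    rw [abs_mul]
    calc |s r| * |E r| ≤ 1 * |E r| := mul_le_mul_of_nonneg_right (hs1 r) (abs_nonneg _)
      _ ≤ B := by rw [one_mul]; exact hB r hr.1.le hr.2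
  have hsWA : IntervalIntegrable (fun r => s r * (WS (aIn 𝒜 a) φ w (r + κ₂ * δ) δ - U (aIn 𝒜 a) φ r M)) volume R (R+H) :=
    (hsb _ _).mul_continuousOn (hWAc.sub hUc).continuousOn
  have hsWB : IntervalIntegrable (fun r => s r * WS (aIn 𝒜ᶜ a) φ w (r + κ₂ * δ) δ) volume R (R+H) :=
    (hsb _ _).mul_continuousOn hWBc.continuousOn
  have e1 : ∫ r in R..(R+H), s r * (E r - U (aIn 𝒜 a) φ r M) =
      ((∫ r in R..(R+H), s r * (E r - WS a φ w (r + κ₂ * δ) δ)) +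
      (∫ r in R..(R+H), s r * (WS (aIn 𝒜 a) φ w (r + κ₂ * δ) δ - U (aIn 𝒜 a) φ r M))) +
      ∫ r in R..(R+H), s r * WS (aIn 𝒜ᶜ a) φ w (r + κ₂ * δ) δ := by
    rw [← intervalIntegral.integral_add hsEW hsWA, ← intervalIntegral.integral_add (hsEW.add hsWA) hsWB]
    congr 1
    funext r
    rw [WS_add 𝒜 ha ha0 hw hδ0]
    ring
  rw [e1]
  have k1 : |∫ r in R..(R+H), s r * (E r - WS a φ w (r + κ₂ * δ) δ)| ≤ C * (R ^ (-(1/100):ℝ) * (H + 1)) := by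
    refine (intervalIntegral.abs_integral_le_integral_abs (by linarith)).trans (le_trans ?_ hL1)
    apply intervalIntegral.integral_mono_on (by linarith) hsEW.abs hEW.abs
    intro r _
    rw [abs_mul]
    calc |s r| * _ ≤ 1 * _ := mul_le_mul_of_nonneg_right (hs1 r) (abs_nonneg _)
      _ = _ := one_mul _
  obtain ⟨τ, hτ⟩ : ∃ τ : ℝ, τ = ∑' m, (Set.indicator {m : ℕ | m ∉ Finset.Icc 1 (M^2)} (fun m => |aIn 𝒜 a m|) m) := ⟨_, rfl⟩
  have k2 : |∫ r in R..(R+H), s r * (WS (aIn 𝒜 a) φ w (r + κ₂ * δ) δ - U (aIn 𝒜 a) φ r M)| ≤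
      (τ + Kl * δ) * (R + H - R) := by
    apply int_abs_le_const (by linarith)
    intro r _ _
    rw [abs_mul]
    have h1 := WS_abs_tail (φ := φ) (aIn_Bd 𝒜 ha) (aIn_zero 𝒜 ha0) hw hsum M hδ0 (r + κ₂ * δ)
    have h2 := hlow r δ hδ0
    rw [← hτ] at h1
    calc |s r| * _ ≤ 1 * _ := mul_le_mul_of_nonneg_right (hs1 r) (abs_nonneg _)
      _ = _ := one_mul _
      _ ≤ _ := abs_sub_le _ _ _
      _ ≤ _ := add_le_add h1 h2
  have k3 := WS_pair (φ := φ) (aIn_Bd 𝒜ᶜ ha) (aIn_zero 𝒜ᶜ ha0) hw hS1 hS2 hsm hs1 (show R ≤ R + H by linarith) hX0 hsh hδ0 κ₂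
  rw [show R + H - R = H by ring] at k2 k3
  have k4 : Kl * δ * H ≤ Kl * (R ^ (-(1/100):ℝ) * (H + 1)) := by
    have h0 : 0 ≤ R ^ (-(1/100):ℝ) := by positivity
    have : δ * H ≤ R ^ (-(1/100):ℝ) * (H + 1) := by nlinarith
    nlinarith
  rw [← hτ]
  refine (abs_add_le _ _).trans ?_
  refine (add_le_add (abs_add_le _ _) le_rfl).trans ?_
  nlinarith

end Pool.Agent.N687.W
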