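import Mathlib

/-!
# The absolute value as an integral of cosines
-/

set_option autoImplicit false

open MeasureTheory Filter Topology

namespace Pool.Agent.N687.W

/-- the kernel -/
noncomputable def kr (u : ℝ) : ℝ := (1 - Real.cos u) / u^2

lemma kr_nonneg (u : ℝ) : 0 ≤ kr u := by
  unfold kr
  exact div_nonneg (by linarith [Real.cos_le_one u]) (sq_nonneg u)

lemma kr_le (u : ℝ) : kr u ≤ 4 * (1 + u^2)⁻¹ := by
  unfold kr
  rcases eq_or_ne u 0 with rfl | h0
  · norm_num
  have hu : 0 < u^2 := by positivity
  rw [div_le_iff₀ hu]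
  rcases le_total (u^2) 1 with h | h
  · have h1 := Real.one_sub_sq_div_two_le_cos (x := u)
    have h2 : (1/2:ℝ) ≤ (1 + u^2)⁻¹ := by
      rw [le_inv_comm₀ (by norm_num) (by positivity)]
      norm_num
      linarith
    nlinarith
  · have h1 := Real.neg_one_le_cos u
    have h2 : (1 + u^2)⁻¹ * u^2 ≥ 1/2 := by
      rw [inv_mul_eq_div, ge_iff_le, div_le_div_iff₀ (by norm_num) (by positivity)]
      linarith
    nlinarith

lemma kr_meas : Measurable kr := by
  unfold kr
  fun_prop

lemma kr_int : Integrable kr := by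
  apply (integrable_inv_one_add_sq.const_mul 4).mono' kr_meas.aestronglyMeasurable
  exact Eventually.of_forall fun u => by
    rw [Real.norm_eq_abs, abs_of_nonneg (kr_nonneg u)]
    exact kr_le u

/-- the constant -/
noncomputable def K0 : ℝ := ∫ u, kr u

lemma K0_pos : 0 < K0 := by
  unfold K0
  rw [integral_pos_iff_support_of_nonneg kr_nonneg kr_int]
  have h1 : Set.Ioo (0:ℝ) 1 ⊆ Function.support kr := by
    intro u hu
    rw [Function.mem_support]
    unfold kr
    have hpi := Real.pi_gt_three
    have h2 : 0 < Real.sin (u/2) := Real.sin_pos_of_pos_of_lt_pi (by linarith [hu.1]) (by linarith [hu.2])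
    have h3 : 1 - Real.cos u = 2 * Real.sin (u/2)^2 := by
      rw [Real.sin_sq_eq_half_sub]
      have : 2 * (u/2) = u := by ring
      rw [this]; ring
    rw [h3]
    have : 0 < u := hu.1
    positivity
  refine lt_of_lt_of_le ?_ (measure_mono h1)
  rw [Real.volume_Ioo]
  norm_num

lemma cos_int (x : ℝ) : Integrable (fun t : ℝ => (1 - Real.cos (t * x)) / t^2) ∧
    ∫ t : ℝ, (1 - Real.cos (t * x)) / t^2 = K0 * |x| := by
  rcases eq_or_ne x 0 with rfl | hx
  · simp
  have e : ∀ t : ℝ, (1 - Real.cos (t * x)) / t^2 = x^2 * kr (x * t) := by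
    intro t
    unfold kr
    rcases eq_or_ne t 0 with rfl | ht
    · simp
    · rw [mul_comm t x]
      field_simp
  simp only [e]
  refine ⟨(kr_int.comp_mul_left' hx).const_mul _, ?_⟩
  rw [integral_const_mul, Measure.integral_comp_mul_left]
  change x^2 * (|x⁻¹| * K0) = K0 * |x|
  rw [abs_inv]
  have hx' : |x| ≠ 0 := abs_ne_zero.mpr hx
  rw [← sq_abs]
  field_simp

/-- the deviation from `1` of the characteristic function of the measure shifted by `c` -/
noncomputable def dv (μ : Measure ℝ) (c t : ℝ) : ℝ := 1 - (Complex.exp (((-(t * c) : ℝ) : ℂ) * Complex.I) * charFun μ t).re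

lemma dv_eq (μ : Measure ℝ) [IsProbabilityMeasure μ] (c t : ℝ) : dv μ c t = ∫ x, (1 - Real.cos (t * (x - c))) ∂μ := by
  unfold dv
  have hi : Integrable (fun x : ℝ => Complex.exp (((t * (x - c) : ℝ) : ℂ) * Complex.I)) μ := by
    apply Integrable.of_bound (C := 1) (by fun_prop)
    exact Eventually.of_forall fun x => (Complex.norm_exp_ofReal_mul_I _).le
  have h1 : Complex.exp (((-(t * c) : ℝ) : ℂ) * Complex.I) * charFun μ t = ∫ x, Complex.exp (((t * (x - c) : ℝ) : ℂ) * Complex.I) ∂μ := by
    rw [charFun_apply_real, ← integral_const_mul]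
    congr 1
    funext x
    rw [← Complex.exp_add]
    congr 1
    push_cast; ring
  have h2 : (∫ x, Complex.exp (((t * (x - c) : ℝ) : ℂ) * Complex.I) ∂μ).re = ∫ x, Real.cos (t * (x - c)) ∂μ := by
    have := integral_re hi
    rw [← Complex.reCLM_apply, ← ContinuousLinearMap.integral_comp_comm Complex.reCLM hi]
    congr 1
    funext x
    rw [Complex.reCLM_apply, Complex.exp_ofReal_mul_I_re]
  rw [h1, h2, integral_sub (integrable_const _)]
  · simp
  · apply Integrable.of_bound (C := 1) (by fun_prop)
    exact Eventually.of_forall fun x => by rw [Real.norm_eq_abs]; exact Real.abs_cos_le_one _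

theorem abs_fourier (μ : Measure ℝ) [IsProbabilityMeasure μ] (hμ : Integrable (fun x : ℝ => x) μ) (c : ℝ) :
    Integrable (fun t : ℝ => dv μ c t / t^2) ∧ ∫ t : ℝ, dv μ c t / t^2 = K0 * ∫ x, |x - c| ∂μ := by
  obtain ⟨f, hf⟩ : ∃ f : ℝ → ℝ → ℝ, f = fun x t => (1 - Real.cos (t * (x - c))) / t^2 := ⟨_, rfl⟩
  have hfm : Measurable (Function.uncurry f) := by
    rw [hf]
    unfold Function.uncurry
    fun_prop
  have hf0 : ∀ x t, 0 ≤ f x t := by
    intro x t
    rw [hf]
    exact div_nonneg (by linarith [Real.cos_le_one (t * (x - c))]) (sq_nonneg t)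
  have hxc : Integrable (fun x : ℝ => |x - c|) μ := (hμ.sub (integrable_const c)).abs
  have hfi : Integrable (Function.uncurry f) (μ.prod volume) := by
    rw [integrable_prod_iff hfm.aestronglyMeasurable]
    constructor
    · exact Eventually.of_forall fun x => by
        have := (cos_int (x - c)).1
        rw [hf]
        exact this
    · have : (fun x => ∫ t, ‖Function.uncurry f (x, t)‖) = fun x => K0 * |x - c| := by
        funext x
        have h1 := (cos_int (x - c)).2
        rw [← h1]
        congr 1
        funext t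
        have h2 := hf0 x t
        change ‖f x t‖ = _
        rw [Real.norm_eq_abs, abs_of_nonneg h2, hf]
      rw [this]
      exact hxc.const_mul _
  have e1 : ∀ t, ∫ x, f x t ∂μ = dv μ c t / t^2 := by
    intro t
    rw [hf]
    simp only
    rw [integral_div, ← dv_eq]
  have h1 := integral_integral_swap hfi
  have h2 := hfi.swap.integral_prod_left
  constructor
  · refine (integrable_congr (Eventually.of_forall fun t => ?_)).mp h2
    rw [← e1 t]
    rfl
  · simp only [e1] at h1
    rw [← h1]
    have e2 : ∀ x, ∫ t, f x t = K0 * |x - c| := by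
      intro x
      rw [← (cos_int (x - c)).2, hf]
    simp only [e2]
    rw [integral_const_mul]

end Pool.Agent.N687.W
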