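import Mathlib
import Pool.Agent.N687.W.C1

/-!
# Lower bound for the gap between the mean absolute deviations
-/

set_option autoImplicit false

open MeasureTheory Filter Topology

namespace Pool.Agent.N687.W

/-- the tail of `1 / t ^ 2` -/
noncomputable def tl (L t : ℝ) : ℝ := if L < |t| then 1 / t^2 else 0

lemma tl_int {L : ℝ} (hL : 0 < L) : Integrable (tl L) ∧ ∫ t, tl L t = 2 / L := by
  have h1 : IntegrableOn (fun t : ℝ => t ^ (-2 : ℝ)) (Set.Ioi L) := integrableOn_Ioi_rpow_of_lt (by norm_num) hL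
  have h2 : ∫ t in Set.Ioi L, t ^ (-2 : ℝ) = 1 / L := by
    rw [integral_Ioi_rpow_of_lt (by norm_num) hL]
    rw [show (-2:ℝ) + 1 = -1 by norm_num, Real.rpow_neg_one]
    field_simp
  have h3 : ∀ t ∈ Set.Ioi (0:ℝ), (if L < t then 1 / t^2 else 0) = (Set.Ioi L).indicator (fun t : ℝ => t ^ (-2 : ℝ)) t := by
    intro t ht
    by_cases h : L < t
    · rw [if_pos h, Set.indicator_of_mem (Set.mem_Ioi.mpr h), Real.rpow_neg (le_of_lt ht), ← one_div]
      norm_cast
    · rw [if_neg h, Set.indicator_of_notMem (by simpa using h)]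
  have e : tl L = fun t => (fun x : ℝ => if L < x then 1 / x^2 else 0) |t| := by
    funext t
    unfold tl
    simp only [sq_abs]
  constructor
  · have hm : Measurable (tl L) := by
      unfold tl
      exact Measurable.ite (measurableSet_lt measurable_const (by fun_prop)) (by fun_prop) measurable_const
    apply (integrable_inv_one_add_sq.const_mul (1 + 1 / L^2)).mono' hm.aestronglyMeasurable
    refine Eventually.of_forall fun t => ?_
    unfold tl
    split_ifs with h
    · have ht : 0 < |t| := hL.trans h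
      have ht2 : 0 < t^2 := by rw [← sq_abs]; positivity
      have hLt : L^2 ≤ t^2 := by rw [← sq_abs t]; exact pow_le_pow_left₀ hL.le h.le 2
      rw [Real.norm_eq_abs, abs_of_pos (by positivity), ← div_eq_mul_inv, div_le_div_iff₀ ht2 (by positivity)]
      have h5 : 1 ≤ 1 / L^2 * t^2 := by
        rw [one_div, inv_mul_eq_div, one_le_div (by positivity)]
        exact hLt
      nlinarith
    · rw [norm_zero]; positivity
  · rw [e, integral_comp_abs (f := fun x : ℝ => if L < x then 1 / x^2 else 0), setIntegral_congr_fun measurableSet_Ioi h3,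
      setIntegral_indicator measurableSet_Ioi]
    have : Set.Ioi (0:ℝ) ∩ Set.Ioi L = Set.Ioi L := by
      rw [Set.Ioi_inter_Ioi, max_eq_right hL.le]
    rw [this, h2]; ring

/-- the real part of the Fourier kernel times the characteristic function -/
noncomputable def rc (μ : Measure ℝ) (c t : ℝ) : ℝ := (Complex.exp (((-(t * c) : ℝ) : ℂ) * Complex.I) * charFun μ t).re

lemma rc_cont (μ : Measure ℝ) [IsProbabilityMeasure μ] (c : ℝ) : Continuous (rc μ c) := by
  unfold rc
  have := MeasureTheory.continuous_charFun (μ := μ)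
  exact Complex.continuous_re.comp ((by fun_prop : Continuous fun t : ℝ => Complex.exp (((-(t * c) : ℝ) : ℂ) * Complex.I)).mul this)

lemma abs_rc_le (μ : Measure ℝ) [IsProbabilityMeasure μ] (c t : ℝ) : |rc μ c t| ≤ ‖charFun μ t‖ := by
  unfold rc
  refine (Complex.abs_re_le_norm _).trans ?_
  rw [norm_mul, Complex.norm_exp_ofReal_mul_I, one_mul]

theorem gap_lower {μ₁ μ₂ : Measure ℝ} [IsProbabilityMeasure μ₁] [IsProbabilityMeasure μ₂]
    (h₁ : Integrable (fun x : ℝ => x) μ₁) (h₂ : Integrable (fun x : ℝ => x) μ₂) {B : ℝ → ℂ}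
    (hB0 : ∀ t, charFun μ₁ t = charFun μ₂ t * B t) (hB1 : ∀ t, ‖B t‖ ≤ 1) {v β L : ℝ} (hv : 0 ≤ v) (hβ : 0 ≤ β) (hL : 0 < L)
    (hB : ∀ t, |t| ≤ L → ‖1 - B t - ((t^2 * v / 2 : ℝ) : ℂ)‖ ≤ β * |t|^3 * v + t^4 * v^2)
    {Ψ : ℝ → ℝ} (hΨ : ∀ t, |t| ≤ L → ‖charFun μ₂ t‖ ≤ Ψ t) (hΨ0 : ∀ t, 0 ≤ Ψ t)
    (hΨ1 : Integrable (fun t => |t| * Ψ t)) (hΨ2 : Integrable (fun t => t^2 * Ψ t)) (c : ℝ) :
    v / 2 * (∫ t in Set.Icc (-L) L, rc μ₂ c t) - (β * v * (∫ t, |t| * Ψ t) + v^2 * ∫ t, t^2 * Ψ t) - 4 / L ≤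
      K0 * ((∫ x, |x - c| ∂μ₁) - ∫ x, |x - c| ∂μ₂) := by
  obtain ⟨i1, e1⟩ := abs_fourier μ₁ h₁ c
  obtain ⟨i2, e2⟩ := abs_fourier μ₂ h₂ c
  have e3 : K0 * ((∫ x, |x - c| ∂μ₁) - ∫ x, |x - c| ∂μ₂) = ∫ t : ℝ, (dv μ₁ c t / t^2 - dv μ₂ c t / t^2) := by
    rw [integral_sub i1 i2, e1, e2]; ring
  rw [e3]
  have j1 : Integrable ((Set.Icc (-L) L).indicator (fun t => v / 2 * rc μ₂ c t)) :=
    ((rc_cont μ₂ c).const_mul _ |>.continuousOn.integrableOn_compact isCompact_Icc).integrable_indicator measurableSet_Icc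
  obtain ⟨j4, e4⟩ := tl_int hL
  have j2 : Integrable (fun t => β * v * (|t| * Ψ t) + v^2 * (t^2 * Ψ t)) := (hΨ1.const_mul _).add (hΨ2.const_mul _)
  have j3 : Integrable (fun t => (Set.Icc (-L) L).indicator (fun t => v / 2 * rc μ₂ c t) t - (β * v * (|t| * Ψ t) + v^2 * (t^2 * Ψ t))) :=
    j1.sub j2
  have j5 : Integrable (fun t => 2 * tl L t) := j4.const_mul 2
  have j6 : Integrable (fun t => (Set.Icc (-L) L).indicator (fun t => v / 2 * rc μ₂ c t) t - (β * v * (|t| * Ψ t) + v^2 * (t^2 * Ψ t)) - 2 * tl L t) :=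
    j3.sub j5
  have j7 : Integrable (fun t => dv μ₁ c t / t^2 - dv μ₂ c t / t^2) := i1.sub i2
  have hle : ∫ t : ℝ, ((Set.Icc (-L) L).indicator (fun t => v / 2 * rc μ₂ c t) t - (β * v * (|t| * Ψ t) + v^2 * (t^2 * Ψ t)) - 2 * tl L t) ≤
      ∫ t : ℝ, (dv μ₁ c t / t^2 - dv μ₂ c t / t^2) := by
    apply integral_mono_ae j6 j7
    have h0 : ∀ᵐ t : ℝ, t ≠ 0 := by
      rw [ae_iff]
      simp
    filter_upwards [h0] with t ht
    have ht2 : 0 < t^2 := by positivity
    obtain ⟨ex, hex⟩ : ∃ ex : ℂ, ex = Complex.exp (((-(t * c) : ℝ) : ℂ) * Complex.I) := ⟨_, rfl⟩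
    have hexn : ‖ex‖ = 1 := by rw [hex]; exact Complex.norm_exp_ofReal_mul_I _
    have e5 : dv μ₁ c t / t^2 - dv μ₂ c t / t^2 = (ex * charFun μ₂ t * (1 - B t)).re / t^2 := by
      unfold dv
      rw [hB0 t, ← hex, ← sub_div]
      congr 1
      have : ex * charFun μ₂ t * (1 - B t) = ex * charFun μ₂ t - ex * (charFun μ₂ t * B t) := by ring
      rw [this, Complex.sub_re]
      ring
    have hgoal : (Set.Icc (-L) L).indicator (fun t => v / 2 * rc μ₂ c t) t - (β * v * (|t| * Ψ t) + v^2 * (t^2 * Ψ t)) - 2 * tl L t ≤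
        (ex * charFun μ₂ t * (1 - B t)).re / t^2 := by
      rw [le_div_iff₀ ht2]
      by_cases hLt : |t| ≤ L
      · have hmem : t ∈ Set.Icc (-L) L := abs_le.mp hLt
        rw [Set.indicator_of_mem hmem]
        unfold tl
        rw [if_neg (by linarith)]
        have h6 := hB t hLt
        obtain ⟨Rm, hRm⟩ : ∃ Rm : ℂ, Rm = 1 - B t - ((t^2 * v / 2 : ℝ) : ℂ) := ⟨_, rfl⟩
        rw [← hRm] at h6
        have h7 : ex * charFun μ₂ t * (1 - B t) = ((t^2 * v / 2 : ℝ) : ℂ) * (ex * charFun μ₂ t) + ex * charFun μ₂ t * Rm := by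
          rw [hRm]; ring
        rw [h7, Complex.add_re, Complex.re_ofReal_mul]
        have h8 : -(Ψ t * (β * |t|^3 * v + t^4 * v^2)) ≤ (ex * charFun μ₂ t * Rm).re := by
          have h9 := Complex.abs_re_le_norm (ex * charFun μ₂ t * Rm)
          rw [norm_mul, norm_mul, hexn, one_mul] at h9
          have h10 : ‖charFun μ₂ t‖ * ‖Rm‖ ≤ Ψ t * (β * |t|^3 * v + t^4 * v^2) :=
            mul_le_mul (hΨ t hLt) h6 (norm_nonneg _) (hΨ0 t)
          have h11 := neg_abs_le (ex * charFun μ₂ t * Rm).re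
          linarith
        have h12 : rc μ₂ c t = (ex * charFun μ₂ t).re := by unfold rc; rw [hex]
        rw [h12]
        have h13 : |t|^3 = |t| * t^2 := by
          rw [← sq_abs t]; ring
        rw [h13] at h8
        have h14 : (v / 2 * (ex * charFun μ₂ t).re - (β * v * (|t| * Ψ t) + v^2 * (t^2 * Ψ t)) - 2 * 0) * t^2 =
            t^2 * v / 2 * (ex * charFun μ₂ t).re - Ψ t * (β * (|t| * t^2) * v + t^4 * v^2) := by ring
        rw [h14]
        linarith
      · push Not at hLt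
        rw [Set.indicator_of_notMem (by rw [Set.mem_Icc, ← abs_le]; exact not_le.mpr hLt)]
        unfold tl
        rw [if_pos hLt]
        have h6 : -2 ≤ (ex * charFun μ₂ t * (1 - B t)).re := by
          have h9 := Complex.abs_re_le_norm (ex * charFun μ₂ t * (1 - B t))
          rw [norm_mul, norm_mul, hexn, one_mul] at h9
          have h10 : ‖(1 : ℂ) - B t‖ ≤ 2 := by
            refine (norm_sub_le _ _).trans ?_
            rw [norm_one]
            linarith [hB1 t]
          have h11 : ‖charFun μ₂ t‖ * ‖(1:ℂ) - B t‖ ≤ 1 * 2 := mul_le_mul (norm_charFun_le_one t) h10 (norm_nonneg _) zero_le_one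
          have h12 := neg_abs_le (ex * charFun μ₂ t * (1 - B t)).re
          linarith
        have h15 : (0 - (β * v * (|t| * Ψ t) + v^2 * (t^2 * Ψ t)) - 2 * (1 / t^2)) * t^2 =
            -((β * v * (|t| * Ψ t) + v^2 * (t^2 * Ψ t)) * t^2) - 2 := by
          field_simp
          ring
        rw [h15]
        have h16 : 0 ≤ (β * v * (|t| * Ψ t) + v^2 * (t^2 * Ψ t)) * t^2 := by
          have := hΨ0 t
          positivity
        linarith
    rw [← e5] at hgoal
    exact hgoal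
  refine le_trans (le_of_eq ?_) hle
  rw [integral_sub j3 j5, integral_sub j1 j2,
    integral_add (hΨ1.const_mul _) (hΨ2.const_mul _), integral_const_mul, integral_const_mul, integral_const_mul,
    integral_indicator measurableSet_Icc, integral_const_mul, e4]
  ring

end Pool.Agent.N687.W
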