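import Mathlib
import Pool.Agent.H383.Decay

/-!
# Characteristic functions of finite sums: expansion for the high classes, decay for the low ones
-/

set_option autoImplicit false

open Filter Topology
open Pool.Agent.H383.AP Pool.Agent.H383.Gauss Pool.Agent.H383.Rich Pool.Agent.H383.Gen

namespace Pool.Agent.N687.W

variable {a : ℕ → ℝ} {φ α X κ : ℝ} {S0 T : Finset ℕ} {s : ℕ}

/-- expansion of one block -/
theorem blk_approx (hS : GoodS α S0) (hs : Squarefree s) (hs0 : s ∉ S0) (hT : ∀ m ∈ T, 1 ≤ m ∧ InC s m)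
    {t : ℝ} (ht : |t| * bT a T ≤ 1) :
    ‖mn (ex a φ α X ((t:ℂ) * Complex.I) T) - ((1 - t^2 / 2 * vT a T : ℝ) : ℂ)‖ ≤ (2/9) * |t|^3 * bT a T * vT a T := by
  obtain ⟨V, hV⟩ : ∃ V, V = vT a T := ⟨_, rfl⟩
  have hV0 : 0 ≤ V := by rw [hV]; exact vT_nonneg
  obtain ⟨g, hg⟩ : ∃ g : ℕ → ℂ, g = fun n => 1 + ((t:ℂ) * Complex.I) * ((ST a φ α X T n : ℝ) : ℂ) +
    (-((t^2/2 : ℝ) : ℂ)) * (((ST a φ α X T n)^2 : ℝ) : ℂ) := ⟨_, rfl⟩
  have hgm : HasMean g ((1 - t^2 / 2 * V : ℝ) : ℂ) := by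
    have h1 := ((hasMean_const (1:ℂ)).add ((ST_mean (a := a) (φ := φ) (X := X) hS hs hs0 hT).smul ((t:ℂ) * Complex.I))).add
      ((ST_sq_mean (a := a) (φ := φ) (X := X) hS hs hs0 hT).smul (-((t^2/2 : ℝ) : ℂ)))
    have e : (1:ℂ) + (t:ℂ) * Complex.I * 0 + -((t^2/2 : ℝ) : ℂ) * ((vT a T : ℝ) : ℂ) = ((1 - t^2 / 2 * V : ℝ) : ℂ) := by
      rw [hV]; push_cast; ring
    rw [e] at h1
    rw [hg]
    exact h1
  have hpt : ∀ n, ‖ex a φ α X ((t:ℂ) * Complex.I) T n - g n‖ ≤ (2/9) * |t|^3 * bT a T * (ST a φ α X T n)^2 := by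
    intro n
    obtain ⟨y, hy⟩ : ∃ y, y = ST a φ α X T n := ⟨_, rfl⟩
    have hy1 : |y| ≤ bT a T := by rw [hy]; exact abs_ST_le n
    have hx1 : ‖(t:ℂ) * Complex.I * ((y:ℝ) : ℂ)‖ = |t| * |y| := by
      rw [norm_mul, norm_mul, Complex.norm_I, mul_one, Complex.norm_real, Complex.norm_real, Real.norm_eq_abs, Real.norm_eq_abs]
    have hx2 : |t| * |y| ≤ 1 := (mul_le_mul_of_nonneg_left hy1 (abs_nonneg _)).trans ht
    have h1 := Complex.exp_bound (x := (t:ℂ) * Complex.I * ((y:ℝ) : ℂ)) (by rw [hx1]; exact hx2) (n := 3) (by norm_num)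
    rw [hx1] at h1
    have e : ex a φ α X ((t:ℂ) * Complex.I) T n - g n = Complex.exp ((t:ℂ) * Complex.I * ((y:ℝ) : ℂ)) -
        ∑ m ∈ Finset.range 3, ((t:ℂ) * Complex.I * ((y:ℝ) : ℂ)) ^ m / (m.factorial : ℂ) := by
      unfold ex
      rw [hg, Finset.sum_range_succ, Finset.sum_range_succ, Finset.sum_range_one]
      simp only [pow_zero, pow_one, Nat.factorial, Nat.cast_one, div_one, ← hy]
      push_cast
      have hI : Complex.I ^ 2 = -1 := Complex.I_sq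
      linear_combination ((t:ℂ)^2 * (y:ℂ)^2 / 2) * hI
    rw [e]
    refine h1.trans ?_
    have h3 : (|t| * |y|)^3 ≤ |t|^3 * bT a T * y^2 := by
      have : (|t| * |y|)^3 = |t|^3 * |y| * y^2 := by rw [← sq_abs y]; ring
      rw [this]
      have := mul_le_mul_of_nonneg_left hy1 (show 0 ≤ |t|^3 * y^2 by positivity)
      linarith
    have h4 : (((3:ℕ).succ : ℝ) * (((3:ℕ).factorial : ℝ) * ((3:ℕ):ℝ))⁻¹) = 2/9 := by
      simp only [Nat.factorial]; norm_num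
    rw [h4, ← hy]
    linarith
  have hb0 : 0 ≤ bT a T := bT_nonneg
  have hclose : ∀ ε : ℝ, 0 < ε → ‖mn (ex a φ α X ((t:ℂ) * Complex.I) T) - ((1 - t^2 / 2 * V : ℝ) : ℂ)‖ ≤
      (2/9) * |t|^3 * bT a T * V + ε := by
    intro ε hε
    apply mean_close (UC_hasMean (ex_UC_top _)) hgm
    have h1 := (rm_ST_sq (a := a) (φ := φ) (X := X) hS hs hs0 hT).const_mul ((2/9) * |t|^3 * bT a T)
    rw [← hV] at h1
    have h2 := h1.eventually (gt_mem_nhds (show (2/9) * |t|^3 * bT a T * V < (2/9) * |t|^3 * bT a T * V + ε by linarith))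
    rw [eventually_atTop] at h2
    obtain ⟨N0, hN0⟩ := h2
    refine ⟨N0, fun N hN => ?_⟩
    refine (norm_cm_sub_le _ _ N).trans ?_
    refine (rm_mono hpt N).trans ?_
    have e : rm (fun n : ℕ => (2/9) * |t|^3 * bT a T * (ST a φ α X T n)^2) N = (2/9) * |t|^3 * bT a T * rm (fun n : ℕ => (ST a φ α X T n)^2) N :=
      rm_mul _ _ _
    rw [e]
    exact (hN0 N hN).le
  rw [← hV]
  exact le_of_forall_pos_le_add hclose

lemma prod_expand {ι : Type} [DecidableEq ι] (Q : Finset ι) (f : ι → ℂ) (hf : ∀ i ∈ Q, ‖f i‖ ≤ 1) :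
    ‖∏ i ∈ Q, f i - 1‖ ≤ ∑ i ∈ Q, ‖1 - f i‖ ∧ ‖∏ i ∈ Q, f i - 1 + ∑ i ∈ Q, (1 - f i)‖ ≤ (∑ i ∈ Q, ‖1 - f i‖)^2 := by
  induction Q using Finset.induction_on with
  | empty => simp
  | insert i Q hi ih =>
    obtain ⟨h1, h2⟩ := ih (fun j hj => hf j (Finset.mem_insert_of_mem hj))
    have h3 := hf i (Finset.mem_insert_self i Q)
    rw [Finset.prod_insert hi, Finset.sum_insert hi, Finset.sum_insert hi]
    obtain ⟨P, hP⟩ : ∃ P, P = ∏ j ∈ Q, f j := ⟨_, rfl⟩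
    obtain ⟨Sg, hSg⟩ : ∃ Sg, Sg = ∑ j ∈ Q, (1 - f j) := ⟨_, rfl⟩
    obtain ⟨N, hN⟩ : ∃ N, N = ∑ j ∈ Q, ‖1 - f j‖ := ⟨_, rfl⟩
    rw [← hP, ← hN] at h1
    rw [← hP, ← hSg, ← hN] at h2
    rw [← hP, ← hSg, ← hN]
    have hN0 : 0 ≤ N := by rw [hN]; exact Finset.sum_nonneg fun _ _ => norm_nonneg _
    have hx0 := norm_nonneg (1 - f i)
    constructor
    · have e : f i * P - 1 = f i * (P - 1) - (1 - f i) := by ring
      rw [e]
      refine (norm_sub_le _ _).trans ?_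
      rw [norm_mul]
      have : ‖f i‖ * ‖P - 1‖ ≤ 1 * N := mul_le_mul h3 h1 (norm_nonneg _) zero_le_one
      linarith
    · have e : f i * P - 1 + ((1 - f i) + Sg) = (P - 1 + Sg) - (1 - f i) * (P - 1) := by ring
      rw [e]
      refine (norm_sub_le _ _).trans ?_
      rw [norm_mul]
      have : ‖1 - f i‖ * ‖P - 1‖ ≤ ‖1 - f i‖ * N := mul_le_mul_of_nonneg_left h1 hx0
      nlinarith

lemma mn_ex_le_one (t : ℝ) (T : Finset ℕ) : ‖mn (ex a φ α X ((t:ℂ) * Complex.I) T)‖ ≤ 1 := by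
  apply mn_norm_le (ex_UC_top _) zero_le_one
  intro n
  unfold ex
  have e0 : ∀ y : ℝ, (t:ℂ) * Complex.I * (y : ℂ) = ((t * y : ℝ) : ℂ) * Complex.I := by intro y; push_cast; ring
  rw [e0, Complex.norm_exp_ofReal_mul_I]

open Classical in
/-- expansion of the product over the high classes -/
theorem prod_approx (hS : GoodS α S0) {Q : Finset ℕ} (hQ : ∀ s ∈ Q, Squarefree s ∧ s ∉ S0)
    (hT : ∀ m ∈ T, 1 ≤ m) {b t : ℝ} (hb : ∀ s ∈ Q, bT a (T.filter (InC s)) ≤ b) (ht : |t| * b ≤ 1) :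
    ‖1 - (∏ s ∈ Q, mn (ex a φ α X ((t:ℂ) * Complex.I) (T.filter (InC s)))) -
        ((t^2 * (∑ s ∈ Q, vT a (T.filter (InC s))) / 2 : ℝ) : ℂ)‖ ≤
      ((2/9) * b) * |t|^3 * (∑ s ∈ Q, vT a (T.filter (InC s))) + t^4 * (∑ s ∈ Q, vT a (T.filter (InC s)))^2 := by
  obtain ⟨f, hf⟩ : ∃ f : ℕ → ℂ, f = fun s => mn (ex a φ α X ((t:ℂ) * Complex.I) (T.filter (InC s))) := ⟨_, rfl⟩
  obtain ⟨v, hv⟩ : ∃ v : ℕ → ℝ, v = fun s => vT a (T.filter (InC s)) := ⟨_, rfl⟩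
  have hv0 : ∀ s, 0 ≤ v s := fun s => by rw [hv]; exact vT_nonneg
  have hf1 : ∀ s ∈ Q, ‖f s‖ ≤ 1 := fun s _ => by rw [hf]; exact mn_ex_le_one t _
  have hap : ∀ s ∈ Q, ‖f s - ((1 - t^2/2 * v s : ℝ) : ℂ)‖ ≤ (2/9) * |t|^3 * b * v s := by
    intro s hs
    have hbs := hb s hs
    have h1 := blk_approx (a := a) (φ := φ) (X := X) (t := t) hS (hQ s hs).1 (hQ s hs).2 (T := T.filter (InC s)) (fun m hm => by
      rw [Finset.mem_filter] at hm
      exact ⟨hT m hm.1, hm.2⟩) (le_trans (mul_le_mul_of_nonneg_left hbs (abs_nonneg t)) ht)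
    rw [hf, hv]
    refine h1.trans ?_
    have := @vT_nonneg a (T.filter (InC s))
    gcongr
  have hx : ∀ s ∈ Q, ‖1 - f s‖ ≤ t^2 * v s := by
    intro s hs
    have h1 := hap s hs
    have e : 1 - f s = ((t^2/2 * v s : ℝ) : ℂ) - (f s - ((1 - t^2/2 * v s : ℝ) : ℂ)) := by push_cast; ring
    rw [e]
    refine (norm_sub_le _ _).trans ?_
    rw [Complex.norm_real, Real.norm_eq_abs, abs_of_nonneg (mul_nonneg (by positivity) (hv0 s))]
    have h2 : (2/9) * |t|^3 * b * v s ≤ (2/9) * t^2 * v s := by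
      have : |t|^3 * b ≤ t^2 := by
        have e2 : |t|^3 * b = t^2 * (|t| * b) := by rw [← sq_abs t]; ring
        rw [e2]
        exact mul_le_of_le_one_right (sq_nonneg t) ht
      have := mul_le_mul_of_nonneg_right this (hv0 s)
      linarith
    have h3 := mul_nonneg (sq_nonneg t) (hv0 s)
    linarith
  obtain ⟨-, h2⟩ := prod_expand Q f hf1
  have hsum : ∑ s ∈ Q, ‖1 - f s‖ ≤ t^2 * ∑ s ∈ Q, v s := by
    rw [Finset.mul_sum]
    exact Finset.sum_le_sum hx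
  have hsum0 : 0 ≤ ∑ s ∈ Q, ‖1 - f s‖ := Finset.sum_nonneg fun _ _ => norm_nonneg _
  have h3 : (∑ s ∈ Q, ‖1 - f s‖)^2 ≤ t^4 * (∑ s ∈ Q, v s)^2 := by
    calc _ ≤ (t^2 * ∑ s ∈ Q, v s)^2 := pow_le_pow_left₀ hsum0 hsum 2
      _ = _ := by ring
  have h4 : ‖∑ s ∈ Q, (1 - f s) - ((t^2 * (∑ s ∈ Q, v s) / 2 : ℝ) : ℂ)‖ ≤ ((2/9) * b) * |t|^3 * ∑ s ∈ Q, v s := by
    have e : ∑ s ∈ Q, (1 - f s) - ((t^2 * (∑ s ∈ Q, v s) / 2 : ℝ) : ℂ) = ∑ s ∈ Q, -(f s - ((1 - t^2/2 * v s : ℝ) : ℂ)) := by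
      have : ((t^2 * (∑ s ∈ Q, v s) / 2 : ℝ) : ℂ) = ∑ s ∈ Q, ((t^2/2 * v s : ℝ) : ℂ) := by
        rw [← Complex.ofReal_sum, ← Finset.mul_sum]
        congr 1; ring
      rw [this, ← Finset.sum_sub_distrib]
      apply Finset.sum_congr rfl
      intro s _
      push_cast; ring
    rw [e, Finset.mul_sum]
    refine (norm_sum_le _ _).trans (Finset.sum_le_sum fun s hs => ?_)
    rw [norm_neg]
    refine (hap s hs).trans (le_of_eq ?_)
    ring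
  have h5 : 1 - (∏ s ∈ Q, f s) - ((t^2 * (∑ s ∈ Q, v s) / 2 : ℝ) : ℂ) =
      -(∏ i ∈ Q, f i - 1 + ∑ i ∈ Q, (1 - f i)) + (∑ s ∈ Q, (1 - f s) - ((t^2 * (∑ s ∈ Q, v s) / 2 : ℝ) : ℂ)) := by ring
  have h6 : ‖1 - (∏ s ∈ Q, f s) - ((t^2 * (∑ s ∈ Q, v s) / 2 : ℝ) : ℂ)‖ ≤
      ((2/9) * b) * |t|^3 * (∑ s ∈ Q, v s) + t^4 * (∑ s ∈ Q, v s)^2 := by
    rw [h5]
    refine (norm_add_le _ _).trans ?_
    rw [norm_neg]
    linarith
  rw [hf, hv] at h6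
  exact h6

open Classical in
/-- decay of the characteristic function of a finite sum -/
theorem char_bound_fin (hS : GoodS α S0) (hκ : 1/2 < κ) {C : ℝ} (hC : 0 < C) (ha : ∀ m : ℕ, 1 ≤ m → |a m| ≤ C * (m:ℝ) ^ (-κ))
    (hT : ∀ m ∈ T, 1 ≤ m) {t : ℝ} {Q : Finset ℕ} (hQ : ∀ s ∈ Q, Squarefree s ∧ s ∉ S0) (hQT : Q ⊆ T)
    (hQt : ∀ s ∈ Q, |t| * (C * (∑' t : ℕ, (t:ℝ) ^ (-(2 * κ)))) * (s:ℝ) ^ (-κ) ≤ 1) :
    ‖mn (ex a φ α X ((t:ℂ) * Complex.I) T)‖ ≤ Real.exp (-((5/36) * t^2 * ∑ q ∈ Q, (a q)^2)) := by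
  rw [prod_formula (a := a) (φ := φ) (X := X) hS ((t:ℂ) * Complex.I) (T := T) hT Q hQ, norm_mul, norm_prod]
  have h1 : ‖mn (ex a φ α X ((t:ℂ) * Complex.I) (T.filter (fun m => ∀ s ∈ Q, ¬ InC s m)))‖ ≤ 1 := mn_ex_le_one t _
  have h2 : ∀ s ∈ Q, ‖mn (ex a φ α X ((t:ℂ) * Complex.I) (T.filter (InC s)))‖ ≤ Real.exp (-((5/36) * t^2 * (a s)^2)) := by
    intro s hs
    obtain ⟨hsf, hs0⟩ := hQ s hs
    have hT' : ∀ m ∈ T.filter (InC s), 1 ≤ m ∧ InC s m := by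
      intro m hm
      rw [Finset.mem_filter] at hm
      exact ⟨hT m hm.1, hm.2⟩
    have hb := bT_le hκ hC ha (Nat.one_le_iff_ne_zero.mpr hsf.ne_zero) hT'
    have hbt : |t| * bT a (T.filter (InC s)) ≤ 1 := by
      refine le_trans ?_ (hQt s hs)
      have := mul_le_mul_of_nonneg_left hb (abs_nonneg t)
      linarith
    refine (blk_char hS hsf hs0 hT' hbt).trans ?_
    apply Real.exp_le_exp.mpr
    have hv : (1/2) * (a s)^2 ≤ vT a (T.filter (InC s)) := by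
      unfold vT
      have hmem : s ∈ T.filter (InC s) := by
        rw [Finset.mem_filter]
        exact ⟨hQT hs, ⟨1, by ring⟩⟩
      have := Finset.single_le_sum (f := fun m => (a m)^2) (fun i _ => sq_nonneg _) hmem
      linarith
    have ht2 : 0 ≤ t^2 := sq_nonneg t
    nlinarith
  calc (∏ s ∈ Q, ‖mn (ex a φ α X ((t:ℂ) * Complex.I) (T.filter (InC s)))‖) *
        ‖mn (ex a φ α X ((t:ℂ) * Complex.I) (T.filter (fun m => ∀ s ∈ Q, ¬ InC s m)))‖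
      ≤ (∏ s ∈ Q, Real.exp (-((5/36) * t^2 * (a s)^2))) * 1 := by
        gcongr with s hs
        exact h2 s hs
    _ = Real.exp (-((5/36) * t^2 * ∑ q ∈ Q, (a q)^2)) := by
        rw [mul_one, ← Real.exp_sum, Finset.sum_neg_distrib, Finset.mul_sum]

/-- uniform decay for the sums which contain all the primes below a bound -/
theorem decay_fin (S0 : Finset ℕ) (hκ : 1/2 < κ) (ha : BK a κ) (hl : LB a) {p : ℝ} (hp : 0 < p) (hpκ : 1/2 < κ * (2 - p)) :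
    ∃ C c Z : ℝ, 0 < C ∧ 0 < c ∧ 0 < Z ∧ ∀ (α φ X : ℝ), GoodS α S0 → ∀ (T : Finset ℕ) (D t : ℝ), (∀ m ∈ T, 1 ≤ m) →
      (∀ q : ℕ, q.Prime → (q:ℝ) ≤ D → q ∈ T) → 2 * (Z * |t|) ^ (1/κ) ≤ D →
      ‖mn (ex a φ α X ((t:ℂ) * Complex.I) T)‖ ≤ C * Real.exp (-(c * |t| ^ p)) := by
  obtain ⟨Ca, hCa, ha'⟩ := ha
  obtain ⟨c1, hc1, hl'⟩ := hl
  obtain ⟨y0, hy0, hcard⟩ := PB_card S0
  obtain ⟨Z, hZ⟩ : ∃ Z : ℝ, Z = Ca * (∑' t : ℕ, (t:ℝ) ^ (-(2 * κ))) := ⟨_, rfl⟩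
  have hκ0 : 0 < κ := by linarith
  have hZ0 : 0 < Z := by
    have hsum : Summable (fun t : ℕ => (t:ℝ) ^ (-(2 * κ))) := by
      rw [Real.summable_nat_rpow]; linarith
    rw [hZ]
    apply mul_pos hCa
    have := hsum.sum_le_tsum {1} (fun t _ => by positivity)
    simp only [Finset.sum_singleton, Nat.cast_one, Real.one_rpow] at this
    linarith
  obtain ⟨δ, hδ⟩ : ∃ δ : ℝ, δ = κ * (2 - p) - 1/2 := ⟨_, rfl⟩
  have hδ0 : 0 < δ := by linarith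
  obtain ⟨t0, ht0⟩ : ∃ t0 : ℝ, t0 = y0 ^ κ / Z := ⟨_, rfl⟩
  have ht00 : 0 < t0 := by rw [ht0]; positivity
  obtain ⟨c, hc⟩ : ∃ c : ℝ, c = (5/36) * ((1/20) * c1^2 * 2 ^ (-(3/2):ℝ) * δ) * Z ^ (-(2 - p)) := ⟨_, rfl⟩
  have hc0 : 0 < c := by rw [hc]; positivity
  refine ⟨Real.exp (c * t0 ^ p), c, Z, Real.exp_pos _, hc0, hZ0, ?_⟩
  intro α φ X hS T D t hT1 hTD hD
  by_cases ht : |t| < t0
  · refine (mn_ex_le_one t T).trans ?_
    rw [← Real.exp_add]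
    apply Real.one_le_exp
    have : |t| ^ p ≤ t0 ^ p := Real.rpow_le_rpow (abs_nonneg _) ht.le hp.le
    nlinarith
  · push Not at ht
    have ht1 : 0 < |t| := by linarith
    obtain ⟨y, hy⟩ : ∃ y : ℝ, y = (Z * |t|) ^ (1/κ) := ⟨_, rfl⟩
    rw [← hy] at hD
    have hyκ : y ^ κ = Z * |t| := by
      rw [hy, ← Real.rpow_mul (by positivity), one_div, inv_mul_cancel₀ hκ0.ne', Real.rpow_one]
    have hyy0 : y0 ≤ y := by
      have h1 : y0 ^ κ ≤ Z * |t| := by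
        rw [ht0, div_le_iff₀ hZ0] at ht; linarith
      rw [← hyκ] at h1
      exact (Real.rpow_le_rpow_iff (by linarith) (by rw [hy]; positivity) hκ0).mp h1
    have hyp : 0 < y := by linarith
    have hy1 : 1 < y := by linarith
    have hlogy : 0 < Real.log y := Real.log_pos hy1
    have hQ : ∀ s ∈ PB S0 y, Squarefree s ∧ s ∉ S0 := by
      intro s hs
      have := PB_mem hyp.le hs
      exact ⟨this.1.prime.squarefree, this.2.2.1⟩
    have hQT : PB S0 y ⊆ T := by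
      intro q hq
      have h2 := PB_mem hyp.le hq
      exact hTD q h2.1 (h2.2.2.2.2.trans hD)
    have h1 := char_bound_fin (a := a) (φ := φ) (X := X) (t := t) hS hκ hCa ha' hT1 hQ hQT (by
      intro s hs
      have h2 := PB_mem hyp.le hs
      have hs0 : (0:ℝ) < s := by linarith [h2.2.2.2.1]
      have h3 : (s:ℝ) ^ (-κ) ≤ y ^ (-κ) := Real.rpow_le_rpow_of_nonpos hyp h2.2.2.2.1.le (by linarith)
      have h4 : y ^ (-κ) = (Z * |t|)⁻¹ := by rw [Real.rpow_neg hyp.le, hyκ]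
      rw [h4] at h3
      rw [← hZ]
      calc |t| * Z * (s:ℝ) ^ (-κ) ≤ |t| * Z * (Z * |t|)⁻¹ := by gcongr
        _ = 1 := by field_simp)
    refine h1.trans ?_
    have hC1 : 1 ≤ Real.exp (c * t0 ^ p) := Real.one_le_exp (by positivity)
    have h2 : Real.exp (-((5/36) * t^2 * ∑ q ∈ PB S0 y, (a q)^2)) ≤ Real.exp (-(c * |t| ^ p)) := by
      apply Real.exp_le_exp.mpr
      apply neg_le_neg
      have h3 : ((PB S0 y).card : ℝ) * (c1^2 * (2*y) ^ (-(3/2):ℝ)) ≤ ∑ q ∈ PB S0 y, (a q)^2 := by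
        rw [← nsmul_eq_mul]
        apply Finset.card_nsmul_le_sum
        intro q hq
        have h4 := PB_mem hyp.le hq
        have hq0 : (0:ℝ) < q := by linarith [h4.2.2.2.1]
        have h5 := hl' q h4.1 h4.2.1
        have h6 : (2*y) ^ (-(3/4):ℝ) ≤ (q:ℝ) ^ (-(3/4):ℝ) :=
          Real.rpow_le_rpow_of_nonpos hq0 h4.2.2.2.2 (by norm_num)
        have h7 : c1 * (2*y) ^ (-(3/4):ℝ) ≤ a q := by
          refine le_trans ?_ h5
          gcongr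
        have h8 : (c1 * (2*y) ^ (-(3/4):ℝ))^2 ≤ (a q)^2 := by
          apply pow_le_pow_left₀ (by positivity) h7
        have h9 : (c1 * (2*y) ^ (-(3/4):ℝ))^2 = c1^2 * (2*y) ^ (-(3/2):ℝ) := by
          rw [mul_pow, ← Real.rpow_natCast ((2*y) ^ (-(3/4):ℝ)), ← Real.rpow_mul (by positivity)]
          norm_num
        linarith
      have h10 := hcard y hyy0
      have hlog : Real.log y ≤ y ^ δ / δ := Real.log_le_rpow_div hyp.le hδ0
      have h11 : (1/20) * y / (y ^ δ / δ) ≤ ((PB S0 y).card : ℝ) := by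
        refine le_trans ?_ h10
        exact div_le_div_of_nonneg_left (by positivity) hlogy hlog
      have h12 : ((1/20) * c1^2 * 2 ^ (-(3/2):ℝ) * δ) * y ^ (-(1/2 + δ)) ≤ ∑ q ∈ PB S0 y, (a q)^2 := by
        refine le_trans ?_ h3
        have h13 : ((1/20) * c1^2 * 2 ^ (-(3/2):ℝ) * δ) * y ^ (-(1/2 + δ)) =
            ((1/20) * y / (y ^ δ / δ)) * (c1^2 * (2*y) ^ (-(3/2):ℝ)) := by
          rw [Real.mul_rpow (by norm_num) hyp.le]
          have e1 : y ^ (-(1/2 + δ)) = y * y ^ (-(3/2):ℝ) / y ^ δ := by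
            rw [eq_div_iff (by positivity), ← Real.rpow_add hyp]
            conv_rhs => rw [← Real.rpow_one y, ← Real.rpow_mul hyp.le, one_mul, ← Real.rpow_add hyp]
            congr 1; ring
          rw [e1]
          field_simp
        rw [h13]
        gcongr
      have h14 : y ^ (-(1/2 + δ)) = Z ^ (-(2 - p)) * |t| ^ (-(2 - p)) := by
        rw [← Real.mul_rpow hZ0.le (abs_nonneg _), ← hyκ, ← Real.rpow_mul hyp.le]
        congr 1
        rw [hδ]; ring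
      have h15 : t^2 * |t| ^ (-(2 - p)) = |t| ^ p := by
        rw [← sq_abs, ← Real.rpow_natCast, ← Real.rpow_add ht1]
        congr 1
        push_cast; ring
      calc c * |t| ^ p = (5/36) * t^2 * (((1/20) * c1^2 * 2 ^ (-(3/2):ℝ) * δ) * y ^ (-(1/2 + δ))) := by
            rw [h14, hc, ← h15]; ring
        _ ≤ (5/36) * t^2 * ∑ q ∈ PB S0 y, (a q)^2 := by gcongr
    calc _ ≤ Real.exp (-(c * |t| ^ p)) := h2
      _ = 1 * Real.exp (-(c * |t| ^ p)) := (one_mul _).symm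
      _ ≤ _ := by gcongr

end Pool.Agent.N687.W
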