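import Mathlib
import Pool.Agent.N687.W.B4
import Pool.Agent.N687.W.C2
import Pool.Agent.N687.W.C3
import Pool.Agent.H383.Full

/-!
# The laws of the finite sums
-/

set_option autoImplicit false

open MeasureTheory Filter Topology
open Pool.Agent.H383.AP Pool.Agent.H383.Gauss Pool.Agent.H383.Gen

namespace Pool.Agent.N687.W

variable {a : ℕ → ℝ} {φ α X κ : ℝ} {S0 T : Finset ℕ} {e : ℕ → ℝ} {ν : ProbabilityMeasure ℝ}

lemma exists_law (a : ℕ → ℝ) (φ α X : ℝ) (T : Finset ℕ) : ∃ μ : ProbabilityMeasure ℝ,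
    Integrable (fun x : ℝ => x^2) (μ : Measure ℝ) ∧ Law2 (ST a φ α X T) μ := by
  have h : B2 (ST a φ α X T) := by
    intro η hη
    refine ⟨ST a φ α X T, TG_le_Trig ⊤ (ST_mem fun _ _ => AddSubgroup.mem_top _), 0, fun N _ => ?_⟩
    have : rm (fun n => (ST a φ α X T n - ST a φ α X T n)^2) N = 0 := by
      unfold rm
      simp
    rw [this]
    exact hη.le
  exact h.limit

/-- the law of a finite sum -/
noncomputable def muT (a : ℕ → ℝ) (φ α X : ℝ) (T : Finset ℕ) : ProbabilityMeasure ℝ := (exists_law a φ α X T).choose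

lemma muT_sq (a : ℕ → ℝ) (φ α X : ℝ) (T : Finset ℕ) : Integrable (fun x : ℝ => x^2) (muT a φ α X T : Measure ℝ) :=
  (exists_law a φ α X T).choose_spec.1

lemma muT_law (a : ℕ → ℝ) (φ α X : ℝ) (T : Finset ℕ) : Law2 (ST a φ α X T) (muT a φ α X T) :=
  (exists_law a φ α X T).choose_spec.2

lemma int_of_sq {μ : Measure ℝ} [IsProbabilityMeasure μ] (h : Integrable (fun x : ℝ => x^2) μ) : Integrable (fun x : ℝ => x) μ := by
  have h1 : Integrable (fun x : ℝ => 1 + x^2) μ := (integrable_const _).add h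
  apply h1.mono' measurable_id.aestronglyMeasurable
  apply Eventually.of_forall
  intro x
  change |x| ≤ _
  have := sq_nonneg (|x| - 1)
  rw [← sq_abs x]
  nlinarith [abs_nonneg x]

lemma muT_char (a : ℕ → ℝ) (φ α X : ℝ) (T : Finset ℕ) (t : ℝ) :
    charFun (muT a φ α X T : Measure ℝ) t = mn (ex a φ α X ((t:ℂ) * Complex.I) T) := by
  have h1 := (muT_law a φ α X T).law.char t
  have h2 := UC_hasMean (ex_UC_top (a := a) (φ := φ) (α := α) (X := X) (T := T) ((t:ℂ) * Complex.I))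
  have e : (fun n => Complex.exp (((t * ST a φ α X T n : ℝ) : ℂ) * Complex.I)) = ex a φ α X ((t:ℂ) * Complex.I) T := by
    funext n
    unfold ex
    congr 1
    push_cast; ring
  rw [e] at h1
  exact h1.unique h2

lemma growth_abs (c : ℝ) : ∃ C : ℝ, ∀ x : ℝ, |(|x - c|)| ≤ C * (1 + x^2) := by
  refine ⟨1 + |c|, fun x => ?_⟩
  rw [abs_abs]
  have h1 : |x - c| ≤ |x| + |c| := abs_sub _ _
  have h2 : |x| ≤ 1 + x^2 := by
    have := sq_nonneg (|x| - 1)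
    rw [← sq_abs x]; nlinarith [abs_nonneg x]
  have h3 := abs_nonneg c
  nlinarith [sq_nonneg x]

/-- closeness of the mean absolute deviations and the characteristic functions -/
theorem close_law {f g : ℕ → ℝ} {μ₁ μ₂ : ProbabilityMeasure ℝ} (h₁ : Law2 f μ₁) (h₂ : Law2 g μ₂) {ε : ℝ}
    (h : ∃ N0, ∀ N, N0 ≤ N → rm (fun n => |f n - g n|) N ≤ ε) :
    (∀ c : ℝ, |(∫ x, |x - c| ∂(μ₁ : Measure ℝ)) - ∫ x, |x - c| ∂(μ₂ : Measure ℝ)| ≤ ε) ∧
    ∀ t : ℝ, ‖charFun (μ₁ : Measure ℝ) t - charFun (μ₂ : Measure ℝ) t‖ ≤ |t| * ε := by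
  obtain ⟨N0, hN0⟩ := h
  constructor
  · intro c
    have k1 := h₁ (fun x => |x - c|) (by fun_prop) (growth_abs c)
    have k2 := h₂ (fun x => |x - c|) (by fun_prop) (growth_abs c)
    have k3 := (k1.sub k2).abs
    apply le_of_tendsto k3
    filter_upwards [eventually_ge_atTop N0] with N hN
    refine le_trans ?_ (hN0 N hN)
    have e1 : rm (fun n => |f n - c|) N - rm (fun n => |g n - c|) N = rm (fun n => |f n - c| - |g n - c|) N := by
      unfold rm; rw [← sub_div, ← Finset.sum_sub_distrib]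
    rw [e1]
    have e2 : |rm (fun n => |f n - c| - |g n - c|) N| ≤ rm (fun n => |(|f n - c| - |g n - c|)|) N := by
      unfold rm
      rw [abs_div, Nat.abs_cast]
      apply div_le_div_of_nonneg_right _ (Nat.cast_nonneg N)
      exact Finset.abs_sum_le_sum_abs _ _
    refine e2.trans (rm_mono (fun n => ?_) N)
    have := abs_abs_sub_abs_le_abs_sub (f n - c) (g n - c)
    rwa [show f n - c - (g n - c) = f n - g n by ring] at this
  · intro t
    apply mean_close (h₁.law.char t) (h₂.law.char t)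
    refine ⟨N0, fun N hN => ?_⟩
    refine (norm_cm_sub_le _ _ N).trans ?_
    have hpt : ∀ n, ‖Complex.exp (((t * f n : ℝ) : ℂ) * Complex.I) - Complex.exp (((t * g n : ℝ) : ℂ) * Complex.I)‖ ≤
        |t| * |f n - g n| := by
      intro n
      have e1 : Complex.exp (((t * f n : ℝ) : ℂ) * Complex.I) - Complex.exp (((t * g n : ℝ) : ℂ) * Complex.I) =
          Complex.exp (((t * g n : ℝ) : ℂ) * Complex.I) * (Complex.exp (Complex.I * ((t * (f n - g n) : ℝ) : ℂ)) - 1) := by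
        rw [mul_sub, ← Complex.exp_add, mul_one]
        congr 2
        push_cast; ring
      rw [e1, norm_mul, Complex.norm_exp_ofReal_mul_I, one_mul, ← abs_mul]
      exact Real.norm_exp_I_mul_ofReal_sub_one_le
    refine (rm_mono hpt N).trans ?_
    rw [rm_mul]
    exact mul_le_mul_of_nonneg_left (hN0 N hN) (abs_nonneg _)

/-- the classes of the squarefree numbers below `D` -/
def 𝒜 (D : ℕ) : Set ℕ := {m | ∃ s : ℕ, Squarefree s ∧ s < D ∧ InC s m}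

open Classical in
/-- the squarefree numbers of `[D, M ^ 2]` -/
noncomputable def QD (D M : ℕ) : Finset ℕ := (Finset.Icc 1 (M^2)).filter (fun s => Squarefree s ∧ D ≤ s)

lemma exists_class {m : ℕ} (hm : 1 ≤ m) : ∃ s : ℕ, Squarefree s ∧ 1 ≤ s ∧ s ≤ m ∧ InC s m := by
  obtain ⟨s, t, hst, hs⟩ := Nat.sq_mul_squarefree m
  have ht : 1 ≤ t := by
    rcases Nat.eq_zero_or_pos t with h | h
    · rw [h] at hst; simp at hst; omega
    · exact h
  refine ⟨s, hs, Nat.one_le_iff_ne_zero.mpr hs.ne_zero, ?_, t, by rw [← hst]; ring⟩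
  calc s = 1^2 * s := by ring
    _ ≤ t^2 * s := Nat.mul_le_mul_right _ (Nat.pow_le_pow_left ht 2)
    _ = m := hst

lemma mem_𝒜_iff {D M m : ℕ} (hm : m ∈ Finset.Icc 1 (M^2)) : m ∈ 𝒜 D ↔ ∀ s ∈ QD D M, ¬ InC s m := by
  rw [Finset.mem_Icc] at hm
  constructor
  · rintro ⟨s, hs, hsD, hc⟩ s' hs' hc'
    unfold QD at hs'
    rw [Finset.mem_filter] at hs'
    have := inC_unique hs hs'.2.1 hm.1 hc hc'
    omega
  · intro h
    obtain ⟨s, hs, hs1, hsm, hc⟩ := exists_class hm.1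
    refine ⟨s, hs, ?_, hc⟩
    by_contra hsD
    apply h s _ hc
    unfold QD
    rw [Finset.mem_filter, Finset.mem_Icc]
    exact ⟨⟨hs1, by omega⟩, hs, by omega⟩

open Classical in
/-- the low part of `[1, M ^ 2]` -/
noncomputable def TA (D M : ℕ) : Finset ℕ := (Finset.Icc 1 (M^2)).filter (fun m => ∀ s ∈ QD D M, ¬ InC s m)

lemma U_low (a : ℕ → ℝ) (φ α X : ℝ) (D M n : ℕ) : U (aIn (𝒜 D) a) φ (X + n * α) M = ST a φ α X (TA D M) n := by
  classical
  unfold U Pool.Agent.H383.Gen.ST TA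
  rw [Finset.sum_filter]
  apply Finset.sum_congr rfl
  intro m hm
  unfold aIn
  by_cases h : m ∈ 𝒜 D
  · rw [if_pos h, if_pos ((mem_𝒜_iff hm).mp h)]
  · rw [if_neg h, if_neg (fun h' => h ((mem_𝒜_iff hm).mpr h')), zero_mul]

open Classical in
/-- the variance of the high part -/
noncomputable def vD (a : ℕ → ℝ) (D M : ℕ) : ℝ := ∑ s ∈ QD D M, vT a ((Finset.Icc 1 (M^2)).filter (InC s))

lemma vD_eq (a : ℕ → ℝ) (D M : ℕ) : vD a D M = (1/2) * ∑ m ∈ Finset.Icc 1 (M^2), (aIn (𝒜 D)ᶜ a m)^2 := by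
  classical
  unfold vD vT
  rw [← Finset.mul_sum]
  congr 1
  have e1 : ∀ s ∈ QD D M, ∑ m ∈ (Finset.Icc 1 (M^2)).filter (InC s), (a m)^2 =
      ∑ m ∈ Finset.Icc 1 (M^2), if InC s m then (a m)^2 else 0 := fun s _ => Finset.sum_filter _ _
  rw [Finset.sum_congr rfl e1, Finset.sum_comm]
  apply Finset.sum_congr rfl
  intro m hm
  have hm' := hm
  rw [Finset.mem_Icc] at hm'
  unfold aIn
  by_cases h : m ∈ 𝒜 D
  · rw [if_neg (by simpa using h)]
    rw [Finset.sum_eq_zero]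
    · ring
    · intro s hs
      rw [if_neg ((mem_𝒜_iff hm).mp h s hs)]
  · rw [if_pos (by simpa using h)]
    have h2 : ∃ s ∈ QD D M, InC s m := by
      by_contra hcon
      push Not at hcon
      exact h ((mem_𝒜_iff hm).mpr hcon)
    obtain ⟨s, hs, hc⟩ := h2
    rw [Finset.sum_eq_single s]
    · rw [if_pos hc]
    · intro s' hs' hne
      rw [if_neg]
      intro hc'
      apply hne
      unfold QD at hs hs'
      rw [Finset.mem_filter] at hs hs'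
      exact inC_unique hs'.2.1 hs.2.1 hm'.1 hc' hc
    · intro hs'
      exact absurd hs hs'

lemma vD_nonneg (a : ℕ → ℝ) (D M : ℕ) : 0 ≤ vD a D M := by
  rw [vD_eq]; positivity

lemma prime_mem_TA {D M q : ℕ} (hq : q.Prime) (hqD : q < D) (hDM : D ≤ M^2) : q ∈ TA D M := by
  classical
  unfold TA
  have hm : q ∈ Finset.Icc 1 (M^2) := Finset.mem_Icc.mpr ⟨hq.one_lt.le, by omega⟩
  rw [Finset.mem_filter]
  refine ⟨hm, (mem_𝒜_iff hm).mp ⟨q, hq.prime.squarefree, hqD, 1, by ring⟩⟩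

/-- the finite gap -/
theorem gap_fin (S0 : Finset ℕ) (ha : BK a (7/10)) (hl : LB a) :
    ∃ (Ψ : ℝ → ℝ) (b K : ℝ) (D₀ : ℕ), (∀ t, 0 ≤ Ψ t) ∧ Integrable (fun t => |t| * Ψ t) ∧ Integrable (fun t => t^2 * Ψ t) ∧
      (∀ t, Ψ t ≤ K * (1 + t^2)⁻¹) ∧ 0 < b ∧ 0 < K ∧
      ∀ D : ℕ, D₀ ≤ D → ∀ α φ X : ℝ, GoodS α S0 → ∀ M : ℕ, D ≤ M^2 →
        (∀ t, |t| ≤ (D:ℝ) ^ (3/5:ℝ) → ‖charFun (muT a φ α X (TA D M) : Measure ℝ) t‖ ≤ Ψ t) ∧
        (∀ t, |t| ≤ (D:ℝ) ^ (3/5:ℝ) → ‖charFun (muT a φ α X (Finset.Icc 1 (M^2)) : Measure ℝ) t -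
          charFun (muT a φ α X (TA D M) : Measure ℝ) t‖ ≤ t^2 * vD a D M + t^4 * (vD a D M)^2) ∧
        ∀ c : ℝ, vD a D M / 2 * (∫ t in Set.Icc (-((D:ℝ) ^ (3/5:ℝ))) ((D:ℝ) ^ (3/5:ℝ)), rc (muT a φ α X (TA D M) : Measure ℝ) c t) -
          (b * (D:ℝ) ^ (-(7/10):ℝ) * vD a D M * (∫ t, |t| * Ψ t) + (vD a D M)^2 * ∫ t, t^2 * Ψ t) - 4 / (D:ℝ) ^ (3/5:ℝ) ≤
          K0 * ((∫ x, |x - c| ∂(muT a φ α X (Finset.Icc 1 (M^2)) : Measure ℝ)) - ∫ x, |x - c| ∂(muT a φ α X (TA D M) : Measure ℝ)) := by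
  classical
  obtain ⟨C, c, Z, hC, hc, hZ, hdec⟩ := decay_fin S0 (κ := 7/10) (p := 5/4) (by norm_num) ha hl (by norm_num) (by norm_num)
  obtain ⟨Ca, hCa, ha'⟩ := ha
  obtain ⟨Z', hZ'⟩ : ∃ Z' : ℝ, Z' = Ca * (∑' t : ℕ, (t:ℝ) ^ (-(2 * (7/10:ℝ)))) := ⟨_, rfl⟩
  have hZ'0 : 0 ≤ Z' := by
    rw [hZ']
    exact mul_nonneg hCa.le (tsum_nonneg fun t => by positivity)
  obtain ⟨Ψ, hΨ⟩ : ∃ Ψ : ℝ → ℝ, Ψ = fun t => C * Real.exp (-(c * |t| ^ (5/4:ℝ))) := ⟨_, rfl⟩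
  have hΨ0 : ∀ t, 0 ≤ Ψ t := fun t => by rw [hΨ]; positivity
  have hΨc : Continuous Ψ := by
    rw [hΨ]
    have : Continuous fun t : ℝ => |t| ^ (5/4:ℝ) := continuous_abs.rpow_const (fun _ => Or.inr (by norm_num))
    fun_prop
  obtain ⟨K₂, hK₂, hd2⟩ := Pool.Agent.H383.ED.dom2 hc (show (1:ℝ) < 5/4 by norm_num) (b := 2) (by norm_num)
  have hexp : ∀ t : ℝ, 1 + |t| + t^2 ≤ 2 * Real.exp (2 * |t|) := by
    intro t
    have h1 := Real.add_one_le_exp |t|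
    have h2 : Real.exp (2 * |t|) = Real.exp |t| * Real.exp |t| := by rw [← Real.exp_add]; ring_nf
    have h3 := abs_nonneg t
    rw [h2, ← sq_abs t]
    nlinarith
  have hΨd : ∀ t : ℝ, (1 + |t| + t^2) * Ψ t ≤ (2 * C * K₂) * (1 + t^2)⁻¹ := by
    intro t
    have h1 := hd2 t
    rw [hΨ]
    have h2 := Real.exp_pos (-(c * |t| ^ (5/4:ℝ)))
    calc (1 + |t| + t^2) * (C * Real.exp (-(c * |t| ^ (5/4:ℝ))))
        ≤ (2 * Real.exp (2 * |t|)) * (C * Real.exp (-(c * |t| ^ (5/4:ℝ)))) := by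
          apply mul_le_mul_of_nonneg_right (hexp t) (by positivity)
      _ = 2 * C * (Real.exp (-(c * |t| ^ (5/4:ℝ))) * Real.exp (2 * |t|)) := by ring
      _ ≤ 2 * C * (K₂ * (1 + t^2)⁻¹) := by gcongr
      _ = _ := by ring
  have hinv := integrable_inv_one_add_sq.const_mul (2 * C * K₂)
  have hΨ1 : Integrable (fun t => |t| * Ψ t) := by
    apply hinv.mono' (by fun_prop)
    refine Eventually.of_forall fun t => ?_
    have h1 := hΨ0 t
    rw [Real.norm_eq_abs, abs_of_nonneg (by positivity)]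
    refine le_trans ?_ (hΨd t)
    nlinarith [sq_nonneg t]
  have hΨ2 : Integrable (fun t => t^2 * Ψ t) := by
    apply hinv.mono' (by fun_prop)
    refine Eventually.of_forall fun t => ?_
    have h1 := hΨ0 t
    rw [Real.norm_eq_abs, abs_of_nonneg (by positivity)]
    refine le_trans ?_ (hΨd t)
    nlinarith [abs_nonneg t]
  have e1 : ∀ᶠ D : ℕ in atTop, Z' * (D:ℝ) ^ (-(1/10):ℝ) < 1 := by
    have h1 := ((tendsto_rpow_neg_atTop (show (0:ℝ) < 1/10 by norm_num)).comp tendsto_natCast_atTop_atTop).const_mul Z'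
    rw [mul_zero] at h1
    exact h1.eventually (gt_mem_nhds one_pos)
  have e2 : ∀ᶠ D : ℕ in atTop, 4 * Z ^ (10/7:ℝ) * (D:ℝ) ^ (-(1/7):ℝ) < 1 := by
    have h1 := ((tendsto_rpow_neg_atTop (show (0:ℝ) < 1/7 by norm_num)).comp tendsto_natCast_atTop_atTop).const_mul (4 * Z ^ (10/7:ℝ))
    rw [mul_zero] at h1
    exact h1.eventually (gt_mem_nhds one_pos)
  obtain ⟨D₁, hD₁⟩ := eventually_atTop.mp ((e1.and e2).and (eventually_ge_atTop 2))
  refine ⟨Ψ, (2/9) * (Z' + 1), 2 * C * K₂ + 1, max D₁ (S0.sup id + 1), hΨ0, hΨ1, hΨ2, ?_, by positivity, by positivity, ?_⟩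
  · intro t
    have h1 := hΨd t
    have h2 := hΨ0 t
    have h3 : (0:ℝ) ≤ (1 + t^2)⁻¹ := by positivity
    nlinarith [mul_nonneg (abs_nonneg t) h2, mul_nonneg (sq_nonneg t) h2]
  intro D hD α φ X hS M hDM
  obtain ⟨⟨f1, f2⟩, f3⟩ := hD₁ D ((le_max_left _ _).trans hD)
  have hDS : ∀ s ∈ S0, s < D := by
    intro s hs
    have h1 : s ≤ S0.sup id := Finset.le_sup (f := id) hs
    have h2 := (le_max_right D₁ (S0.sup id + 1)).trans hD
    omega
  have hD0 : (0:ℝ) < D := by exact_mod_cast (by omega : 0 < D)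
  have hD1 : (1:ℝ) ≤ D := by exact_mod_cast (by omega : 1 ≤ D)
  obtain ⟨L, hL⟩ : ∃ L : ℝ, L = (D:ℝ) ^ (3/5:ℝ) := ⟨_, rfl⟩
  rw [← hL]
  have hL0 : 0 < L := by rw [hL]; positivity
  have hQ : ∀ s ∈ QD D M, Squarefree s ∧ s ∉ S0 := by
    intro s hs
    unfold QD at hs
    rw [Finset.mem_filter] at hs
    refine ⟨hs.2.1, fun h => ?_⟩
    have := hDS s h
    omega
  have hT1 : ∀ m ∈ Finset.Icc 1 (M^2), 1 ≤ m := fun m hm => (Finset.mem_Icc.mp hm).1
  have hTA1 : ∀ m ∈ TA D M, 1 ≤ m := fun m hm => by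
    unfold TA at hm
    rw [Finset.mem_filter] at hm
    exact hT1 m hm.1
  obtain ⟨b, hb⟩ : ∃ b : ℝ, b = Z' * (D:ℝ) ^ (-(7/10):ℝ) := ⟨_, rfl⟩
  have hbs : ∀ s ∈ QD D M, bT a ((Finset.Icc 1 (M^2)).filter (InC s)) ≤ b := by
    intro s hs
    have hs' := hs
    unfold QD at hs'
    rw [Finset.mem_filter, Finset.mem_Icc] at hs'
    have h1 := bT_le (a := a) (κ := 7/10) (by norm_num) hCa ha' hs'.1.1 (T := (Finset.Icc 1 (M^2)).filter (InC s)) (fun m hm => by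
      rw [Finset.mem_filter] at hm
      exact ⟨hT1 m hm.1, hm.2⟩)
    rw [← hZ'] at h1
    refine h1.trans ?_
    rw [hb]
    apply mul_le_mul_of_nonneg_left _ hZ'0
    exact Real.rpow_le_rpow_of_nonpos hD0 (by exact_mod_cast hs'.2.2) (by norm_num)
  have hLb : ∀ t : ℝ, |t| ≤ L → |t| * b ≤ 1 := by
    intro t ht
    have hb0 : 0 ≤ b := by rw [hb]; positivity
    calc |t| * b ≤ L * b := mul_le_mul_of_nonneg_right ht hb0
      _ = Z' * (D:ℝ) ^ (-(1/10):ℝ) := by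
          rw [hL, hb]
          have : (D:ℝ) ^ (3/5:ℝ) * (D:ℝ) ^ (-(7/10):ℝ) = (D:ℝ) ^ (-(1/10):ℝ) := by
            rw [← Real.rpow_add hD0]; norm_num
          rw [← this]; ring
      _ ≤ 1 := f1.le
  obtain ⟨Bf, hBf⟩ : ∃ Bf : ℝ → ℂ, Bf = fun t : ℝ => ∏ s ∈ QD D M, mn (ex a φ α X ((t:ℂ) * Complex.I) ((Finset.Icc 1 (M^2)).filter (InC s))) := ⟨_, rfl⟩
  have hBf1 : ∀ t, ‖Bf t‖ ≤ 1 := by
    intro t
    rw [hBf]
    simp only
    rw [norm_prod]
    exact Finset.prod_le_one (fun _ _ => norm_nonneg _) (fun s _ => mn_ex_le_one t _)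
  have hprod : ∀ t, charFun (muT a φ α X (Finset.Icc 1 (M^2)) : Measure ℝ) t = charFun (muT a φ α X (TA D M) : Measure ℝ) t * Bf t := by
    intro t
    rw [muT_char, muT_char, prod_formula (a := a) (φ := φ) (X := X) hS ((t:ℂ) * Complex.I) (T := Finset.Icc 1 (M^2)) hT1 (QD D M) hQ, hBf]
    unfold TA
    ring
  have hBa : ∀ t, |t| ≤ L → ‖1 - Bf t - ((t^2 * vD a D M / 2 : ℝ) : ℂ)‖ ≤ ((2/9) * b) * |t|^3 * vD a D M + t^4 * (vD a D M)^2 := by
    intro t ht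
    rw [hBf]
    exact prod_approx hS hQ hT1 hbs (hLb t ht)
  have hv0 := vD_nonneg a D M
  have hb0 : 0 ≤ b := by rw [hb]; positivity
  have hdecA : ∀ t, |t| ≤ L → ‖charFun (muT a φ α X (TA D M) : Measure ℝ) t‖ ≤ Ψ t := by
    intro t ht
    rw [muT_char, hΨ]
    apply hdec α φ X hS (TA D M) ((D:ℝ)/2) t hTA1
    · intro q hq hqD
      apply prime_mem_TA hq _ hDM
      have : (q:ℝ) < D := by linarith
      exact_mod_cast this
    · have h1 : (Z * |t|) ^ (1/(7/10:ℝ)) ≤ (Z * L) ^ (10/7:ℝ) := by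
        rw [show (1/(7/10:ℝ)) = 10/7 by norm_num]
        apply Real.rpow_le_rpow (by positivity) _ (by norm_num)
        exact mul_le_mul_of_nonneg_left ht hZ.le
      have h2 : (Z * L) ^ (10/7:ℝ) = Z ^ (10/7:ℝ) * (D:ℝ) ^ (-(1/7):ℝ) * D := by
        rw [Real.mul_rpow hZ.le hL0.le, hL, ← Real.rpow_mul hD0.le, mul_assoc]
        congr 1
        conv_rhs => rw [← Real.rpow_one (D:ℝ), ← Real.rpow_mul hD0.le, one_mul, ← Real.rpow_add hD0]
        norm_num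
      rw [h2] at h1
      have h3 : 4 * (Z ^ (10/7:ℝ) * (D:ℝ) ^ (-(1/7):ℝ) * D) ≤ D := by
        have := mul_le_mul_of_nonneg_right f2.le hD0.le
        linarith
      linarith
  refine ⟨hdecA, ?_, ?_⟩
  · intro t ht
    rw [hprod t]
    have e3 : charFun (muT a φ α X (TA D M) : Measure ℝ) t * Bf t - charFun (muT a φ α X (TA D M) : Measure ℝ) t =
        -(charFun (muT a φ α X (TA D M) : Measure ℝ) t * (1 - Bf t)) := by ring
    rw [e3, norm_neg, norm_mul]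
    have h1 := hBa t ht
    have h2 : ‖1 - Bf t‖ ≤ t^2 * vD a D M + t^4 * (vD a D M)^2 := by
      have e4 : 1 - Bf t = (1 - Bf t - ((t^2 * vD a D M / 2 : ℝ) : ℂ)) + ((t^2 * vD a D M / 2 : ℝ) : ℂ) := by ring
      rw [e4]
      refine (norm_add_le _ _).trans ?_
      rw [Complex.norm_real, Real.norm_eq_abs, abs_of_nonneg (by positivity)]
      have h3 : (2/9 * b) * |t|^3 * vD a D M ≤ t^2 * vD a D M / 2 := by
        have : |t|^3 * b ≤ t^2 := by
          have e2 : |t|^3 * b = t^2 * (|t| * b) := by rw [← sq_abs t]; ring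
          rw [e2]
          exact mul_le_of_le_one_right (sq_nonneg t) (hLb t ht)
        have := mul_le_mul_of_nonneg_right this hv0
        nlinarith [mul_nonneg (sq_nonneg t) hv0]
      linarith
    calc ‖charFun (muT a φ α X (TA D M) : Measure ℝ) t‖ * ‖1 - Bf t‖ ≤ 1 * ‖1 - Bf t‖ :=
          mul_le_mul_of_nonneg_right (norm_charFun_le_one t) (norm_nonneg _)
      _ = ‖1 - Bf t‖ := one_mul _
      _ ≤ _ := h2
  · intro c'
    have key := gap_lower (μ₁ := (muT a φ α X (Finset.Icc 1 (M^2)) : Measure ℝ)) (μ₂ := (muT a φ α X (TA D M) : Measure ℝ))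
      (int_of_sq (muT_sq _ _ _ _ _)) (int_of_sq (muT_sq _ _ _ _ _)) hprod hBf1 hv0 (β := (2/9) * b) (by positivity) hL0 hBa hdecA hΨ0 hΨ1 hΨ2 c'
    refine le_trans ?_ key
    have hJ : 0 ≤ ∫ t, |t| * Ψ t := integral_nonneg fun t => mul_nonneg (abs_nonneg t) (hΨ0 t)
    have h1 : (2/9) * b * vD a D M * (∫ t, |t| * Ψ t) ≤ (2/9) * (Z' + 1) * (D:ℝ) ^ (-(7/10):ℝ) * vD a D M * (∫ t, |t| * Ψ t) := by
      apply mul_le_mul_of_nonneg_right _ hJ
      apply mul_le_mul_of_nonneg_right _ hv0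
      rw [hb]
      have : 0 ≤ (D:ℝ) ^ (-(7/10):ℝ) := by positivity
      nlinarith
    linarith

end Pool.Agent.N687.W
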