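import Mathlib
import Pool.Agent.N687.W.C4

/-!
# The gap between the mean absolute deviations of the limit law and of the low part
-/

set_option autoImplicit false

open MeasureTheory Filter Topology
open Pool.Agent.H383.AP Pool.Agent.H383.Gauss Pool.Agent.H383.Gen

namespace Pool.Agent.N687.W

variable {a : ℕ → ℝ} {φ α X κ : ℝ} {S0 T : Finset ℕ} {e : ℕ → ℝ} {ν : ProbabilityMeasure ℝ}

/-- twice the variance of the high part -/
noncomputable def VD (a : ℕ → ℝ) (D : ℕ) : ℝ := ∑' m, (aIn (𝒜 D)ᶜ a m)^2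

lemma sq_summable (ha : BK a (7/10)) (ha0 : a 0 = 0) : Summable (fun m : ℕ => (a m)^2) := by
  obtain ⟨C, hC, ha⟩ := ha
  have h1 : Summable (fun m : ℕ => C^2 * (m:ℝ) ^ (-(14/10):ℝ)) := by
    apply Summable.mul_left
    rw [Real.summable_nat_rpow]; norm_num
  apply Summable.of_nonneg_of_le (fun m => sq_nonneg _) _ h1
  intro m
  rcases Nat.eq_zero_or_pos m with rfl | hm
  · rw [ha0]
    have : (0:ℝ) ≤ C^2 * ((0:ℕ):ℝ) ^ (-(14/10):ℝ) := by positivity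
    rw [zero_pow two_ne_zero]
    exact this
  · have h2 := ha m hm
    have h3 : (a m)^2 ≤ (C * (m:ℝ) ^ (-(7/10):ℝ))^2 := by
      rw [← sq_abs]
      exact pow_le_pow_left₀ (abs_nonneg _) h2 2
    refine h3.trans (le_of_eq ?_)
    rw [mul_pow, ← Real.rpow_natCast ((m:ℝ) ^ (-(7/10):ℝ)), ← Real.rpow_mul (Nat.cast_nonneg m)]
    norm_num

lemma aIn_sq_le (𝒜' : Set ℕ) (a : ℕ → ℝ) (m : ℕ) : (aIn 𝒜' a m)^2 ≤ (a m)^2 := by
  rw [← sq_abs, ← sq_abs (a m)]
  exact pow_le_pow_left₀ (abs_nonneg _) (aIn_abs_le _ _ _) 2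

lemma aIn_sq_summable (𝒜' : Set ℕ) (ha : BK a (7/10)) (ha0 : a 0 = 0) : Summable (fun m : ℕ => (aIn 𝒜' a m)^2) :=
  Summable.of_nonneg_of_le (fun _ => sq_nonneg _) (fun _ => aIn_sq_le _ _ _) (sq_summable ha ha0)

lemma high_ge {D m : ℕ} (hm : 1 ≤ m) (h : m ∉ 𝒜 D) : D ≤ m := by
  obtain ⟨s, hs, _, hsm, hc⟩ := exists_class hm
  by_contra hcon
  exact h ⟨s, hs, by omega, hc⟩

lemma aIn_low {D m : ℕ} (ha0 : a 0 = 0) (hm : m < D) : aIn (𝒜 D)ᶜ a m = 0 := by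
  rcases Nat.eq_zero_or_pos m with rfl | h
  · exact aIn_zero _ ha0
  · unfold aIn
    rw [if_neg]
    intro h2
    have := high_ge h (by simpa using h2)
    omega

lemma VD_nonneg (a : ℕ → ℝ) (D : ℕ) : 0 ≤ VD a D := tsum_nonneg fun _ => sq_nonneg _

lemma VD_tendsto (ha : BK a (7/10)) (ha0 : a 0 = 0) : Tendsto (fun D => VD a D) atTop (𝓝 0) := by
  have h1 := tendsto_sum_nat_add (fun m : ℕ => (a m)^2)
  apply squeeze_zero (fun D => VD_nonneg a D) (fun D => ?_) h1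
  have h2 := aIn_sq_summable (𝒜 D)ᶜ ha ha0
  have h3 := sq_summable ha ha0
  have h4 : VD a D = ∑' k, (aIn (𝒜 D)ᶜ a (k + D))^2 := by
    unfold VD
    rw [← h2.sum_add_tsum_nat_add D, Finset.sum_eq_zero, zero_add]
    intro m hm
    rw [aIn_low ha0 (Finset.mem_range.mp hm)]
    norm_num
  rw [h4]
  apply Summable.tsum_le_tsum (fun k => aIn_sq_le _ _ _)
  · exact (summable_nat_add_iff D).mpr h2
  · exact (summable_nat_add_iff (f := fun m : ℕ => (a m)^2) D).mpr h3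

lemma vD_tendsto (ha : BK a (7/10)) (ha0 : a 0 = 0) (D : ℕ) : Tendsto (fun M => vD a D M) atTop (𝓝 (VD a D / 2)) := by
  have h1 := (aIn_sq_summable (𝒜 D)ᶜ ha ha0).hasSum.tendsto_sum_nat
  have h2 : Tendsto (fun M : ℕ => M^2 + 1) atTop atTop := by
    apply tendsto_atTop_mono (f := fun M : ℕ => M) _ tendsto_id
    intro M
    nlinarith
  have h3 := (h1.comp h2).const_mul (1/2)
  have e0 : (1/2) * (∑' m, (aIn (𝒜 D)ᶜ a m)^2) = VD a D / 2 := by unfold VD; ring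
  rw [e0] at h3
  refine h3.congr fun M => ?_
  rw [vD_eq]
  simp only [Function.comp_apply]
  congr 1
  symm
  apply Finset.sum_subset
  · intro m hm
    rw [Finset.mem_Icc] at hm
    rw [Finset.mem_range]; omega
  · intro m hm hm'
    rw [Finset.mem_range] at hm
    rw [Finset.mem_Icc] at hm'
    have : m = 0 := by omega
    rw [this, aIn_zero _ ha0]
    norm_num

lemma vD_le (ha : BK a (7/10)) (ha0 : a 0 = 0) (D M : ℕ) : vD a D M ≤ VD a D := by
  rw [vD_eq]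
  have h1 := (aIn_sq_summable (𝒜 D)ᶜ ha ha0).sum_le_tsum (Finset.Icc 1 (M^2)) (fun _ _ => sq_nonneg _)
  have h2 : 0 ≤ ∑ m ∈ Finset.Icc 1 (M^2), (aIn (𝒜 D)ᶜ a m)^2 := Finset.sum_nonneg fun _ _ => sq_nonneg _
  unfold VD
  linarith

/-- approximation in mean by the finite sums -/
lemma ap_abs (hA : Ap a φ e α X) {ε : ℝ} (hε : 0 < ε) : ∃ M0 : ℕ, ∀ M : ℕ, M0 ≤ M → ∃ N0, ∀ N, N0 ≤ N →
    rm (fun n => |e n - ST a φ α X (Finset.Icc 1 (M^2)) n|) N ≤ ε := by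
  obtain ⟨M0, hM0⟩ := hA (ε^2) (by positivity)
  refine ⟨M0, fun M hM => ?_⟩
  obtain ⟨N0, hN0⟩ := hM0 M hM
  refine ⟨N0, fun N hN => rm_abs_le (x := fun n => e n - U a φ (X + n * α) M) hε (hN0 N hN)⟩

/-- comparison of the truncated inversion integral with the one of the limit law -/
lemma inv_close {μ₂ : Measure ℝ} [IsProbabilityMeasure μ₂] {ν' : Measure ℝ} [IsProbabilityMeasure ν'] {Ψ : ℝ → ℝ} {K Kν L T1 δ : ℝ}
    (hT1 : 0 < T1) (hTL : T1 ≤ L) (hK : 0 ≤ K)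
    (hν : ∀ t, ‖charFun ν' t‖ ≤ Kν * (1 + t^2)⁻¹) (hΨK : ∀ t, Ψ t ≤ K * (1 + t^2)⁻¹)
    (hΨ : ∀ t, |t| ≤ L → ‖charFun μ₂ t‖ ≤ Ψ t)
    (hc : ∀ t, |t| ≤ T1 → ‖charFun ν' t - charFun μ₂ t‖ ≤ δ) (c : ℝ) :
    (∫ t, rc ν' c t) - ∫ t in Set.Icc (-L) L, rc μ₂ c t ≤ 2 * T1 * δ + (K + Kν) * (2 / T1) := by
  have iν : Integrable (rc ν' c) := by
    apply (integrable_inv_one_add_sq.const_mul Kν).mono' (rc_cont ν' c).aestronglyMeasurable
    exact Eventually.of_forall fun t => (abs_rc_le ν' c t).trans (hν t)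
  have i2 : Integrable ((Set.Icc (-L) L).indicator (rc μ₂ c)) :=
    ((rc_cont μ₂ c).continuousOn.integrableOn_compact isCompact_Icc).integrable_indicator measurableSet_Icc
  rw [← integral_indicator measurableSet_Icc, ← integral_sub iν i2]
  obtain ⟨i4, e4⟩ := tl_int hT1
  have i3 : Integrable ((Set.Icc (-T1) T1).indicator (fun _ : ℝ => δ)) :=
    (continuous_const.continuousOn.integrableOn_compact isCompact_Icc).integrable_indicator measurableSet_Icc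
  have i5 : Integrable (fun t => (Set.Icc (-T1) T1).indicator (fun _ : ℝ => δ) t + (K + Kν) * tl T1 t) := i3.add (i4.const_mul _)
  have hle : ∫ t, (rc ν' c t - (Set.Icc (-L) L).indicator (rc μ₂ c) t) ≤
      ∫ t, ((Set.Icc (-T1) T1).indicator (fun _ : ℝ => δ) t + (K + Kν) * tl T1 t) := by
    apply integral_mono (iν.sub i2) i5
    intro t
    change rc ν' c t - (Set.Icc (-L) L).indicator (rc μ₂ c) t ≤ (Set.Icc (-T1) T1).indicator (fun _ : ℝ => δ) t + (K + Kν) * tl T1 t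
    by_cases ht : |t| ≤ T1
    · have htL : |t| ≤ L := ht.trans hTL
      have hmL : t ∈ Set.Icc (-L) L := abs_le.mp htL
      have hmT : t ∈ Set.Icc (-T1) T1 := abs_le.mp ht
      rw [Set.indicator_of_mem hmL, Set.indicator_of_mem hmT]
      unfold tl
      rw [if_neg (by linarith), mul_zero, add_zero]
      have h1 : rc ν' c t - rc μ₂ c t = (Complex.exp (((-(t * c) : ℝ) : ℂ) * Complex.I) * (charFun ν' t - charFun μ₂ t)).re := by
        unfold rc
        rw [mul_sub, Complex.sub_re]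
      rw [h1]
      refine (Complex.re_le_norm _).trans ?_
      rw [norm_mul, Complex.norm_exp_ofReal_mul_I, one_mul]
      exact hc t ht
    · push Not at ht
      rw [Set.indicator_of_notMem (s := Set.Icc (-T1) T1) (by rw [Set.mem_Icc, ← abs_le]; exact not_le.mpr ht), zero_add]
      unfold tl
      rw [if_pos ht]
      have ht0 : 0 < |t| := hT1.trans ht
      have ht2 : 0 < t^2 := by rw [← sq_abs]; positivity
      have hinv : (1 + t^2)⁻¹ ≤ 1 / t^2 := by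
        rw [← one_div]
        exact one_div_le_one_div_of_le ht2 (by linarith)
      have hKν : 0 ≤ Kν := by
        have := (norm_nonneg _).trans (hν 0)
        simpa using this
      have h1 : rc ν' c t ≤ Kν * (1 / t^2) :=
        ((le_abs_self _).trans ((abs_rc_le ν' c t).trans (hν t))).trans (mul_le_mul_of_nonneg_left hinv hKν)
      have h2 : -(K * (1 / t^2)) ≤ (Set.Icc (-L) L).indicator (rc μ₂ c) t := by
        by_cases htL : |t| ≤ L
        · have hmL : t ∈ Set.Icc (-L) L := abs_le.mp htL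
          rw [Set.indicator_of_mem hmL]
          have h3 := ((abs_rc_le μ₂ c t).trans (hΨ t htL)).trans (hΨK t)
          have h4 := neg_abs_le (rc μ₂ c t)
          have h5 := mul_le_mul_of_nonneg_left hinv hK
          linarith
        · rw [Set.indicator_of_notMem (by rw [Set.mem_Icc, ← abs_le]; exact htL)]
          have : 0 ≤ K * (1 / t^2) := by positivity
          linarith
      linarith
  refine hle.trans (le_of_eq ?_)
  rw [integral_add i3 (i4.const_mul _), integral_const_mul, e4, integral_indicator measurableSet_Icc, setIntegral_const, smul_eq_mul,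
    Measure.real, Real.volume_Icc, ENNReal.toReal_ofReal (by linarith)]
  ring

/-- the gap -/
theorem gap_main (hS : GoodS α S0) (ha : BK a (7/10)) (ha0 : a 0 = 0) (hl : LB a) (hA : Ap a φ e α X) (hν : Law2 e ν)
    (hνK : ∃ Kν : ℝ, ∀ t, ‖charFun (ν : Measure ℝ) t‖ ≤ Kν * (1 + t^2)⁻¹)
    {A0 g0 : ℝ} (hg0 : 0 < g0) (hg : ∀ c, |c| ≤ A0 → g0 ≤ ∫ t, rc (ν : Measure ℝ) c t)
    (hV : ∃ cV : ℝ, 0 < cV ∧ ∃ D₂ : ℕ, ∀ D : ℕ, D₂ ≤ D → cV * (D:ℝ) ^ (-(1/2):ℝ) ≤ VD a D) :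
    ∃ c₁ : ℝ, 0 < c₁ ∧ ∃ D₃ : ℕ, ∀ D : ℕ, D₃ ≤ D → ∃ M₃ : ℕ, ∀ M : ℕ, M₃ ≤ M → ∀ c, |c| ≤ A0 →
      c₁ * VD a D ≤ (∫ x, |x - c| ∂(ν : Measure ℝ)) - ∫ x, |x - c| ∂(muT a φ α X (TA D M) : Measure ℝ) := by
  obtain ⟨Ψ, b, K, D₀, hΨ0, hΨ1, hΨ2, hΨK, hb, hK, hfin⟩ := gap_fin S0 ha hl
  obtain ⟨Kν, hνK⟩ := hνK
  obtain ⟨cV, hcV, D₂, hV⟩ := hV
  have hK0 := K0_pos
  have hKν : 0 ≤ Kν := by
    have := (norm_nonneg _).trans (hνK 0)
    simpa using this
  obtain ⟨J1, hJ1⟩ : ∃ J1, J1 = ∫ t, |t| * Ψ t := ⟨_, rfl⟩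
  obtain ⟨J2, hJ2⟩ : ∃ J2, J2 = ∫ t, t^2 * Ψ t := ⟨_, rfl⟩
  have hJ1' : 0 ≤ J1 := by rw [hJ1]; exact integral_nonneg fun t => mul_nonneg (abs_nonneg t) (hΨ0 t)
  have hJ2' : 0 ≤ J2 := by rw [hJ2]; exact integral_nonneg fun t => mul_nonneg (sq_nonneg t) (hΨ0 t)
  obtain ⟨T1, hT1⟩ : ∃ T1 : ℝ, T1 = 16 * (K + Kν) / g0 + 1 := ⟨_, rfl⟩
  have hT10 : 1 ≤ T1 := by
    rw [hT1]
    have : 0 ≤ 16 * (K + Kν) / g0 := by positivity
    linarith
  have hT1g : (K + Kν) * (2 / T1) ≤ g0 / 8 := by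
    rw [mul_div_assoc', div_le_iff₀ (by linarith), hT1]
    have e1 : g0 / 8 * (16 * (K + Kν) / g0 + 1) = 2 * (K + Kν) + g0 / 8 := by field_simp; ring
    rw [e1]; linarith
  -- conditions on `D`
  obtain ⟨η, hη⟩ : ∃ η : ℝ, η = min 1 (min (g0 / (64 * T1^5)) (g0 / (16 * (J2 + 1)))) := ⟨_, rfl⟩
  have hη0 : 0 < η := by rw [hη]; positivity
  have c1 : ∀ᶠ D : ℕ in atTop, VD a D < η := (VD_tendsto ha ha0).eventually (gt_mem_nhds hη0)
  have c2 : ∀ᶠ D : ℕ in atTop, b * J1 * (D:ℝ) ^ (-(7/10):ℝ) < g0 / 16 := by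
    have h1 := ((tendsto_rpow_neg_atTop (show (0:ℝ) < 7/10 by norm_num)).comp tendsto_natCast_atTop_atTop).const_mul (b * J1)
    rw [mul_zero] at h1
    exact h1.eventually (gt_mem_nhds (by positivity))
  have c3 : ∀ᶠ D : ℕ in atTop, (D:ℝ) ^ (-(1/10):ℝ) < g0 * cV / 256 := by
    have h1 := ((tendsto_rpow_neg_atTop (show (0:ℝ) < 1/10 by norm_num)).comp tendsto_natCast_atTop_atTop)
    exact h1.eventually (gt_mem_nhds (by positivity))
  have c4 : ∀ᶠ D : ℕ in atTop, T1 ≤ (D:ℝ) ^ (3/5:ℝ) :=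
    ((tendsto_rpow_atTop (show (0:ℝ) < 3/5 by norm_num)).comp tendsto_natCast_atTop_atTop).eventually_ge_atTop _
  obtain ⟨D₄, hD₄⟩ := eventually_atTop.mp (((c1.and c2).and (c3.and c4)).and (eventually_ge_atTop 1))
  refine ⟨g0 / (64 * K0), by positivity, max D₄ (max D₀ D₂), ?_⟩
  intro D hD
  obtain ⟨⟨⟨k1, k2⟩, k3, k4⟩, k5⟩ := hD₄ D ((le_max_left _ _).trans hD)
  have hDD0 : D₀ ≤ D := ((le_max_left _ _).trans (le_max_right _ _)).trans hD
  have hDD2 : D₂ ≤ D := ((le_max_right _ _).trans (le_max_right _ _)).trans hD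
  have hD0 : (0:ℝ) < D := by exact_mod_cast (by omega : 0 < D)
  have hVD := hV D hDD2
  have hVD0 : 0 < VD a D := lt_of_lt_of_le (by positivity) hVD
  obtain ⟨ε, hε⟩ : ∃ ε : ℝ, ε = min (g0 / (16 * T1^2)) (g0 / (128 * K0) * VD a D) := ⟨_, rfl⟩
  have hε0 : 0 < ε := by rw [hε]; positivity
  have hε1 : ε ≤ g0 / (16 * T1^2) := by rw [hε]; exact min_le_left _ _
  have hε2 : ε ≤ g0 / (128 * K0) * VD a D := by rw [hε]; exact min_le_right _ _
  obtain ⟨M0, hM0⟩ := ap_abs hA hε0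
  obtain ⟨M1, hM1⟩ := eventually_atTop.mp ((vD_tendsto ha ha0 D).eventually (lt_mem_nhds (show VD a D / 4 < VD a D / 2 by linarith)))
  refine ⟨max D (max M0 M1), fun M hM c hc => ?_⟩
  have hMD : D ≤ M^2 := by
    have : D ≤ M := (le_max_left _ _).trans hM
    nlinarith
  obtain ⟨hcl1, hcl2⟩ := close_law hν (muT_law a φ α X (Finset.Icc 1 (M^2))) (hM0 M (((le_max_left _ _).trans (le_max_right _ _)).trans hM))
  have hv := hM1 M (((le_max_right _ _).trans (le_max_right _ _)).trans hM)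
  have hvle := vD_le ha ha0 D M
  have hv0 := vD_nonneg a D M
  obtain ⟨hf1, hf2, hf3⟩ := hfin D hDD0 α φ X hS M hMD
  have hf3c := hf3 c
  rw [← hJ1, ← hJ2] at hf3c
  -- the inversion integral
  have hη1 : VD a D ≤ 1 := k1.le.trans (by rw [hη]; exact min_le_left _ _)
  have hη2 : VD a D ≤ g0 / (64 * T1^5) := k1.le.trans (by rw [hη]; exact (min_le_right _ _).trans (min_le_left _ _))
  have hη3 : VD a D ≤ g0 / (16 * (J2 + 1)) := k1.le.trans (by rw [hη]; exact (min_le_right _ _).trans (min_le_right _ _))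
  have hinv := inv_close (μ₂ := (muT a φ α X (TA D M) : Measure ℝ)) (ν' := (ν : Measure ℝ)) (Ψ := Ψ) (K := K) (Kν := Kν)
    (L := (D:ℝ) ^ (3/5:ℝ)) (T1 := T1) (δ := g0 / (8 * T1)) (by linarith) k4 hK.le hνK hΨK hf1 (fun t ht => by
      have h1 := hcl2 t
      have h2 := hf2 t (ht.trans k4)
      have h3 : charFun (ν : Measure ℝ) t - charFun (muT a φ α X (TA D M) : Measure ℝ) t =
          (charFun (ν : Measure ℝ) t - charFun (muT a φ α X (Finset.Icc 1 (M^2)) : Measure ℝ) t) +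
          (charFun (muT a φ α X (Finset.Icc 1 (M^2)) : Measure ℝ) t - charFun (muT a φ α X (TA D M) : Measure ℝ) t) := by ring
      rw [h3]
      refine (norm_add_le _ _).trans ((add_le_add h1 h2).trans ?_)
      have ht0 := abs_nonneg t
      have t2 : t^2 ≤ T1^4 := by
        rw [← sq_abs]
        calc |t|^2 ≤ T1^2 := pow_le_pow_left₀ ht0 ht 2
          _ ≤ T1^4 := pow_le_pow_right₀ hT10 (by norm_num)
      have t4 : t^4 ≤ T1^4 := by
        have : t^4 = |t|^4 := by rw [show (4:ℕ) = 2 * 2 by norm_num, pow_mul, pow_mul, sq_abs]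
        rw [this]
        exact pow_le_pow_left₀ ht0 ht 4
      have v2 : (vD a D M)^2 ≤ VD a D := by
        calc (vD a D M)^2 ≤ (VD a D)^2 := pow_le_pow_left₀ hv0 hvle 2
          _ ≤ VD a D := by nlinarith
      have s1 : t^2 * vD a D M + t^4 * (vD a D M)^2 ≤ 2 * T1^4 * VD a D := by
        have u1 : t^2 * vD a D M ≤ T1^4 * VD a D := mul_le_mul t2 hvle hv0 (by positivity)
        have u2 : t^4 * (vD a D M)^2 ≤ T1^4 * VD a D := mul_le_mul t4 v2 (sq_nonneg _) (by positivity)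
        linarith
      have s2 : 2 * T1^4 * VD a D ≤ g0 / (32 * T1) := by
        calc 2 * T1^4 * VD a D ≤ 2 * T1^4 * (g0 / (64 * T1^5)) := by gcongr
          _ = g0 / (32 * T1) := by field_simp; norm_num
      have s3 : |t| * ε ≤ g0 / (16 * T1) := by
        calc |t| * ε ≤ T1 * (g0 / (16 * T1^2)) := mul_le_mul ht hε1 hε0.le (by linarith)
          _ = g0 / (16 * T1) := by field_simp
      have s4 : g0 / (16 * T1) + g0 / (32 * T1) ≤ g0 / (8 * T1) := by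
        have : g0 / (8 * T1) = g0 / (16 * T1) + g0 / (32 * T1) + g0 / (32 * T1) := by field_simp; norm_num
        rw [this]
        have : 0 ≤ g0 / (32 * T1) := by positivity
        linarith
      linarith) c
  have hgc := hg c hc
  have e5 : 2 * T1 * (g0 / (8 * T1)) = g0 / 4 := by field_simp; norm_num
  rw [e5] at hinv
  have hI : 5 * g0 / 8 ≤ ∫ t in Set.Icc (-((D:ℝ) ^ (3/5:ℝ))) ((D:ℝ) ^ (3/5:ℝ)), rc (muT a φ α X (TA D M) : Measure ℝ) c t := by linarith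
  have m1 : vD a D M / 2 * (5 * g0 / 8) ≤ vD a D M / 2 *
      ∫ t in Set.Icc (-((D:ℝ) ^ (3/5:ℝ))) ((D:ℝ) ^ (3/5:ℝ)), rc (muT a φ α X (TA D M) : Measure ℝ) c t :=
    mul_le_mul_of_nonneg_left hI (by positivity)
  have m2 : b * (D:ℝ) ^ (-(7/10):ℝ) * vD a D M * J1 ≤ g0 / 16 * vD a D M := by
    have := mul_le_mul_of_nonneg_right k2.le hv0
    linarith
  have m3 : (vD a D M)^2 * J2 ≤ g0 / 16 * vD a D M := by
    have h1 : vD a D M * J2 ≤ g0 / 16 := by
      have h2 : VD a D * (16 * (J2 + 1)) ≤ g0 := by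
        rwa [le_div_iff₀ (by positivity)] at hη3
      have h3 := mul_le_mul_of_nonneg_right hvle hJ2'
      nlinarith
    have := mul_le_mul_of_nonneg_right h1 hv0
    linarith
  have m4 : 4 / (D:ℝ) ^ (3/5:ℝ) ≤ g0 / 64 * VD a D := by
    have h1 : 4 / (D:ℝ) ^ (3/5:ℝ) = 4 * ((D:ℝ) ^ (-(1/10):ℝ) * (D:ℝ) ^ (-(1/2):ℝ)) := by
      rw [← Real.rpow_add hD0, div_eq_mul_inv, ← Real.rpow_neg hD0.le]
      norm_num
    rw [h1]
    have h2 : 0 < (D:ℝ) ^ (-(1/2):ℝ) := by positivity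
    have h3 := mul_le_mul_of_nonneg_right k3.le h2.le
    have h4 := mul_le_mul_of_nonneg_left hVD (show 0 ≤ g0 / 64 by positivity)
    have h5 : g0 / 64 * (cV * (D:ℝ) ^ (-(1/2):ℝ)) = 4 * (g0 * cV / 256 * (D:ℝ) ^ (-(1/2):ℝ)) := by ring
    rw [h5] at h4
    linarith
  have m5 : g0 / 32 * VD a D ≤ K0 * ((∫ x, |x - c| ∂(muT a φ α X (Finset.Icc 1 (M^2)) : Measure ℝ)) - ∫ x, |x - c| ∂(muT a φ α X (TA D M) : Measure ℝ)) := by
    refine le_trans ?_ hf3c
    have : VD a D / 4 * (3 * g0 / 16) ≤ vD a D M * (3 * g0 / 16) := by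
      apply mul_le_mul_of_nonneg_right hv.le
      positivity
    linarith
  have m6 := (abs_le.mp (hcl1 c)).1
  have m7 : K0 * ε ≤ g0 / 128 * VD a D := by
    calc K0 * ε ≤ K0 * (g0 / (128 * K0) * VD a D) := by gcongr
      _ = g0 / 128 * VD a D := by field_simp
  have m8 : g0 / (64 * K0) * VD a D = (g0 / 64 * VD a D) / K0 := by field_simp
  rw [m8, div_le_iff₀ hK0]
  have m9 : K0 * (-ε) ≤ K0 * ((∫ x, |x - c| ∂(ν : Measure ℝ)) - ∫ x, |x - c| ∂(muT a φ α X (Finset.Icc 1 (M^2)) : Measure ℝ)) :=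
    mul_le_mul_of_nonneg_left m6 hK0.le
  have hVp : 0 ≤ g0 * VD a D := by positivity
  linarith

end Pool.Agent.N687.W
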