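import Mathlib
import Pool.Agent.N687.W.C5
import Pool.Agent.R461.GC.G5

/-!
# Splitting off the class of the squares
-/

set_option autoImplicit false

open MeasureTheory Filter Topology
open Pool.Agent.H383.AP Pool.Agent.H383.Gauss Pool.Agent.H383.Gen

namespace Pool.Agent.N687.W

open Pool.Agent.R461.GC (Lam frq frq_mem ch ch_zero ch_mem TrigS TrigS_fun TrigS_cont no_res emp_ch U_trigS second)

variable {a : ℕ → ℝ} {φ α X κ : ℝ} {S0 T : Finset ℕ} {e : ℕ → ℝ} {ν : ProbabilityMeasure ℝ}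

/-- no exceptional classes for a generic step -/
lemma good_empty (hα0 : 0 < α) (hα : ∀ θ ∈ Lam, θ ≠ 0 → ∀ k : ℤ, α * θ ≠ 2 * Real.pi * k) : GoodS α ∅ := by
  intro s hs _ c y hy hk
  obtain ⟨k, hk⟩ := hk
  have hpi := Real.pi_pos
  have hyS := Gr_span hα0 hs hy
  have hyL : ∀ y ∈ Gr α s, 2 * Real.pi * (y / α) ∈ Lam := by
    intro y hy
    unfold Gr at hy
    induction hy using AddSubgroup.closure_induction with
    | mem x hx =>
      obtain ⟨m, _, _, rfl⟩ := hx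
      have : 2 * Real.pi * (α * √(m:ℝ) / α) = frq m := by
        unfold frq; field_simp
      rw [this]
      exact frq_mem m
    | zero => rw [zero_div, mul_zero]; exact Lam.zero_mem
    | add x z _ _ ihx ihz =>
      rw [add_div, mul_add]
      exact Lam.add_mem ihx ihz
    | neg x _ ihx =>
      rw [neg_div, mul_neg]
      exact Lam.neg_mem ihx
  obtain ⟨θ, hθ⟩ : ∃ θ : ℝ, θ = c • frq s + 2 * Real.pi * (y / α) := ⟨_, rfl⟩
  have hθL : θ ∈ Lam := by
    rw [hθ]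
    exact Lam.add_mem (Lam.zsmul_mem (frq_mem s) c) (hyL y hy)
  have hθ' : θ = 2 * Real.pi * (c * √(s:ℝ) + y / α) := by
    rw [hθ, zsmul_eq_mul]; unfold frq; ring
  have hαθ : α * θ = 2 * Real.pi * k := by
    rw [hθ', ← hk]; field_simp
  have hθ0 : θ = 0 := by
    by_contra h
    exact hα θ hθL h k hαθ
  have hcz : (c:ℝ) * √(s:ℝ) = -(y / α) := by
    rw [hθ'] at hθ0
    have := (mul_eq_zero.mp hθ0).resolve_left (by positivity)
    linarith
  by_contra hne
  have h1 := sf_indep.notMem_span_image (s := {(⟨s, hs⟩ : {s : ℕ // Squarefree s})}ᶜ) (x := ⟨s, hs⟩) (by simp)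
  apply h1
  have e1 : √((((⟨s, hs⟩ : {s : ℕ // Squarefree s}) : ℕ)):ℝ) = ((c : ℚ)⁻¹) • (-(y / α)) := by
    rw [← hcz, Rat.smul_def]
    have : (c : ℝ) ≠ 0 := by exact_mod_cast hne
    push_cast
    field_simp
  rw [e1]
  exact Submodule.smul_mem _ _ (Submodule.neg_mem _ hyS)

/-- absolute convergence over one class -/
lemma class_summable (ha : Bd a) (ha0 : a 0 = 0) {s : ℕ} (hs : 1 ≤ s) : Summable (fun m => |aIn {m | InC s m} a m|) := by
  obtain ⟨C, hC, ha⟩ := ha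
  have hinj : Function.Injective (fun t : ℕ => s * t^2) := by
    intro t t' h
    have h1 : t^2 = t'^2 := Nat.eq_of_mul_eq_mul_left hs h
    exact (Nat.pow_left_inj (by norm_num)).mp h1
  have hzero : ∀ m, m ∉ Set.range (fun t : ℕ => s * t^2) → |aIn {m | InC s m} a m| = 0 := by
    intro m hm
    unfold aIn
    rw [if_neg, abs_zero]
    rintro ⟨t, ht⟩
    exact hm ⟨t, ht.symm⟩
  rw [← hinj.summable_iff hzero]
  have h1 : Summable (fun t : ℕ => C * (t:ℝ) ^ (-(37/25):ℝ)) := by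
    apply Summable.mul_left
    rw [Real.summable_nat_rpow]; norm_num
  apply Summable.of_nonneg_of_le (fun t => abs_nonneg _) _ h1
  intro t
  refine (aIn_abs_le _ _ _).trans ?_
  change |a (s * t^2)| ≤ C * (t:ℝ) ^ (-(37/25):ℝ)
  rcases Nat.eq_zero_or_pos t with rfl | ht
  · have : s * 0^2 = 0 := by ring
    rw [this, ha0, abs_zero]
    positivity
  · have hpos : 1 ≤ s * t^2 := Nat.mul_pos hs (by positivity)
    refine (ha _ hpos).trans ?_
    apply mul_le_mul_of_nonneg_left _ hC.le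
    have ht0 : (0:ℝ) < t := by exact_mod_cast ht
    apply Real.rpow_le_rpow_of_nonpos ht0 _ (by norm_num)
    apply Real.le_sqrt_of_sq_le
    push_cast
    have : (1:ℝ) ≤ s := by exact_mod_cast hs
    nlinarith [sq_nonneg (t:ℝ)]

lemma low_summable (ha : Bd a) (ha0 : a 0 = 0) (D : ℕ) : Summable (fun m => |aIn (𝒜 D) a m|) := by
  classical
  have h1 : Summable (fun m => ∑ s ∈ (Finset.range D).filter (fun s => 1 ≤ s), |aIn {m | InC s m} a m|) :=
    summable_sum fun s hs => class_summable ha ha0 (Finset.mem_filter.mp hs).2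
  apply Summable.of_nonneg_of_le (fun m => abs_nonneg _) _ h1
  intro m
  by_cases h : m ∈ 𝒜 D
  · obtain ⟨s, hs, hsD, hc⟩ := h
    have hmem : s ∈ (Finset.range D).filter (fun s => 1 ≤ s) :=
      Finset.mem_filter.mpr ⟨Finset.mem_range.mpr hsD, Nat.one_le_iff_ne_zero.mpr hs.ne_zero⟩
    have h2 := Finset.single_le_sum (f := fun s => |aIn {m | InC s m} a m|) (fun i _ => abs_nonneg _) hmem
    refine le_trans ?_ h2
    have e1 : aIn {m | InC s m} a m = a m := by
      unfold aIn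
      rw [if_pos (show m ∈ {m | InC s m} from hc)]
    simp only [e1]
    exact aIn_abs_le _ _ _
  · unfold aIn
    rw [if_neg h, abs_zero]
    exact Finset.sum_nonneg fun _ _ => abs_nonneg _

/-- tails of an absolutely convergent series -/
noncomputable def tau (b : ℕ → ℝ) (M : ℕ) : ℝ := ∑' m, (Set.indicator {m : ℕ | m ∉ Finset.Icc 1 (M^2)} (fun m => |b m|) m)

lemma tau_nonneg (b : ℕ → ℝ) (M : ℕ) : 0 ≤ tau b M :=
  tsum_nonneg fun m => Set.indicator_nonneg (fun _ _ => abs_nonneg _) m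

lemma tau_tendsto {b : ℕ → ℝ} (hb : Summable (fun m => |b m|)) (hb0 : b 0 = 0) : Tendsto (tau b) atTop (𝓝 0) := by
  have h1 := tendsto_sum_nat_add (fun m : ℕ => |b m|)
  apply squeeze_zero (fun M => tau_nonneg b M) (fun M => ?_) h1
  have hs := hb.indicator {m : ℕ | m ∉ Finset.Icc 1 (M^2)}
  unfold tau
  rw [← hs.sum_add_tsum_nat_add M, Finset.sum_eq_zero, zero_add]
  · apply Summable.tsum_le_tsum
    · intro k
      exact Set.indicator_le_self' (fun _ _ => abs_nonneg _) _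
    · exact (summable_nat_add_iff (f := Set.indicator {m : ℕ | m ∉ Finset.Icc 1 (M^2)} (fun m => |b m|)) M).mpr hs
    · exact (summable_nat_add_iff (f := fun m : ℕ => |b m|) M).mpr hb
  · intro m hm
    rw [Finset.mem_range] at hm
    rcases Nat.eq_zero_or_pos m with rfl | h0
    · by_cases h : (0:ℕ) ∈ {m : ℕ | m ∉ Finset.Icc 1 (M^2)}
      · rw [Set.indicator_of_mem h, hb0, abs_zero]
      · rw [Set.indicator_of_notMem h]
    · apply Set.indicator_of_notMem
      intro h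
      apply h
      rw [Finset.mem_Icc]
      constructor
      · exact h0
      · nlinarith

/-- the almost periodic function with absolutely convergent series -/
noncomputable def Pf (b : ℕ → ℝ) (φ r : ℝ) : ℝ := ∑' m, b m * Real.cos (2 * Real.pi * (r * √(m:ℝ)) - φ)

lemma Pf_summable {b : ℕ → ℝ} (hb : Summable (fun m => |b m|)) (φ r : ℝ) :
    Summable (fun m : ℕ => b m * Real.cos (2 * Real.pi * (r * √(m:ℝ)) - φ)) := by
  apply Summable.of_norm_bounded hb
  intro m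
  rw [Real.norm_eq_abs, abs_mul]
  exact mul_le_of_le_one_right (abs_nonneg _) (Real.abs_cos_le_one _)

lemma Pf_cont {b : ℕ → ℝ} (hb : Summable (fun m => |b m|)) (φ : ℝ) : Continuous (Pf b φ) := by
  unfold Pf
  apply continuous_tsum (fun m => by fun_prop) hb
  intro m r
  rw [Real.norm_eq_abs, abs_mul]
  exact mul_le_of_le_one_right (abs_nonneg _) (Real.abs_cos_le_one _)

lemma Pf_close {b : ℕ → ℝ} (hb : Summable (fun m => |b m|)) (φ r : ℝ) (M : ℕ) : |Pf b φ r - U b φ r M| ≤ tau b M := by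
  have h1 := Pf_summable hb φ r
  have h2 : Pf b φ r - U b φ r M =
      ∑' m, (Set.indicator {m : ℕ | m ∉ Finset.Icc 1 (M^2)} (fun m : ℕ => b m * Real.cos (2 * Real.pi * (r * √(m:ℝ)) - φ)) m) := by
    unfold Pf U
    rw [← h1.sum_add_tsum_compl (s := Finset.Icc 1 (M^2)), add_sub_cancel_left]
    exact tsum_subtype ({m : ℕ | m ∉ Finset.Icc 1 (M^2)}) (fun m : ℕ => b m * Real.cos (2 * Real.pi * (r * √(m:ℝ)) - φ))
  rw [h2, ← Real.norm_eq_abs]
  unfold tau
  apply tsum_of_norm_bounded (hb.indicator _).hasSum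
  intro m
  by_cases hm : m ∈ {m : ℕ | m ∉ Finset.Icc 1 (M^2)}
  · rw [Set.indicator_of_mem hm, Set.indicator_of_mem hm, Real.norm_eq_abs, abs_mul]
    exact mul_le_of_le_one_right (abs_nonneg _) (Real.abs_cos_le_one _)
  · rw [Set.indicator_of_notMem hm, Set.indicator_of_notMem hm, norm_zero]

lemma U_split (𝒮 : Set ℕ) (a : ℕ → ℝ) (φ r : ℝ) (M : ℕ) : U a φ r M = U (aIn 𝒮 a) φ r M + U (aIn 𝒮ᶜ a) φ r M := by
  unfold U
  rw [← Finset.sum_add_distrib]
  apply Finset.sum_congr rfl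
  intro m _
  rw [← add_mul, aIn_add]

lemma rm_const (c : ℝ) (hc : 0 ≤ c) (N : ℕ) : rm (fun _ => c) N ≤ c := rm_const_le hc N

lemma ap_self {b : ℕ → ℝ} (hb : Summable (fun m => |b m|)) (hb0 : b 0 = 0) (φ α X : ℝ) : Ap b φ (fun n => Pf b φ (X + n * α)) α X := by
  intro η hη
  have h1 := (tau_tendsto hb hb0).eventually (gt_mem_nhds (Real.sqrt_pos.mpr hη))
  obtain ⟨M0, hM0⟩ := eventually_atTop.mp h1
  refine ⟨M0, fun M hM => ⟨0, fun N _ => ?_⟩⟩
  refine le_trans (rm_mono (b := fun _ => η) (fun n => ?_) N) (rm_const_le hη.le N)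
  have h2 := Pf_close hb φ (X + n * α) M
  have h3 := hM0 M hM
  rw [← sq_abs]
  calc |Pf b φ (X + n * α) - U b φ (X + n * α) M|^2 ≤ (√η)^2 := pow_le_pow_left₀ (abs_nonneg _) (h2.trans h3.le) 2
    _ = η := Real.sq_sqrt hη.le

lemma ap_sub (hA : Ap a φ e α X) (𝒮 : Set ℕ) (hb : Summable (fun m => |aIn 𝒮 a m|)) (ha0 : a 0 = 0) :
    Ap (aIn 𝒮ᶜ a) φ (fun n => e n - Pf (aIn 𝒮 a) φ (X + n * α)) α X := by
  intro η hη
  obtain ⟨M1, hM1⟩ := hA (η/4) (by positivity)
  obtain ⟨M2, hM2⟩ := ap_self hb (aIn_zero 𝒮 ha0) φ α X (η/4) (by positivity)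
  refine ⟨max M1 M2, fun M hM => ?_⟩
  obtain ⟨N1, hN1⟩ := hM1 M ((le_max_left _ _).trans hM)
  obtain ⟨N2, hN2⟩ := hM2 M ((le_max_right _ _).trans hM)
  refine ⟨max N1 N2, fun N hN => ?_⟩
  have k1 := hN1 N ((le_max_left _ _).trans hN)
  have k2 := hN2 N ((le_max_right _ _).trans hN)
  have h3 : ∀ n : ℕ, (e n - Pf (aIn 𝒮 a) φ (X + n * α) - U (aIn 𝒮ᶜ a) φ (X + n * α) M)^2 ≤
      2 * (e n - U a φ (X + n * α) M)^2 + 2 * (Pf (aIn 𝒮 a) φ (X + n * α) - U (aIn 𝒮 a) φ (X + n * α) M)^2 := by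
    intro n
    have := U_split 𝒮 a φ (X + n * α) M
    have e1 : e n - Pf (aIn 𝒮 a) φ (X + n * α) - U (aIn 𝒮ᶜ a) φ (X + n * α) M =
        (e n - U a φ (X + n * α) M) - (Pf (aIn 𝒮 a) φ (X + n * α) - U (aIn 𝒮 a) φ (X + n * α) M) := by
      rw [this]; ring
    rw [e1]
    nlinarith [sq_nonneg ((e n - U a φ (X + n * α) M) + (Pf (aIn 𝒮 a) φ (X + n * α) - U (aIn 𝒮 a) φ (X + n * α) M))]
  refine (rm_mono h3 N).trans ?_
  have e2 : rm (fun n : ℕ => 2 * (e n - U a φ (X + n * α) M)^2 + 2 * (Pf (aIn 𝒮 a) φ (X + n * α) - U (aIn 𝒮 a) φ (X + n * α) M)^2) N =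
      2 * rm (fun n : ℕ => (e n - U a φ (X + n * α) M)^2) N + 2 * rm (fun n : ℕ => (Pf (aIn 𝒮 a) φ (X + n * α) - U (aIn 𝒮 a) φ (X + n * α) M)^2) N := by
    unfold rm
    rw [Finset.sum_add_distrib, ← Finset.mul_sum, ← Finset.mul_sum]
    ring
  rw [e2]
  linarith

end Pool.Agent.N687.W
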