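import Mathlib
import Pool.Agent.N687.W.C6

/-!
# The density of the limit law is positive everywhere
-/

set_option autoImplicit false

open MeasureTheory Filter Topology
open Pool.Agent.H383.AP Pool.Agent.H383.Gauss Pool.Agent.H383.Gen

namespace Pool.Agent.N687.W

open Pool.Agent.R461.GC (Lam frq frq_mem ch ch_zero ch_mem TrigS TrigS_fun TrigS_cont no_res emp_ch U_trigS second)
open Pool.Agent.H383.ED (G Ps Ps_integrable entire_density G_pos eq_withDensity G_diff Ps_cont Ps_bound)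

variable {a : ℕ → ℝ} {φ α X κ : ℝ} {S0 T : Finset ℕ} {e : ℕ → ℝ} {ν : ProbabilityMeasure ℝ}

lemma rc_joint (μ : Measure ℝ) [IsProbabilityMeasure μ] (c : ℝ) : Continuous (fun p : ℝ × ℝ => rc μ (c - p.1) p.2) := by
  unfold rc
  have h1 := MeasureTheory.continuous_charFun (μ := μ)
  have h2 : Continuous (fun p : ℝ × ℝ => charFun μ p.2) := h1.comp continuous_snd
  exact Complex.continuous_re.comp ((by fun_prop : Continuous fun p : ℝ × ℝ => Complex.exp (((-(p.2 * (c - p.1)) : ℝ) : ℂ) * Complex.I)).mul h2)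

lemma dens_conv {ν μ₁ μ' : Measure ℝ} [IsProbabilityMeasure ν] [IsProbabilityMeasure μ₁] [IsProbabilityMeasure μ']
    (hprod : ∀ t, charFun ν t = charFun μ₁ t * charFun μ' t) (hint : Integrable (charFun μ')) (c : ℝ) :
    ∫ t, rc ν c t = ∫ y, (∫ t, rc μ' (c - y) t) ∂μ₁ := by
  have hI : Integrable (fun p : ℝ × ℝ => rc μ' (c - p.1) p.2) (μ₁.prod volume) := by
    have h1 : Integrable (fun p : ℝ × ℝ => ‖charFun μ' p.2‖) (μ₁.prod volume) := hint.norm.comp_snd μ₁
    apply h1.mono' (rc_joint μ' c).aestronglyMeasurable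
    exact Eventually.of_forall fun p => abs_rc_le μ' _ _
  rw [integral_integral_swap (f := fun y t => rc μ' (c - y) t) hI]
  congr 1
  funext t
  obtain ⟨z, hz⟩ : ∃ z : ℂ, z = Complex.exp (((-(t * c) : ℝ) : ℂ) * Complex.I) * charFun μ' t := ⟨_, rfl⟩
  have hi : Integrable (fun y : ℝ => z * Complex.exp (t * y * Complex.I)) μ₁ := by
    apply Integrable.of_bound (C := ‖z‖) (by fun_prop)
    refine Eventually.of_forall fun y => ?_
    have : (t:ℂ) * y * Complex.I = ((t * y : ℝ) : ℂ) * Complex.I := by push_cast; ring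
    rw [norm_mul, this, Complex.norm_exp_ofReal_mul_I, mul_one]
  have e1 : ∀ y : ℝ, rc μ' (c - y) t = (z * Complex.exp (t * y * Complex.I)).re := by
    intro y
    unfold rc
    congr 1
    rw [hz]
    have : Complex.exp (((-(t * (c - y)) : ℝ) : ℂ) * Complex.I) =
        Complex.exp (((-(t * c) : ℝ) : ℂ) * Complex.I) * Complex.exp (t * y * Complex.I) := by
      rw [← Complex.exp_add]
      congr 1
      push_cast; ring
    rw [this]; ring
  have e2 : ∫ y, rc μ' (c - y) t ∂μ₁ = (∫ y, z * Complex.exp (t * y * Complex.I) ∂μ₁).re := by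
    rw [← Complex.reCLM_apply, ← ContinuousLinearMap.integral_comp_comm Complex.reCLM hi]
    congr 1
    funext y
    rw [e1, Complex.reCLM_apply]
  rw [e2, integral_const_mul]
  unfold rc
  rw [hprod t, charFun_apply_real (μ := μ₁), hz]
  congr 1
  ring

lemma G_rc (μ : Measure ℝ) [IsProbabilityMeasure μ] (hi : Integrable (Ps μ)) (x : ℝ) :
    (G (Ps μ) x).re = (2 * Real.pi)⁻¹ * ∫ t, rc μ x t := by
  have hpi := Real.pi_pos
  have h1 : Integrable (fun v : ℝ => Complex.exp (((-2 * Real.pi * v : ℝ) : ℂ) * (x:ℂ) * Complex.I) * Ps μ v) := by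
    apply hi.norm.mono'
    · have := Ps_cont μ
      apply Continuous.aestronglyMeasurable
      fun_prop
    · refine Eventually.of_forall fun v => ?_
      have : ((-2 * Real.pi * v : ℝ) : ℂ) * (x:ℂ) * Complex.I = ((-2 * Real.pi * v * x : ℝ) : ℂ) * Complex.I := by push_cast; ring
      rw [norm_mul, this, Complex.norm_exp_ofReal_mul_I, one_mul]
  unfold Pool.Agent.H383.ED.G
  rw [← Complex.reCLM_apply, ← ContinuousLinearMap.integral_comp_comm Complex.reCLM h1]
  have e1 : ∀ v : ℝ, Complex.reCLM (Complex.exp (((-2 * Real.pi * v : ℝ) : ℂ) * (x:ℂ) * Complex.I) * Ps μ v) = rc μ x (2 * Real.pi * v) := by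
    intro v
    rw [Complex.reCLM_apply]
    unfold rc Ps
    congr 3
    push_cast; ring
  simp only [e1]
  rw [Measure.integral_comp_mul_left (fun t => rc μ x t) (2 * Real.pi), smul_eq_mul, abs_of_pos (by positivity)]

/-- finite sums with frequencies in a group -/
lemma U_trigS_of {b : ℕ → ℝ} {Λ : AddSubgroup ℝ} (h : ∀ m, b m ≠ 0 → frq m ∈ Λ) (φ : ℝ) (M : ℕ) :
    (fun x => ((U b φ x M : ℝ) : ℂ)) ∈ TrigS Λ := by
  have h1 : (fun x => ((U b φ x M : ℝ) : ℂ)) = ∑ m ∈ Finset.Icc 1 (M ^ 2),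
      ((((b m : ℝ) : ℂ) * Complex.exp (((-φ : ℝ) : ℂ) * Complex.I) / 2) • ch (frq m) +
        (((b m : ℝ) : ℂ) * Complex.exp (((φ : ℝ) : ℂ) * Complex.I) / 2) • ch (-frq m)) := by
    funext x
    rw [Finset.sum_apply]
    unfold U
    push_cast
    apply Finset.sum_congr rfl
    intro m _
    simp only [Pi.add_apply, Pi.smul_apply, smul_eq_mul]
    unfold ch frq
    have e1 : Complex.cos (2 * (Real.pi : ℂ) * ((x : ℂ) * ((√(m : ℝ) : ℝ) : ℂ)) - (φ : ℂ)) =
        (Complex.exp (((-φ : ℝ) : ℂ) * Complex.I) * Complex.exp (((2 * Real.pi * √(m : ℝ) * x : ℝ) : ℂ) * Complex.I) +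
          Complex.exp (((φ : ℝ) : ℂ) * Complex.I) * Complex.exp (((-(2 * Real.pi * √(m : ℝ)) * x : ℝ) : ℂ) * Complex.I)) / 2 := by
      rw [Complex.cos, ← Complex.exp_add, ← Complex.exp_add]
      congr 3
      · push_cast; ring
      · push_cast; ring
    rw [e1]
    push_cast
    ring
  rw [h1]
  apply Submodule.sum_mem
  intro m _
  by_cases hb : b m = 0
  · rw [hb]
    simp only [Complex.ofReal_zero, zero_mul, zero_div, zero_smul, add_zero]
    exact Submodule.zero_mem _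
  · exact Submodule.add_mem _ (Submodule.smul_mem _ _ (ch_mem (h m hb)))
      (Submodule.smul_mem _ _ (ch_mem (Λ.neg_mem (h m hb))))

/-- equidistribution for functions of a periodic series -/
theorem equi (hα : ∀ θ ∈ Lam, θ ≠ 0 → ∀ k : ℤ, α * θ ≠ 2 * Real.pi * k) {b : ℕ → ℝ} (hb : Summable (fun m => |b m|)) (hb0 : b 0 = 0)
    (hsq : ∀ m, b m ≠ 0 → InC 1 m) (φ : ℝ) {f : ℝ → ℝ} (hf : Continuous f) :
    Tendsto (rm (fun n : ℕ => f (Pf b φ (α + n * α)))) atTop (𝓝 (∫ r in (0:ℝ)..1, f (Pf b φ r))) := by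
  have hpi := Real.pi_pos
  obtain ⟨B, hB⟩ : ∃ B : ℝ, B = ∑' m, |b m| := ⟨_, rfl⟩
  have hPB : ∀ r, |Pf b φ r| ≤ B := by
    intro r
    rw [hB, ← Real.norm_eq_abs]
    unfold Pf
    apply tsum_of_norm_bounded hb.hasSum
    intro m
    rw [Real.norm_eq_abs, abs_mul]
    exact mul_le_of_le_one_right (abs_nonneg _) (Real.abs_cos_le_one _)
  have hΛ : ∀ m, b m ≠ 0 → frq m ∈ AddSubgroup.zmultiples (2 * Real.pi) := by
    intro m hm
    obtain ⟨t, ht⟩ := hsq m hm
    rw [AddSubgroup.mem_zmultiples_iff]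
    refine ⟨t, ?_⟩
    unfold frq
    rw [ht, zsmul_eq_mul]
    push_cast
    rw [one_mul, Real.sqrt_sq (Nat.cast_nonneg t)]
    ring
  have hΛL : ∀ θ ∈ AddSubgroup.zmultiples (2 * Real.pi), θ ∈ Lam := by
    intro θ hθ
    obtain ⟨k, rfl⟩ := AddSubgroup.mem_zmultiples_iff.mp hθ
    apply Lam.zsmul_mem
    have := frq_mem 1
    unfold frq at this
    simpa using this
  have hprob : IsProbabilityMeasure (volume.restrict (Set.Ioc (0:ℝ) 1)) := ⟨by
    rw [Measure.restrict_apply_univ, Real.volume_Ioc]; norm_num⟩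
  have hP : ∀ θ ∈ AddSubgroup.zmultiples (2 * Real.pi), θ ≠ 0 →
      Tendsto (fun _ : ℕ => ∫ x, ch θ x ∂(volume.restrict (Set.Ioc (0:ℝ) 1))) atTop (𝓝 0) := by
    intro θ hθ h0
    have : ∫ x, ch θ x ∂(volume.restrict (Set.Ioc (0:ℝ) 1)) = 0 := by
      obtain ⟨k, hk⟩ := AddSubgroup.mem_zmultiples_iff.mp hθ
      rw [← intervalIntegral.integral_of_le (zero_le_one)]
      have hc : ((θ:ℂ) * Complex.I) ≠ 0 := mul_ne_zero (by exact_mod_cast h0) Complex.I_ne_zero
      have e0 : ∀ x : ℝ, ch θ x = Complex.exp (((θ:ℂ) * Complex.I) * x) := by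
        intro x
        unfold ch
        congr 1
        push_cast; ring
      simp only [e0]
      rw [integral_exp_mul_complex hc]
      have e1 : Complex.exp (((θ:ℂ) * Complex.I) * ((1:ℝ):ℂ)) = 1 := by
        rw [Complex.exp_eq_one_iff]
        refine ⟨k, ?_⟩
        rw [← hk, zsmul_eq_mul]
        push_cast; ring
      rw [e1]
      simp
    rw [this]
    exact tendsto_const_nhds
  have hQ : ∀ θ ∈ AddSubgroup.zmultiples (2 * Real.pi), θ ≠ 0 →
      Tendsto (fun k => ∫ x, ch θ x ∂(emp (fun n : ℕ => α + n * α) k)) atTop (𝓝 0) := fun θ hθ h0 => emp_ch hα (hΛL θ hθ) h0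
  rw [← tendsto_add_atTop_iff_nat 1, Metric.tendsto_atTop]
  intro η hη
  -- uniform continuity
  have huc := (isCompact_Icc (a := -B - 1) (b := B + 1)).uniformContinuousOn_of_continuous hf.continuousOn
  rw [Metric.uniformContinuousOn_iff] at huc
  obtain ⟨δ, hδ, huc⟩ := huc (η/4) (by positivity)
  obtain ⟨M, hM⟩ := ((tau_tendsto hb hb0).eventually (gt_mem_nhds (lt_min hδ one_pos))).exists
  have hcl : ∀ r, |f (Pf b φ r) - f (U b φ r M)| ≤ η/4 := by
    intro r
    have h1 := Pf_close hb φ r M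
    have h2 := hPB r
    have h3 : |Pf b φ r - U b φ r M| < δ := lt_of_le_of_lt h1 (lt_of_lt_of_le hM (min_le_left _ _))
    have h4 : |Pf b φ r - U b φ r M| < 1 := lt_of_le_of_lt h1 (lt_of_lt_of_le hM (min_le_right _ _))
    have h5 := abs_le.mp h2
    have h6 := abs_lt.mp h4
    have h7 := huc (Pf b φ r) ⟨by linarith [h5.1], by linarith [h5.2]⟩ (U b φ r M) ⟨by linarith [h5.1, h6.2], by linarith [h5.2, h6.1]⟩
      (by rw [Real.dist_eq]; exact h3)
    rw [Real.dist_eq] at h7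
    exact h7.le
  obtain ⟨k₀, hk₀⟩ := TrigS_fun (P := fun _ => volume.restrict (Set.Ioc (0:ℝ) 1)) (Q := fun k => emp (fun n : ℕ => α + n * α) k) hP hQ
    (U_trigS_of hΛ φ M) hf (show 0 < η/4 by positivity)
  refine ⟨k₀, fun k hk => ?_⟩
  have h1 := hk₀ k hk
  have hUc := U_cont b φ M
  have hPc := Pf_cont hb φ
  rw [← intervalIntegral.integral_of_le (zero_le_one)] at h1
  have e1 : ∫ x, f (U b φ x M) ∂(emp (fun n : ℕ => α + n * α) k) = rm (fun n : ℕ => f (U b φ (α + n * α) M)) (k+1) :=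
    emp_integral_rm (fun n : ℕ => α + n * α) k (fun x => f (U b φ x M)) (hf.comp hUc)
  rw [e1] at h1
  have h2 : |rm (fun n : ℕ => f (Pf b φ (α + n * α))) (k+1) - rm (fun n : ℕ => f (U b φ (α + n * α) M)) (k+1)| ≤ η/4 := by
    have e2 : rm (fun n : ℕ => f (Pf b φ (α + n * α))) (k+1) - rm (fun n : ℕ => f (U b φ (α + n * α) M)) (k+1) =
        rm (fun n : ℕ => f (Pf b φ (α + n * α)) - f (U b φ (α + n * α) M)) (k+1) := by
      unfold rm; rw [← sub_div, ← Finset.sum_sub_distrib]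
    rw [e2]
    have e3 : |rm (fun n : ℕ => f (Pf b φ (α + n * α)) - f (U b φ (α + n * α) M)) (k+1)| ≤
        rm (fun n : ℕ => |f (Pf b φ (α + n * α)) - f (U b φ (α + n * α) M)|) (k+1) := by
      unfold rm
      rw [abs_div, Nat.abs_cast]
      apply div_le_div_of_nonneg_right _ (Nat.cast_nonneg _)
      exact Finset.abs_sum_le_sum_abs _ _
    exact e3.trans ((rm_mono (b := fun _ => η/4) (fun n => hcl _) _).trans (rm_const_le (by positivity) _))
  have h3 : |(∫ r in (0:ℝ)..1, f (Pf b φ r)) - ∫ r in (0:ℝ)..1, f (U b φ r M)| ≤ η/4 := by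
    have j1 : IntervalIntegrable (fun r => f (Pf b φ r)) volume 0 1 := (hf.comp hPc).intervalIntegrable _ _
    have j2 : IntervalIntegrable (fun r => f (U b φ r M)) volume 0 1 := (hf.comp hUc).intervalIntegrable _ _
    rw [← intervalIntegral.integral_sub j1 j2]
    have := int_abs_le_const (f := fun r => f (Pf b φ r) - f (U b φ r M)) (x := 0) (y := 1) (K := η/4) zero_le_one (fun r _ _ => hcl r)
    linarith
  rw [Real.dist_eq]
  have a1 := abs_le.mp h1
  have a2 := abs_le.mp h2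
  have a3 := abs_le.mp h3
  rw [abs_lt]
  constructor <;> linarith [a1.1, a1.2, a2.1, a2.2, a3.1, a3.2]

/-- the periodic part is not constant -/
lemma Pf_nonconst (hα0 : 0 < α) (hα : ∀ θ ∈ Lam, θ ≠ 0 → ∀ k : ℤ, α * θ ≠ 2 * Real.pi * k) {b : ℕ → ℝ} (hB : Bd b)
    (hb : Summable (fun m => |b m|)) (hb0 : b 0 = 0) (hb1 : b 1 ≠ 0) (hsq : ∀ m, b m ≠ 0 → InC 1 m) (φ : ℝ) :
    ∃ r₁ r₂ : ℝ, r₁ ∈ Set.Icc (0:ℝ) 1 ∧ r₂ ∈ Set.Icc (0:ℝ) 1 ∧ Pf b φ r₁ < Pf b φ r₂ := by
  by_contra hcon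
  push Not at hcon
  obtain ⟨p, hp⟩ : ∃ p : ℝ, ∀ r ∈ Set.Icc (0:ℝ) 1, Pf b φ r = p := by
    refine ⟨Pf b φ 0, fun r hr => ?_⟩
    have h0 : (0:ℝ) ∈ Set.Icc (0:ℝ) 1 := ⟨le_rfl, zero_le_one⟩
    exact le_antisymm (hcon 0 r h0 hr) (hcon r 0 hr h0)
  have hval : ∀ f : ℝ → ℝ, Continuous f → Tendsto (rm (fun n : ℕ => f (Pf b φ (α + n * α)))) atTop (𝓝 (f p)) := by
    intro f hf
    have h1 := equi hα hb hb0 hsq φ hf
    have h2 : ∫ r in (0:ℝ)..1, f (Pf b φ r) = f p := by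
      have : ∫ r in (0:ℝ)..1, f (Pf b φ r) = ∫ r in (0:ℝ)..1, f p := by
        apply intervalIntegral.integral_congr
        intro r hr
        rw [Set.uIcc_of_le zero_le_one] at hr
        change f (Pf b φ r) = f p
        rw [hp r hr]
      rw [this, intervalIntegral.integral_const]
      simp
    rwa [h2] at h1
  have hA := ap_self hb hb0 φ α α
  have hm := hA.mean hB hb0 hα0
  have h1 := hval (fun x => x) continuous_id
  have h2 := tendsto_nhds_unique h1 hm
  have h3 : ∑' m, Pool.Agent.H383.Gen.rt b φ α α m = 0 := by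
    refine (tsum_congr (g := fun _ : ℕ => (0 : ℝ)) fun m => ?_).trans tsum_zero
    unfold Pool.Agent.H383.Gen.rt
    rcases Nat.eq_zero_or_pos m with rfl | hm
    · rw [hb0]; simp
    · rw [if_neg (no_res hα0 hα hm)]
  rw [h3] at h2
  have h4 := second hα0 hα hB hA (hval (fun x => x^2) (by fun_prop))
  have h2' : p = 0 := h2
  rw [h2'] at h4
  have h5 := h4.summable.le_tsum 1 (fun m _ => by split_ifs <;> positivity)
  rw [h4.tsum_eq] at h5
  simp only [le_refl, if_true] at h5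
  have : 0 < (b 1)^2 := by positivity
  linarith

open Classical in
/-- the product formula for the limit laws -/
lemma limit_prod (hS : GoodS α ∅) (hA : Ap a φ e α X) (hν : Law2 e ν) {𝒮 : Set ℕ} (h𝒮 : 𝒮 = {m | InC 1 m})
    {e₁ e' : ℕ → ℝ} {μ₁ μ' : ProbabilityMeasure ℝ}
    (h₁ : Ap (aIn 𝒮 a) φ e₁ α X) (hμ₁ : Law2 e₁ μ₁) (h' : Ap (aIn 𝒮ᶜ a) φ e' α X) (hμ' : Law2 e' μ') (t : ℝ) :
    charFun (ν : Measure ℝ) t = charFun (μ₁ : Measure ℝ) t * charFun (μ' : Measure ℝ) t := by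
  have key : ∀ ε : ℝ, 0 < ε → ‖charFun (ν : Measure ℝ) t - charFun (μ₁ : Measure ℝ) t * charFun (μ' : Measure ℝ) t‖ ≤ 3 * (|t| * ε) := by
    intro ε hε
    obtain ⟨M0, hM0⟩ := ap_abs hA hε
    obtain ⟨M1, hM1⟩ := ap_abs h₁ hε
    obtain ⟨M2, hM2⟩ := ap_abs h' hε
    obtain ⟨M, hM⟩ : ∃ M, M = max M0 (max M1 M2) := ⟨_, rfl⟩
    have k0 := (close_law hν (muT_law a φ α X (Finset.Icc 1 (M^2))) (hM0 M (by omega))).2 t
    have k1 := (close_law hμ₁ (muT_law (aIn 𝒮 a) φ α X (Finset.Icc 1 (M^2))) (hM1 M (by omega))).2 t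
    have k2 := (close_law hμ' (muT_law (aIn 𝒮ᶜ a) φ α X (Finset.Icc 1 (M^2))) (hM2 M (by omega))).2 t
    have hprod : charFun (muT a φ α X (Finset.Icc 1 (M^2)) : Measure ℝ) t =
        charFun (muT (aIn 𝒮 a) φ α X (Finset.Icc 1 (M^2)) : Measure ℝ) t * charFun (muT (aIn 𝒮ᶜ a) φ α X (Finset.Icc 1 (M^2)) : Measure ℝ) t := by
      rw [muT_char, muT_char, muT_char, prod_formula (a := a) (φ := φ) (X := X) hS ((t:ℂ) * Complex.I) (T := Finset.Icc 1 (M^2))
        (fun m hm => (Finset.mem_Icc.mp hm).1) {1} (fun s hs => by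
          rw [Finset.mem_singleton] at hs
          rw [hs]
          exact ⟨squarefree_one, Finset.notMem_empty _⟩), Finset.prod_singleton]
      congr 2
      · funext n
        unfold ex Pool.Agent.H383.Gen.ST
        congr 3
        rw [Finset.sum_filter]
        apply Finset.sum_congr rfl
        intro m _
        unfold aIn
        rw [h𝒮]
        by_cases h : InC 1 m
        · rw [if_pos h, if_pos (show m ∈ {m | InC 1 m} from h)]
        · rw [if_neg h, if_neg (show m ∉ {m | InC 1 m} from h), zero_mul]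
      · funext n
        unfold ex Pool.Agent.H383.Gen.ST
        congr 3
        rw [Finset.sum_filter]
        apply Finset.sum_congr rfl
        intro m _
        unfold aIn
        rw [h𝒮]
        by_cases h : InC 1 m
        · rw [if_neg (by simpa using h), if_neg (by simpa using h), zero_mul]
        · rw [if_pos (by simpa using h), if_pos (by simpa using h)]
    obtain ⟨A, hAd⟩ : ∃ A, A = charFun (muT (aIn 𝒮 a) φ α X (Finset.Icc 1 (M^2)) : Measure ℝ) t := ⟨_, rfl⟩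
    obtain ⟨B, hBd⟩ : ∃ B, B = charFun (muT (aIn 𝒮ᶜ a) φ α X (Finset.Icc 1 (M^2)) : Measure ℝ) t := ⟨_, rfl⟩
    rw [hprod, ← hAd, ← hBd] at k0
    rw [← hAd] at k1
    rw [← hBd] at k2
    have hA1 : ‖A‖ ≤ 1 := by rw [hAd]; exact norm_charFun_le_one t
    have hB1 : ‖charFun (μ' : Measure ℝ) t‖ ≤ 1 := norm_charFun_le_one t
    have e1 : charFun (ν : Measure ℝ) t - charFun (μ₁ : Measure ℝ) t * charFun (μ' : Measure ℝ) t =
        (charFun (ν : Measure ℝ) t - A * B) - (charFun (μ₁ : Measure ℝ) t - A) * charFun (μ' : Measure ℝ) t -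
          A * (charFun (μ' : Measure ℝ) t - B) := by ring
    rw [e1]
    refine (norm_sub_le _ _).trans ?_
    refine (add_le_add (norm_sub_le _ _) le_rfl).trans ?_
    rw [norm_mul, norm_mul]
    have u1 : ‖charFun (μ₁ : Measure ℝ) t - A‖ * ‖charFun (μ' : Measure ℝ) t‖ ≤ |t| * ε * 1 :=
      mul_le_mul k1 hB1 (norm_nonneg _) (by positivity)
    have u2 : ‖A‖ * ‖charFun (μ' : Measure ℝ) t - B‖ ≤ 1 * (|t| * ε) := mul_le_mul hA1 k2 (norm_nonneg _) zero_le_one
    linarith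
  have h0 : ‖charFun (ν : Measure ℝ) t - charFun (μ₁ : Measure ℝ) t * charFun (μ' : Measure ℝ) t‖ ≤ 0 := by
    apply le_of_forall_pos_le_add
    intro η hη
    have := key (η / (3 * (|t| + 1))) (by positivity)
    refine this.trans ?_
    rw [zero_add]
    have ht := abs_nonneg t
    have : 3 * (|t| * (η / (3 * (|t| + 1)))) = η * (|t| / (|t| + 1)) := by field_simp
    rw [this]
    apply mul_le_of_le_one_right hη.le
    rw [div_le_one (by positivity)]
    linarith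
  exact sub_eq_zero.mp (norm_le_zero_iff.mp h0)

/-- **positivity of the density** -/
theorem dens_pos (hα0 : 0 < α) (hα : ∀ θ ∈ Lam, θ ≠ 0 → ∀ k : ℤ, α * θ ≠ 2 * Real.pi * k) (ha : BK a (7/10)) (haB : Bd a) (ha0 : a 0 = 0)
    (hl : LB a) (ha1 : a 1 ≠ 0) (hA : Ap a φ e α α) (hν : Law2 e ν) (c : ℝ) : 0 < ∫ t, rc (ν : Measure ℝ) c t := by
  have hpi := Real.pi_pos
  have hS := good_empty hα0 hα
  obtain ⟨𝒮, h𝒮⟩ : ∃ 𝒮 : Set ℕ, 𝒮 = {m | InC 1 m} := ⟨_, rfl⟩
  obtain ⟨b, hb⟩ : ∃ b, b = aIn 𝒮 a := ⟨_, rfl⟩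
  obtain ⟨a', ha'⟩ : ∃ a', a' = aIn 𝒮ᶜ a := ⟨_, rfl⟩
  have hbs : Summable (fun m => |b m|) := by rw [hb, h𝒮]; exact class_summable haB ha0 le_rfl
  have hb0 : b 0 = 0 := by rw [hb]; exact aIn_zero _ ha0
  have hbB : Bd b := by rw [hb]; exact aIn_Bd _ haB
  have hb1 : b 1 ≠ 0 := by
    rw [hb, h𝒮]
    unfold aIn
    rw [if_pos (show (1:ℕ) ∈ {m | InC 1 m} from ⟨1, by norm_num⟩)]
    exact ha1
  have hsq : ∀ m, b m ≠ 0 → InC 1 m := by
    intro m hm
    by_contra h
    apply hm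
    rw [hb, h𝒮]
    unfold aIn
    rw [if_neg (show m ∉ {m | InC 1 m} from h)]
  have h₁ : Ap b φ (fun n => Pf b φ (α + n * α)) α α := ap_self hbs hb0 φ α α
  obtain ⟨μ₁, _, hμ₁⟩ := h₁.b2.limit
  have h' : Ap a' φ (fun n => e n - Pf b φ (α + n * α)) α α := by
    rw [ha', hb]
    exact ap_sub hA 𝒮 (by rw [← hb]; exact hbs) ha0
  obtain ⟨μ', _, hμ'⟩ := h'.b2.limit
  have hprod := limit_prod hS hA hν h𝒮 (by rw [← hb]; exact h₁) hμ₁ (by rw [← ha']; exact h') hμ'
  -- the density of the other part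
  have ha'K : BK a' (7/10) := by
    obtain ⟨C, hC, h⟩ := ha
    exact ⟨C, hC, fun m hm => by rw [ha']; exact (aIn_abs_le _ _ _).trans (h m hm)⟩
  have ha'l : LB a' := by
    obtain ⟨c1, hc1, h⟩ := hl
    refine ⟨c1, hc1, fun q hq hq4 => ?_⟩
    have h1 : a' q = a q := by
      rw [ha']
      unfold aIn
      rw [if_pos]
      rw [h𝒮]
      rintro ⟨t, ht⟩
      rw [one_mul] at ht
      rw [ht] at hq
      exact Nat.Prime.not_prime_pow (by norm_num) hq
    rw [h1]
    exact h q hq hq4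
  obtain ⟨C, cc, hC, hcc, hdec⟩ := char_decay (κ := 7/10) (p := 5/4) hS h' (Law2.law hμ') (by norm_num) ha'K ha'l (by norm_num) (by norm_num)
  have hPi := Ps_integrable (μ' : Measure ℝ) hcc (by norm_num) hC.le hdec
  have hd : Differentiable ℂ (G (Ps (μ' : Measure ℝ))) :=
    G_diff (Ps_cont (μ' : Measure ℝ)) hcc (by norm_num) hC.le (Ps_bound (μ' : Measure ℝ) hcc (by norm_num) hC.le hdec)
  have hcG : Continuous (fun x : ℝ => G (Ps (μ' : Measure ℝ)) x) := hd.continuous.comp Complex.continuous_ofReal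
  have hcr : Continuous (fun x : ℝ => (G (Ps (μ' : Measure ℝ)) x).re) := Complex.continuous_re.comp hcG
  have hw := eq_withDensity (μ' : Measure ℝ) hPi hcG
  obtain ⟨_, _, _, _, hint'⟩ := entire_density (μ' : Measure ℝ) hcc (by norm_num) hC.le hdec
  have hci : Integrable (charFun (μ' : Measure ℝ)) := by
    have h1 : Integrable (fun v : ℝ => Ps (μ' : Measure ℝ) ((2 * Real.pi)⁻¹ * v)) := hPi.comp_mul_left' (by positivity)
    refine h1.congr (Eventually.of_forall fun v => ?_)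
    change charFun (μ' : Measure ℝ) (2 * Real.pi * ((2 * Real.pi)⁻¹ * v)) = charFun (μ' : Measure ℝ) v
    congr 1
    field_simp
  rw [dens_conv hprod hci c]
  obtain ⟨Hf, hHf⟩ : ∃ Hf : ℝ → ℝ, Hf = fun x => ∫ t, rc (μ' : Measure ℝ) x t := ⟨_, rfl⟩
  have hHG : ∀ x, Hf x = 2 * Real.pi * (G (Ps (μ' : Measure ℝ)) x).re := by
    intro x
    rw [G_rc _ hPi, hHf]
    field_simp
  have hHc : Continuous Hf := by
    have : Hf = fun x : ℝ => 2 * Real.pi * (G (Ps (μ' : Measure ℝ)) x).re := funext hHG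
    rw [this]
    exact hcr.const_mul _
  have hH0 : ∀ x, 0 ≤ Hf x := fun x => by
    rw [hHG]
    exact mul_nonneg (by positivity) (G_pos (μ' : Measure ℝ) hPi x).1
  have hHb : ∀ x, |Hf x| ≤ ∫ t, ‖charFun (μ' : Measure ℝ) t‖ := by
    intro x
    rw [hHf, ← Real.norm_eq_abs]
    refine (norm_integral_le_integral_norm _).trans ?_
    apply integral_mono_of_nonneg (Eventually.of_forall fun t => norm_nonneg _) hci.norm
    exact Eventually.of_forall fun t => abs_rc_le _ _ _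
  have hlim1 := (Law2.law hμ₁) (fun y => Hf (c - y)) (by fun_prop) ⟨_, fun y => hHb _⟩
  have hlim2 := equi hα hbs hb0 hsq φ (f := fun y => Hf (c - y)) (by fun_prop)
  have heq := tendsto_nhds_unique hlim1 hlim2
  have hgoal : ∫ y, (∫ t, rc (μ' : Measure ℝ) (c - y) t) ∂(μ₁ : Measure ℝ) = ∫ r in (0:ℝ)..1, Hf (c - Pf b φ r) := by
    rw [← heq, hHf]
  rw [hgoal]
  have hPc := Pf_cont hbs φ
  have hFc : Continuous (fun r => Hf (c - Pf b φ r)) := hHc.comp (by fun_prop)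
  obtain ⟨r₁, r₂, hr₁, hr₂, hlt⟩ := Pf_nonconst hα0 hα hbB hbs hb0 hb1 hsq φ
  -- a point where the density is positive
  obtain ⟨r₀, hr₀, hpos⟩ : ∃ r₀ ∈ Set.Icc (0:ℝ) 1, 0 < Hf (c - Pf b φ r₀) := by
    by_contra hcon
    push Not at hcon
    have hz : ∀ y ∈ Set.Icc (Pf b φ r₁) (Pf b φ r₂), Hf (c - y) = 0 := by
      intro y hy
      have h1 : y ∈ Pf b φ '' (Set.uIcc r₁ r₂) := intermediate_value_uIcc hPc.continuousOn (by
        rw [Set.uIcc_of_le hlt.le]; exact hy)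
      obtain ⟨r, hr, hry⟩ := h1
      have hr01 : r ∈ Set.Icc (0:ℝ) 1 := (Set.uIcc_subset_Icc hr₁ hr₂) hr
      rw [← hry]
      exact le_antisymm (hcon r hr01) (hH0 _)
    have h2 := hint' (c - Pf b φ r₂) (c - Pf b φ r₁) (by linarith)
    rw [hw, withDensity_apply _ measurableSet_Ioo] at h2
    have h3 : ∫⁻ x in Set.Ioo (c - Pf b φ r₂) (c - Pf b φ r₁), ENNReal.ofReal (G (Ps (μ' : Measure ℝ)) x).re = 0 := by
      rw [setLIntegral_congr_fun (g := fun _ => 0) measurableSet_Ioo]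
      · simp
      · intro x hx
        have h4 := hz (c - x) ⟨by linarith [hx.2], by linarith [hx.1]⟩
        rw [show c - (c - x) = x by ring, hHG] at h4
        have h5 : (G (Ps (μ' : Measure ℝ)) x).re = 0 := (mul_eq_zero.mp h4).resolve_left (by positivity)
        change ENNReal.ofReal (G (Ps (μ' : Measure ℝ)) x).re = 0
        rw [h5, ENNReal.ofReal_zero]
    rw [h3] at h2
    exact lt_irrefl _ h2
  rw [intervalIntegral.integral_pos_iff_support_of_nonneg_ae (Eventually.of_forall fun r => hH0 _) (hFc.intervalIntegrable _ _)]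
  refine ⟨one_pos, ?_⟩
  have hopen : IsOpen (Function.support (fun r => Hf (c - Pf b φ r))) := isOpen_ne_fun hFc continuous_const
  have hmem : r₀ ∈ Function.support (fun r => Hf (c - Pf b φ r)) := hpos.ne'
  have hcl : r₀ ∈ closure (Set.Ioo (0:ℝ) 1) := by rw [closure_Ioo zero_ne_one]; exact hr₀
  obtain ⟨r, hr1, hr2⟩ := mem_closure_iff.mp hcl _ hopen hmem
  have h6 : 0 < volume (Function.support (fun r => Hf (c - Pf b φ r)) ∩ Set.Ioo (0:ℝ) 1) :=
    (hopen.inter isOpen_Ioo).measure_pos volume ⟨r, hr1, hr2⟩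
  exact lt_of_lt_of_le h6 (measure_mono (Set.inter_subset_inter_right _ Set.Ioo_subset_Ioc_self))

end Pool.Agent.N687.W
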