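import Mathlib
import Pool.Agent.N687.W.A6
import Pool.Agent.N687.W.C7

/-!
# Mean absolute deviations over windows
-/

set_option autoImplicit false

open MeasureTheory Filter Topology
open Pool.Agent.H383.AP Pool.Agent.H383.Gauss Pool.Agent.H383.Gen

namespace Pool.Agent.N687.W

open Pool.Agent.R461.GC (Lam frq frq_mem ch ch_zero ch_mem TrigS TrigS_fun TrigS_cont no_res emp_ch U_trigS second En_meas En_bdd)
open Pool.Agent.H383.Circ (ag ag_Bd ag_zero wg wg_Wt En_Sand)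

variable {α φ : ℝ}

/-- means over windows of functions of finite sums -/
theorem win_mean (hα : ∀ θ ∈ Lam, θ ≠ 0 → ∀ k : ℤ, α * θ ≠ 2 * Real.pi * k) (b : ℕ → ℝ) (φ : ℝ) (M : ℕ) {μ : ProbabilityMeasure ℝ}
    (hμ : Law2 (fun n : ℕ => U b φ (α + n * α) M) μ) {f : ℝ → ℝ} (hf : Continuous f) (hC : ∃ C, ∀ x, |f x| ≤ C * (1 + x^2))
    {η : ℝ} (hη : 0 < η) :
    ∃ H₀ : ℝ, 0 < H₀ ∧ ∀ R H : ℝ, H₀ ≤ H → |(∫ r in R..(R+H), f (U b φ r M)) - (∫ x, f x ∂(μ : Measure ℝ)) * H| ≤ η * H := by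
  by_contra hcon
  push Not at hcon
  choose R H hH hbad using fun k : ℕ => hcon (k + 1 : ℝ) (by positivity)
  have hH0 : ∀ k, 0 < H k := fun k => lt_of_lt_of_le (by positivity) (hH k)
  obtain ⟨P, hP⟩ : ∃ P : ℕ → Measure ℝ, P = fun k => (ENNReal.ofReal (H k))⁻¹ • volume.restrict (Set.Ioc (R k) (R k + H k)) := ⟨_, rfl⟩
  have hPp : ∀ k, IsProbabilityMeasure (P k) := by
    intro k
    rw [hP]
    constructor
    rw [Measure.smul_apply, Measure.restrict_apply_univ, Real.volume_Ioc, add_sub_cancel_left, smul_eq_mul]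
    exact ENNReal.inv_mul_cancel (by rw [ne_eq, ENNReal.ofReal_eq_zero, not_le]; exact hH0 k) ENNReal.ofReal_ne_top
  have hPi : ∀ k, ∀ {X : Type} [NormedAddCommGroup X] [NormedSpace ℝ X] (g : ℝ → X), ∫ x, g x ∂(P k) = (H k)⁻¹ • ∫ r in (R k)..(R k + H k), g r := by
    intro k X _ _ g
    rw [hP]
    simp only
    rw [integral_smul_measure, intervalIntegral.integral_of_le (by linarith [hH0 k]), ENNReal.toReal_inv, ENNReal.toReal_ofReal (hH0 k).le]
  have hHt : Tendsto H atTop atTop := tendsto_atTop_mono (fun k => (by linarith [hH k] : (k : ℝ) ≤ H k)) tendsto_natCast_atTop_atTop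
  have hPch : ∀ θ ∈ Lam, θ ≠ 0 → Tendsto (fun k => ∫ x, ch θ x ∂(P k)) atTop (𝓝 0) := by
    intro θ _ h0
    have hθ0 : 0 < |θ| := abs_pos.2 h0
    have h1 : Tendsto (fun k => (H k)⁻¹ * (2 / |θ|)) atTop (𝓝 0) := by
      have := hHt.inv_tendsto_atTop.mul_const (2 / |θ|)
      rwa [zero_mul] at this
    apply squeeze_zero_norm (fun k => ?_) h1
    rw [hPi, norm_smul, Real.norm_eq_abs, abs_of_pos (inv_pos.mpr (hH0 k))]
    exact mul_le_mul_of_nonneg_left (norm_int_ch h0 _ _) (inv_pos.mpr (hH0 k)).le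
  obtain ⟨k₀, hk₀⟩ := TrigS_fun (P := P) (Q := fun k => emp (fun n : ℕ => α + n * α) k) hPch
    (fun θ hθ h0 => emp_ch hα hθ h0) (U_trigS b φ M) hf (show 0 < η/2 by positivity)
  have hlim := (hμ f hf hC).comp (tendsto_add_atTop_nat 1)
  rw [Metric.tendsto_atTop] at hlim
  obtain ⟨k₁, hk₁⟩ := hlim (η/2) (by positivity)
  obtain ⟨k, hk⟩ : ∃ k, k = max k₀ k₁ := ⟨_, rfl⟩
  have h1 := hk₀ k (by omega)
  have h2 := hk₁ k (by omega)
  rw [Real.dist_eq] at h2
  simp only [Function.comp_apply] at h2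
  have e1 : ∫ x, f (U b φ x M) ∂(emp (fun n : ℕ => α + n * α) k) = rm (fun n : ℕ => f (U b φ (α + n * α) M)) (k+1) :=
    emp_integral_rm (fun n : ℕ => α + n * α) k (fun x => f (U b φ x M)) (hf.comp (U_cont b φ M))
  rw [e1, hPi] at h1
  have h3 := hbad k
  have hHk := hH0 k
  have h4 : |(H k)⁻¹ • (∫ r in (R k)..(R k + H k), f (U b φ r M)) - ∫ x, f x ∂(μ : Measure ℝ)| ≤ η := by
    have a1 := abs_le.mp h1
    have a2 := abs_lt.mp h2
    rw [abs_le]
    constructor <;> linarith [a1.1, a1.2, a2.1, a2.2]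
  have h5 : (∫ r in (R k)..(R k + H k), f (U b φ r M)) - (∫ x, f x ∂(μ : Measure ℝ)) * H k =
      H k * ((H k)⁻¹ • (∫ r in (R k)..(R k + H k), f (U b φ r M)) - ∫ x, f x ∂(μ : Measure ℝ)) := by
    rw [smul_eq_mul]
    field_simp
  rw [h5, abs_mul, abs_of_pos hHk] at h3
  have h6 := mul_le_mul_of_nonneg_left h4 hHk.le
  linarith

/-- uniformity in the level -/
lemma unif_c {g : ℝ → ℝ → ℝ → ℝ} (hg : ∀ c c' R H : ℝ, 1 ≤ R → 0 ≤ H → g c R H ≤ g c' R H + 2 * |c - c'| * H)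
    (h : ∀ c η : ℝ, 0 < η → ∃ H₀ : ℝ, 0 < H₀ ∧ ∀ R H : ℝ, 1 ≤ R → H₀ ≤ H → g c R H ≤ η * H) (A0 : ℝ) {η : ℝ} (hη : 0 < η) :
    ∃ H₀ : ℝ, 0 < H₀ ∧ ∀ c : ℝ, |c| ≤ A0 → ∀ R H : ℝ, 1 ≤ R → H₀ ≤ H → g c R H ≤ η * H := by
  obtain ⟨t, _, htf, htc⟩ := finite_cover_balls_of_compact (isCompact_Icc (a := -A0) (b := A0)) (show 0 < η/4 by positivity)
  choose H₀ hH₀ hh using fun c => h c (η/2) (by positivity)
  refine ⟨1 + ∑ c ∈ htf.toFinset, H₀ c, ?_, ?_⟩
  · have : 0 ≤ ∑ c ∈ htf.toFinset, H₀ c := Finset.sum_nonneg fun c _ => (hH₀ c).le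
    linarith
  intro c hc R H hR hH
  have h1 := htc (show c ∈ Set.Icc (-A0) A0 from abs_le.mp hc)
  simp only [Set.mem_iUnion, exists_prop] at h1
  obtain ⟨c', hc', hcc⟩ := h1
  rw [Metric.mem_ball, Real.dist_eq] at hcc
  have h2 : H₀ c' ≤ ∑ c ∈ htf.toFinset, H₀ c := Finset.single_le_sum (f := H₀) (fun i _ => (hH₀ i).le) (by simpa using hc')
  have hH0 : 0 < H := by have := hH₀ c'; linarith
  have h3 := hh c' R H hR (by linarith)
  have h4 := hg c c' R H hR hH0.le
  have h5 : 2 * |c - c'| * H ≤ 2 * (η/4) * H := by gcongr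
  linarith

lemma dev_lip {μ : Measure ℝ} [IsProbabilityMeasure μ] (h : Integrable (fun x : ℝ => x) μ) (c c' : ℝ) :
    ∫ x, |x - c| ∂μ ≤ (∫ x, |x - c'| ∂μ) + |c - c'| := by
  have i1 : Integrable (fun x : ℝ => |x - c|) μ := (h.sub (integrable_const c)).abs
  have i2 : Integrable (fun x : ℝ => |x - c'|) μ := (h.sub (integrable_const c')).abs
  have h1 : ∫ x, |x - c| ∂μ ≤ ∫ x, (|x - c'| + |c - c'|) ∂μ := by
    apply integral_mono i1 (i2.add (integrable_const _))
    intro x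
    change |x - c| ≤ |x - c'| + |c - c'|
    have := abs_sub_le x c' c
    rwa [abs_sub_comm c' c] at this
  rw [integral_add i2 (integrable_const _)] at h1
  simpa using h1

/-- upper bound: the mean absolute deviation of the low part over a window -/
theorem up_dev (hα : ∀ θ ∈ Lam, θ ≠ 0 → ∀ k : ℤ, α * θ ≠ 2 * Real.pi * k) (a : ℕ → ℝ) (φ : ℝ) (D M : ℕ) (A0 : ℝ) {η : ℝ} (hη : 0 < η) :
    ∃ H₀ : ℝ, 0 < H₀ ∧ ∀ c : ℝ, |c| ≤ A0 → ∀ R H : ℝ, 1 ≤ R → H₀ ≤ H →
      ∫ r in R..(R+H), |U (aIn (𝒜 D) a) φ r M - c| ≤ ((∫ x, |x - c| ∂(muT a φ α α (TA D M) : Measure ℝ)) + η) * H := by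
  obtain ⟨μ, hμd⟩ : ∃ μ, μ = muT a φ α α (TA D M) := ⟨_, rfl⟩
  rw [← hμd]
  have hlaw : Law2 (fun n : ℕ => U (aIn (𝒜 D) a) φ (α + n * α) M) μ := by
    have e : (fun n : ℕ => U (aIn (𝒜 D) a) φ (α + n * α) M) = Pool.Agent.H383.Gen.ST a φ α α (TA D M) := by
      funext n
      exact U_low a φ α α D M n
    rw [e, hμd]
    exact muT_law a φ α α (TA D M)
  have hμi : Integrable (fun x : ℝ => x) (μ : Measure ℝ) := by rw [hμd]; exact int_of_sq (muT_sq _ _ _ _ _)
  have hUc := U_cont (aIn (𝒜 D) a) φ M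
  have key := unif_c (g := fun c R H => (∫ r in R..(R+H), |U (aIn (𝒜 D) a) φ r M - c|) - (∫ x, |x - c| ∂(μ : Measure ℝ)) * H)
    (by
      intro c c' R H _ hH
      change (∫ r in R..(R+H), |U (aIn (𝒜 D) a) φ r M - c|) - (∫ x, |x - c| ∂(μ : Measure ℝ)) * H ≤
        (∫ r in R..(R+H), |U (aIn (𝒜 D) a) φ r M - c'|) - (∫ x, |x - c'| ∂(μ : Measure ℝ)) * H + 2 * |c - c'| * H
      have i1 : IntervalIntegrable (fun r => |U (aIn (𝒜 D) a) φ r M - c|) volume R (R+H) := (by fun_prop : Continuous _).intervalIntegrable _ _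
      have i2 : IntervalIntegrable (fun r => |U (aIn (𝒜 D) a) φ r M - c'|) volume R (R+H) := (by fun_prop : Continuous _).intervalIntegrable _ _
      have h1 : ∫ r in R..(R+H), |U (aIn (𝒜 D) a) φ r M - c| ≤ ∫ r in R..(R+H), (|U (aIn (𝒜 D) a) φ r M - c'| + |c - c'|) := by
        apply intervalIntegral.integral_mono_on (by linarith) i1 (i2.add (continuous_const.intervalIntegrable _ _))
        intro r _
        have := abs_sub_le (U (aIn (𝒜 D) a) φ r M) c' c
        rwa [abs_sub_comm c' c] at this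
      rw [intervalIntegral.integral_add i2 (continuous_const.intervalIntegrable _ _), intervalIntegral.integral_const, smul_eq_mul,
        add_sub_cancel_left] at h1
      have h2 := mul_le_mul_of_nonneg_right (dev_lip hμi c' c) hH
      rw [abs_sub_comm c' c] at h2
      linarith)
    (by
      intro c η' hη'
      obtain ⟨H₀, h1, h2⟩ := win_mean hα (aIn (𝒜 D) a) φ M hlaw (f := fun x => |x - c|) (by fun_prop) (growth_abs c) hη'
      exact ⟨H₀, h1, fun R H _ hH => (le_abs_self _).trans (h2 R H hH)⟩) A0 hη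
  obtain ⟨H₀, h1, h2⟩ := key
  refine ⟨H₀, h1, fun c hc R H hR hH => ?_⟩
  have h3 := h2 c hc R H hR hH
  linarith

/-- the mean square of the tail over long windows, at every large index -/
theorem En_ms' : ∀ η : ℝ, 0 < η → ∃ M₀ : ℕ, ∀ M : ℕ, M₀ ≤ M → ∃ T₀ : ℝ, ∀ T, T₀ ≤ T →
    ∫ r in T..(T+T), |En r - U ag (3 * Real.pi / 4) r M| ≤ η * T := by
  intro η hη
  obtain ⟨M₀, hM₀⟩ := Pool.Agent.R461.GC.tail_conv (c₁ := 1) (c₂ := 2) (K := 2) (s := 2/5) Pool.Agent.H452R2.Win.ag_Bdw ag_zero wg_Wt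
    Pool.Agent.H452R2.Win.En_SandW one_pos (by norm_num) (by norm_num) (by norm_num) le_rfl (η^2 / 4) (by positivity)
  refine ⟨M₀, fun M hM => ?_⟩
  obtain ⟨T₀, hT₀⟩ := hM₀ M hM
  refine ⟨max T₀ 1, fun T hT => ?_⟩
  have hT1 : 1 ≤ T := (le_max_right _ _).trans hT
  have h1 := hT₀ T ((le_max_left _ _).trans hT) _ (unif_adm hT1)
  rw [unif_int hT1 (fun r => (En r - U ag (3 * Real.pi / 4) r M)^2)] at h1
  have hT0 : 0 < T := by linarith
  rw [div_le_iff₀ hT0] at h1
  -- `|x| ≤ η/2 + x²/(2η)`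
  have i0 : IntervalIntegrable (fun r => En r - U ag (3 * Real.pi / 4) r M) volume T (T+T) :=
    (E_ii En_meas En_bdd hT0 (by linarith)).sub ((U_cont _ _ M).intervalIntegrable _ _)
  have i1 : IntervalIntegrable (fun r => (En r - U ag (3 * Real.pi / 4) r M)^2) volume T (T+T) := by
    rw [intervalIntegrable_iff]
    obtain ⟨B, hB⟩ := En_bdd T (T+T) hT0
    obtain ⟨B2, hB2⟩ := (isCompact_Icc (a := T) (b := T+T)).exists_bound_of_continuousOn (U_cont ag (3 * Real.pi / 4) M).continuousOn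
    have : IsFiniteMeasure (volume.restrict (Set.uIoc T (T+T))) := ⟨by
      rw [Measure.restrict_apply_univ, Set.uIoc]
      exact measure_Ioc_lt_top⟩
    apply Integrable.of_bound (C := (B + B2)^2) (((En_meas.sub (U_cont _ _ M).measurable).pow_const 2).aestronglyMeasurable)
    rw [ae_restrict_iff' measurableSet_uIoc]
    apply Eventually.of_forall
    intro r hr
    rw [Set.uIoc_of_le (by linarith)] at hr
    have b1 := hB r hr.1.le hr.2
    have b2 := hB2 r ⟨hr.1.le, hr.2⟩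
    rw [Real.norm_eq_abs] at b2 ⊢
    have b3 : |En r - U ag (3 * Real.pi / 4) r M| ≤ B + B2 := (abs_sub _ _).trans (add_le_add b1 b2)
    change |(En r - U ag (3 * Real.pi / 4) r M) ^ 2| ≤ (B + B2) ^ 2
    rw [abs_pow]
    gcongr
  have i2 : IntervalIntegrable (fun r => η / 2 + (En r - U ag (3 * Real.pi / 4) r M)^2 * (1 / (2 * η))) volume T (T+T) :=
    (continuous_const.intervalIntegrable _ _).add (i1.mul_const _)
  have h2 : ∫ r in T..(T+T), |En r - U ag (3 * Real.pi / 4) r M| ≤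
      ∫ r in T..(T+T), (η / 2 + (En r - U ag (3 * Real.pi / 4) r M)^2 * (1 / (2 * η))) := by
    apply intervalIntegral.integral_mono_on (by linarith) i0.abs i2
    intro r _
    generalize En r - U ag (3 * Real.pi / 4) r M = x
    have h3 : 0 ≤ (|x| - η)^2 := sq_nonneg _
    have h4 : |x|^2 = x^2 := sq_abs x
    have h5 : η / 2 + x^2 * (1 / (2 * η)) = (η^2 + x^2) / (2 * η) := by field_simp
    rw [h5, le_div_iff₀ (by positivity)]
    nlinarith
  refine h2.trans ?_
  rw [intervalIntegral.integral_add (continuous_const.intervalIntegrable _ _) (i1.mul_const _),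
    intervalIntegral.integral_const, intervalIntegral.integral_mul_const, smul_eq_mul]
  have h6 : (∫ r in T..(T+T), (En r - U ag (3 * Real.pi / 4) r M)^2) * (1 / (2 * η)) ≤ (η^2 / 4 * T) * (1 / (2 * η)) := by
    gcongr
  have h7 : (η^2 / 4 * T) * (1 / (2 * η)) = η / 8 * T := by field_simp; norm_num
  nlinarith

/-- the mean absolute deviation over long windows -/
theorem long_dev (hα : ∀ θ ∈ Lam, θ ≠ 0 → ∀ k : ℤ, α * θ ≠ 2 * Real.pi * k) {ν : ProbabilityMeasure ℝ}
    (hA : Ap ag (3 * Real.pi / 4) (fun n : ℕ => En (α + n * α)) α α) (hν : Law2 (fun n : ℕ => En (α + n * α)) ν) (c : ℝ) {η : ℝ} (hη : 0 < η) :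
    ∃ T₀ : ℝ, ∀ T, T₀ ≤ T → ((∫ x, |x - c| ∂(ν : Measure ℝ)) - η) * T ≤ ∫ r in T..(T+T), |En r - c| := by
  obtain ⟨M0, hM0⟩ := ap_abs hA (show 0 < η/4 by positivity)
  obtain ⟨M1, hM1⟩ := En_ms' (η/4) (by positivity)
  obtain ⟨M, hM⟩ : ∃ M : ℕ, M = max M0 M1 := ⟨_, rfl⟩
  obtain ⟨T₁, hT₁⟩ := hM1 M (by rw [hM]; exact le_max_right _ _)
  have hc1 := (close_law hν (muT_law ag (3 * Real.pi / 4) α α (Finset.Icc 1 (M^2))) (hM0 M (by rw [hM]; exact le_max_left _ _))).1 c
  have hlaw : Law2 (fun n : ℕ => U ag (3 * Real.pi / 4) (α + n * α) M) (muT ag (3 * Real.pi / 4) α α (Finset.Icc 1 (M^2))) :=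
    muT_law ag (3 * Real.pi / 4) α α (Finset.Icc 1 (M^2))
  obtain ⟨H₀, hH₀, hw⟩ := win_mean hα ag (3 * Real.pi / 4) M hlaw (f := fun x => |x - c|) (by fun_prop) (growth_abs c) (show 0 < η/4 by positivity)
  refine ⟨max T₁ (max H₀ 1), fun T hT => ?_⟩
  have t1 : T₁ ≤ T := (le_max_left _ _).trans hT
  have t2 : H₀ ≤ T := ((le_max_left _ _).trans (le_max_right _ _)).trans hT
  have t3 : 1 ≤ T := ((le_max_right _ _).trans (le_max_right _ _)).trans hT
  have k1 := hT₁ T t1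
  have k2 := (abs_le.mp (hw T T t2)).1
  have k3 := (abs_le.mp hc1).2
  have i1 : IntervalIntegrable (fun r => |En r - c|) volume T (T+T) :=
    gE_ii En_meas En_bdd (g := fun z => |z - c|) (by fun_prop) (by linarith) (by linarith)
  have i2 : IntervalIntegrable (fun r => |En r - U ag (3 * Real.pi / 4) r M|) volume T (T+T) :=
    ((E_ii En_meas En_bdd (by linarith) (by linarith)).sub ((U_cont _ _ M).intervalIntegrable _ _)).abs
  have hUc := U_cont ag (3 * Real.pi / 4) M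
  have i3 : IntervalIntegrable (fun r => |U ag (3 * Real.pi / 4) r M - c|) volume T (T+T) := (by fun_prop : Continuous _).intervalIntegrable _ _
  have k4 : ∫ r in T..(T+T), |U ag (3 * Real.pi / 4) r M - c| ≤ ∫ r in T..(T+T), (|En r - c| + |En r - U ag (3 * Real.pi / 4) r M|) := by
    apply intervalIntegral.integral_mono_on (by linarith) i3 (i1.add i2)
    intro r _
    have := abs_sub_le (U ag (3 * Real.pi / 4) r M) (En r) c
    rw [abs_sub_comm (U ag (3 * Real.pi / 4) r M) (En r)] at this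
    linarith
  rw [intervalIntegral.integral_add i1 i2] at k4
  have hT0 : 0 < T := by linarith
  have k5 : ((∫ x, |x - c| ∂(ν : Measure ℝ)) - η) * T ≤ ((∫ x, |x - c| ∂(muT ag (3 * Real.pi / 4) α α (Finset.Icc 1 (M^2)) : Measure ℝ)) - η / 2) * T := by
    apply mul_le_mul_of_nonneg_right _ hT0.le
    linarith
  refine k5.trans ?_
  linarith

/-- lower bound: the mean absolute deviation of the error term over a window -/
theorem low_dev (hα : ∀ θ ∈ Lam, θ ≠ 0 → ∀ k : ℤ, α * θ ≠ 2 * Real.pi * k) {ν : ProbabilityMeasure ℝ}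
    (hν2 : Integrable (fun x : ℝ => x^2) (ν : Measure ℝ))
    (hA : Ap ag (3 * Real.pi / 4) (fun n : ℕ => En (α + n * α)) α α) (hν : Law2 (fun n : ℕ => En (α + n * α)) ν) (A0 : ℝ) {η : ℝ} (hη : 0 < η) :
    ∃ H₀ : ℝ, 0 < H₀ ∧ ∀ c : ℝ, |c| ≤ A0 → ∀ R H : ℝ, 1 ≤ R → H₀ ≤ H →
      ((∫ x, |x - c| ∂(ν : Measure ℝ)) - η) * H ≤ ∫ r in R..(R+H), |En r - c| := by
  have hνi := int_of_sq hν2
  have hEabs : ∀ c x y : ℝ, 0 < x → 0 < y → IntervalIntegrable (fun r => |En r - c|) volume x y := fun c x y hx hy =>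
    gE_ii En_meas En_bdd (g := fun z => |z - c|) (by fun_prop) hx hy
  obtain ⟨C0, hC0, hS⟩ := En_Sand
  have key := unif_c (g := fun c R H => (∫ x, |x - c| ∂(ν : Measure ℝ)) * H - ∫ r in R..(R+H), |En r - c|)
    (by
      intro c c' R H hR hH
      change (∫ x, |x - c| ∂(ν : Measure ℝ)) * H - (∫ r in R..(R+H), |En r - c|) ≤
        (∫ x, |x - c'| ∂(ν : Measure ℝ)) * H - (∫ r in R..(R+H), |En r - c'|) + 2 * |c - c'| * H
      have i1 := hEabs c R (R+H) (by linarith) (by linarith)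
      have i2 := hEabs c' R (R+H) (by linarith) (by linarith)
      have h1 : ∫ r in R..(R+H), |En r - c'| ≤ ∫ r in R..(R+H), (|En r - c| + |c - c'|) := by
        apply intervalIntegral.integral_mono_on (by linarith) i2 (i1.add (continuous_const.intervalIntegrable _ _))
        intro r _
        exact abs_sub_le (En r) c c'
      rw [intervalIntegral.integral_add i1 (continuous_const.intervalIntegrable _ _), intervalIntegral.integral_const, smul_eq_mul,
        add_sub_cancel_left] at h1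
      have h2 := mul_le_mul_of_nonneg_right (dev_lip hνi c c') hH
      linarith)
    (by
      intro c η' hη'
      obtain ⟨H₀, h1, h2⟩ := dom_PL (s := Finset.range 2) (α := fun i => if i = 0 then 1 else -1) (β := fun i => if i = 0 then -c else c)
        (Φ := fun y => |y - c|) ag_Bd ag_zero wg_Wt hC0 hS En_meas En_bdd
        (by
          intro i _ y
          by_cases hi : i = 0
          · simp only [hi, if_true]
            have := le_abs_self (y - c)
            linarith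
          · simp only [hi, if_false]
            have := neg_abs_le (y - c)
            linarith)
        (by
          intro y
          rcases le_total c y with h | h
          · refine ⟨0, by simp, ?_⟩
            simp only [if_true]
            rw [abs_of_nonneg (by linarith)]; ring
          · refine ⟨1, by simp, ?_⟩
            simp only [one_ne_zero, if_false]
            rw [abs_of_nonpos (by linarith)]; ring)
        (L₀ := ∫ x, |x - c| ∂(ν : Measure ℝ)) (fun η hη => long_dev hα hA hν c hη) En_ms hη'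
      refine ⟨H₀, h1, fun R H hR hH => ?_⟩
      have h3 := h2 R H hR hH
      change (∫ x, |x - c| ∂(ν : Measure ℝ)) * H - (∫ r in R..(R+H), |En r - c|) ≤ η' * H
      linarith) A0 hη
  obtain ⟨H₀, h1, h2⟩ := key
  refine ⟨H₀, h1, fun c hc R H hR hH => ?_⟩
  have h3 := h2 c hc R H hR hH
  linarith

end Pool.Agent.N687.W
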