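import Mathlib
import Pool.Agent.N687.W.C5
import Pool.Agent.H383.GaussW
import Pool.Agent.H383.FullC
import Pool.Agent.H452R2.Om.Count
import Pool.Agent.H452R2.Om.Mert
import Pool.Agent.H452R2.Om.RepsLow

/-!
# Lower bound for the variance of the high classes
-/

set_option autoImplicit false

open Filter Topology
open Pool.Agent.H383.Gauss Pool.Agent.H383.Gen

namespace Pool.Agent.N687.W

open Pool.Agent.H383.Circ (ag ag_zero ag_Bd)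
open Pool.Agent.H452R2.Om (zz count_sets zz_gt_two)

lemma ag_BK : BK ag (7/10) := BK_of Pool.Agent.H452R2.Win.ag_Bdw (by norm_num)

lemma ag_sq_ge {S : Finset ℕ} (hS : ∀ p ∈ S, p.Prime ∧ p % 4 = 1) {Y : ℝ} (hY : 0 < Y)
    (h : ((∏ p ∈ S, p : ℕ) : ℝ) ≤ 2 * Y * zz ^ S.card) :
    (Real.pi^2)⁻¹ * (2 * Y) ^ (-(3/2):ℝ) ≤ (ag (∏ p ∈ S, p))^2 := by
  have hpi := Real.pi_pos
  obtain ⟨m, hm⟩ : ∃ m : ℕ, m = ∏ p ∈ S, p := ⟨_, rfl⟩
  have hm1 : 1 ≤ m := by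
    rw [hm]
    exact Finset.prod_pos fun p hp => (hS p hp).1.pos
  have hm0 : (0:ℝ) < m := by exact_mod_cast hm1
  have h1 := Pool.Agent.H452R2.Om.rA_prod_ge S hS
  rw [← hm] at h1 h ⊢
  have hz0 : 0 < zz := by unfold Pool.Agent.H452R2.Om.zz; positivity
  have h2 : (ag m)^2 = (rA m)^2 / Real.pi^2 * (m:ℝ) ^ (-(3/2):ℝ) := by
    unfold Pool.Agent.H383.Circ.ag
    rw [mul_pow, div_pow]
    congr 1
    rw [← Real.rpow_natCast ((√(m:ℝ)) ^ (-(3/2):ℝ)), ← Real.rpow_mul (Real.sqrt_nonneg _), Real.sqrt_eq_rpow, ← Real.rpow_mul hm0.le]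
    norm_num
  have h3 : (2 * Y * zz ^ S.card) ^ (-(3/2):ℝ) ≤ (m:ℝ) ^ (-(3/2):ℝ) := Real.rpow_le_rpow_of_nonpos hm0 h (by norm_num)
  have h4 : (2 * Y * zz ^ S.card) ^ (-(3/2):ℝ) = (2 * Y) ^ (-(3/2):ℝ) * ((2:ℝ) ^ (2 * S.card))⁻¹ := by
    rw [Real.mul_rpow (by positivity) (by positivity)]
    congr 1
    have : zz ^ S.card = (2:ℝ) ^ ((4/3:ℝ) * (S.card : ℝ)) := by
      unfold Pool.Agent.H452R2.Om.zz
      rw [← Real.rpow_natCast, ← Real.rpow_mul (by norm_num)]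
    rw [this, ← Real.rpow_mul (by norm_num), ← Real.rpow_natCast, ← Real.rpow_neg (by norm_num)]
    congr 1
    push_cast; ring
  have h5 : ((2:ℝ) ^ S.card)^2 ≤ (rA m)^2 := pow_le_pow_left₀ (by positivity) h1 2
  have h6 : ((2:ℝ) ^ S.card)^2 = (2:ℝ) ^ (2 * S.card) := by rw [← pow_mul, mul_comm]
  have hYp : 0 < (2 * Y) ^ (-(3/2):ℝ) := by positivity
  have hp : (0:ℝ) < (2:ℝ) ^ (2 * S.card) := by positivity
  rw [h2]
  calc (Real.pi^2)⁻¹ * (2 * Y) ^ (-(3/2):ℝ)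
      = (2:ℝ) ^ (2 * S.card) / Real.pi^2 * ((2 * Y) ^ (-(3/2):ℝ) * ((2:ℝ) ^ (2 * S.card))⁻¹) := by field_simp
    _ ≤ (rA m)^2 / Real.pi^2 * (m:ℝ) ^ (-(3/2):ℝ) := by
        rw [h6] at h5
        rw [h4] at h3
        exact mul_le_mul (by gcongr) h3 (by positivity) (by positivity)

/-- the variance of the high classes is not of the order of the inverse square root -/
theorem var_low : ∃ c : ℝ, 0 < c ∧ ∃ D₀ : ℕ, ∀ D : ℕ, D₀ ≤ D →
    c * (Real.log D) ^ (zz / 2 - 1) * (D:ℝ) ^ (-(1/2):ℝ) ≤ VD ag D := by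
  classical
  have hpi := Real.pi_pos
  have hz2 := zz_gt_two
  obtain ⟨c, Y0, hc, hY0, hfam⟩ := count_sets (fun p => p % 4 = 1) (β := zz / 2) (by linarith) Pool.Agent.H452R2.Om.mert_one
  obtain ⟨β, hβ⟩ : ∃ β : ℝ, β = zz / 2 - 1 := ⟨_, rfl⟩
  have hβ0 : 0 < β := by rw [hβ]; linarith
  have e1 : ∀ᶠ D : ℕ in atTop, 2 / c ≤ (Real.log D) ^ β := by
    have h1 := (tendsto_rpow_atTop hβ0).comp (Real.tendsto_log_atTop.comp (tendsto_natCast_atTop_atTop (R := ℝ)))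
    exact h1.eventually_ge_atTop _
  have e2 : ∀ᶠ D : ℕ in atTop, Y0 ≤ (D:ℝ) := tendsto_natCast_atTop_atTop.eventually_ge_atTop _
  obtain ⟨D₀, hD₀⟩ := eventually_atTop.mp (e1.and e2)
  refine ⟨c / 2 * ((Real.pi^2)⁻¹ * 2 ^ (-(3/2):ℝ)), by positivity, D₀, fun D hD => ?_⟩
  obtain ⟨h1, h2⟩ := hD₀ D hD
  have hD0 : (0:ℝ) < D := by linarith
  obtain ⟨𝓢, hS, hcard⟩ := hfam D h2
  rw [← hβ] at hcard ⊢
  obtain ⟨P, hP⟩ : ∃ P : Finset ℕ → ℕ, P = fun S => ∏ p ∈ S, p := ⟨_, rfl⟩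
  have hinj : Set.InjOn P (𝓢 : Set (Finset ℕ)) := by
    intro S hS1 S' hS2 h
    rw [hP] at h
    have g1 := Nat.primeFactors_prod (s := S) (fun p hp => ((hS S hS1).1 p hp).1)
    have g2 := Nat.primeFactors_prod (s := S') (fun p hp => ((hS S' hS2).1 p hp).1)
    rw [← g1, ← g2]
    exact congrArg Nat.primeFactors h
  obtain ⟨𝓜, h𝓜⟩ : ∃ 𝓜 : Finset ℕ, 𝓜 = (𝓢.image P).filter (fun m => D ≤ m) := ⟨_, rfl⟩
  have hMcard : c / 2 * D * (Real.log D) ^ β ≤ (𝓜.card : ℝ) := by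
    have g1 : 𝓢.card ≤ 𝓜.card + D := by
      rw [← Finset.card_image_of_injOn hinj]
      have g2 := Finset.card_filter_add_card_filter_not (s := 𝓢.image P) (fun m => D ≤ m)
      have g3 : ((𝓢.image P).filter (fun m => ¬ D ≤ m)).card ≤ D := by
        calc _ ≤ (Finset.range D).card := Finset.card_le_card (fun m hm => by
              rw [Finset.mem_filter] at hm
              rw [Finset.mem_range]; omega)
          _ = D := Finset.card_range D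
      rw [h𝓜]
      omega
    have g4 : (𝓢.card : ℝ) ≤ 𝓜.card + D := by exact_mod_cast g1
    have g5 : (D:ℝ) ≤ c / 2 * D * (Real.log D) ^ β := by
      rw [div_le_iff₀ hc] at h1
      nlinarith
    linarith
  have hterm : ∀ m ∈ 𝓜, (Real.pi^2)⁻¹ * (2 * (D:ℝ)) ^ (-(3/2):ℝ) ≤ (aIn (𝒜 D)ᶜ ag m)^2 := by
    intro m hm
    rw [h𝓜, Finset.mem_filter, Finset.mem_image] at hm
    obtain ⟨⟨S, hS1, rfl⟩, hmD⟩ := hm
    have hp : ∀ p ∈ S, p.Prime ∧ p % 4 = 1 := fun p hp => ⟨((hS S hS1).1 p hp).1, by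
      rcases ((hS S hS1).1 p hp).2.2 with h | h <;> exact h⟩
    have hsf : Squarefree (P S) := by
      rw [hP]
      apply Finset.squarefree_prod_of_pairwise_isCoprime
      · intro p hpS q hqS hpq
        exact Nat.coprime_iff_isRelPrime.mp ((Nat.coprime_primes (hp p hpS).1 (hp q hqS).1).mpr hpq)
      · intro p hpS
        exact (hp p hpS).1.prime.squarefree
    have hnot : P S ∉ 𝒜 D := by
      rintro ⟨s, hs, hsD, hcl⟩
      have := inC_unique hs hsf (Nat.one_le_iff_ne_zero.mpr hsf.ne_zero) hcl ⟨1, by ring⟩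
      omega
    have : aIn (𝒜 D)ᶜ ag (P S) = ag (P S) := by
      unfold aIn
      rw [if_pos (by simpa using hnot)]
    rw [this, hP]
    exact ag_sq_ge hp hD0 ((hS S hS1).2.1)
  have hsum := (aIn_sq_summable (𝒜 D)ᶜ ag_BK ag_zero).sum_le_tsum 𝓜 (fun _ _ => sq_nonneg _)
  have h3 : (𝓜.card : ℝ) * ((Real.pi^2)⁻¹ * (2 * (D:ℝ)) ^ (-(3/2):ℝ)) ≤ ∑ m ∈ 𝓜, (aIn (𝒜 D)ᶜ ag m)^2 := by
    rw [← nsmul_eq_mul]
    exact Finset.card_nsmul_le_sum _ _ _ hterm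
  have h4 : c / 2 * ((Real.pi^2)⁻¹ * 2 ^ (-(3/2):ℝ)) * (Real.log D) ^ β * (D:ℝ) ^ (-(1/2):ℝ) =
      (c / 2 * D * (Real.log D) ^ β) * ((Real.pi^2)⁻¹ * (2 * (D:ℝ)) ^ (-(3/2):ℝ)) := by
    rw [Real.mul_rpow (by norm_num) hD0.le]
    have : (D:ℝ) ^ (-(1/2):ℝ) = D * (D:ℝ) ^ (-(3/2):ℝ) := by
      conv_rhs => rw [← Real.rpow_one (D:ℝ), ← Real.rpow_mul hD0.le, one_mul, ← Real.rpow_add hD0]
      norm_num
    rw [this]; ring
  rw [h4]
  have h5 : (c / 2 * D * (Real.log D) ^ β) * ((Real.pi^2)⁻¹ * (2 * (D:ℝ)) ^ (-(3/2):ℝ)) ≤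
      (𝓜.card : ℝ) * ((Real.pi^2)⁻¹ * (2 * (D:ℝ)) ^ (-(3/2):ℝ)) :=
    mul_le_mul_of_nonneg_right hMcard (by positivity)
  unfold VD
  linarith

end Pool.Agent.N687.W
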