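import Mathlib
import Pool.Agent.N687.W.C5

/-!
# The sums over the dyadic blocks
-/

set_option autoImplicit false

open Filter Topology
open Pool.Agent.H383.Gauss Pool.Agent.H383.Gen

namespace Pool.Agent.N687.W

lemma Vb_partial (b : ℕ → ℝ) (J : ℕ) : ∑ j ∈ Finset.range J, Vb b j = ∑ m ∈ Finset.Ico 1 (2^J), (b m)^2 := by
  induction J with
  | zero => simp
  | succ J ih =>
    rw [Finset.sum_range_succ, ih]
    unfold Vb
    exact Finset.sum_Ico_consecutive _ Nat.one_le_two_pow (Nat.pow_le_pow_right (by norm_num) (by omega))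

lemma Vb_bound {b : ℕ → ℝ} {C : ℝ} (hb : ∀ m : ℕ, 1 ≤ m → |b m| ≤ C * (m:ℝ) ^ (-(7/10):ℝ)) (j : ℕ) :
    Vb b j ≤ C^2 * ((2:ℝ) ^ (-(2/5):ℝ)) ^ j := by
  unfold Vb
  have h1 : ∀ m ∈ Finset.Ico (2^j) (2^(j+1)), (b m)^2 ≤ C^2 * ((2:ℝ)^j) ^ (-(7/5):ℝ) := by
    intro m hm
    rw [Finset.mem_Ico] at hm
    have hm1 : 1 ≤ m := Nat.one_le_two_pow.trans hm.1
    have hm0 : (0:ℝ) < m := by exact_mod_cast hm1
    have h2 := hb m hm1
    have h3 : (b m)^2 ≤ (C * (m:ℝ) ^ (-(7/10):ℝ))^2 := by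
      rw [← sq_abs]
      exact pow_le_pow_left₀ (abs_nonneg _) h2 2
    refine h3.trans ?_
    rw [mul_pow, ← Real.rpow_natCast ((m:ℝ) ^ (-(7/10):ℝ)), ← Real.rpow_mul hm0.le]
    apply mul_le_mul_of_nonneg_left _ (sq_nonneg C)
    have e : -(7/10:ℝ) * ((2:ℕ):ℝ) = -(7/5) := by push_cast; norm_num
    rw [e]
    apply Real.rpow_le_rpow_of_nonpos (by positivity) _ (by norm_num)
    exact_mod_cast hm.1
  refine (Finset.sum_le_sum h1).trans ?_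
  rw [Finset.sum_const, nsmul_eq_mul, Nat.card_Ico]
  have h2 : ((2^(j+1) - 2^j : ℕ) : ℝ) = (2:ℝ)^j := by
    have : 2^(j+1) - 2^j = 2^j := by rw [pow_succ]; omega
    rw [this]; push_cast; rfl
  rw [h2]
  apply le_of_eq
  have h3 : (2:ℝ)^j * ((2:ℝ)^j) ^ (-(7/5):ℝ) = ((2:ℝ) ^ (-(2/5):ℝ)) ^ j := by
    rw [← Real.rpow_natCast 2 j, ← Real.rpow_mul (by norm_num), ← Real.rpow_add (by norm_num), ← Real.rpow_natCast, ← Real.rpow_mul (by norm_num)]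
    congr 1
    ring
  rw [← h3]; ring

lemma S2_summable {b : ℕ → ℝ} {C : ℝ} (hC : 0 < C) (hb : ∀ m : ℕ, 1 ≤ m → |b m| ≤ C * (m:ℝ) ^ (-(7/10):ℝ)) :
    Summable (fun j : ℕ => √(2 * (1 + j) * Vb b j)) := by
  obtain ⟨q, hq⟩ : ∃ q : ℝ, q = (2:ℝ) ^ (-(1/5):ℝ) := ⟨_, rfl⟩
  have hq0 : 0 < q := by rw [hq]; positivity
  have hq1 : q < 1 := by
    rw [hq]
    exact Real.rpow_lt_one_of_one_lt_of_neg (by norm_num) (by norm_num)
  have hq2 : q^2 = (2:ℝ) ^ (-(2/5):ℝ) := by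
    rw [hq, ← Real.rpow_natCast, ← Real.rpow_mul (by norm_num)]
    norm_num
  have h1 : Summable (fun j : ℕ => (2 * C) * q^j + (2 * C) * ((j:ℝ)^1 * q^j)) := by
    apply Summable.add
    · exact (summable_geometric_of_lt_one hq0.le hq1).mul_left _
    · have h0 : ‖q‖ < 1 := by rw [Real.norm_eq_abs, abs_of_pos hq0]; exact hq1
      have h2 : Summable (fun n : ℕ => (n:ℝ)^1 * q^n) := summable_pow_mul_geometric_of_norm_lt_one (R := ℝ) 1 h0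
      exact h2.mul_left _
  apply Summable.of_nonneg_of_le (fun j => Real.sqrt_nonneg _) _ h1
  intro j
  have hj : (0:ℝ) ≤ j := Nat.cast_nonneg j
  have h2 := Vb_bound hb j
  rw [← hq2] at h2
  rw [Real.sqrt_le_left (by positivity)]
  have h3 : 2 * (1 + (j:ℝ)) * Vb b j ≤ 2 * (1 + (j:ℝ)) * (C^2 * (q^2)^j) := by gcongr
  refine h3.trans ?_
  have h4 : (2 * C * q^j + 2 * C * ((j:ℝ)^1 * q^j))^2 = 4 * (1 + j)^2 * (C^2 * (q^2)^j) := by
    rw [← pow_mul, mul_comm 2 j, pow_mul]; ring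
  rw [h4]
  have h5 : 0 ≤ C^2 * (q^2)^j := by positivity
  have h6 : 2 * (1 + (j:ℝ)) ≤ 4 * (1 + j)^2 := by nlinarith
  exact mul_le_mul_of_nonneg_right h6 h5

lemma S1_summable {b : ℕ → ℝ} {C : ℝ} (hC : 0 < C) (hb : ∀ m : ℕ, 1 ≤ m → |b m| ≤ C * (m:ℝ) ^ (-(7/10):ℝ)) :
    Summable (fun j : ℕ => √(Vb b j / √((2:ℝ)^j))) := by
  apply Summable.of_nonneg_of_le (fun j => Real.sqrt_nonneg _) _ (S2_summable hC hb)
  intro j
  apply Real.sqrt_le_sqrt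
  have hj : (0:ℝ) ≤ j := Nat.cast_nonneg j
  have h1 : 1 ≤ √((2:ℝ)^j) := Real.one_le_sqrt.mpr (one_le_pow₀ (by norm_num))
  have h2 := Vb_nonneg b j
  rw [div_le_iff₀ (by linarith)]
  have h3 : (1:ℝ) ≤ 2 * (1 + j) * √((2:ℝ)^j) := by nlinarith
  nlinarith

lemma amgm {x y l : ℝ} (hx : 0 ≤ x) (hy : 0 ≤ y) (hl : 0 < l) : √(x * y) ≤ l / 2 * x + 1 / (2 * l) * y := by
  rw [Real.sqrt_le_left (by positivity)]
  have e : (l / 2 * x + 1 / (2 * l) * y)^2 - x * y = (l / 2 * x - 1 / (2 * l) * y)^2 := by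
    field_simp
    ring
  nlinarith [sq_nonneg (l / 2 * x - 1 / (2 * l) * y)]

lemma geo_half : Summable (fun k : ℕ => 1 / √((2:ℝ)^k)) ∧ ∑' k : ℕ, 1 / √((2:ℝ)^k) ≤ 4 := by
  have hs : 0 < √(2:ℝ) := Real.sqrt_pos.mpr (by norm_num)
  have hsq : √(2:ℝ) * √2 = 2 := Real.mul_self_sqrt (by norm_num)
  have h14 : (1.414:ℝ) ≤ √2 := by
    apply Real.le_sqrt_of_sq_le
    norm_num
  have e : ∀ k : ℕ, 1 / √((2:ℝ)^k) = (1 / √2) ^ k := by
    intro k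
    rw [Real.sqrt_eq_rpow, ← Real.rpow_natCast, ← Real.rpow_mul (by norm_num), mul_comm, Real.rpow_mul (by norm_num), ← Real.sqrt_eq_rpow,
      Real.rpow_natCast, one_div_pow]
  simp only [e]
  have h0 : 0 ≤ 1 / √(2:ℝ) := by positivity
  have h1 : 1 / √(2:ℝ) < 1 := by rw [div_lt_one hs]; linarith
  refine ⟨summable_geometric_of_lt_one h0 h1, ?_⟩
  rw [tsum_geometric_of_lt_one h0 h1]
  have h2 : 1 / √(2:ℝ) ≤ 3/4 := by
    rw [div_le_iff₀ hs]; linarith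
  rw [inv_le_comm₀ (by linarith) (by norm_num)]
  linarith

/-- the decisive bound -/
theorem S1_bound {a : ℕ → ℝ} (ha : BK a (7/10)) (ha0 : a 0 = 0) {D : ℕ} (hD : 1 ≤ D) (hV : 0 < VD a D) :
    ∑' j : ℕ, √(Vb (fun m => |aIn (𝒜 D)ᶜ a m|) j / √((2:ℝ)^j)) ≤ 5 * (D:ℝ) ^ (-(1/4):ℝ) * √(VD a D) := by
  obtain ⟨C, hC, haC⟩ := ha
  obtain ⟨b, hb⟩ : ∃ b : ℕ → ℝ, b = fun m => |aIn (𝒜 D)ᶜ a m| := ⟨_, rfl⟩
  rw [← hb]
  have hbC : ∀ m : ℕ, 1 ≤ m → |b m| ≤ C * (m:ℝ) ^ (-(7/10):ℝ) := by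
    intro m hm
    rw [hb]
    simp only [abs_abs]
    exact (aIn_abs_le _ _ _).trans (haC m hm)
  have hD0 : (0:ℝ) < D := by exact_mod_cast hD
  obtain ⟨j0, hj0⟩ : ∃ j0 : ℕ, j0 = Nat.log 2 D := ⟨_, rfl⟩
  have h2 : 2^j0 ≤ D := by rw [hj0]; exact Nat.pow_log_le_self 2 (by omega)
  have h3 : D < 2^(j0+1) := by rw [hj0]; exact Nat.lt_pow_succ_log_self (by norm_num) D
  have hzero : ∀ j ∈ Finset.range j0, √(Vb b j / √((2:ℝ)^j)) = 0 := by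
    intro j hj
    rw [Finset.mem_range] at hj
    have : Vb b j = 0 := by
      unfold Vb
      apply Finset.sum_eq_zero
      intro m hm
      rw [Finset.mem_Ico] at hm
      have h4 : 2^(j+1) ≤ 2^j0 := Nat.pow_le_pow_right (by norm_num) (by omega)
      rw [hb]
      simp only
      rw [aIn_low ha0 (by omega)]
      norm_num
    rw [this, zero_div, Real.sqrt_zero]
  have hs1 := S1_summable hC hbC
  rw [← hs1.sum_add_tsum_nat_add j0, Finset.sum_eq_zero hzero, zero_add]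
  -- the total energy
  have hbs : Summable (fun m => (b m)^2) := by
    rw [hb]
    simp only [sq_abs]
    exact aIn_sq_summable _ ⟨C, hC, haC⟩ ha0
  have hbV : ∑' m, (b m)^2 = VD a D := by
    rw [hb]
    simp only [sq_abs]
    rfl
  have hpart : ∀ n, ∑ j ∈ Finset.range n, Vb b j ≤ VD a D := by
    intro n
    rw [Vb_partial, ← hbV]
    exact hbs.sum_le_tsum _ (fun _ _ => sq_nonneg _)
  have hVs : Summable (Vb b) := summable_of_sum_range_le (Vb_nonneg b) hpart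
  have hVsum : ∑' j, Vb b j ≤ VD a D := Real.tsum_le_of_sum_range_le (Vb_nonneg b) hpart
  have hVs' : Summable (fun k => Vb b (k + j0)) := (summable_nat_add_iff j0).mpr hVs
  have hVsum' : ∑' k, Vb b (k + j0) ≤ VD a D := by
    have := hVs.sum_add_tsum_nat_add j0
    have h4 : 0 ≤ ∑ j ∈ Finset.range j0, Vb b j := Finset.sum_nonneg fun j _ => Vb_nonneg b j
    linarith
  obtain ⟨l, hl⟩ : ∃ l : ℝ, l = (D:ℝ) ^ (-(1/4):ℝ) / √(VD a D) := ⟨_, rfl⟩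
  have hsV : 0 < √(VD a D) := Real.sqrt_pos.mpr hV
  have hsV2 : √(VD a D) * √(VD a D) = VD a D := Real.mul_self_sqrt hV.le
  have hDq : 0 < (D:ℝ) ^ (-(1/4):ℝ) := by positivity
  have hl0 : 0 < l := by rw [hl]; positivity
  obtain ⟨hg1, hg2⟩ := geo_half
  have hsj0 : 0 < √((2:ℝ)^j0) := Real.sqrt_pos.mpr (by positivity)
  have hterm : ∀ k : ℕ, √(Vb b (k + j0) / √((2:ℝ)^(k + j0))) ≤ l / 2 * Vb b (k + j0) + 1 / (2 * l) * (1 / √((2:ℝ)^j0) * (1 / √((2:ℝ)^k))) := by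
    intro k
    have h4 := amgm (Vb_nonneg b (k + j0)) (y := 1 / √((2:ℝ)^(k + j0))) (by positivity) hl0
    rw [mul_one_div] at h4
    refine h4.trans (le_of_eq ?_)
    congr 2
    rw [pow_add, Real.sqrt_mul (by positivity), one_div_mul_one_div, mul_comm (√((2:ℝ)^k))]
  have hsum2 : Summable (fun k : ℕ => l / 2 * Vb b (k + j0) + 1 / (2 * l) * (1 / √((2:ℝ)^j0) * (1 / √((2:ℝ)^k)))) :=
    (hVs'.mul_left _).add ((hg1.mul_left _).mul_left _)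
  have hsum1 : Summable (fun k : ℕ => √(Vb b (k + j0) / √((2:ℝ)^(k + j0)))) := (summable_nat_add_iff j0).mpr hs1
  refine (Summable.tsum_le_tsum hterm hsum1 hsum2).trans ?_
  rw [(hVs'.mul_left _).tsum_add ((hg1.mul_left _).mul_left _), tsum_mul_left, tsum_mul_left, tsum_mul_left]
  have h5 : 1 / √((2:ℝ)^j0) ≤ 2 * (D:ℝ) ^ (-(1/2):ℝ) := by
    have h6 : (D:ℝ) ≤ 4 * (2:ℝ)^j0 := by
      have : (D:ℝ) < (2:ℝ)^(j0+1) := by exact_mod_cast h3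
      rw [pow_succ] at this
      have : (0:ℝ) < 2^j0 := by positivity
      linarith
    have h7 : √(D:ℝ) ≤ 2 * √((2:ℝ)^j0) := by
      rw [show (2:ℝ) * √((2:ℝ)^j0) = √(4 * 2^j0) by
        rw [Real.sqrt_mul (by norm_num), show (4:ℝ) = 2^2 by norm_num, Real.sqrt_sq (by norm_num)]]
      exact Real.sqrt_le_sqrt h6
    have hsD : 0 < √(D:ℝ) := Real.sqrt_pos.mpr hD0
    have h8 : (D:ℝ) ^ (-(1/2):ℝ) = 1 / √(D:ℝ) := by
      rw [Real.rpow_neg hD0.le, ← Real.sqrt_eq_rpow, one_div]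
    rw [h8, mul_one_div, div_le_div_iff₀ hsj0 hsD]
    linarith
  have h9 : l / 2 * ∑' k, Vb b (k + j0) ≤ l / 2 * VD a D := by gcongr
  have h10 : 1 / (2 * l) * (1 / √((2:ℝ)^j0) * ∑' k : ℕ, 1 / √((2:ℝ)^k)) ≤ 1 / (2 * l) * (2 * (D:ℝ) ^ (-(1/2):ℝ) * 4) := by
    apply mul_le_mul_of_nonneg_left _ (by positivity)
    apply mul_le_mul h5 hg2 (tsum_nonneg fun k => by positivity) (by positivity)
  have h11 : l / 2 * VD a D = (1/2) * (D:ℝ) ^ (-(1/4):ℝ) * √(VD a D) := by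
    rw [hl]
    field_simp
    rw [sq, hsV2]
  have h12 : 1 / (2 * l) * (2 * (D:ℝ) ^ (-(1/2):ℝ) * 4) = 4 * (D:ℝ) ^ (-(1/4):ℝ) * √(VD a D) := by
    have h13 : (D:ℝ) ^ (-(1/2):ℝ) = (D:ℝ) ^ (-(1/4):ℝ) * (D:ℝ) ^ (-(1/4):ℝ) := by
      rw [← Real.rpow_add hD0]; norm_num
    rw [hl, h13]
    field_simp
  have h14 : 0 < (D:ℝ) ^ (-(1/4):ℝ) * √(VD a D) := by positivity
  linarith

end Pool.Agent.N687.W
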