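import Mathlib
import Pool.Agent.N687.W.B5
import Pool.Agent.N687.W.C8
import Pool.Agent.N687.W.C9
import Pool.Agent.N687.W.C10

/-!
# Many solutions in every window
-/

set_option autoImplicit false

open MeasureTheory Filter Topology
open Pool.Agent.H383.AP Pool.Agent.H383.Gauss Pool.Agent.H383.Gen

namespace Pool.Agent.N687.W

open Pool.Agent.R461.GC (Lam F_meas F_nonneg En_meas En_bdd generic)
open Pool.Agent.H383.Circ (ag ag_Bd ag_zero wg wg_Wt En_Sand F_mono quad_Ap)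
open Pool.Agent.H383.ED (G Ps Ps_integrable entire_density G_pos eq_withDensity G_diff Ps_cont Ps_bound dom2)
open Pool.Agent.H452R2.Om (zz zz_gt_two)

lemma ag_one : ag 1 ≠ 0 := by
  have h := ag_sq_ge (S := ∅) (by simp) (Y := 1) one_pos (by simp)
  rw [Finset.prod_empty] at h
  have hpi := Real.pi_pos
  intro h0
  rw [h0] at h
  have : 0 < (Real.pi^2)⁻¹ * (2 * (1:ℝ)) ^ (-(3/2):ℝ) := by positivity
  linarith

/-- the setting: a generic progression, the limit law and the gap between the mean absolute deviations -/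
theorem prep (A0 : ℝ) : ∃ (α : ℝ) (ν : ProbabilityMeasure ℝ), 0 < α ∧ (∀ θ ∈ Lam, θ ≠ 0 → ∀ k : ℤ, α * θ ≠ 2 * Real.pi * k) ∧
    Integrable (fun x : ℝ => x^2) (ν : Measure ℝ) ∧ Ap ag (3 * Real.pi / 4) (fun n : ℕ => En (α + n * α)) α α ∧
    Law2 (fun n : ℕ => En (α + n * α)) ν ∧
    ∃ c₁ : ℝ, 0 < c₁ ∧ ∃ D₃ : ℕ, ∀ D : ℕ, D₃ ≤ D → ∃ M₃ : ℕ, ∀ M : ℕ, M₃ ≤ M → ∀ c, |c| ≤ A0 →
      c₁ * VD ag D ≤ (∫ x, |x - c| ∂(ν : Measure ℝ)) - ∫ x, |x - c| ∂(muT ag (3 * Real.pi / 4) α α (TA D M) : Measure ℝ) := by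
  obtain ⟨α, hα0, hα⟩ := generic
  have hP : ∀ n : ℕ, 0 < α ^ 2 * (n : ℝ) ^ 2 + 2 * α ^ 2 * n + α ^ 2 := fun n => by positivity
  have hsq : ∀ n : ℕ, √(α ^ 2 * (n : ℝ) ^ 2 + 2 * α ^ 2 * n + α ^ 2) = α + n * α := by
    intro n
    rw [show α ^ 2 * (n : ℝ) ^ 2 + 2 * α ^ 2 * n + α ^ 2 = (α + n * α) ^ 2 by ring]
    exact Real.sqrt_sq (by positivity)
  have hAp : Ap ag (3 * Real.pi / 4) (fun n : ℕ => En (α + n * α)) α α := by
    have h := quad_Ap (show 0 < α ^ 2 by positivity) (fun n => (hP n).le)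
    simp only [hsq] at h
    have e1 : √(α ^ 2) = α := Real.sqrt_sq hα0.le
    have e2 : 2 * α ^ 2 / (2 * √(α ^ 2)) = α := by
      rw [e1]
      field_simp
    rw [e2, e1] at h
    exact h
  obtain ⟨ν, hν2, hν⟩ := hAp.b2.limit
  refine ⟨α, ν, hα0, hα, hν2, hAp, hν, ?_⟩
  have hpi := Real.pi_pos
  have hS := good_empty hα0 hα
  obtain ⟨C, cc, hC, hcc, hdec⟩ := char_decay (κ := 7/10) (p := 5/4) hS hAp (Law2.law hν) (by norm_num) ag_BK Pool.Agent.H383.Circ.ag_LB (by norm_num) (by norm_num)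
  have hPi := Ps_integrable (ν : Measure ℝ) hcc (by norm_num) hC.le hdec
  have hd : Differentiable ℂ (G (Ps (ν : Measure ℝ))) :=
    G_diff (Ps_cont (ν : Measure ℝ)) hcc (by norm_num) hC.le (Ps_bound (ν : Measure ℝ) hcc (by norm_num) hC.le hdec)
  have hcG : Continuous (fun x : ℝ => G (Ps (ν : Measure ℝ)) x) := hd.continuous.comp Complex.continuous_ofReal
  have hcr : Continuous (fun x : ℝ => (G (Ps (ν : Measure ℝ)) x).re) := Complex.continuous_re.comp hcG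
  obtain ⟨Hf, hHf⟩ : ∃ Hf : ℝ → ℝ, Hf = fun x => ∫ t, rc (ν : Measure ℝ) x t := ⟨_, rfl⟩
  have hHG : ∀ x, Hf x = 2 * Real.pi * (G (Ps (ν : Measure ℝ)) x).re := by
    intro x
    rw [G_rc _ hPi, hHf]
    field_simp
  have hHc : Continuous Hf := by
    have : Hf = fun x : ℝ => 2 * Real.pi * (G (Ps (ν : Measure ℝ)) x).re := funext hHG
    rw [this]
    exact hcr.const_mul _
  have hHpos : ∀ c, 0 < Hf c := fun c => by
    rw [hHf]
    exact dens_pos hα0 hα ag_BK ag_Bd ag_zero Pool.Agent.H383.Circ.ag_LB ag_one hAp hν c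
  have hνK : ∃ Kν : ℝ, ∀ t, ‖charFun (ν : Measure ℝ) t‖ ≤ Kν * (1 + t^2)⁻¹ := by
    obtain ⟨K, hK, h⟩ := dom2 hcc (show (1:ℝ) < 5/4 by norm_num) le_rfl
    refine ⟨C * K, fun t => (hdec t).trans ?_⟩
    have h1 := h t
    rw [zero_mul, Real.exp_zero, mul_one] at h1
    rw [mul_assoc]
    exact mul_le_mul_of_nonneg_left h1 hC.le
  obtain ⟨g0, hg0, hg⟩ : ∃ g0 : ℝ, 0 < g0 ∧ ∀ c, |c| ≤ A0 → g0 ≤ ∫ t, rc (ν : Measure ℝ) c t := by
    rcases lt_or_ge A0 0 with h | h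
    · exact ⟨1, one_pos, fun c hc => by have := abs_nonneg c; linarith⟩
    · obtain ⟨x, _, hx⟩ := (isCompact_Icc (a := -A0) (b := A0)).exists_isMinOn ⟨0, by constructor <;> linarith⟩ hHc.continuousOn
      refine ⟨Hf x, hHpos x, fun c hc => ?_⟩
      have h1 := hx (show c ∈ Set.Icc (-A0) A0 from abs_le.mp hc)
      have h2 : Hf c = ∫ t, rc (ν : Measure ℝ) c t := by rw [hHf]
      rw [← h2]
      exact h1
  apply gap_main hS ag_BK ag_zero Pool.Agent.H383.Circ.ag_LB hAp hν hνK hg0 hg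
  obtain ⟨c, hc, D₀, h⟩ := var_low
  refine ⟨c, hc, max D₀ 3, fun D hD => ?_⟩
  have h1 := h D ((le_max_left _ _).trans hD)
  refine le_trans ?_ h1
  have hD3 : (3:ℝ) ≤ D := by exact_mod_cast (le_max_right _ _).trans hD
  have h2 : 1 ≤ Real.log D := by
    rw [Real.le_log_iff_exp_le (by linarith)]
    have := Real.exp_one_lt_d9
    linarith
  have h3 : 1 ≤ (Real.log D) ^ (zz / 2 - 1) := Real.one_le_rpow h2 (by have := zz_gt_two; linarith)
  have h4 : 0 ≤ (D:ℝ) ^ (-(1/2):ℝ) := by positivity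
  nlinarith [mul_nonneg hc.le h4]

/-- the variance of the high part dominates `D^(-1/2)` -/
lemma var_big (X : ℝ) : ∃ D₄ : ℕ, ∀ D : ℕ, D₄ ≤ D → 0 < VD ag D ∧ X ≤ √(VD ag D) * (D:ℝ) ^ (1/4:ℝ) := by
  obtain ⟨c, hc, D₀, h⟩ := var_low
  have hz := zz_gt_two
  obtain ⟨β, hβ⟩ : ∃ β : ℝ, β = zz / 2 - 1 := ⟨_, rfl⟩
  have hβ0 : 0 < β := by rw [hβ]; linarith
  have hlim : Tendsto (fun D : ℕ => c * (Real.log D) ^ β) atTop atTop :=
    ((tendsto_rpow_atTop hβ0).comp (Real.tendsto_log_atTop.comp tendsto_natCast_atTop_atTop)).const_mul_atTop hc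
  obtain ⟨D₁, hD₁⟩ := (hlim.eventually_ge_atTop (X^2 + 1)).exists_forall_of_atTop
  refine ⟨max D₀ (max D₁ 1), fun D hD => ?_⟩
  have h1 := h D ((le_max_left _ _).trans hD)
  have h2 := hD₁ D (((le_max_left _ _).trans (le_max_right _ _)).trans hD)
  have hD1 : (1:ℝ) ≤ D := by exact_mod_cast ((le_max_right _ _).trans (le_max_right _ _)).trans hD
  have hD0 : (0:ℝ) < D := by linarith
  rw [← hβ] at h1
  have h3 : (X^2 + 1) * (D:ℝ) ^ (-(1/2):ℝ) ≤ VD ag D := by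
    refine le_trans ?_ h1
    exact mul_le_mul_of_nonneg_right h2 (by positivity)
  have hV : 0 < VD ag D := lt_of_lt_of_le (by positivity) h3
  refine ⟨hV, ?_⟩
  have h4 : X^2 ≤ (√(VD ag D) * (D:ℝ) ^ (1/4:ℝ))^2 := by
    rw [mul_pow, Real.sq_sqrt hV.le, ← Real.rpow_natCast ((D:ℝ) ^ (1/4:ℝ)) 2, ← Real.rpow_mul hD0.le]
    norm_num
    have h5 : (D:ℝ) ^ (-(1/2):ℝ) * (D:ℝ) ^ (1/2:ℝ) = 1 := by
      rw [← Real.rpow_add hD0]; norm_num
    calc X^2 ≤ (X^2 + 1) * ((D:ℝ) ^ (-(1/2):ℝ) * (D:ℝ) ^ (1/2:ℝ)) := by rw [h5]; linarith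
      _ = (X^2 + 1) * (D:ℝ) ^ (-(1/2):ℝ) * (D:ℝ) ^ (1/2:ℝ) := by ring
      _ ≤ VD ag D * (D:ℝ) ^ (1/2:ℝ) := mul_le_mul_of_nonneg_right h3 (by positivity)
  exact (le_abs_self X).trans (abs_le_of_sq_le_sq h4 (by positivity))

/-- the parabola with a root term -/
noncomputable def qc (c r : ℝ) : ℝ := Real.pi * r^2 + c * √r

lemma qc_cont (c : ℝ) : Continuous (qc c) := by unfold qc; fun_prop

lemma En_sub {r : ℝ} (hr : 0 < r) (c : ℝ) : En r - c = (F r - qc c r) / √r := by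
  have hs : 0 < √r := Real.sqrt_pos.mpr hr
  unfold En qc
  field_simp
  ring

/-- the core: many zeros in every long window with `H ≤ R` -/
theorem core (A0 K : ℝ) (hK : 1 ≤ K) : ∃ H₁ : ℝ, 1 ≤ H₁ ∧ ∀ c : ℝ, |c| ≤ A0 → ∀ R H : ℝ, 4 ≤ R → H₁ ≤ H → H ≤ R →
    ∀ Z : Finset ℝ, (∀ z, R ≤ z → z ≤ R + H + 1 → Dn F (qc c) z → z ∈ Z) → K * H < Z.card := by
  obtain ⟨α, ν, hα0, hα, hν2, hAp, hν, c₁, hc₁, D₃, hgap⟩ := prep A0
  obtain ⟨D₄, hD₄⟩ := var_big (20 * √(24 * K) / c₁)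
  obtain ⟨D, hD⟩ : ∃ D : ℕ, D = max (max D₃ D₄) 1 := ⟨_, rfl⟩
  have hD1 : 1 ≤ D := by rw [hD]; exact le_max_right _ _
  have hD3 : D₃ ≤ D := by rw [hD]; exact (le_max_left _ _).trans (le_max_left _ _)
  have hD4 : D₄ ≤ D := by rw [hD]; exact (le_max_right _ _).trans (le_max_left _ _)
  obtain ⟨hV0, hVX⟩ := hD₄ D hD4
  obtain ⟨V, hV⟩ : ∃ V, V = VD ag D := ⟨_, rfl⟩
  rw [← hV] at hV0 hVX
  obtain ⟨M₃, hM₃⟩ := hgap D hD3
  have hsum := low_summable ag_Bd ag_zero D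
  have htau := (tau_tendsto hsum (aIn_zero _ ag_zero)).eventually (gt_mem_nhds (show 0 < c₁ * V / 16 by positivity))
  obtain ⟨M₄, hM₄⟩ := eventually_atTop.mp htau
  obtain ⟨M, hM⟩ : ∃ M : ℕ, M = max M₃ M₄ := ⟨_, rfl⟩
  have htM := hM₄ M (by rw [hM]; exact le_max_right _ _)
  have hgM := hM₃ M (by rw [hM]; exact le_max_left _ _)
  rw [← hV] at hgM
  obtain ⟨Hl, hHl, hlow⟩ := low_dev hα hν2 hAp hν A0 (show 0 < c₁ * V / 16 by positivity)
  obtain ⟨Hu, hHu, hup⟩ := up_dev hα ag (3 * Real.pi / 4) D M A0 (show 0 < c₁ * V / 16 by positivity)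
  obtain ⟨C0, hC0, hS⟩ := En_Sand
  obtain ⟨Ca, hCa, haC⟩ := ag_BK
  have hbC : ∀ m : ℕ, 1 ≤ m → |(fun m => |aIn (𝒜 D)ᶜ ag m|) m| ≤ Ca * (m:ℝ) ^ (-(7/10):ℝ) := by
    intro m hm
    simp only [abs_abs]
    exact (aIn_abs_le _ _ _).trans (haC m hm)
  obtain ⟨K', hK', hpair⟩ := up_pair ag_Bd ag_zero wg_Wt hC0 hS En_meas En_bdd (𝒜 D) hsum (S1_summable hCa hbC) (S2_summable hCa hbC) M
  have hS1 := S1_bound ag_BK ag_zero hD1 (by rw [← hV]; exact hV0)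
  rw [← hV] at hS1
  obtain ⟨S1, hS1d⟩ : ∃ S1, S1 = ∑' j : ℕ, √(Vb (fun m => |aIn (𝒜 D)ᶜ ag m|) j / √((2:ℝ)^j)) := ⟨_, rfl⟩
  obtain ⟨S2, hS2d⟩ : ∃ S2, S2 = ∑' j : ℕ, √(2 * (1 + j) * Vb (fun m => |aIn (𝒜 D)ᶜ ag m|) j) := ⟨_, rfl⟩
  have hS10 : 0 ≤ S1 := by rw [hS1d]; exact tsum_nonneg fun _ => Real.sqrt_nonneg _
  have hS20 : 0 ≤ S2 := by rw [hS2d]; exact tsum_nonneg fun _ => Real.sqrt_nonneg _
  rw [← hS1d] at hS1
  simp only [← hS1d, ← hS2d] at hpair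
  -- the size of `H`
  obtain ⟨Ha, hHa⟩ : ∃ Ha : ℝ, ∀ H, Ha ≤ H → 2 * K' * H ^ (-(1/100):ℝ) ≤ c₁ * V / 16 := by
    have h1 : Tendsto (fun H : ℝ => 2 * K' * H ^ (-(1/100):ℝ)) atTop (𝓝 (2 * K' * 0)) :=
      (tendsto_rpow_neg_atTop (by norm_num)).const_mul _
    rw [mul_zero] at h1
    have h2 := h1.eventually (gt_mem_nhds (show 0 < c₁ * V / 16 by positivity))
    obtain ⟨Ha, hHa⟩ := eventually_atTop.mp h2
    exact ⟨Ha, fun H hH => (hHa H hH).le⟩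
  obtain ⟨Hb, hHb⟩ : ∃ Hb : ℝ, Hb = (16 * √(12 * K) * S2 / (c₁ * V))^2 := ⟨_, rfl⟩
  refine ⟨max (max (max Hl Hu) (max Ha Hb)) 1, le_max_right _ _, ?_⟩
  intro c hc R H hR hH hHR Z hZ
  have e1 : Hl ≤ H := ((le_max_left _ _).trans ((le_max_left _ _).trans (le_max_left _ _))).trans hH
  have e2 : Hu ≤ H := ((le_max_right _ _).trans ((le_max_left _ _).trans (le_max_left _ _))).trans hH
  have e3 : Ha ≤ H := ((le_max_left _ _).trans ((le_max_right _ _).trans (le_max_left _ _))).trans hH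
  have e4 : Hb ≤ H := ((le_max_right _ _).trans ((le_max_right _ _).trans (le_max_left _ _))).trans hH
  have e5 : 1 ≤ H := (le_max_right _ _).trans hH
  have hH0 : 0 < H := by linarith
  have hR0 : 0 < R := by linarith
  by_contra hcon
  push Not at hcon
  have hqc := qc_cont c
  obtain ⟨s, hs⟩ : ∃ s : ℝ → ℝ, s = ss F (qc c) := ⟨_, rfl⟩
  have hsm : Measurable s := by rw [hs]; exact ss_meas F_meas hqc.measurable
  have hs1 : ∀ r, |s r| = 1 := fun r => by rw [hs]; exact ss_abs _ _ _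
  obtain ⟨X0, hX0⟩ : ∃ X0 : ℝ, X0 = 4 * (2 * Z.card + 1) := ⟨_, rfl⟩
  have hcard : (0:ℝ) ≤ Z.card := Nat.cast_nonneg _
  have hX04 : 4 ≤ X0 := by rw [hX0]; linarith
  have hKH : 1 ≤ K * H := by nlinarith
  have hX0u : X0 ≤ 12 * K * H := by rw [hX0]; linarith
  have hshift : ∀ h : ℝ, 0 < h → h ≤ 1 → ∫ r in R..(R+H), (s (r + h) - s r)^2 ≤ X0 * h := by
    intro h h0 h1
    rw [hs, hX0]
    apply ss_shift F_meas hqc (by linarith) h0 (fun s t hs hst => F_mono (by linarith) hst)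
    intro z hz1 hz2 hz3
    exact hZ z hz1 (by linarith) hz3
  have hp := hpair R H hR hH0.le hHR s hsm (fun r => (hs1 r).le) X0 hX04 hshift
  have hl := hlow c hc R H (by linarith) e1
  have hu := hup c hc R H (by linarith) e2
  have hg := hgM c hc
  -- the pairing
  have hUc := U_cont (aIn (𝒜 D) ag) (3 * Real.pi / 4) M
  have hsb : ∀ x y, IntervalIntegrable s volume x y := fun x y => by rw [hs]; exact ss_ii F_meas hqc.measurable x y
  have iE : IntervalIntegrable En volume R (R+H) := E_ii En_meas En_bdd (by linarith) (by linarith)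
  have i1 : IntervalIntegrable (fun r => s r * (En r - U (aIn (𝒜 D) ag) (3 * Real.pi / 4) r M)) volume R (R+H) := by
    have h1 := iE.sub (hUc.intervalIntegrable R (R+H))
    rw [intervalIntegrable_iff] at h1 ⊢
    apply h1.norm.mono' (hsm.mul (En_meas.sub hUc.measurable)).aestronglyMeasurable
    apply Eventually.of_forall
    intro r
    change |s r * (En r - U (aIn (𝒜 D) ag) (3 * Real.pi / 4) r M)| ≤ |En r - U (aIn (𝒜 D) ag) (3 * Real.pi / 4) r M|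
    rw [abs_mul, hs1, one_mul]
  have i2 : IntervalIntegrable (fun r => s r * (U (aIn (𝒜 D) ag) (3 * Real.pi / 4) r M - c)) volume R (R+H) :=
    (hsb R (R+H)).mul_continuousOn (by fun_prop : Continuous _).continuousOn
  have i3 : IntervalIntegrable (fun r => |U (aIn (𝒜 D) ag) (3 * Real.pi / 4) r M - c|) volume R (R+H) :=
    (by fun_prop : Continuous _).intervalIntegrable _ _
  have hsplit : ∫ r in R..(R+H), |En r - c| = (∫ r in R..(R+H), s r * (En r - U (aIn (𝒜 D) ag) (3 * Real.pi / 4) r M)) +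
      ∫ r in R..(R+H), s r * (U (aIn (𝒜 D) ag) (3 * Real.pi / 4) r M - c) := by
    rw [← intervalIntegral.integral_add i1 i2]
    apply intervalIntegral.integral_congr
    intro r hr
    rw [Set.uIcc_of_le (by linarith)] at hr
    have hr0 : 0 < r := by linarith [hr.1]
    simp only
    have h1 : |En r - c| = s r * (En r - c) := by
      rw [En_sub hr0, abs_div, abs_of_pos (Real.sqrt_pos.mpr hr0), hs, ← mul_div_assoc, ss_mul]
    rw [h1]; ring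
  have h2 : ∫ r in R..(R+H), s r * (U (aIn (𝒜 D) ag) (3 * Real.pi / 4) r M - c) ≤ ∫ r in R..(R+H), |U (aIn (𝒜 D) ag) (3 * Real.pi / 4) r M - c| := by
    apply intervalIntegral.integral_mono_on (by linarith) i2 i3
    intro r _
    refine (le_abs_self _).trans ?_
    rw [abs_mul, hs1, one_mul]
  have h3 := le_abs_self (∫ r in R..(R+H), s r * (En r - U (aIn (𝒜 D) ag) (3 * Real.pi / 4) r M))
  -- the four error terms
  have t1 : K' * (R ^ (-(1/100):ℝ) * (H + 1)) ≤ c₁ * V / 16 * H := by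
    have g1 : R ^ (-(1/100):ℝ) ≤ H ^ (-(1/100):ℝ) := Real.rpow_le_rpow_of_nonpos hH0 hHR (by norm_num)
    have g2 := hHa H e3
    calc K' * (R ^ (-(1/100):ℝ) * (H + 1)) ≤ K' * (H ^ (-(1/100):ℝ) * (2 * H)) := by
          gcongr
          linarith
      _ = 2 * K' * H ^ (-(1/100):ℝ) * H := by ring
      _ ≤ _ := by gcongr
  have t2 : (∑' m, (Set.indicator {m : ℕ | m ∉ Finset.Icc 1 (M^2)} (fun m => |aIn (𝒜 D) ag m|) m)) * H ≤ c₁ * V / 16 * H :=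
    mul_le_mul_of_nonneg_right htM.le hH0.le
  have t3 : √(X0 * (H + 1)) * S1 ≤ c₁ * V / 4 * H := by
    have g1 : √(X0 * (H + 1)) ≤ √(24 * K) * H := by
      rw [Real.sqrt_le_left (by positivity), mul_pow, Real.sq_sqrt (by positivity)]
      calc X0 * (H + 1) ≤ (12 * K * H) * (2 * H) := by gcongr; linarith
        _ = 24 * K * H^2 := by ring
    have hD0 : (0:ℝ) < D := by exact_mod_cast hD1
    have hDD : (D:ℝ) ^ (-(1/4):ℝ) * (D:ℝ) ^ (1/4:ℝ) = 1 := by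
      rw [← Real.rpow_add hD0]; norm_num
    have hVV : √V * √V = V := Real.mul_self_sqrt hV0.le
    have g3 : 20 * √(24 * K) ≤ √V * (D:ℝ) ^ (1/4:ℝ) * c₁ := by
      rwa [div_le_iff₀ hc₁] at hVX
    calc √(X0 * (H + 1)) * S1 ≤ (√(24 * K) * H) * (5 * (D:ℝ) ^ (-(1/4):ℝ) * √V) := by gcongr
      _ = (20 * √(24 * K)) * ((D:ℝ) ^ (-(1/4):ℝ) * √V * H / 4) := by ring
      _ ≤ (√V * (D:ℝ) ^ (1/4:ℝ) * c₁) * ((D:ℝ) ^ (-(1/4):ℝ) * √V * H / 4) := by gcongr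
      _ = c₁ * (√V * √V) * ((D:ℝ) ^ (-(1/4):ℝ) * (D:ℝ) ^ (1/4:ℝ)) * H / 4 := by ring
      _ = c₁ * V / 4 * H := by rw [hVV, hDD]; ring
  have t4 : √X0 * S2 ≤ c₁ * V / 16 * H := by
    have g1 : √X0 ≤ √(12 * K) * √H := by
      rw [← Real.sqrt_mul (by positivity)]
      exact Real.sqrt_le_sqrt hX0u
    have g2 : 16 * √(12 * K) * S2 / (c₁ * V) ≤ √H := by
      apply Real.le_sqrt_of_sq_le
      rw [← hHb]; exact e4
    rw [div_le_iff₀ (by positivity)] at g2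
    have g3 : √H * √H = H := Real.mul_self_sqrt hH0.le
    calc √X0 * S2 ≤ (√(12 * K) * √H) * S2 := by gcongr
      _ = (16 * √(12 * K) * S2) * (√H / 16) := by ring
      _ ≤ (√H * (c₁ * V)) * (√H / 16) := by gcongr
      _ = c₁ * V / 16 * (√H * √H) := by ring
      _ = c₁ * V / 16 * H := by rw [g3]
  have h5 : c₁ * V * H ≤ ((∫ x, |x - c| ∂(ν : Measure ℝ)) - ∫ x, |x - c| ∂(muT ag (3 * Real.pi / 4) α α (TA D M) : Measure ℝ)) * H :=
    mul_le_mul_of_nonneg_right hg hH0.le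
  have h6 : 0 < c₁ * V * H := by positivity
  nlinarith

end Pool.Agent.N687.W
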