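import Mathlib
import Pool.Agent.N687.W.C11
import Pool.Agent.R461.GC.G8

/-!
# The general interface: windows, convex functions, mean absolute deviations
-/

set_option autoImplicit false

open MeasureTheory Filter Topology
open Pool.Agent.H383.AP Pool.Agent.H383.Gauss Pool.Agent.H383.Gen

namespace Pool.Agent.N687.W.Gn

open Pool.Agent.N687.W
open Pool.Agent.H383.GW (Wt Sand)
open Pool.Agent.R461.GC (Lam unif0 generic no_res second tail_conv Adm U_trigS)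
open Pool.Agent.H452R2.Win (Bdw SandW)
open Pool.Agent.H383.ED (G Ps Ps_integrable entire_density G_pos eq_withDensity G_diff Ps_cont Ps_bound dom2)

/-- the data of the problem -/
structure Dat (E : ℝ → ℝ) (a : ℕ → ℝ) (φ : ℝ) (w : ℝ → ℂ) (κ₁ κ₂ : ℝ) : Prop where
  bdw : Bdw a
  a0 : a 0 = 0
  wt : Wt w
  sand : SandW E a φ w κ₁ κ₂
  meas : Measurable E
  bdd : ∀ R₁ R₂ : ℝ, 0 < R₁ → ∃ B : ℝ, ∀ R, R₁ ≤ R → R ≤ R₂ → |E R| ≤ B

variable {E : ℝ → ℝ} {a : ℕ → ℝ} {φ κ₁ κ₂ α : ℝ} {w : ℝ → ℂ} {ν : ProbabilityMeasure ℝ}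

lemma Dat.bk (h : Dat E a φ w κ₁ κ₂) : BK a (7/10) := BK_of h.bdw (by norm_num)

lemma Dat.ap (h : Dat E a φ w κ₁ κ₂) (hα0 : 0 < α) : Ap a φ (fun n : ℕ => E (α + n * α)) α α := by
  obtain ⟨C0, hC0, hS'⟩ := h.sand.sand
  exact Pool.Agent.H383.GW.ap_of h.bdw.Bd h.a0 h.wt hC0 hS' hα0 α (Rn := fun n : ℕ => α + n * α) ⟨0, fun n => by simp⟩

/-- the mean of the tail over long windows -/
theorem Dat.ms (h : Dat E a φ w κ₁ κ₂) : ∀ η : ℝ, 0 < η → ∃ M₀ : ℕ, ∀ M : ℕ, M₀ ≤ M → ∃ T₀ : ℝ, ∀ T, T₀ ≤ T →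
    ∫ r in T..(T+T), |E r - U a φ r M| ≤ η * T := by
  intro η hη
  obtain ⟨M₀, hM₀⟩ := tail_conv (c₁ := 1) (c₂ := 2) (K := 2) (s := 2/5) h.bdw h.a0 h.wt
    h.sand one_pos (by norm_num) (by norm_num) (by norm_num) le_rfl (η^2 / 4) (by positivity)
  refine ⟨M₀, fun M hM => ?_⟩
  obtain ⟨T₀, hT₀⟩ := hM₀ M hM
  refine ⟨max T₀ 1, fun T hT => ?_⟩
  have hT1 : 1 ≤ T := (le_max_right _ _).trans hT
  have h1 := hT₀ T ((le_max_left _ _).trans hT) _ (unif_adm hT1)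
  rw [unif_int hT1 (fun r => (E r - U a φ r M)^2)] at h1
  have hT0 : 0 < T := by linarith
  rw [div_le_iff₀ hT0] at h1
  have i0 : IntervalIntegrable (fun r => E r - U a φ r M) volume T (T+T) :=
    (E_ii h.meas h.bdd hT0 (by linarith)).sub ((U_cont _ _ M).intervalIntegrable _ _)
  have i1 : IntervalIntegrable (fun r => (E r - U a φ r M)^2) volume T (T+T) := by
    rw [intervalIntegrable_iff]
    obtain ⟨B, hB⟩ := h.bdd T (T+T) hT0
    obtain ⟨B2, hB2⟩ := (isCompact_Icc (a := T) (b := T+T)).exists_bound_of_continuousOn (U_cont a φ M).continuousOn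
    have : IsFiniteMeasure (volume.restrict (Set.uIoc T (T+T))) := ⟨by
      rw [Measure.restrict_apply_univ, Set.uIoc]
      exact measure_Ioc_lt_top⟩
    apply Integrable.of_bound (C := (B + B2)^2) (((h.meas.sub (U_cont _ _ M).measurable).pow_const 2).aestronglyMeasurable)
    rw [ae_restrict_iff' measurableSet_uIoc]
    apply Eventually.of_forall
    intro r hr
    rw [Set.uIoc_of_le (by linarith)] at hr
    have b1 := hB r hr.1.le hr.2
    have b2 := hB2 r ⟨hr.1.le, hr.2⟩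
    rw [Real.norm_eq_abs] at b2 ⊢
    have b3 : |E r - U a φ r M| ≤ B + B2 := (abs_sub _ _).trans (add_le_add b1 b2)
    change |(E r - U a φ r M) ^ 2| ≤ (B + B2) ^ 2
    rw [abs_pow]
    gcongr
  have i2 : IntervalIntegrable (fun r => η / 2 + (E r - U a φ r M)^2 * (1 / (2 * η))) volume T (T+T) :=
    (continuous_const.intervalIntegrable _ _).add (i1.mul_const _)
  have h2 : ∫ r in T..(T+T), |E r - U a φ r M| ≤
      ∫ r in T..(T+T), (η / 2 + (E r - U a φ r M)^2 * (1 / (2 * η))) := by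
    apply intervalIntegral.integral_mono_on (by linarith) i0.abs i2
    intro r _
    generalize E r - U a φ r M = x
    have h3 : 0 ≤ (|x| - η)^2 := sq_nonneg _
    have h4 : |x|^2 = x^2 := sq_abs x
    have h5 : η / 2 + x^2 * (1 / (2 * η)) = (η^2 + x^2) / (2 * η) := by field_simp
    rw [h5, le_div_iff₀ (by positivity)]
    nlinarith
  refine h2.trans ?_
  rw [intervalIntegral.integral_add (continuous_const.intervalIntegrable _ _) (i1.mul_const _),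
    intervalIntegral.integral_const, intervalIntegral.integral_mul_const, smul_eq_mul]
  have h6 : (∫ r in T..(T+T), (E r - U a φ r M)^2) * (1 / (2 * η)) ≤ (η^2 / 4 * T) * (1 / (2 * η)) := by
    gcongr
  have h7 : (η^2 / 4 * T) * (1 / (2 * η)) = η / 8 * T := by field_simp; norm_num
  nlinarith

/-- the mean absolute deviation over long windows -/
theorem Dat.long_dev (h : Dat E a φ w κ₁ κ₂) (hα0 : 0 < α) (hα : ∀ θ ∈ Lam, θ ≠ 0 → ∀ k : ℤ, α * θ ≠ 2 * Real.pi * k)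
    (hν : Law2 (fun n : ℕ => E (α + n * α)) ν) (c : ℝ) {η : ℝ} (hη : 0 < η) :
    ∃ T₀ : ℝ, ∀ T, T₀ ≤ T → ((∫ x, |x - c| ∂(ν : Measure ℝ)) - η) * T ≤ ∫ r in T..(T+T), |E r - c| := by
  obtain ⟨M0, hM0⟩ := ap_abs (h.ap hα0) (show 0 < η/4 by positivity)
  obtain ⟨M1, hM1⟩ := h.ms (η/4) (by positivity)
  obtain ⟨M, hM⟩ : ∃ M : ℕ, M = max M0 M1 := ⟨_, rfl⟩
  obtain ⟨T₁, hT₁⟩ := hM1 M (by rw [hM]; exact le_max_right _ _)
  have hc1 := (close_law hν (muT_law a φ α α (Finset.Icc 1 (M^2))) (hM0 M (by rw [hM]; exact le_max_left _ _))).1 c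
  have hlaw : Law2 (fun n : ℕ => U a φ (α + n * α) M) (muT a φ α α (Finset.Icc 1 (M^2))) :=
    muT_law a φ α α (Finset.Icc 1 (M^2))
  obtain ⟨H₀, hH₀, hw⟩ := win_mean hα a φ M hlaw (f := fun x => |x - c|) (by fun_prop) (growth_abs c) (show 0 < η/4 by positivity)
  refine ⟨max T₁ (max H₀ 1), fun T hT => ?_⟩
  have t1 : T₁ ≤ T := (le_max_left _ _).trans hT
  have t2 : H₀ ≤ T := ((le_max_left _ _).trans (le_max_right _ _)).trans hT
  have t3 : 1 ≤ T := ((le_max_right _ _).trans (le_max_right _ _)).trans hT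
  have k1 := hT₁ T t1
  have k2 := (abs_le.mp (hw T T t2)).1
  have k3 := (abs_le.mp hc1).2
  have i1 : IntervalIntegrable (fun r => |E r - c|) volume T (T+T) :=
    gE_ii h.meas h.bdd (g := fun z => |z - c|) (by fun_prop) (by linarith) (by linarith)
  have i2 : IntervalIntegrable (fun r => |E r - U a φ r M|) volume T (T+T) :=
    ((E_ii h.meas h.bdd (by linarith) (by linarith)).sub ((U_cont _ _ M).intervalIntegrable _ _)).abs
  have hUc := U_cont a φ M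
  have i3 : IntervalIntegrable (fun r => |U a φ r M - c|) volume T (T+T) := (by fun_prop : Continuous _).intervalIntegrable _ _
  have k4 : ∫ r in T..(T+T), |U a φ r M - c| ≤ ∫ r in T..(T+T), (|E r - c| + |E r - U a φ r M|) := by
    apply intervalIntegral.integral_mono_on (by linarith) i3 (i1.add i2)
    intro r _
    have := abs_sub_le (U a φ r M) (E r) c
    rw [abs_sub_comm (U a φ r M) (E r)] at this
    linarith
  rw [intervalIntegral.integral_add i1 i2] at k4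
  have hT0 : 0 < T := by linarith
  have k5 : ((∫ x, |x - c| ∂(ν : Measure ℝ)) - η) * T ≤ ((∫ x, |x - c| ∂(muT a φ α α (Finset.Icc 1 (M^2)) : Measure ℝ)) - η / 2) * T := by
    apply mul_le_mul_of_nonneg_right _ hT0.le
    linarith
  refine k5.trans ?_
  linarith

/-- lower bound: the mean absolute deviation of the error term over a window -/
theorem Dat.low_dev (h : Dat E a φ w κ₁ κ₂) (hα0 : 0 < α) (hα : ∀ θ ∈ Lam, θ ≠ 0 → ∀ k : ℤ, α * θ ≠ 2 * Real.pi * k)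
    (hν2 : Integrable (fun x : ℝ => x^2) (ν : Measure ℝ))
    (hν : Law2 (fun n : ℕ => E (α + n * α)) ν) (A0 : ℝ) {η : ℝ} (hη : 0 < η) :
    ∃ H₀ : ℝ, 0 < H₀ ∧ ∀ c : ℝ, |c| ≤ A0 → ∀ R H : ℝ, 1 ≤ R → H₀ ≤ H →
      ((∫ x, |x - c| ∂(ν : Measure ℝ)) - η) * H ≤ ∫ r in R..(R+H), |E r - c| := by
  have hνi := int_of_sq hν2
  have hEabs : ∀ c x y : ℝ, 0 < x → 0 < y → IntervalIntegrable (fun r => |E r - c|) volume x y := fun c x y hx hy =>
    gE_ii h.meas h.bdd (g := fun z => |z - c|) (by fun_prop) hx hy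
  obtain ⟨C0, hC0, hS⟩ := h.sand.sand
  have key := unif_c (g := fun c R H => (∫ x, |x - c| ∂(ν : Measure ℝ)) * H - ∫ r in R..(R+H), |E r - c|)
    (by
      intro c c' R H hR hH
      have i1 := hEabs c R (R+H) (by linarith) (by linarith)
      have i2 := hEabs c' R (R+H) (by linarith) (by linarith)
      have h1 : ∫ r in R..(R+H), |E r - c'| ≤ ∫ r in R..(R+H), (|E r - c| + |c - c'|) := by
        apply intervalIntegral.integral_mono_on (by linarith) i2 (i1.add (continuous_const.intervalIntegrable _ _))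
        intro r _
        exact abs_sub_le (E r) c c'
      rw [intervalIntegral.integral_add i1 (continuous_const.intervalIntegrable _ _), intervalIntegral.integral_const, smul_eq_mul,
        add_sub_cancel_left] at h1
      have h2 := mul_le_mul_of_nonneg_right (dev_lip hνi c c') hH
      linarith)
    (by
      intro c η' hη'
      obtain ⟨H₀, h1, h2⟩ := dom_PL (s := Finset.range 2) (α := fun i => if i = 0 then 1 else -1) (β := fun i => if i = 0 then -c else c)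
        (Φ := fun y => |y - c|) h.bdw.Bd h.a0 h.wt hC0 hS h.meas h.bdd
        (by
          intro i _ y
          by_cases hi : i = 0
          · simp only [hi, if_true]
            have := le_abs_self (y - c)
            linarith
          · simp only [hi, if_false]
            have := neg_abs_le (y - c)
            linarith)
        (by
          intro y
          rcases le_total c y with h | h
          · refine ⟨0, by simp, ?_⟩
            simp only [if_true]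
            rw [abs_of_nonneg (by linarith)]; ring
          · refine ⟨1, by simp, ?_⟩
            simp only [one_ne_zero, if_false]
            rw [abs_of_nonpos (by linarith)]; ring)
        (L₀ := ∫ x, |x - c| ∂(ν : Measure ℝ)) (fun η hη => h.long_dev hα0 hα hν c hη)
        (fun η hη => by
          obtain ⟨M, hM⟩ := h.ms η hη
          exact ⟨M, hM M le_rfl⟩) hη'
      refine ⟨H₀, h1, fun R H hR hH => ?_⟩
      have h3 := h2 R H hR hH
      change (∫ x, |x - c| ∂(ν : Measure ℝ)) * H - (∫ r in R..(R+H), |E r - c|) ≤ η' * H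
      linarith) A0 hη
  obtain ⟨H₀, h1, h2⟩ := key
  refine ⟨H₀, h1, fun c hc R H hR hH => ?_⟩
  have h3 := h2 c hc R H hR hH
  linarith

/-- the setting: a generic progression, the limit law and the gap between the mean absolute deviations -/
theorem Dat.prep (h : Dat E a φ w κ₁ κ₂) (hl : LB a) (ha1 : a 1 ≠ 0)
    (hV : ∃ cV : ℝ, 0 < cV ∧ ∃ D₂ : ℕ, ∀ D : ℕ, D₂ ≤ D → cV * (D:ℝ) ^ (-(1/2):ℝ) ≤ VD a D) (A0 : ℝ) :
    ∃ (α : ℝ) (ν : ProbabilityMeasure ℝ), 0 < α ∧ (∀ θ ∈ Lam, θ ≠ 0 → ∀ k : ℤ, α * θ ≠ 2 * Real.pi * k) ∧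
    Integrable (fun x : ℝ => x^2) (ν : Measure ℝ) ∧
    Law2 (fun n : ℕ => E (α + n * α)) ν ∧
    ∃ c₁ : ℝ, 0 < c₁ ∧ ∃ D₃ : ℕ, ∀ D : ℕ, D₃ ≤ D → ∃ M₃ : ℕ, ∀ M : ℕ, M₃ ≤ M → ∀ c, |c| ≤ A0 →
      c₁ * VD a D ≤ (∫ x, |x - c| ∂(ν : Measure ℝ)) - ∫ x, |x - c| ∂(muT a φ α α (TA D M) : Measure ℝ) := by
  obtain ⟨α, hα0, hα⟩ := generic
  have hAp := h.ap hα0
  obtain ⟨ν, hν2, hν⟩ := hAp.b2.limit
  refine ⟨α, ν, hα0, hα, hν2, hν, ?_⟩
  have hpi := Real.pi_pos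
  have hS := good_empty hα0 hα
  obtain ⟨C, cc, hC, hcc, hdec⟩ := char_decay (κ := 7/10) (p := 5/4) hS hAp (Law2.law hν) (by norm_num) h.bk hl (by norm_num) (by norm_num)
  have hPi := Ps_integrable (ν : Measure ℝ) hcc (by norm_num) hC.le hdec
  have hd : Differentiable ℂ (G (Ps (ν : Measure ℝ))) :=
    G_diff (Ps_cont (ν : Measure ℝ)) hcc (by norm_num) hC.le (Ps_bound (ν : Measure ℝ) hcc (by norm_num) hC.le hdec)
  have hcG : Continuous (fun x : ℝ => G (Ps (ν : Measure ℝ)) x) := hd.continuous.comp Complex.continuous_ofReal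
  have hcr : Continuous (fun x : ℝ => (G (Ps (ν : Measure ℝ)) x).re) := Complex.continuous_re.comp hcG
  obtain ⟨Hf, hHf⟩ : ∃ Hf : ℝ → ℝ, Hf = fun x => ∫ t, rc (ν : Measure ℝ) x t := ⟨_, rfl⟩
  have hHG : ∀ x, Hf x = 2 * Real.pi * (G (Ps (ν : Measure ℝ)) x).re := by
    intro x
    rw [G_rc _ hPi, hHf]
    field_simp
  have hHc : Continuous Hf := by
    have : Hf = fun x : ℝ => 2 * Real.pi * (G (Ps (ν : Measure ℝ)) x).re := funext hHG
    rw [this]
    exact hcr.const_mul _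
  have hHpos : ∀ c, 0 < Hf c := fun c => by
    rw [hHf]
    exact dens_pos hα0 hα h.bk h.bdw.Bd h.a0 hl ha1 hAp hν c
  have hνK : ∃ Kν : ℝ, ∀ t, ‖charFun (ν : Measure ℝ) t‖ ≤ Kν * (1 + t^2)⁻¹ := by
    obtain ⟨K, hK, h⟩ := dom2 hcc (show (1:ℝ) < 5/4 by norm_num) le_rfl
    refine ⟨C * K, fun t => (hdec t).trans ?_⟩
    have h1 := h t
    rw [zero_mul, Real.exp_zero, mul_one] at h1
    rw [mul_assoc]
    exact mul_le_mul_of_nonneg_left h1 hC.le
  obtain ⟨g0, hg0, hg⟩ : ∃ g0 : ℝ, 0 < g0 ∧ ∀ c, |c| ≤ A0 → g0 ≤ ∫ t, rc (ν : Measure ℝ) c t := by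
    rcases lt_or_ge A0 0 with h | h
    · exact ⟨1, one_pos, fun c hc => by have := abs_nonneg c; linarith⟩
    · obtain ⟨x, _, hx⟩ := (isCompact_Icc (a := -A0) (b := A0)).exists_isMinOn ⟨0, by constructor <;> linarith⟩ hHc.continuousOn
      refine ⟨Hf x, hHpos x, fun c hc => ?_⟩
      have h1 := hx (show c ∈ Set.Icc (-A0) A0 from abs_le.mp hc)
      have h2 : Hf c = ∫ t, rc (ν : Measure ℝ) c t := by rw [hHf]
      rw [← h2]
      exact h1
  exact gap_main hS h.bk h.a0 hl hAp hν hνK hg0 hg hV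

/-- the core: many zeros in every long window with `H ≤ R` -/
theorem Dat.core (h : Dat E a φ w κ₁ κ₂) (hl : LB a) (ha1 : a 1 ≠ 0)
    (hV : ∃ cV : ℝ, 0 < cV ∧ ∃ D₂ : ℕ, ∀ D : ℕ, D₂ ≤ D → cV * (D:ℝ) ^ (-(1/2):ℝ) ≤ VD a D)
    (hvb : ∀ X : ℝ, ∃ D₄ : ℕ, ∀ D : ℕ, D₄ ≤ D → 0 < VD a D ∧ X ≤ √(VD a D) * (D:ℝ) ^ (1/4:ℝ))
    {F g : ℝ → ℝ} {q : ℝ → ℝ → ℝ} (hFm : Measurable F) (hF : ∀ s t, 4 ≤ s → s ≤ t → F s ≤ F t) (hq : ∀ c, Continuous (q c))
    (hg : ∀ r, 4 ≤ r → 0 < g r) (hEF : ∀ c r, 4 ≤ r → E r - c = (F r - q c r) / g r)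
    (A0 K : ℝ) (hK : 1 ≤ K) : ∃ H₁ : ℝ, 1 ≤ H₁ ∧ ∀ c : ℝ, |c| ≤ A0 → ∀ R H : ℝ, 4 ≤ R → H₁ ≤ H → H ≤ R →
    ∀ Z : Finset ℝ, (∀ z, R ≤ z → z ≤ R + H + 1 → Dn F (q c) z → z ∈ Z) → K * H < Z.card := by
  obtain ⟨α, ν, hα0, hα, hν2, hν, c₁, hc₁, D₃, hgap⟩ := h.prep hl ha1 hV A0
  obtain ⟨D₄, hD₄⟩ := hvb (20 * √(24 * K) / c₁)
  obtain ⟨D, hD⟩ : ∃ D : ℕ, D = max (max D₃ D₄) 1 := ⟨_, rfl⟩
  have hD1 : 1 ≤ D := by rw [hD]; exact le_max_right _ _
  have hD3 : D₃ ≤ D := by rw [hD]; exact (le_max_left _ _).trans (le_max_left _ _)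
  have hD4 : D₄ ≤ D := by rw [hD]; exact (le_max_right _ _).trans (le_max_left _ _)
  obtain ⟨hV0, hVX⟩ := hD₄ D hD4
  obtain ⟨V, hVd⟩ : ∃ V, V = VD a D := ⟨_, rfl⟩
  rw [← hVd] at hV0 hVX
  obtain ⟨M₃, hM₃⟩ := hgap D hD3
  have hsum := low_summable h.bdw.Bd h.a0 D
  have htau := (tau_tendsto hsum (aIn_zero _ h.a0)).eventually (gt_mem_nhds (show 0 < c₁ * V / 16 by positivity))
  obtain ⟨M₄, hM₄⟩ := eventually_atTop.mp htau
  obtain ⟨M, hM⟩ : ∃ M : ℕ, M = max M₃ M₄ := ⟨_, rfl⟩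
  have htM := hM₄ M (by rw [hM]; exact le_max_right _ _)
  have hgM := hM₃ M (by rw [hM]; exact le_max_left _ _)
  rw [← hVd] at hgM
  obtain ⟨Hl, hHl, hlow⟩ := h.low_dev hα0 hα hν2 hν A0 (show 0 < c₁ * V / 16 by positivity)
  obtain ⟨Hu, hHu, hup⟩ := up_dev hα a φ D M A0 (show 0 < c₁ * V / 16 by positivity)
  obtain ⟨C0, hC0, hS⟩ := h.sand.sand
  obtain ⟨Ca, hCa, haC⟩ := h.bk
  have hbC : ∀ m : ℕ, 1 ≤ m → |(fun m => |aIn (𝒜 D)ᶜ a m|) m| ≤ Ca * (m:ℝ) ^ (-(7/10):ℝ) := by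
    intro m hm
    simp only [abs_abs]
    exact (aIn_abs_le _ _ _).trans (haC m hm)
  obtain ⟨K', hK', hpair⟩ := up_pair h.bdw.Bd h.a0 h.wt hC0 hS h.meas h.bdd (𝒜 D) hsum (S1_summable hCa hbC) (S2_summable hCa hbC) M
  have hS1 := S1_bound h.bk h.a0 hD1 (by rw [← hVd]; exact hV0)
  rw [← hVd] at hS1
  obtain ⟨S1, hS1d⟩ : ∃ S1, S1 = ∑' j : ℕ, √(Vb (fun m => |aIn (𝒜 D)ᶜ a m|) j / √((2:ℝ)^j)) := ⟨_, rfl⟩
  obtain ⟨S2, hS2d⟩ : ∃ S2, S2 = ∑' j : ℕ, √(2 * (1 + j) * Vb (fun m => |aIn (𝒜 D)ᶜ a m|) j) := ⟨_, rfl⟩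
  have hS10 : 0 ≤ S1 := by rw [hS1d]; exact tsum_nonneg fun _ => Real.sqrt_nonneg _
  have hS20 : 0 ≤ S2 := by rw [hS2d]; exact tsum_nonneg fun _ => Real.sqrt_nonneg _
  rw [← hS1d] at hS1
  simp only [← hS1d, ← hS2d] at hpair
  -- the size of `H`
  obtain ⟨Ha, hHa⟩ : ∃ Ha : ℝ, ∀ H, Ha ≤ H → 2 * K' * H ^ (-(1/100):ℝ) ≤ c₁ * V / 16 := by
    have h1 : Tendsto (fun H : ℝ => 2 * K' * H ^ (-(1/100):ℝ)) atTop (𝓝 (2 * K' * 0)) :=
      (tendsto_rpow_neg_atTop (by norm_num)).const_mul _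
    rw [mul_zero] at h1
    have h2 := h1.eventually (gt_mem_nhds (show 0 < c₁ * V / 16 by positivity))
    obtain ⟨Ha, hHa⟩ := eventually_atTop.mp h2
    exact ⟨Ha, fun H hH => (hHa H hH).le⟩
  obtain ⟨Hb, hHb⟩ : ∃ Hb : ℝ, Hb = (16 * √(12 * K) * S2 / (c₁ * V))^2 := ⟨_, rfl⟩
  refine ⟨max (max (max Hl Hu) (max Ha Hb)) 1, le_max_right _ _, ?_⟩
  intro c hc R H hR hH hHR Z hZ
  have e1 : Hl ≤ H := ((le_max_left _ _).trans ((le_max_left _ _).trans (le_max_left _ _))).trans hH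
  have e2 : Hu ≤ H := ((le_max_right _ _).trans ((le_max_left _ _).trans (le_max_left _ _))).trans hH
  have e3 : Ha ≤ H := ((le_max_left _ _).trans ((le_max_right _ _).trans (le_max_left _ _))).trans hH
  have e4 : Hb ≤ H := ((le_max_right _ _).trans ((le_max_right _ _).trans (le_max_left _ _))).trans hH
  have e5 : 1 ≤ H := (le_max_right _ _).trans hH
  have hH0 : 0 < H := by linarith
  have hR0 : 0 < R := by linarith
  by_contra hcon
  push Not at hcon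
  have hqc := hq c
  obtain ⟨s, hs⟩ : ∃ s : ℝ → ℝ, s = ss F (q c) := ⟨_, rfl⟩
  have hsm : Measurable s := by rw [hs]; exact ss_meas hFm hqc.measurable
  have hs1 : ∀ r, |s r| = 1 := fun r => by rw [hs]; exact ss_abs _ _ _
  obtain ⟨X0, hX0⟩ : ∃ X0 : ℝ, X0 = 4 * (2 * Z.card + 1) := ⟨_, rfl⟩
  have hcard : (0:ℝ) ≤ Z.card := Nat.cast_nonneg _
  have hX04 : 4 ≤ X0 := by rw [hX0]; linarith
  have hKH : 1 ≤ K * H := by nlinarith
  have hX0u : X0 ≤ 12 * K * H := by rw [hX0]; linarith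
  have hshift : ∀ h : ℝ, 0 < h → h ≤ 1 → ∫ r in R..(R+H), (s (r + h) - s r)^2 ≤ X0 * h := by
    intro h h0 h1
    rw [hs, hX0]
    apply ss_shift hFm hqc (by linarith) h0 (fun s t hs hst => hF s t (by linarith) hst)
    intro z hz1 hz2 hz3
    exact hZ z hz1 (by linarith) hz3
  have hp := hpair R H hR hH0.le hHR s hsm (fun r => (hs1 r).le) X0 hX04 hshift
  have hl := hlow c hc R H (by linarith) e1
  have hu := hup c hc R H (by linarith) e2
  have hg' := hgM c hc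
  -- the pairing
  have hUc := U_cont (aIn (𝒜 D) a) φ M
  have hsb : ∀ x y, IntervalIntegrable s volume x y := fun x y => by rw [hs]; exact ss_ii hFm hqc.measurable x y
  have iE : IntervalIntegrable E volume R (R+H) := E_ii h.meas h.bdd (by linarith) (by linarith)
  have i1 : IntervalIntegrable (fun r => s r * (E r - U (aIn (𝒜 D) a) φ r M)) volume R (R+H) := by
    have h1 := iE.sub (hUc.intervalIntegrable R (R+H))
    rw [intervalIntegrable_iff] at h1 ⊢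
    apply h1.norm.mono' (hsm.mul (h.meas.sub hUc.measurable)).aestronglyMeasurable
    apply Eventually.of_forall
    intro r
    change |s r * (E r - U (aIn (𝒜 D) a) φ r M)| ≤ |E r - U (aIn (𝒜 D) a) φ r M|
    rw [abs_mul, hs1, one_mul]
  have i2 : IntervalIntegrable (fun r => s r * (U (aIn (𝒜 D) a) φ r M - c)) volume R (R+H) :=
    (hsb R (R+H)).mul_continuousOn (by fun_prop : Continuous _).continuousOn
  have i3 : IntervalIntegrable (fun r => |U (aIn (𝒜 D) a) φ r M - c|) volume R (R+H) :=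
    (by fun_prop : Continuous _).intervalIntegrable _ _
  have hsplit : ∫ r in R..(R+H), |E r - c| = (∫ r in R..(R+H), s r * (E r - U (aIn (𝒜 D) a) φ r M)) +
      ∫ r in R..(R+H), s r * (U (aIn (𝒜 D) a) φ r M - c) := by
    rw [← intervalIntegral.integral_add i1 i2]
    apply intervalIntegral.integral_congr
    intro r hr
    rw [Set.uIcc_of_le (by linarith)] at hr
    have hr0 : 4 ≤ r := by linarith [hr.1]
    simp only
    have h1 : |E r - c| = s r * (E r - c) := by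
      rw [hEF c r hr0, abs_div, abs_of_pos (hg r hr0), hs, ← mul_div_assoc, ss_mul]
    rw [h1]; ring
  have h2 : ∫ r in R..(R+H), s r * (U (aIn (𝒜 D) a) φ r M - c) ≤ ∫ r in R..(R+H), |U (aIn (𝒜 D) a) φ r M - c| := by
    apply intervalIntegral.integral_mono_on (by linarith) i2 i3
    intro r _
    refine (le_abs_self _).trans ?_
    rw [abs_mul, hs1, one_mul]
  have h3 := le_abs_self (∫ r in R..(R+H), s r * (E r - U (aIn (𝒜 D) a) φ r M))
  -- the four error terms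
  have t1 : K' * (R ^ (-(1/100):ℝ) * (H + 1)) ≤ c₁ * V / 16 * H := by
    have g1 : R ^ (-(1/100):ℝ) ≤ H ^ (-(1/100):ℝ) := Real.rpow_le_rpow_of_nonpos hH0 hHR (by norm_num)
    have g2 := hHa H e3
    calc K' * (R ^ (-(1/100):ℝ) * (H + 1)) ≤ K' * (H ^ (-(1/100):ℝ) * (2 * H)) := by
          gcongr
          linarith
      _ = 2 * K' * H ^ (-(1/100):ℝ) * H := by ring
      _ ≤ _ := by gcongr
  have t2 : (∑' m, (Set.indicator {m : ℕ | m ∉ Finset.Icc 1 (M^2)} (fun m => |aIn (𝒜 D) a m|) m)) * H ≤ c₁ * V / 16 * H :=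
    mul_le_mul_of_nonneg_right htM.le hH0.le
  have t3 : √(X0 * (H + 1)) * S1 ≤ c₁ * V / 4 * H := by
    have g1 : √(X0 * (H + 1)) ≤ √(24 * K) * H := by
      rw [Real.sqrt_le_left (by positivity), mul_pow, Real.sq_sqrt (by positivity)]
      calc X0 * (H + 1) ≤ (12 * K * H) * (2 * H) := by gcongr; linarith
        _ = 24 * K * H^2 := by ring
    have hD0 : (0:ℝ) < D := by exact_mod_cast hD1
    have hDD : (D:ℝ) ^ (-(1/4):ℝ) * (D:ℝ) ^ (1/4:ℝ) = 1 := by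
      rw [← Real.rpow_add hD0]; norm_num
    have hVV : √V * √V = V := Real.mul_self_sqrt hV0.le
    have g3 : 20 * √(24 * K) ≤ √V * (D:ℝ) ^ (1/4:ℝ) * c₁ := by
      rwa [div_le_iff₀ hc₁] at hVX
    calc √(X0 * (H + 1)) * S1 ≤ (√(24 * K) * H) * (5 * (D:ℝ) ^ (-(1/4):ℝ) * √V) := by gcongr
      _ = (20 * √(24 * K)) * ((D:ℝ) ^ (-(1/4):ℝ) * √V * H / 4) := by ring
      _ ≤ (√V * (D:ℝ) ^ (1/4:ℝ) * c₁) * ((D:ℝ) ^ (-(1/4):ℝ) * √V * H / 4) := by gcongr
      _ = c₁ * (√V * √V) * ((D:ℝ) ^ (-(1/4):ℝ) * (D:ℝ) ^ (1/4:ℝ)) * H / 4 := by ring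
      _ = c₁ * V / 4 * H := by rw [hVV, hDD]; ring
  have t4 : √X0 * S2 ≤ c₁ * V / 16 * H := by
    have g1 : √X0 ≤ √(12 * K) * √H := by
      rw [← Real.sqrt_mul (by positivity)]
      exact Real.sqrt_le_sqrt hX0u
    have g2 : 16 * √(12 * K) * S2 / (c₁ * V) ≤ √H := by
      apply Real.le_sqrt_of_sq_le
      rw [← hHb]; exact e4
    rw [div_le_iff₀ (by positivity)] at g2
    have g3 : √H * √H = H := Real.mul_self_sqrt hH0.le
    calc √X0 * S2 ≤ (√(12 * K) * √H) * S2 := by gcongr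
      _ = (16 * √(12 * K) * S2) * (√H / 16) := by ring
      _ ≤ (√H * (c₁ * V)) * (√H / 16) := by gcongr
      _ = c₁ * V / 16 * (√H * √H) := by ring
      _ = c₁ * V / 16 * H := by rw [g3]
  have h5 : c₁ * V * H ≤ ((∫ x, |x - c| ∂(ν : Measure ℝ)) - ∫ x, |x - c| ∂(muT a φ α α (TA D M) : Measure ℝ)) * H :=
    mul_le_mul_of_nonneg_right hg' hH0.le
  have h6 : 0 < c₁ * V * H := by positivity
  nlinarith

end Pool.Agent.N687.W.Gn
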