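import Mathlib
import Pool.Agent.N687.W.G1
import Pool.Agent.H383.FullD

/-!
# The divisor problem: the data and the variance of the high classes
-/

set_option autoImplicit false

open MeasureTheory Filter Topology
open Pool.Agent.H383.Gauss Pool.Agent.H383.Gen

namespace Pool.Agent.N687.W.Gn

open Pool.Agent.N687.W
open Pool.Agent.H387R2.Vor (Ed Del Dsum)
open Pool.Agent.H383.Div (E2 ad ad_zero wd wd_Wt vor ad_LB ad_nonneg)
open Pool.Agent.H452R2.Win (E2_SandW ad_Bdw2)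
open Pool.Agent.R461.GC (E2_meas E2_bdd)
open Pool.Agent.H452R2.Om (zz count_sets zz_gt_two)

/-- the data of the divisor problem -/
theorem datD : Dat E2 ad (Real.pi/4) wd 1 (-3) :=
  ⟨ad_Bdw2, ad_zero, wd_Wt, E2_SandW vor, E2_meas, E2_bdd⟩

lemma card_div_prod {S : Finset ℕ} (hS : ∀ p ∈ S, p.Prime) : (∏ p ∈ S, p).divisors.card = 2 ^ S.card := by
  classical
  induction S using Finset.induction_on with
  | empty => simp
  | insert p S hp ih =>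
    have hpp := hS p (Finset.mem_insert_self _ _)
    have hS' : ∀ q ∈ S, q.Prime := fun q hq => hS q (Finset.mem_insert_of_mem hq)
    rw [Finset.prod_insert hp, Nat.Coprime.card_divisors_mul, ih hS', Finset.card_insert_of_notMem hp, hpp.divisors,
      Finset.card_pair hpp.one_lt.ne]
    · ring
    · apply Nat.Coprime.prod_right
      intro q hq
      exact (Nat.coprime_primes hpp (hS' q hq)).mpr (fun h => hp (h ▸ hq))

lemma ad_sq_ge {S : Finset ℕ} (hS : ∀ p ∈ S, p.Prime) {Y : ℝ} (hY : 0 < Y)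
    (h : ((∏ p ∈ S, p : ℕ) : ℝ) ≤ 2 * Y * zz ^ S.card) :
    ((Real.pi * √2)^2)⁻¹ * (2 * Y) ^ (-(3/2):ℝ) ≤ (ad (∏ p ∈ S, p))^2 := by
  have hpi := Real.pi_pos
  have hs2 : 0 < √(2:ℝ) := Real.sqrt_pos.mpr (by norm_num)
  have h1 : (Pool.Agent.H387R2.Vor.dv (∏ p ∈ S, p)) = (2:ℝ) ^ S.card := by
    unfold Pool.Agent.H387R2.Vor.dv
    rw [card_div_prod hS]
    push_cast; rfl
  obtain ⟨m, hm⟩ : ∃ m : ℕ, m = ∏ p ∈ S, p := ⟨_, rfl⟩
  have hm1 : 1 ≤ m := by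
    rw [hm]
    exact Finset.prod_pos fun p hp => (hS p hp).pos
  have hm0 : (0:ℝ) < m := by exact_mod_cast hm1
  rw [← hm] at h1 h ⊢
  have hz0 : 0 < zz := by unfold Pool.Agent.H452R2.Om.zz; positivity
  have h2 : (ad m)^2 = (2:ℝ) ^ (2 * S.card) * ((Real.pi * √2)^2)⁻¹ * (m:ℝ) ^ (-(3/2):ℝ) := by
    unfold Pool.Agent.H383.Div.ad
    rw [mul_pow, mul_pow, h1, ← Real.rpow_natCast ((m:ℝ) ^ (-(3/4):ℝ)), ← Real.rpow_mul hm0.le, one_div, inv_pow, ← pow_mul, mul_comm S.card 2]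
    norm_num
    ring
  have h3 : (2 * Y * zz ^ S.card) ^ (-(3/2):ℝ) ≤ (m:ℝ) ^ (-(3/2):ℝ) := Real.rpow_le_rpow_of_nonpos hm0 h (by norm_num)
  have h4 : (2 * Y * zz ^ S.card) ^ (-(3/2):ℝ) = (2 * Y) ^ (-(3/2):ℝ) * ((2:ℝ) ^ (2 * S.card))⁻¹ := by
    rw [Real.mul_rpow (by positivity) (by positivity)]
    congr 1
    have : zz ^ S.card = (2:ℝ) ^ ((4/3:ℝ) * (S.card : ℝ)) := by
      unfold Pool.Agent.H452R2.Om.zz
      rw [← Real.rpow_natCast, ← Real.rpow_mul (by norm_num)]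
    rw [this, ← Real.rpow_mul (by norm_num), ← Real.rpow_natCast, ← Real.rpow_neg (by norm_num)]
    congr 1
    push_cast; ring
  have hYp : 0 < (2 * Y) ^ (-(3/2):ℝ) := by positivity
  have hp : (0:ℝ) < (2:ℝ) ^ (2 * S.card) := by positivity
  rw [h4] at h3
  rw [h2]
  calc ((Real.pi * √2)^2)⁻¹ * (2 * Y) ^ (-(3/2):ℝ)
      = (2:ℝ) ^ (2 * S.card) * ((Real.pi * √2)^2)⁻¹ * ((2 * Y) ^ (-(3/2):ℝ) * ((2:ℝ) ^ (2 * S.card))⁻¹) := by field_simp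
    _ ≤ (2:ℝ) ^ (2 * S.card) * ((Real.pi * √2)^2)⁻¹ * (m:ℝ) ^ (-(3/2):ℝ) := by gcongr

/-- the variance of the high classes is not of the order of the inverse square root -/
theorem var_lowD : ∃ c : ℝ, 0 < c ∧ ∃ D₀ : ℕ, ∀ D : ℕ, D₀ ≤ D →
    c * (Real.log D) ^ (zz / 2 - 1) * (D:ℝ) ^ (-(1/2):ℝ) ≤ VD ad D := by
  classical
  have hpi := Real.pi_pos
  have hs2 : 0 < √(2:ℝ) := Real.sqrt_pos.mpr (by norm_num)
  have hz2 := zz_gt_two
  obtain ⟨c, Y0, hc, hY0, hfam⟩ := count_sets (fun p => p % 4 = 1) (β := zz / 2) (by linarith) Pool.Agent.H452R2.Om.mert_one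
  obtain ⟨β, hβ⟩ : ∃ β : ℝ, β = zz / 2 - 1 := ⟨_, rfl⟩
  have hβ0 : 0 < β := by rw [hβ]; linarith
  have e1 : ∀ᶠ D : ℕ in atTop, 2 / c ≤ (Real.log D) ^ β := by
    have h1 := (tendsto_rpow_atTop hβ0).comp (Real.tendsto_log_atTop.comp (tendsto_natCast_atTop_atTop (R := ℝ)))
    exact h1.eventually_ge_atTop _
  have e2 : ∀ᶠ D : ℕ in atTop, Y0 ≤ (D:ℝ) := tendsto_natCast_atTop_atTop.eventually_ge_atTop _
  obtain ⟨D₀, hD₀⟩ := eventually_atTop.mp (e1.and e2)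
  refine ⟨c / 2 * (((Real.pi * √2)^2)⁻¹ * 2 ^ (-(3/2):ℝ)), by positivity, D₀, fun D hD => ?_⟩
  obtain ⟨h1, h2⟩ := hD₀ D hD
  have hD0 : (0:ℝ) < D := by linarith
  obtain ⟨𝓢, hS, hcard⟩ := hfam D h2
  rw [← hβ] at hcard ⊢
  obtain ⟨P, hP⟩ : ∃ P : Finset ℕ → ℕ, P = fun S => ∏ p ∈ S, p := ⟨_, rfl⟩
  have hinj : Set.InjOn P (𝓢 : Set (Finset ℕ)) := by
    intro S hS1 S' hS2 h
    rw [hP] at h
    have g1 := Nat.primeFactors_prod (s := S) (fun p hp => ((hS S hS1).1 p hp).1)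
    have g2 := Nat.primeFactors_prod (s := S') (fun p hp => ((hS S' hS2).1 p hp).1)
    rw [← g1, ← g2]
    exact congrArg Nat.primeFactors h
  obtain ⟨𝓜, h𝓜⟩ : ∃ 𝓜 : Finset ℕ, 𝓜 = (𝓢.image P).filter (fun m => D ≤ m) := ⟨_, rfl⟩
  have hMcard : c / 2 * D * (Real.log D) ^ β ≤ (𝓜.card : ℝ) := by
    have g1 : 𝓢.card ≤ 𝓜.card + D := by
      rw [← Finset.card_image_of_injOn hinj]
      have g2 := Finset.card_filter_add_card_filter_not (s := 𝓢.image P) (fun m => D ≤ m)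
      have g3 : ((𝓢.image P).filter (fun m => ¬ D ≤ m)).card ≤ D := by
        calc _ ≤ (Finset.range D).card := Finset.card_le_card (fun m hm => by
              rw [Finset.mem_filter] at hm
              rw [Finset.mem_range]; omega)
          _ = D := Finset.card_range D
      rw [h𝓜]
      omega
    have g4 : (𝓢.card : ℝ) ≤ 𝓜.card + D := by exact_mod_cast g1
    have g5 : (D:ℝ) ≤ c / 2 * D * (Real.log D) ^ β := by
      rw [div_le_iff₀ hc] at h1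
      nlinarith
    linarith
  have hterm : ∀ m ∈ 𝓜, ((Real.pi * √2)^2)⁻¹ * (2 * (D:ℝ)) ^ (-(3/2):ℝ) ≤ (aIn (𝒜 D)ᶜ ad m)^2 := by
    intro m hm
    rw [h𝓜, Finset.mem_filter, Finset.mem_image] at hm
    obtain ⟨⟨S, hS1, rfl⟩, hmD⟩ := hm
    have hp : ∀ p ∈ S, p.Prime := fun p hp => ((hS S hS1).1 p hp).1
    have hsf : Squarefree (P S) := by
      rw [hP]
      apply Finset.squarefree_prod_of_pairwise_isCoprime
      · intro p hpS q hqS hpq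
        exact Nat.coprime_iff_isRelPrime.mp ((Nat.coprime_primes (hp p hpS) (hp q hqS)).mpr hpq)
      · intro p hpS
        exact (hp p hpS).prime.squarefree
    have hnot : P S ∉ 𝒜 D := by
      rintro ⟨s, hs, hsD, hcl⟩
      have := inC_unique hs hsf (Nat.one_le_iff_ne_zero.mpr hsf.ne_zero) hcl ⟨1, by ring⟩
      omega
    have : aIn (𝒜 D)ᶜ ad (P S) = ad (P S) := by
      unfold aIn
      rw [if_pos (by simpa using hnot)]
    rw [this, hP]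
    exact ad_sq_ge hp hD0 ((hS S hS1).2.1)
  have hsum := (aIn_sq_summable (𝒜 D)ᶜ datD.bk ad_zero).sum_le_tsum 𝓜 (fun _ _ => sq_nonneg _)
  have h3 : (𝓜.card : ℝ) * (((Real.pi * √2)^2)⁻¹ * (2 * (D:ℝ)) ^ (-(3/2):ℝ)) ≤ ∑ m ∈ 𝓜, (aIn (𝒜 D)ᶜ ad m)^2 := by
    rw [← nsmul_eq_mul]
    exact Finset.card_nsmul_le_sum _ _ _ hterm
  have h4 : c / 2 * (((Real.pi * √2)^2)⁻¹ * 2 ^ (-(3/2):ℝ)) * (Real.log D) ^ β * (D:ℝ) ^ (-(1/2):ℝ) =
      (c / 2 * D * (Real.log D) ^ β) * (((Real.pi * √2)^2)⁻¹ * (2 * (D:ℝ)) ^ (-(3/2):ℝ)) := by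
    rw [Real.mul_rpow (by norm_num) hD0.le]
    have : (D:ℝ) ^ (-(1/2):ℝ) = D * (D:ℝ) ^ (-(3/2):ℝ) := by
      conv_rhs => rw [← Real.rpow_one (D:ℝ), ← Real.rpow_mul hD0.le, one_mul, ← Real.rpow_add hD0]
      norm_num
    rw [this]; ring
  rw [h4]
  have h5 : (c / 2 * D * (Real.log D) ^ β) * (((Real.pi * √2)^2)⁻¹ * (2 * (D:ℝ)) ^ (-(3/2):ℝ)) ≤
      (𝓜.card : ℝ) * (((Real.pi * √2)^2)⁻¹ * (2 * (D:ℝ)) ^ (-(3/2):ℝ)) :=
    mul_le_mul_of_nonneg_right hMcard (by positivity)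
  unfold VD
  linarith

lemma ad_one : ad 1 ≠ 0 := by
  have h := ad_sq_ge (S := ∅) (by simp) (Y := 1) one_pos (by simp)
  rw [Finset.prod_empty] at h
  have hpi := Real.pi_pos
  intro h0
  rw [h0] at h
  have : 0 < ((Real.pi * √2)^2)⁻¹ * (2 * (1:ℝ)) ^ (-(3/2):ℝ) := by positivity
  linarith

lemma var_halfD : ∃ cV : ℝ, 0 < cV ∧ ∃ D₂ : ℕ, ∀ D : ℕ, D₂ ≤ D → cV * (D:ℝ) ^ (-(1/2):ℝ) ≤ VD ad D := by
  obtain ⟨c, hc, D₀, h⟩ := var_lowD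
  refine ⟨c, hc, max D₀ 3, fun D hD => ?_⟩
  have h1 := h D ((le_max_left _ _).trans hD)
  refine le_trans ?_ h1
  have hD3 : (3:ℝ) ≤ D := by exact_mod_cast (le_max_right _ _).trans hD
  have h2 : 1 ≤ Real.log D := by
    rw [Real.le_log_iff_exp_le (by linarith)]
    have := Real.exp_one_lt_d9
    linarith
  have h3 : 1 ≤ (Real.log D) ^ (zz / 2 - 1) := Real.one_le_rpow h2 (by have := zz_gt_two; linarith)
  have h4 : 0 ≤ (D:ℝ) ^ (-(1/2):ℝ) := by positivity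
  nlinarith [mul_nonneg hc.le h4]

lemma var_bigD (X : ℝ) : ∃ D₄ : ℕ, ∀ D : ℕ, D₄ ≤ D → 0 < VD ad D ∧ X ≤ √(VD ad D) * (D:ℝ) ^ (1/4:ℝ) := by
  obtain ⟨c, hc, D₀, h⟩ := var_lowD
  have hz := zz_gt_two
  obtain ⟨β, hβ⟩ : ∃ β : ℝ, β = zz / 2 - 1 := ⟨_, rfl⟩
  have hβ0 : 0 < β := by rw [hβ]; linarith
  have hlim : Tendsto (fun D : ℕ => c * (Real.log D) ^ β) atTop atTop :=
    ((tendsto_rpow_atTop hβ0).comp (Real.tendsto_log_atTop.comp tendsto_natCast_atTop_atTop)).const_mul_atTop hc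
  obtain ⟨D₁, hD₁⟩ := (hlim.eventually_ge_atTop (X^2 + 1)).exists_forall_of_atTop
  refine ⟨max D₀ (max D₁ 1), fun D hD => ?_⟩
  have h1 := h D ((le_max_left _ _).trans hD)
  have h2 := hD₁ D (((le_max_left _ _).trans (le_max_right _ _)).trans hD)
  have hD1 : (1:ℝ) ≤ D := by exact_mod_cast ((le_max_right _ _).trans (le_max_right _ _)).trans hD
  have hD0 : (0:ℝ) < D := by linarith
  rw [← hβ] at h1
  have h3 : (X^2 + 1) * (D:ℝ) ^ (-(1/2):ℝ) ≤ VD ad D := by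
    refine le_trans ?_ h1
    exact mul_le_mul_of_nonneg_right h2 (by positivity)
  have hV : 0 < VD ad D := lt_of_lt_of_le (by positivity) h3
  refine ⟨hV, ?_⟩
  have h4 : X^2 ≤ (√(VD ad D) * (D:ℝ) ^ (1/4:ℝ))^2 := by
    rw [mul_pow, Real.sq_sqrt hV.le, ← Real.rpow_natCast ((D:ℝ) ^ (1/4:ℝ)) 2, ← Real.rpow_mul hD0.le]
    norm_num
    have h5 : (D:ℝ) ^ (-(1/2):ℝ) * (D:ℝ) ^ (1/2:ℝ) = 1 := by
      rw [← Real.rpow_add hD0]; norm_num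
    calc X^2 ≤ (X^2 + 1) * ((D:ℝ) ^ (-(1/2):ℝ) * (D:ℝ) ^ (1/2:ℝ)) := by rw [h5]; linarith
      _ = (X^2 + 1) * (D:ℝ) ^ (-(1/2):ℝ) * (D:ℝ) ^ (1/2:ℝ) := by ring
      _ ≤ VD ad D * (D:ℝ) ^ (1/2:ℝ) := mul_le_mul_of_nonneg_right h3 (by positivity)
  exact (le_abs_self X).trans (abs_le_of_sq_le_sq h4 (by positivity))

end Pool.Agent.N687.W.Gn
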