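import Mathlib
import Pool.Agent.N687.W.A6
import Pool.Agent.N687.W.G2

/-!
# The divisor problem: convex domination in every window
-/

set_option autoImplicit false

open MeasureTheory Filter Topology

namespace Pool.Agent.N687.W.Gn

open Pool.Agent.N687.W
open Pool.Agent.H387R2.Vor (Ed Del Dsum)
open Pool.Agent.H383.Div (E2 ad ad_zero wd wd_Wt vor ad_LB ad_nonneg)
open Pool.Agent.R461.GC (divisor_law)

variable {E : ℝ → ℝ} {a : ℕ → ℝ} {φ κ₁ κ₂ : ℝ} {w : ℝ → ℂ}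

/-- the law over long windows -/
def LongLaw (E : ℝ → ℝ) (ν : ProbabilityMeasure ℝ) : Prop :=
  ∀ f : ℝ → ℝ, Continuous f → (∃ C : ℝ, ∀ x, |f x| ≤ C * (1 + x ^ 2)) → ∀ η : ℝ, 0 < η →
    ∃ T₀ : ℝ, ∀ T, T₀ ≤ T → |(∫ r in T..(T+T), f (E r)) / T - ∫ x, f x ∂(ν : Measure ℝ)| ≤ η

/-- convex domination in every window -/
theorem Dat.dom (h : Dat E a φ w κ₁ κ₂) {ν : ProbabilityMeasure ℝ} (h5 : Integrable (fun x : ℝ => x ^ 2) (ν : Measure ℝ))
    (hlaw : LongLaw E ν)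
    {Φ : ℝ → ℝ} (hΦ : ConvexOn ℝ Set.univ Φ) {A : ℝ} (hA : Integrable Φ (ν : Measure ℝ) → A < ∫ x, Φ x ∂(ν : Measure ℝ)) :
    ∃ H₀ : ℝ, 0 < H₀ ∧ ∀ R H : ℝ, 1 ≤ R → H₀ ≤ H → A * H ≤ ∫ r in R..(R+H), Φ (E r) := by
  have hint : Integrable (fun x : ℝ => x) (ν : Measure ℝ) := by
    have h1 : Integrable (fun x : ℝ => 1 + x^2) (ν : Measure ℝ) := (integrable_const _).add h5
    apply h1.mono' measurable_id.aestronglyMeasurable
    apply Eventually.of_forall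
    intro x
    rw [Real.norm_eq_abs]
    have := sq_nonneg (|x| - 1)
    simp only [id]
    rw [← sq_abs x]; nlinarith [abs_nonneg x]
  obtain ⟨α, β, n, k1, k2⟩ := exists_mx_int hΦ hint hA
  obtain ⟨C0, hC0, hS⟩ := h.sand.sand
  obtain ⟨ε, hε⟩ : ∃ ε, ε = ∫ x, mx α β n x ∂(ν : Measure ℝ) - A := ⟨_, rfl⟩
  have hε0 : 0 < ε := by rw [hε]; linarith
  obtain ⟨H₀, hH₀, k3⟩ := dom_PL (s := Finset.range (n+1)) (α := α) (β := β) (Φ := mx α β n) h.bdw.Bd h.a0 h.wt hC0 hS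
    h.meas h.bdd (fun i hi y => mx_ge α β hi y) (mx_eq α β n) (L₀ := ∫ x, mx α β n x ∂(ν : Measure ℝ)) (by
      intro η hη
      obtain ⟨T₀, hT₀⟩ := hlaw (mx α β n) (mx_cont α β n) (mx_growth α β n) η hη
      refine ⟨max T₀ 1, fun T hT => ?_⟩
      have hT1 : 1 ≤ T := (le_max_right _ _).trans hT
      have h1 := (abs_le.mp (hT₀ T ((le_max_left _ _).trans hT))).1
      have h2 : (∫ x, mx α β n x ∂(ν : Measure ℝ)) - η ≤ (∫ r in T..(T+T), mx α β n (E r)) / T := by linarith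
      rwa [le_div_iff₀ (by linarith)] at h2) (fun η hη => by
        obtain ⟨M, hM⟩ := h.ms η hη
        exact ⟨M, hM M le_rfl⟩) hε0
  refine ⟨H₀, hH₀, fun R H hR hH => ?_⟩
  have k4 := k3 R H hR hH
  have e1 : (∫ x, mx α β n x ∂(ν : Measure ℝ)) - ε = A := by rw [hε]; ring
  rw [e1] at k4
  refine k4.trans ?_
  apply intervalIntegral.integral_mono_on (by linarith) (gE_ii h.meas h.bdd (mx_cont α β n) (by linarith) (by linarith))
    (gE_ii h.meas h.bdd (conv_cont hΦ) (by linarith) (by linarith))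
  intro r _
  exact k1 (E r)

/-- the bound cannot be improved -/
theorem Dat.sharp (h : Dat E a φ w κ₁ κ₂) {ν : ProbabilityMeasure ℝ} (hlaw : LongLaw E ν)
    {Φ : ℝ → ℝ} (hΦ : Continuous Φ) (hC : ∃ C : ℝ, ∀ x, |Φ x| ≤ C * (1 + x ^ 2)) {ε H R₀ : ℝ} (hε : 0 < ε) (hH : 0 < H) :
    ∃ R : ℝ, R₀ ≤ R ∧ 1 ≤ R ∧ ∫ r in R..(R+H), Φ (E r) ≤ ((∫ x, Φ x ∂(ν : Measure ℝ)) + ε) * H := by
  by_contra hcon
  push Not at hcon
  obtain ⟨T₀, hT₀⟩ := hlaw Φ hΦ hC (ε/2) (by positivity)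
  obtain ⟨n, hn⟩ := exists_nat_ge ((max T₀ (max R₀ 1)) / H)
  rw [div_le_iff₀ hH] at hn
  have hT1 : 1 ≤ n * H := ((le_max_right _ _).trans (le_max_right _ _)).trans hn
  have hTR : R₀ ≤ n * H := ((le_max_left _ _).trans (le_max_right _ _)).trans hn
  have h1 := (abs_le.mp (hT₀ (n * H) ((le_max_left _ _).trans hn))).2
  have hT0 : 0 < n * H := by linarith
  have hn0 : (0:ℝ) < n := by
    by_contra h
    push Not at h
    nlinarith
  have h2 := intervalIntegral.sum_integral_adjacent_intervals (f := fun r => Φ (E r)) (μ := volume)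
    (a := fun j : ℕ => n * H + j * H) (n := n) (fun j _ => gE_ii h.meas h.bdd hΦ (by positivity) (by positivity))
  simp only [Nat.cast_zero, zero_mul, add_zero] at h2
  have h3 : ∑ j ∈ Finset.range n, ((∫ x, Φ x ∂(ν : Measure ℝ)) + ε) * H ≤
      ∑ j ∈ Finset.range n, ∫ r in (n * H + (j:ℝ) * H)..(n * H + ((j + 1 : ℕ):ℝ) * H), Φ (E r) := by
    apply Finset.sum_le_sum
    intro j _
    have h0 : (0:ℝ) ≤ j * H := by positivity
    have h4 := hcon (n * H + j * H) (by linarith) (by linarith)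
    have e : n * H + (j:ℝ) * H + H = n * H + ((j + 1 : ℕ):ℝ) * H := by push_cast; ring
    rw [e] at h4
    exact h4.le
  rw [h2, Finset.sum_const, Finset.card_range, nsmul_eq_mul] at h3
  have h5 : (∫ r in (n * H)..(n * H + n * H), Φ (E r)) / (n * H) ≤ (∫ x, Φ x ∂(ν : Measure ℝ)) + ε / 2 := by linarith
  rw [div_le_iff₀ hT0] at h5
  nlinarith

lemma E2_int (f : ℝ → ℝ) (Y H : ℝ) : ∫ r in (2*Y)..(2*Y+2*H), f (E2 r) = 2 * ∫ y in Y..(Y+H), f (Ed y) := by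
  have h1 : ∀ r, E2 r = Ed (r / 2) := fun r => rfl
  simp only [h1]
  rw [intervalIntegral.integral_comp_div (fun y => f (Ed y)) (by norm_num : (2:ℝ) ≠ 0), smul_eq_mul]
  congr 2 <;> ring

/-- the limit law over long windows -/
theorem Ed_law : ∃ (ν : ProbabilityMeasure ℝ),
    (∀ u v : ℝ, u < v → 0 < (ν : Measure ℝ) (Set.Ioo u v)) ∧
    Integrable (fun x : ℝ => x ^ 2) (ν : Measure ℝ) ∧
    ∫ x, x ∂(ν : Measure ℝ) = 0 ∧
    HasSum (fun m : ℕ => (m.divisors.card : ℝ) ^ 2 / (4 * Real.pi ^ 2) * (m : ℝ) ^ (-(3 / 2) : ℝ)) (∫ x, x ^ 2 ∂(ν : Measure ℝ)) ∧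
    LongLaw Ed ν ∧ LongLaw E2 ν := by
  obtain ⟨ν, G, h1, h2, h3, h4, h5, h6, h7, h8⟩ := divisor_law
  have hE : LongLaw Ed ν := by
    intro f hf hC η hη
    obtain ⟨T₀, hT₀⟩ := h8 1 2 2 (2/5) one_pos (by norm_num) f hf hC η hη
    refine ⟨max T₀ 1, fun T hT => ?_⟩
    have hT1 : 1 ≤ T := (le_max_right _ _).trans hT
    have had := unif_adm hT1
    have hdec : ∀ t : ℝ, T ^ (1 / 20 : ℝ) ≤ |t| → ‖∫ x, Complex.exp (((t * x : ℝ) : ℂ) * Complex.I)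
        ∂(volume.restrict (Set.Ioc (1:ℝ) 2))‖ ≤ 2 * |t| ^ (-(2/5) : ℝ) := by
      intro t ht
      have ht1 : 1 ≤ |t| := le_trans (Real.one_le_rpow hT1 (by norm_num)) ht
      have ht0 : t ≠ 0 := fun h => by rw [h, abs_zero] at ht1; linarith
      have h1 := norm_int_ch ht0 1 2
      rw [intervalIntegral.integral_of_le (by norm_num)] at h1
      have h2 : ‖∫ x, Complex.exp (((t * x : ℝ) : ℂ) * Complex.I) ∂(volume.restrict (Set.Ioc (1:ℝ) 2))‖ ≤ 2 / |t| := h1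
      refine h2.trans ?_
      rw [div_eq_mul_inv, ← Real.rpow_neg_one]
      apply mul_le_mul_of_nonneg_left _ (by norm_num)
      exact Real.rpow_le_rpow_of_exponent_le ht1 (by norm_num)
    have h9 := hT₀ T ((le_max_left _ _).trans hT) (volume.restrict (Set.Ioc (1:ℝ) 2)) had.prob had.supp hdec
    rwa [unif_int hT1 (fun r => f (Ed r))] at h9
  refine ⟨ν, h4, h5, h6, h7, hE, fun f hf hC η hη => ?_⟩
  obtain ⟨T₀, hT₀⟩ := hE f hf hC η hη
  refine ⟨2 * T₀, fun T hT => ?_⟩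
  have h9 := hT₀ (T/2) (by linarith)
  have h10 := E2_int f (T/2) (T/2)
  rw [show 2 * (T/2) = T by ring] at h10
  rw [h10]
  rwa [show (2 * ∫ y in (T/2)..(T/2+T/2), f (Ed y)) / T = (∫ y in (T/2)..(T/2+T/2), f (Ed y)) / (T/2) by
    rcases eq_or_ne T 0 with h | h
    · rw [h]; simp
    · field_simp]

end Pool.Agent.N687.W.Gn
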