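import Mathlib
import Pool.Agent.N687.W.C11

/-!
# Superlinearly many downward crossings of every level in every window
-/

set_option autoImplicit false

open MeasureTheory Filter Topology
open Pool.Agent.H383.AP Pool.Agent.H383.Gauss Pool.Agent.H383.Gen

namespace Pool.Agent.N687.W

/-- the count is constant to the right of every point -/
lemma F_right {z : ℝ} (hz : 0 < z) : ∃ δ : ℝ, 0 < δ ∧ ∀ r, z < r → r < z + δ → F r = F z := by
  have h1 : z^2 < (⌊z^2⌋ : ℝ) + 1 := Int.lt_floor_add_one _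
  have h0 : (⌊z^2⌋ : ℝ) ≤ z^2 := Int.floor_le _
  have h2 : z < √((⌊z^2⌋ : ℝ) + 1) := Real.lt_sqrt_of_sq_lt h1
  refine ⟨√((⌊z^2⌋ : ℝ) + 1) - z, by linarith, fun r hr1 hr2 => ?_⟩
  have h3 : r^2 < (⌊z^2⌋ : ℝ) + 1 := by
    have h4 : r < √((⌊z^2⌋ : ℝ) + 1) := by linarith
    have h5 : 0 ≤ (⌊z^2⌋ : ℝ) + 1 := by have := sq_nonneg z; linarith
    calc r^2 < (√((⌊z^2⌋ : ℝ) + 1))^2 := by
          apply pow_lt_pow_left₀ h4 (by linarith) (by norm_num)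
      _ = (⌊z^2⌋ : ℝ) + 1 := Real.sq_sqrt h5
  unfold F
  congr 1
  apply Nat.card_congr
  apply Equiv.subtypeEquivRight
  intro p
  constructor
  · intro h
    have h4 : ((p.1^2 + p.2^2 : ℤ) : ℝ) < (⌊z^2⌋ : ℝ) + 1 := by push_cast; linarith
    have h5 : p.1^2 + p.2^2 < ⌊z^2⌋ + 1 := by exact_mod_cast h4
    have h6 : ((p.1^2 + p.2^2 : ℤ) : ℝ) ≤ (⌊z^2⌋ : ℝ) := by exact_mod_cast Int.lt_add_one_iff.mp h5
    push_cast at h6
    linarith
  · intro h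
    have : z^2 ≤ r^2 := pow_le_pow_left₀ hz.le hr1.le 2
    linarith

lemma qc_mono {A c z x : ℝ} (hc : |c| ≤ A) (hz1 : 1 ≤ z) (hzA : A ≤ z) (hx : z < x) : qc c z < qc c x := by
  unfold qc
  have hpi := Real.pi_gt_three
  have h1 : √z * √z = z := Real.mul_self_sqrt (by linarith)
  have h2 : √x * √x = x := Real.mul_self_sqrt (by linarith)
  have h3 : 1 ≤ √z := Real.one_le_sqrt.mpr hz1
  have h4 : √z < √x := Real.sqrt_lt_sqrt (by linarith) hx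
  have h5 : √x - √z ≤ x - z := by nlinarith
  have h6 : |c * (√x - √z)| ≤ A * (x - z) := by
    rw [abs_mul, abs_of_pos (by linarith : 0 < √x - √z)]
    have hA : 0 ≤ A := (abs_nonneg c).trans hc
    gcongr
  have h7 := (abs_le.mp h6).1
  have h8 : A * (x - z) < 3 * ((x - z) * (x + z)) := by nlinarith
  have h9 : 3 * ((x - z) * (x + z)) ≤ Real.pi * ((x - z) * (x + z)) := by
    apply mul_le_mul_of_nonneg_right hpi.le
    apply mul_nonneg <;> linarith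
  nlinarith

/-- **many downward crossings** -/
theorem many (A K : ℝ) : ∃ H₀ : ℝ, ∀ c : ℝ, |c| ≤ A → ∀ R H : ℝ, 0 ≤ R → H₀ ≤ H → ∃ S : Finset ℝ,
    (∀ z ∈ S, R ≤ z ∧ z ≤ R + H ∧ F z = qc c z ∧ ∃ δ : ℝ, 0 < δ ∧ (∀ x, z - δ < x → x < z → qc c x < F x) ∧
      ∀ x, z < x → x < z + δ → F x < qc c x) ∧ K * H ≤ S.card := by
  classical
  obtain ⟨K₁, hK₁⟩ : ∃ K₁ : ℝ, K₁ = max (4 * K) 1 := ⟨_, rfl⟩
  have hK1 : 1 ≤ K₁ := by rw [hK₁]; exact le_max_right _ _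
  have hK2 : 4 * K ≤ K₁ := by rw [hK₁]; exact le_max_left _ _
  obtain ⟨H₁, hH₁, hcore⟩ := core A K₁ hK1
  refine ⟨2 * H₁ + 2 * |A| + 10, fun c hc R H hR hH => ?_⟩
  have hA := abs_nonneg A
  have hA' := le_abs_self A
  obtain ⟨T, hT⟩ : ∃ T : Set ℝ, T = {z | R + H/2 ≤ z ∧ z ≤ R + H/2 + (H/2 - 1) + 1 ∧ Dn F (qc c) z} := ⟨_, rfl⟩
  have hS : ∃ S : Finset ℝ, (∀ z ∈ S, z ∈ T) ∧ K₁ * (H/2 - 1) ≤ S.card := by
    by_cases hfin : T.Finite
    · refine ⟨hfin.toFinset, fun z hz => by simpa using hz, ?_⟩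
      apply (hcore c hc (R + H/2) (H/2 - 1) (by linarith) (by linarith) (by linarith) hfin.toFinset ?_).le
      intro z h1 h2 h3
      rw [Set.Finite.mem_toFinset, hT]
      exact ⟨h1, h2, h3⟩
    · obtain ⟨S, hS1, hS2⟩ := Set.Infinite.exists_subset_card_eq hfin ⌈K₁ * (H/2 - 1)⌉₊
      refine ⟨S, fun z hz => hS1 (by simpa using hz), ?_⟩
      rw [hS2]
      exact Nat.le_ceil _
  obtain ⟨S, hS1, hS2⟩ := hS
  refine ⟨S, fun z hz => ?_, ?_⟩
  · have h1 := hS1 z hz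
    rw [hT] at h1
    obtain ⟨h1, h2, h3, δ₁, hδ₁, h4⟩ := h1
    obtain ⟨δ₂, hδ₂, h5⟩ := F_right (z := z) (by linarith)
    refine ⟨by linarith, by linarith, h3, min δ₁ δ₂, lt_min hδ₁ hδ₂, ?_, ?_⟩
    · intro x hx1 hx2
      exact h4 x (by have := min_le_left δ₁ δ₂; linarith) hx2
    · intro x hx1 hx2
      rw [h5 x hx1 (by have := min_le_right δ₁ δ₂; linarith), h3]
      exact qc_mono hc (by linarith) (by linarith) hx1
  · have h1 : K * H ≤ K₁ / 4 * H := mul_le_mul_of_nonneg_right (by linarith) (by linarith)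
    have h2 : K₁ / 4 * H ≤ K₁ * (H/2 - 1) := by nlinarith
    linarith

end Pool.Agent.N687.W
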