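import Mathlib
import Pool.Agent.N687.W.C12
import Pool.Agent.N687.W.G2

/-!
# The divisor problem: superlinearly many downward crossings of every level in every window
-/

set_option autoImplicit false

open MeasureTheory Filter Topology
open Pool.Agent.H383.Gauss Pool.Agent.H383.Gen

namespace Pool.Agent.N687.W.Gn

open Pool.Agent.N687.W
open Pool.Agent.H387R2.Vor (Ed Del Dsum)
open Pool.Agent.H383.Div (E2 ad ad_zero wd wd_Wt vor ad_LB ad_nonneg)

/-- the divisor sum at `(r/2)²` -/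
noncomputable def FD (r : ℝ) : ℝ := Dsum ((r/2)^2)

/-- the level -/
noncomputable def qD (c r : ℝ) : ℝ := (r/2)^2 * Real.log ((r/2)^2) + (2 * Real.eulerMascheroniConstant - 1) * (r/2)^2 + c * √(r/2)

lemma Dsum_mono : Monotone Dsum := by
  intro x y hxy
  unfold Pool.Agent.H387R2.Vor.Dsum
  apply Finset.sum_le_sum_of_subset_of_nonneg
  · exact Finset.Icc_subset_Icc le_rfl (Nat.floor_le_floor hxy)
  · intro n _ _
    unfold Pool.Agent.H387R2.Vor.dv
    exact Nat.cast_nonneg _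

lemma FD_meas : Measurable FD := by
  unfold FD
  exact Dsum_mono.measurable.comp (by fun_prop)

lemma FD_mono : ∀ s t : ℝ, 4 ≤ s → s ≤ t → FD s ≤ FD t := by
  intro s t hs hst
  apply Dsum_mono
  exact pow_le_pow_left₀ (by linarith) (by linarith) 2

lemma qD_cont (c : ℝ) : Continuous (qD c) := by
  unfold qD
  have h : Continuous fun r : ℝ => (r/2)^2 * Real.log ((r/2)^2) := Real.continuous_mul_log.comp (by fun_prop)
  exact (h.add (by fun_prop)).add (by fun_prop)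

lemma E2_eq (c r : ℝ) (hr : 4 ≤ r) : E2 r - c = (FD r - qD c r) / √(r/2) := by
  have h : 0 < √(r/2) := Real.sqrt_pos.mpr (by linarith)
  unfold Pool.Agent.H383.Div.E2 Pool.Agent.H387R2.Vor.Ed Pool.Agent.H387R2.Vor.Del FD qD
  field_simp
  ring

lemma FD_right {z : ℝ} (hz : 0 < z) : ∃ δ : ℝ, 0 < δ ∧ ∀ r, z < r → r < z + δ → FD r = FD z := by
  have h1 : (z/2)^2 < (⌊(z/2)^2⌋₊ : ℝ) + 1 := Nat.lt_floor_add_one _
  have h2 : z/2 < √((⌊(z/2)^2⌋₊ : ℝ) + 1) := Real.lt_sqrt_of_sq_lt h1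
  refine ⟨2 * (√((⌊(z/2)^2⌋₊ : ℝ) + 1) - z/2), by linarith, fun r hr1 hr2 => ?_⟩
  have h3 : (r/2)^2 < (⌊(z/2)^2⌋₊ : ℝ) + 1 := by
    have h4 : r/2 < √((⌊(z/2)^2⌋₊ : ℝ) + 1) := by linarith
    calc (r/2)^2 < (√((⌊(z/2)^2⌋₊ : ℝ) + 1))^2 := by
          apply pow_lt_pow_left₀ h4 (by linarith) (by norm_num)
      _ = (⌊(z/2)^2⌋₊ : ℝ) + 1 := Real.sq_sqrt (by positivity)
  have h4 : ⌊(r/2)^2⌋₊ = ⌊(z/2)^2⌋₊ := by
    apply le_antisymm
    · apply Nat.le_of_lt_succ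
      rw [Nat.floor_lt (by positivity)]
      push_cast
      exact h3
    · exact Nat.floor_le_floor (pow_le_pow_left₀ (by linarith) (by linarith) 2)
  unfold FD Pool.Agent.H387R2.Vor.Dsum
  rw [h4]

lemma qD_mono {A c z x : ℝ} (hc : |c| ≤ A) (hz1 : 6 ≤ z) (hzA : 2 * A ≤ z) (hx : z < x) : qD c z < qD c x := by
  obtain ⟨s, hs⟩ : ∃ s, s = z/2 := ⟨_, rfl⟩
  obtain ⟨t, ht⟩ : ∃ t, t = x/2 := ⟨_, rfl⟩
  unfold qD
  rw [← hs, ← ht]
  have hs3 : 3 ≤ s := by rw [hs]; linarith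
  have hs0 : 0 < s := by linarith
  have hst : s < t := by rw [hs, ht]; linarith
  have ht0 : 0 < t := by linarith
  have hsA : A ≤ s := by rw [hs]; linarith
  have h1 : √s * √s = s := Real.mul_self_sqrt (by linarith)
  have h2 : √t * √t = t := Real.mul_self_sqrt (by linarith)
  have h3 : 1 ≤ √s := Real.one_le_sqrt.mpr (by linarith)
  have h4 : √s < √t := Real.sqrt_lt_sqrt (by linarith) hst
  have h5 : √t - √s ≤ t - s := by nlinarith
  have h6 : |c * (√t - √s)| ≤ A * (t - s) := by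
    rw [abs_mul, abs_of_pos (by linarith : 0 < √t - √s)]
    have hA : 0 ≤ A := (abs_nonneg c).trans hc
    gcongr
  have h7 := (abs_le.mp h6).1
  have hst2 : s^2 < t^2 := pow_lt_pow_left₀ hst (by linarith) (by norm_num)
  have h8 : Real.log (s^2) ≤ Real.log (t^2) := Real.log_le_log (by positivity) hst2.le
  have h9 : 1 ≤ Real.log (t^2) := by
    rw [Real.le_log_iff_exp_le (by positivity)]
    have := Real.exp_one_lt_d9
    nlinarith
  have h10 := Real.one_half_lt_eulerMascheroniConstant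
  have h11 : s^2 * Real.log (s^2) ≤ s^2 * Real.log (t^2) := mul_le_mul_of_nonneg_left h8 (sq_nonneg s)
  have h12 : t^2 - s^2 ≤ (t^2 - s^2) * Real.log (t^2) := by nlinarith
  have h13 : (2 * Real.eulerMascheroniConstant - 1) * s^2 ≤ (2 * Real.eulerMascheroniConstant - 1) * t^2 :=
    mul_le_mul_of_nonneg_left hst2.le (by linarith)
  have h14 : A * (t - s) < t^2 - s^2 := by nlinarith
  nlinarith

/-- **many downward crossings**, as a function of `r = 2√x` -/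
theorem manyD (A K : ℝ) : ∃ H₀ : ℝ, ∀ c : ℝ, |c| ≤ A → ∀ R H : ℝ, 0 ≤ R → H₀ ≤ H → ∃ S : Finset ℝ,
    (∀ z ∈ S, 0 < z ∧ R ≤ z ∧ z ≤ R + H ∧ FD z = qD c z ∧ ∃ δ : ℝ, 0 < δ ∧ (∀ x, z - δ < x → x < z → qD c x < FD x) ∧
      ∀ x, z < x → x < z + δ → FD x < qD c x) ∧ K * H ≤ S.card := by
  classical
  obtain ⟨K₁, hK₁⟩ : ∃ K₁ : ℝ, K₁ = max (4 * K) 1 := ⟨_, rfl⟩
  have hK1 : 1 ≤ K₁ := by rw [hK₁]; exact le_max_right _ _
  have hK2 : 4 * K ≤ K₁ := by rw [hK₁]; exact le_max_left _ _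
  obtain ⟨H₁, hH₁, hcore⟩ := datD.core ad_LB ad_one var_halfD var_bigD FD_meas FD_mono qD_cont
    (g := fun r => √(r/2)) (fun r hr => Real.sqrt_pos.mpr (by linarith)) E2_eq A K₁ hK1
  refine ⟨2 * H₁ + 4 * |A| + 20, fun c hc R H hR hH => ?_⟩
  have hA := abs_nonneg A
  have hA' := le_abs_self A
  obtain ⟨T, hT⟩ : ∃ T : Set ℝ, T = {z | R + H/2 ≤ z ∧ z ≤ R + H/2 + (H/2 - 1) + 1 ∧ Dn FD (qD c) z} := ⟨_, rfl⟩
  have hS : ∃ S : Finset ℝ, (∀ z ∈ S, z ∈ T) ∧ K₁ * (H/2 - 1) ≤ S.card := by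
    by_cases hfin : T.Finite
    · refine ⟨hfin.toFinset, fun z hz => by simpa using hz, ?_⟩
      apply (hcore c hc (R + H/2) (H/2 - 1) (by linarith) (by linarith) (by linarith) hfin.toFinset ?_).le
      intro z h1 h2 h3
      rw [Set.Finite.mem_toFinset, hT]
      exact ⟨h1, h2, h3⟩
    · obtain ⟨S, hS1, hS2⟩ := Set.Infinite.exists_subset_card_eq hfin ⌈K₁ * (H/2 - 1)⌉₊
      refine ⟨S, fun z hz => hS1 (by simpa using hz), ?_⟩
      rw [hS2]
      exact Nat.le_ceil _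
  obtain ⟨S, hS1, hS2⟩ := hS
  refine ⟨S, fun z hz => ?_, ?_⟩
  · have h1 := hS1 z hz
    rw [hT] at h1
    obtain ⟨h1, h2, h3, δ₁, hδ₁, h4⟩ := h1
    obtain ⟨δ₂, hδ₂, h5⟩ := FD_right (z := z) (by linarith)
    refine ⟨by linarith, by linarith, by linarith, h3, min δ₁ δ₂, lt_min hδ₁ hδ₂, ?_, ?_⟩
    · intro x hx1 hx2
      exact h4 x (by have := min_le_left δ₁ δ₂; linarith) hx2
    · intro x hx1 hx2
      rw [h5 x hx1 (by have := min_le_right δ₁ δ₂; linarith), h3]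
      exact qD_mono hc (by linarith) (by linarith) hx1
  · have h1 : K * H ≤ K₁ / 4 * H := mul_le_mul_of_nonneg_right (by linarith) (by linarith)
    have h2 : K₁ / 4 * H ≤ K₁ * (H/2 - 1) := by nlinarith
    linarith

end Pool.Agent.N687.W.Gn
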